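import Pool.Agent.U954.GE.Fn1

/-!
# Pairs of walks below their common start, on a lattice
-/

set_option autoImplicit false
set_option linter.unusedVariables false

namespace Pool.Agent.U954.GE.Pg

open Finset Pool.Agent.N929.EG Pool.Agent.N169.EG
open scoped Classical

theorem prb_ncard {Ver : Type} {X : Geo Ver} {A : Ver → Ver → Prop} (Z : Rul X A)
    {H : Set Ver} {S : ∀ n : ℕ, Set (Fin (n + 1) → Ver)} (hS : Cla X A H S) (n : ℕ)
    (E : (Fin (n + 1) → Ver) → Prop) :
    Prb S n E = (({ω | ω ∈ S n ∧ E ω}.ncard : ℕ) : ℝ) / ((S n).ncard : ℝ) := by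
  have h1 : {ω | ω ∈ S n ∧ E ω} =
      ↑(((HW X A H n).filter (fun w => E (fnw X n w))).image (fnw X n)) := by
    ext ω
    rw [mem_coe, mem_image, Set.mem_ofPred_eq]
    constructor
    · rintro ⟨h1, h2⟩
      rw [cla_eq Z hS n, mem_coe, mem_image] at h1
      obtain ⟨w, hw, rfl⟩ := h1
      exact ⟨w, mem_filter.mpr ⟨hw, h2⟩, rfl⟩
    · rintro ⟨w, hw, rfl⟩
      obtain ⟨hw1, hw2⟩ := mem_filter.mp hw
      refine ⟨?_, hw2⟩
      rw [cla_eq Z hS n, mem_coe, mem_image]
      exact ⟨w, hw1, rfl⟩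
  have h2 : Set.InjOn (fnw X n) (((HW X A H n).filter (fun w => E (fnw X n w)) :
      Finset (List Ver)) : Set (List Ver)) := by
    intro w hw w' hw' h
    exact inj_on (H := H) Z n (mem_coe.mpr (mem_filter.mp hw).1)
      (mem_coe.mpr (mem_filter.mp hw').1) h
  unfold Prb
  rw [mean_eq Z hS, h1, Set.ncard_coe_finset, Finset.card_image_of_injOn h2, cla_eq Z hS n,
    Set.ncard_coe_finset, Finset.card_image_of_injOn (inj_on Z n), Finset.sum_boole]

theorem cla_ncard {Ver : Type} {X : Geo Ver} {A : Ver → Ver → Prop} (Z : Rul X A)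
    {H : Set Ver} {S : ∀ n : ℕ, Set (Fin (n + 1) → Ver)} (hS : Cla X A H S) (n : ℕ) :
    (S n).ncard = (HW X A H n).card := by
  rw [cla_eq Z hS n, Set.ncard_coe_finset, Finset.card_image_of_injOn (inj_on Z n)]

variable {V : Type} [AddCommGroup V]

/-- a symmetric relation which is invariant under the translations -/
structure Inv (A : V → V → Prop) : Prop where
  symm : ∀ {x y : V}, A x y → A y x
  sub : ∀ (v : V) {x y : V}, A x y → A (x - v) (y - v)

variable {A : V → V → Prop}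

/-- self-avoiding walks -/
def SAWg (A : V → V → Prop) (n : ℕ) (ω : Fin (n + 1) → V) : Prop :=
  ω 0 = 0 ∧ (∀ i : Fin n, A (ω i.castSucc) (ω i.succ)) ∧ Function.Injective ω

/-- the position at a time -/
def at3 {n : ℕ} (ω : Fin (n + 1) → V) (i : ℕ) : V := ω (Fin.ofNat (n + 1) i)

/-- the function of a sequence -/
def mk3 (n : ℕ) (f : ℕ → V) : Fin (n + 1) → V := fun i => f i

theorem at_fin {n : ℕ} (ω : Fin (n + 1) → V) (i : Fin (n + 1)) : at3 ω i = ω i := by
  unfold at3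
  congr 1
  ext
  simp [Nat.mod_eq_of_lt i.isLt]

theorem at_mk {n : ℕ} (f : ℕ → V) {i : ℕ} (h : i ≤ n) : at3 (mk3 n f) i = f i := by
  have := at_fin (mk3 n f) ⟨i, by omega⟩
  exact this

theorem mk_at {n : ℕ} (ω : Fin (n + 1) → V) : mk3 n (at3 ω) = ω := by
  funext i
  exact at_fin ω i

/-- the condition for sequences -/
def Sq (A : V → V → Prop) (n : ℕ) (f : ℕ → V) : Prop :=
  f 0 = 0 ∧ (∀ i, i < n → A (f i) (f (i + 1))) ∧
    ∀ i j, i ≤ n → j ≤ n → f i = f j → i = j

theorem saw_mk {n : ℕ} {f : ℕ → V} (h : Sq A n f) : SAWg A n (mk3 n f) := by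
  obtain ⟨h1, h2, h3⟩ := h
  refine ⟨h1, fun i => h2 i i.isLt, fun i j hij => ?_⟩
  exact Fin.ext (h3 i j (by have := i.isLt; omega) (by have := j.isLt; omega) hij)

theorem saw_sq {n : ℕ} {ω : Fin (n + 1) → V} (h : SAWg A n ω) : Sq A n (at3 ω) := by
  obtain ⟨h1, h2, h3⟩ := h
  refine ⟨?_, ?_, ?_⟩
  · have := at_fin ω 0
    rw [← h1]
    exact this
  · intro i hi
    have e1 := at_fin ω (Fin.castSucc ⟨i, hi⟩)
    have e2 := at_fin ω (Fin.succ ⟨i, hi⟩)
    simp only [Fin.val_castSucc, Fin.val_succ] at e1 e2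
    rw [e1, e2]
    exact h2 ⟨i, hi⟩
  · intro i j hi hj hij
    have e1 := at_fin ω ⟨i, by omega⟩
    have e2 := at_fin ω ⟨j, by omega⟩
    simp only at e1 e2
    rw [e1, e2] at hij
    have := h3 hij
    exact congrArg Fin.val this

variable {G : Type} [AddCommGroup G] [LinearOrder G] [IsOrderedAddMonoid G]

/-- the pairs of walks below `0` which do not intersect -/
def PS (A : V → V → Prop) (φ : V →+ G) (m u : ℕ) :
    Set ((Fin (m + 1) → V) × (Fin (u + 1) → V)) :=
  {p | SAWg A m p.1 ∧ SAWg A u p.2 ∧ (∀ i, i ≠ 0 → φ (p.1 i) < 0) ∧ (∀ j, j ≠ 0 → φ (p.2 j) < 0) ∧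
    ∀ i j, p.1 i = p.2 j → i = 0 ∧ j = 0}

/-- the walks which are highest at time `m` -/
def TS3 (A : V → V → Prop) (φ : V →+ G) (m n : ℕ) : Set (Fin (n + 1) → V) :=
  {ω | SAWg A n ω ∧ IsTop φ ω m}

/-- a walk is cut at its highest site -/
def cut (m u : ℕ) (ω : Fin (m + u + 1) → V) :
    (Fin (m + 1) → V) × (Fin (u + 1) → V) :=
  (mk3 m (fun i => at3 ω (m - i) - at3 ω m), mk3 u (fun j => at3 ω (m + j) - at3 ω m))

theorem top_lt {φ : V →+ G} (hφ : Function.Injective φ) {m n : ℕ}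
    {ω : Fin (n + 1) → V} (h : ω ∈ TS3 A φ m n) {t : ℕ} (ht : t ≤ n) (hne : t ≠ m) :
    φ (at3 ω t - at3 ω m) < 0 := by
  obtain ⟨h1, h2, h3⟩ := h
  rw [map_sub, sub_neg]
  refine lt_of_le_of_ne ?_ ?_
  · have h4 := h3 ⟨t, by omega⟩
    have e1 := at_fin ω ⟨t, by omega⟩
    simp only at e1
    rw [e1]
    exact h4
  · intro hc
    exact hne ((saw_sq h1).2.2 t m ht h2 (hφ hc))

theorem cut_mem (hA : Inv A) {φ : V →+ G} (hφ : Function.Injective φ) {m u : ℕ}
    {ω : Fin (m + u + 1) → V} (h : ω ∈ TS3 A φ m (m + u)) : cut m u ω ∈ PS A φ m u := by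
  obtain ⟨s1, s2, s3⟩ := saw_sq h.1
  have g1 : Sq A m (fun i => at3 ω (m - i) - at3 ω m) := by
    refine ⟨?_, ?_, ?_⟩
    · show at3 ω (m - 0) - at3 ω m = 0
      rw [Nat.sub_zero, sub_self]
    · intro i hi
      refine hA.sub _ (hA.symm ?_)
      have := s2 (m - (i + 1)) (by omega)
      rwa [show m - (i + 1) + 1 = m - i by omega] at this
    · intro i j hi hj hij
      have := s3 _ _ (by omega) (by omega) (sub_left_injective hij)
      omega
  have g2 : Sq A u (fun j => at3 ω (m + j) - at3 ω m) := by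
    refine ⟨?_, ?_, ?_⟩
    · show at3 ω (m + 0) - at3 ω m = 0
      rw [Nat.add_zero, sub_self]
    · intro i hi
      refine hA.sub _ ?_
      exact s2 (m + i) (by omega)
    · intro i j hi hj hij
      have := s3 _ _ (by omega) (by omega) (sub_left_injective hij)
      omega
  refine ⟨saw_mk g1, saw_mk g2, ?_, ?_, ?_⟩
  · intro i hi
    have hi' := i.isLt
    have hi0 : (i : ℕ) ≠ 0 := fun hc => hi (Fin.ext hc)
    exact top_lt hφ h (t := m - i) (by omega) (by omega)
  · intro j hj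
    have hj' := j.isLt
    have hj0 : (j : ℕ) ≠ 0 := fun hc => hj (Fin.ext hc)
    exact top_lt hφ h (t := m + j) (by omega) (by omega)
  · intro i j hij
    have hi' := i.isLt
    have hj' := j.isLt
    have := s3 _ _ (by omega) (by omega) (sub_left_injective hij)
    exact ⟨Fin.ext (by simp only [Fin.val_zero]; omega), Fin.ext (by simp only [Fin.val_zero]; omega)⟩

theorem cut_inj {m u : ℕ} {ω ω' : Fin (m + u + 1) → V} (h0 : at3 ω 0 = 0)
    (h0' : at3 ω' 0 = 0) (h : cut m u ω = cut m u ω') : ω = ω' := by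
  have h1 : ∀ i, i ≤ m → at3 ω (m - i) - at3 ω m = at3 ω' (m - i) - at3 ω' m := by
    intro i hi
    have := congrArg (fun p => at3 p.1 i) h
    simp only [cut] at this
    rwa [at_mk _ hi, at_mk _ hi] at this
  have h2 : ∀ j, j ≤ u → at3 ω (m + j) - at3 ω m = at3 ω' (m + j) - at3 ω' m := by
    intro j hj
    have := congrArg (fun p => at3 p.2 j) h
    simp only [cut] at this
    rwa [at_mk _ hj, at_mk _ hj] at this
  have h3 : at3 ω m = at3 ω' m := by
    have := h1 m le_rfl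
    rw [Nat.sub_self, h0, h0'] at this
    exact sub_right_injective this
  rw [← mk_at ω, ← mk_at ω']
  funext i
  show at3 ω i = at3 ω' i
  have hi := i.isLt
  rcases Nat.lt_or_ge (i : ℕ) m with h4 | h4
  · have := h1 (m - i) (by omega)
    rw [h3, show m - (m - (i : ℕ)) = i by omega] at this
    exact sub_left_injective this
  · have := h2 (i - m) (by omega)
    rw [h3, show m + ((i : ℕ) - m) = i by omega] at this
    exact sub_left_injective this

theorem cut_surj (hA : Inv A) {φ : V →+ G} {m u : ℕ}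
    {p : (Fin (m + 1) → V) × (Fin (u + 1) → V)} (h : p ∈ PS A φ m u) :
    ∃ ω ∈ TS3 A φ m (m + u), cut m u ω = p := by
  obtain ⟨α, β⟩ := p
  obtain ⟨h1, h2, h3, h4, h5⟩ := h
  simp only at h1 h2 h3 h4 h5
  obtain ⟨a1, a2, a3⟩ := saw_sq h1
  obtain ⟨b1, b2, b3⟩ := saw_sq h2
  have h3' : ∀ i, i ≤ m → i ≠ 0 → φ (at3 α i) < 0 := by
    intro i hi h0
    have := h3 ⟨i, by omega⟩ (fun hc => h0 (congrArg Fin.val hc))
    rwa [← at_fin α ⟨i, by omega⟩] at this
  have h4' : ∀ i, i ≤ u → i ≠ 0 → φ (at3 β i) < 0 := by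
    intro i hi h0
    have := h4 ⟨i, by omega⟩ (fun hc => h0 (congrArg Fin.val hc))
    rwa [← at_fin β ⟨i, by omega⟩] at this
  have h5' : ∀ i j, i ≤ m → j ≤ u → at3 α i = at3 β j → i = 0 ∧ j = 0 := by
    intro i j hi hj hij
    have e1 := at_fin α ⟨i, by omega⟩
    have e2 := at_fin β ⟨j, by omega⟩
    simp only at e1 e2
    rw [e1, e2] at hij
    obtain ⟨k1, k2⟩ := h5 _ _ hij
    exact ⟨congrArg Fin.val k1, congrArg Fin.val k2⟩
  obtain ⟨f, hf⟩ : ∃ f : ℕ → V, ∀ t, f t =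
      (if t ≤ m then at3 α (m - t) else at3 β (t - m)) - at3 α m := ⟨_, fun _ => rfl⟩
  have f1 : ∀ t, t ≤ m → f t = at3 α (m - t) - at3 α m := fun t ht => by rw [hf, if_pos ht]
  have f2 : ∀ t, m ≤ t → f t = at3 β (t - m) - at3 α m := by
    intro t ht
    rcases Nat.lt_or_ge m t with h6 | h6
    · rw [hf, if_neg (by omega)]
    · have : t = m := by omega
      subst this
      rw [f1 t le_rfl, Nat.sub_self, a1, b1]
  have fm : f m = - at3 α m := by
    rw [f1 m le_rfl, Nat.sub_self, a1]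
    exact zero_sub _
  have hsq : Sq A (m + u) f := by
    refine ⟨?_, ?_, ?_⟩
    · rw [f1 0 (by omega), Nat.sub_zero]
      exact sub_self _
    · intro i hi
      rcases Nat.lt_or_ge i m with h6 | h6
      · rw [f1 i (by omega), f1 (i + 1) (by omega)]
        refine hA.sub _ (hA.symm ?_)
        have := a2 (m - (i + 1)) (by omega)
        rwa [show m - (i + 1) + 1 = m - i by omega] at this
      · rw [f2 i h6, f2 (i + 1) (by omega)]
        refine hA.sub _ ?_
        have := b2 (i - m) (by omega)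
        rwa [show i - m + 1 = i + 1 - m by omega] at this
    · intro i j hi hj hij
      rcases Nat.lt_or_ge i m with h6 | h6
      · rcases Nat.lt_or_ge j m with h7 | h7
        · rw [f1 i (by omega), f1 j (by omega)] at hij
          have := a3 _ _ (by omega) (by omega) (sub_left_injective hij)
          omega
        · rw [f1 i (by omega), f2 j h7] at hij
          have := h5' _ _ (by omega) (by omega) (sub_left_injective hij)
          omega
      · rcases Nat.lt_or_ge j m with h7 | h7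
        · rw [f2 i h6, f1 j (by omega)] at hij
          have := h5' _ _ (by omega) (by omega) (sub_left_injective hij).symm
          omega
        · rw [f2 i h6, f2 j h7] at hij
          have := b3 _ _ (by omega) (by omega) (sub_left_injective hij)
          omega
  have hφ0 : ∀ t, t ≤ m + u → φ (f t) ≤ φ (f m) := by
    intro t ht
    rw [fm, map_neg]
    rcases Nat.lt_or_ge t m with h6 | h6
    · rw [f1 t (by omega), map_sub]
      have := h3' (m - t) (by omega) (by omega)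
      calc φ (at3 α (m - t)) - φ (at3 α m) ≤ 0 - φ (at3 α m) := sub_le_sub_right this.le _
        _ = _ := zero_sub _
    · rw [f2 t h6, map_sub]
      have h8 : φ (at3 β (t - m)) ≤ 0 := by
        rcases Nat.eq_zero_or_pos (t - m) with h9 | h9
        · rw [h9, b1]
          exact (map_zero φ).le
        · exact (h4' (t - m) (by omega) (by omega)).le
      calc φ (at3 β (t - m)) - φ (at3 α m) ≤ 0 - φ (at3 α m) := sub_le_sub_right h8 _
        _ = _ := zero_sub _
  refine ⟨mk3 (m + u) f, ⟨saw_mk hsq, by omega, fun t => ?_⟩, ?_⟩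
  · have ht := t.isLt
    have e1 : mk3 (m + u) f (Fin.ofNat (m + u + 1) m) = f m := at_mk f (by omega)
    rw [e1]
    exact hφ0 t (by omega)
  · have e1 : ∀ t, t ≤ m + u → at3 (mk3 (m + u) f) t = f t := fun t ht => at_mk f ht
    unfold cut
    refine Prod.ext ?_ ?_
    · rw [← mk_at α]
      funext i
      have hi := i.isLt
      show at3 (mk3 (m + u) f) (m - i) - at3 (mk3 (m + u) f) m = at3 α i
      rw [e1 _ (by omega), e1 _ (by omega), fm, f1 _ (by omega),
        show m - (m - (i : ℕ)) = i by omega]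
      abel
    · rw [← mk_at β]
      funext i
      have hi := i.isLt
      show at3 (mk3 (m + u) f) (m + i) - at3 (mk3 (m + u) f) m = at3 β i
      rw [e1 _ (by omega), e1 _ (by omega), fm, f2 _ (by omega),
        show m + (i : ℕ) - m = i by omega]
      abel

/-- pairs and walks -/
theorem ncard_pairs (hA : Inv A) {φ : V →+ G} (hφ : Function.Injective φ) (m u : ℕ) :
    (PS A φ m u).ncard = (TS3 A φ m (m + u)).ncard := by
  have h1 : PS A φ m u = cut m u '' TS3 A φ m (m + u) := by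
    ext p
    rw [Set.mem_image]
    constructor
    · exact fun h => cut_surj hA h
    · rintro ⟨ω, h, rfl⟩
      exact cut_mem hA hφ h
  rw [h1]
  refine Set.InjOn.ncard_image fun ω h ω' h' he => ?_
  exact cut_inj (saw_sq h.1).1 (saw_sq h'.1).1 he


/-! ### the numbers of pairs -/

omit [IsOrderedAddMonoid G] in
/-- every walk has one highest site -/
theorem one_top {φ : V →+ G} (hφ : Function.Injective φ) {n : ℕ}
    {ω : Fin (n + 1) → V} (h : SAWg A n ω) :
    ∃ m ∈ Finset.range (n + 1), IsTop φ ω m ∧ ∀ m', IsTop φ ω m' → m' = m := by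
  obtain ⟨t, -, ht⟩ := Finset.exists_max_image Finset.univ (fun u => φ (ω u)) Finset.univ_nonempty
  have e : Fin.ofNat (n + 1) (t : ℕ) = t := by
    ext
    simp [Nat.mod_eq_of_lt t.isLt]
  refine ⟨t, Finset.mem_range.mpr t.isLt, ⟨by have := t.isLt; omega, fun u => ?_⟩, fun m' hm' => ?_⟩
  · rw [e]
    exact ht u (Finset.mem_univ _)
  · obtain ⟨h1, h2⟩ := hm'
    have e' : ((Fin.ofNat (n + 1) m' : Fin (n + 1)) : ℕ) = m' := by
      simp [Nat.mod_eq_of_lt (show m' < n + 1 by omega)]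
    have h3 := h.2.2 (hφ (le_antisymm (ht _ (Finset.mem_univ _)) (h2 t)))
    rw [← h3, e']

/-- the number of walks is a sum of numbers of pairs -/
theorem sum_pairs (hA : Inv A) {φ : V →+ G} (hφ : Function.Injective φ) (n : ℕ)
    (hfin : {ω : Fin (n + 1) → V | SAWg A n ω}.Finite) :
    ∑ m ∈ Finset.range (n + 1), (PS A φ m (n - m)).ncard =
      {ω : Fin (n + 1) → V | SAWg A n ω}.ncard := by
  obtain ⟨F, hF⟩ : ∃ F : Finset (Fin (n + 1) → V), ∀ ω, ω ∈ F ↔ SAWg A n ω :=
    ⟨hfin.toFinset, fun ω => by rw [Set.Finite.mem_toFinset]; exact Iff.rfl⟩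
  have h1 : {ω : Fin (n + 1) → V | SAWg A n ω}.ncard = F.card := by
    rw [← Set.ncard_coe_finset]
    congr 1
    ext ω
    rw [Finset.mem_coe, hF]
    exact Iff.rfl
  have h2 : ∀ m ∈ Finset.range (n + 1), (PS A φ m (n - m)).ncard =
      (F.filter (fun ω => IsTop φ ω m)).card := by
    intro m hm
    rw [Finset.mem_range] at hm
    rw [ncard_pairs hA hφ, ← Set.ncard_coe_finset]
    have e : m + (n - m) = n := by omega
    rw [e]
    congr 1
    ext ω
    rw [Finset.mem_coe, Finset.mem_filter, hF]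
    exact Iff.rfl
  rw [Finset.sum_congr rfl h2, h1, Finset.card_eq_sum_ones]
  simp only [Finset.card_filter]
  rw [Finset.sum_comm]
  refine Finset.sum_congr rfl fun ω hω => ?_
  obtain ⟨m, hm, h3, h4⟩ := one_top hφ ((hF ω).mp hω)
  rw [Finset.sum_eq_single m]
  · rw [if_pos h3]
  · intro m' _ hne
    exact if_neg fun hc => hne (h4 m' hc)
  · exact fun hc => absurd hm hc

section eng

variable {X : Geo V} {Z : Rul X A}

theorem cla_saw (ho : X.o = 0) :
    Cla X A Set.univ (fun n => {ω : Fin (n + 1) → V | SAWg A n ω}) := by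
  intro n ω
  unfold IsF
  rw [ho]
  exact ⟨fun h => ⟨h, fun _ => Set.mem_univ _⟩, fun h => h.1⟩

theorem saw_finite (ho : X.o = 0) (Z : Rul X A) (n : ℕ) :
    {ω : Fin (n + 1) → V | SAWg A n ω}.Finite := by
  have h := cla_eq Z (cla_saw (A := A) ho) n
  rw [h]
  exact Finset.finite_toSet _

theorem prb_eq (ho : X.o = 0) (Z : Rul X A) (hA : Inv A) {φ : V →+ G}
    (hφ : Function.Injective φ) (m u : ℕ) :
    Prb (fun n => {ω : Fin (n + 1) → V | SAWg A n ω}) (m + u) (fun ω => IsTop φ ω m) =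
      ((PS A φ m u).ncard : ℝ) / (({ω : Fin (m + u + 1) → V | SAWg A (m + u) ω}.ncard : ℕ) : ℝ) := by
  rw [prb_ncard Z (cla_saw ho), ncard_pairs hA hφ]
  rfl

/-- from the probabilities to the numbers of pairs -/
theorem pairs_of (ho : X.o = 0) (Z : Rul X A) (hA : Inv A) {lam ψ : ℕ → ℝ} (r : ℕ) (hr : 1 ≤ r)
    (f : ℕ → ℕ) (hf : ∀ i, i ≤ r → f i ≤ 2 * r)
    (hlog : ∀ n : ℕ, 2 ≤ n → Real.log n ≤ lam n) (hψ : ∀ n : ℕ, 2 ≤ n → Real.log n ≤ ψ n)
    (hc : ∀ n : ℕ, 2 ≤ n → 0 < {ω : Fin (n + 1) → V | SAWg A n ω}.ncard)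
    (h : ∃ C : ℝ, 0 < C ∧ ∀ (α : Type) (_ : LinearOrder α)
      (φ : V → α), Function.Injective φ → ∀ (n t g : ℕ) (L : ℝ), 2 ≤ n → lam n ≤ L →
      Real.exp (-L) ≤ Prb (fun n => {ω : Fin (n + 1) → V | SAWg A n ω}) n
        (fun ω => IsTop φ ω t) → g ≤ t → t + g ≤ n →
      C * (ψ n + L) ≤ g →
      (∀ i, i ≤ r → 0 < Prb (fun n => {ω : Fin (n + 1) → V | SAWg A n ω}) n
        (fun ω => IsTop φ ω (t + f i))) ∧
      |df r (fun i => Real.log (Prb (fun n => {ω : Fin (n + 1) → V | SAWg A n ω}) n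
        (fun ω => IsTop φ ω (t + f i))))| ≤
        C * Real.sqrt (L / g) ^ r) :
    ∃ C : ℝ, 0 < C ∧ ∀ (G : Type) (_ : AddCommGroup G) (_ : LinearOrder G)
      (_ : IsOrderedAddMonoid G) (φ : V →+ G), Function.Injective φ →
      ∀ (m u g : ℕ) (L : ℝ), 2 ≤ m + u → lam (m + u) ≤ L →
      Real.exp (-L) * (({ω : Fin (m + u + 1) → V | SAWg A (m + u) ω}.ncard : ℕ) : ℝ) ≤
        ((PS A φ m u).ncard : ℝ) → g ≤ m → g ≤ u →
      C * (ψ (m + u) + L) ≤ g →
      (∀ i, i ≤ r → 0 < (PS A φ (m + f i) (u - f i)).ncard) ∧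
      |df r (fun i => Real.log ((PS A φ (m + f i) (u - f i)).ncard : ℝ))| ≤
        C * Real.sqrt (L / g) ^ r := by
  obtain ⟨C, hC, h⟩ := h
  refine ⟨C + 3 * r, by positivity, fun G _ _ _ φ hφ m u g L hn hL hp h1 h2 hg => ?_⟩
  have hn' : (2 : ℝ) ≤ ((m + u : ℕ) : ℝ) := by exact_mod_cast hn
  have hlog0 : (0.69 : ℝ) ≤ Real.log ((m + u : ℕ) : ℝ) := by
    have h1 : Real.log 2 ≤ Real.log ((m + u : ℕ) : ℝ) := Real.log_le_log (by norm_num) hn'
    have := Real.log_two_gt_d9
    linarith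
  have k1 := hlog (m + u) hn
  have k2 := hψ (m + u) hn
  have hcc : (0 : ℝ) < (({ω : Fin (m + u + 1) → V | SAWg A (m + u) ω}.ncard : ℕ) : ℝ) := by
    exact_mod_cast hc (m + u) hn
  have hr0 : (0 : ℝ) ≤ r := Nat.cast_nonneg r
  have hg1 : C * (ψ (m + u) + L) ≤ g := by
    refine le_trans (mul_le_mul_of_nonneg_right ?_ (by linarith)) hg
    linarith
  have hrg : 2 * r ≤ g := by
    have h5 : (3 * (r : ℝ)) * 1 ≤ (C + 3 * r) * (ψ (m + u) + L) :=
      mul_le_mul (by linarith) (by linarith) (by norm_num) (by positivity)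
    have h6 : 2 * (r : ℝ) ≤ g := by linarith
    exact_mod_cast h6
  have key := h G inferInstance φ hφ (m + u) m g L hn hL (by
      rw [prb_eq ho Z hA hφ, le_div_iff₀ hcc]
      exact hp) h1 (by omega) hg1
  obtain ⟨k3, k4⟩ := key
  have e1 : ∀ i, i ≤ r → Prb (fun n => {ω : Fin (n + 1) → V | SAWg A n ω}) (m + u)
      (fun ω => IsTop φ ω (m + f i)) =
      ((PS A φ (m + f i) (u - f i)).ncard : ℝ) /
        (({ω : Fin (m + u + 1) → V | SAWg A (m + u) ω}.ncard : ℕ) : ℝ) := by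
    intro i hi
    have h3 := prb_eq ho Z hA hφ (m + f i) (u - f i)
    have e2 : m + f i + (u - f i) = m + u := by
      have := hf i hi
      omega
    rw [e2] at h3
    exact h3
  have hpos : ∀ i, i ≤ r → (0 : ℝ) < ((PS A φ (m + f i) (u - f i)).ncard : ℝ) := by
    intro i hi
    have h3 := k3 i hi
    rw [e1 i hi] at h3
    by_contra hcon
    push Not at hcon
    have h4 : ((PS A φ (m + f i) (u - f i)).ncard : ℝ) /
        (({ω : Fin (m + u + 1) → V | SAWg A (m + u) ω}.ncard : ℕ) : ℝ) ≤ 0 :=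
      div_nonpos_of_nonpos_of_nonneg hcon hcc.le
    linarith
  refine ⟨fun i hi => by exact_mod_cast hpos i hi, ?_⟩
  have e3 : df r (fun i => Real.log ((PS A φ (m + f i) (u - f i)).ncard : ℝ)) =
      df r (fun i => Real.log (Prb (fun n => {ω : Fin (n + 1) → V | SAWg A n ω}) (m + u)
      (fun ω => IsTop φ ω (m + f i)))) := by
    rw [← df_const r hr (fun i => Real.log (Prb (fun n => {ω : Fin (n + 1) → V |
      SAWg A n ω}) (m + u) (fun ω => IsTop φ ω (m + f i))))
      (Real.log (({ω : Fin (m + u + 1) → V | SAWg A (m + u) ω}.ncard : ℕ) : ℝ))]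
    unfold df
    refine Finset.sum_congr rfl fun i hi => ?_
    rw [Finset.mem_range] at hi
    simp only
    rw [e1 i (by omega), Real.log_div (hpos i (by omega)).ne' hcc.ne']
    ring
  rw [e3]
  refine k4.trans (mul_le_mul_of_nonneg_right ?_ (by positivity))
  linarith

/-- the upper bound -/
theorem upper_of (ho : X.o = 0) (Z : Rul X A) (hA : Inv A) {lam ψ : ℕ → ℝ}
    (hc : ∀ n : ℕ, 2 ≤ n → 0 < {ω : Fin (n + 1) → V | SAWg A n ω}.ncard)
    (h : ∃ C : ℝ, 0 < C ∧ ∀ (α : Type) (_ : LinearOrder α) (φ : V → α),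
      Function.Injective φ → ∀ n t g : ℕ, 2 ≤ n → g ≤ t → t + g ≤ n → C * (ψ n + lam n) ≤ g →
      Prb (fun n => {ω : Fin (n + 1) → V | SAWg A n ω}) n (fun ω => IsTop φ ω t) ≤
        C * Real.sqrt (lam n / g)) :
    ∃ C : ℝ, 0 < C ∧ ∀ (G : Type) (_ : AddCommGroup G) (_ : LinearOrder G)
      (_ : IsOrderedAddMonoid G) (φ : V →+ G), Function.Injective φ →
      ∀ m u g : ℕ, 2 ≤ m + u → g ≤ m → g ≤ u → C * (ψ (m + u) + lam (m + u)) ≤ g →
      ((PS A φ m u).ncard : ℝ) ≤ C * Real.sqrt (lam (m + u) / g) *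
        (({ω : Fin (m + u + 1) → V | SAWg A (m + u) ω}.ncard : ℕ) : ℝ) := by
  obtain ⟨C, hC, h⟩ := h
  refine ⟨C, hC, fun G _ _ _ φ hφ m u g hn h1 h2 hg => ?_⟩
  have hcc : (0 : ℝ) < (({ω : Fin (m + u + 1) → V | SAWg A (m + u) ω}.ncard : ℕ) : ℝ) := by
    exact_mod_cast hc (m + u) hn
  have h3 := h G inferInstance φ hφ (m + u) m g hn h1 (by omega) hg
  rw [prb_eq ho Z hA hφ, div_le_iff₀ hcc] at h3
  exact h3

end eng

end Pool.Agent.U954.GE.Pg
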