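import Pool.Agent.U954.GE.Jt
import Pool.Agent.U954.GE.Prg

/-!
# Several rankings: the numbers of walks with given times of the highest sites
-/

set_option autoImplicit false
set_option linter.unusedVariables false

namespace Pool.Agent.U954.GE.Jt

open Finset Pool.Agent.N929.EG Pool.Agent.N169.EG Pool.Agent.U954.GE
open scoped Classical

variable {Ver : Type} {X : Geo Ver} {A : Ver → Ver → Prop}

noncomputable section

variable {S : ∀ n : ℕ, Set (Fin (n + 1) → Ver)} {H : Set Ver}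

/-- the number of walks with given times of the highest sites -/
def NT {α : Type} [LinearOrder α] {k : ℕ} (S : ∀ n : ℕ, Set (Fin (n + 1) → Ver))
    (φ : Fin k → Ver → α) (n : ℕ) (t : Fin k → ℕ) : ℕ :=
  {ω : Fin (n + 1) → Ver | ω ∈ S n ∧ ∀ i, IsTop (φ i) ω (t i)}.ncard

theorem jp_eq {α : Type} [LinearOrder α] (Z : Rul X A) (hS : Cla X A H S) {k : ℕ}
    (φ : Fin k → Ver → α) (n : ℕ) (t : Fin k → ℕ) :
    Jp S φ n t = (NT S φ n t : ℝ) / ((S n).ncard : ℝ) :=
  Pg.prb_ncard Z hS n _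

theorem fin_S (Z : Rul X A) (hS : Cla X A H S) (n : ℕ) : (S n).Finite := by
  rw [cla_eq Z hS n]
  exact Finset.finite_toSet _

/-- every walk has one highest site for each ranking -/
theorem sum_NT {α : Type} [LinearOrder α] (Z : Rul X A) (hS : Cla X A H S) {k : ℕ}
    (φ : Fin k → Ver → α) (hφ : ∀ i, Function.Injective (φ i)) (n : ℕ) :
    ∑ t ∈ Fintype.piFinset (fun _ : Fin k => Finset.range (n + 1)), NT S φ n t =
      (S n).ncard := by
  obtain ⟨F, hF⟩ : ∃ F : Finset (Fin (n + 1) → Ver), ∀ ω, ω ∈ F ↔ ω ∈ S n :=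
    ⟨(fin_S Z hS n).toFinset, fun ω => Set.Finite.mem_toFinset _⟩
  have h1 : (S n).ncard = F.card := by
    rw [← Set.ncard_coe_finset]
    congr 1
    ext ω
    rw [Finset.mem_coe, hF]
  have h2 : ∀ t, NT S φ n t = (F.filter (fun ω => AT φ ω t)).card := by
    intro t
    unfold NT
    rw [← Set.ncard_coe_finset]
    congr 1
    ext ω
    rw [Finset.mem_coe, Finset.mem_filter, hF]
    exact Iff.rfl
  rw [Finset.sum_congr rfl fun t _ => h2 t, h1, Finset.card_eq_sum_ones]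
  simp only [Finset.card_filter]
  rw [Finset.sum_comm]
  refine Finset.sum_congr rfl fun ω hω => ?_
  have hmax : ∀ i : Fin k, ∃ t, t ∈ Finset.range (n + 1) ∧ IsTop (φ i) ω t := by
    intro i
    obtain ⟨t, -, ht⟩ := Finset.exists_max_image Finset.univ (fun u => φ i (ω u))
      Finset.univ_nonempty
    have e : Fin.ofNat (n + 1) (t : ℕ) = t := by
      ext
      simp [Nat.mod_eq_of_lt t.isLt]
    refine ⟨t, Finset.mem_range.mpr t.isLt, by have := t.isLt; omega, fun u => ?_⟩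
    rw [e]
    exact ht u (Finset.mem_univ _)
  choose T hT1 hT2 using hmax
  have hinj : Function.Injective ω := ((hS n ω).mp ((hF ω).mp hω)).1.2.2
  rw [Finset.sum_eq_single T]
  · exact if_pos hT2
  · intro t _ hne
    refine if_neg fun hc => hne ?_
    funext i
    obtain ⟨a1, a2⟩ := hc i
    obtain ⟨b1, b2⟩ := hT2 i
    have h3 := hinj (hφ i (le_antisymm (a2 (Fin.ofNat (n + 1) (T i)))
      (b2 (Fin.ofNat (n + 1) (t i)))))
    have h4 := congrArg Fin.val h3
    have e1 : ((Fin.ofNat (n + 1) (T i) : Fin (n + 1)) : ℕ) = T i := by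
      simp [Nat.mod_eq_of_lt (show T i < n + 1 by omega)]
    have e2 : ((Fin.ofNat (n + 1) (t i) : Fin (n + 1)) : ℕ) = t i := by
      simp [Nat.mod_eq_of_lt (show t i < n + 1 by omega)]
    rw [e1, e2] at h4
    exact h4.symm
  · intro hc
    exact absurd (Fintype.mem_piFinset.mpr hT1) hc

/-- the differences -/
theorem count_diff (Z : Rul X A) (hS : Cla X A H S) {ψ lam : ℕ → ℝ} {st k r : ℕ}
    (hr : 1 ≤ r) (hst : st ≤ 2) (hlog : ∀ n : ℕ, 2 ≤ n → Real.log n ≤ lam n)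
    (hψ : ∀ n : ℕ, 2 ≤ n → Real.log n ≤ ψ n)
    (hc : ∀ n : ℕ, 2 ≤ n → (0 : ℝ) < ((S n).ncard : ℝ)) (gen : GenP S ψ lam st k r) :
    ∃ C : ℝ, 0 < C ∧ ∀ (α : Type) (_ : LinearOrder α)
    (φ : Fin k → Ver → α), (∀ i, Function.Injective (φ i)) → ∀ (n g : ℕ) (t : Fin k → ℕ)
    (j : Fin k) (L : ℝ), 2 ≤ n → lam n ≤ L →
    Real.exp (-L) * ((S n).ncard : ℝ) ≤ (NT S φ n t : ℝ) → Sep g n t →
    C * (ψ n + L) ≤ g →
    (∀ i, i ≤ r → 0 < NT S φ n (Function.update t j (t j + st * i))) ∧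
    |df r (fun i => Real.log (NT S φ n (Function.update t j (t j + st * i)) : ℝ))| ≤
      C * Real.sqrt (L / g) ^ r := by
  obtain ⟨C, hC, h⟩ := joint_diff Z hS hst hlog hψ gen
  refine ⟨C, hC, fun α _ φ hφ n g t j L hn hL hp hsep hg => ?_⟩
  have hcn := hc n hn
  obtain ⟨h1, h2⟩ := h α inferInstance φ hφ n g t j L hn hL (by
    rw [jp_eq Z hS, le_div_iff₀ hcn]
    exact hp) hsep hg
  have hpos : ∀ i, i ≤ r →
      (0 : ℝ) < (NT S φ n (Function.update t j (t j + st * i)) : ℝ) := by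
    intro i hi
    have h3 := h1 i hi
    rw [jp_eq Z hS] at h3
    exact (div_pos_iff_of_pos_right hcn).mp h3
  refine ⟨fun i hi => by exact_mod_cast hpos i hi, ?_⟩
  have e3 : df r (fun i => Real.log (NT S φ n (Function.update t j (t j + st * i)) : ℝ)) =
      df r (fun i => Real.log (Jp S φ n (Function.update t j (t j + st * i)))) := by
    rw [← df_const r hr (fun i => Real.log (Jp S φ n (Function.update t j (t j + st * i))))
      (Real.log ((S n).ncard : ℝ))]
    unfold df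
    refine Finset.sum_congr rfl fun i hi => ?_
    rw [Finset.mem_range] at hi
    simp only
    rw [jp_eq Z hS, Real.log_div (hpos i (by omega)).ne' hcn.ne']
    ring
  rw [e3]
  exact h2

/-- the upper bound -/
theorem count_point (Z : Rul X A) (hS : Cla X A H S) {ψ lam : ℕ → ℝ} {st k : ℕ}
    (hst1 : 1 ≤ st) (hst : st ≤ 2) (hlog : ∀ n : ℕ, 2 ≤ n → Real.log n ≤ lam n)
    (hψ : ∀ n : ℕ, 2 ≤ n → Real.log n ≤ ψ n)
    (hc : ∀ n : ℕ, 2 ≤ n → (0 : ℝ) < ((S n).ncard : ℝ)) (gen : GenP S ψ lam st k 1) :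
    ∃ C : ℝ, 0 < C ∧ ∀ (α : Type) (_ : LinearOrder α)
    (φ : Fin k → Ver → α), (∀ i, Function.Injective (φ i)) → ∀ (n g : ℕ) (t : Fin k → ℕ),
    2 ≤ n → Sep g n t → C * (ψ n + lam n) ≤ g →
    (NT S φ n t : ℝ) ≤ C * Real.sqrt (lam n / g) ^ k * ((S n).ncard : ℝ) := by
  obtain ⟨C, hC, h⟩ := joint_point Z hS hst1 hst hlog hψ (fun n hn => by
    rw [← Pg.cla_ncard Z hS]
    exact hc n hn) gen
  refine ⟨C, hC, fun α _ φ hφ n g t hn hsep hg => ?_⟩
  have h3 := h α inferInstance φ hφ n g t hn hsep hg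
  rw [jp_eq Z hS, div_le_iff₀ (hc n hn)] at h3
  exact h3

end

end Pool.Agent.U954.GE.Jt
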