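import Pool.Agent.U954.GE.Mx2

/-!
# Several rankings: mixed differences over rectangles
-/

set_option autoImplicit false
set_option linter.unusedVariables false

namespace Pool.Agent.U954.GE.Jt

open Finset Pool.Agent.N929.EG Pool.Agent.N169.EG Pool.Agent.U954.GE
open scoped Classical

variable {Ver : Type} {X : Geo Ver} {A : Ver → Ver → Prop}

noncomputable section

variable {S : ∀ n : ℕ, Set (Fin (n + 1) → Ver)} {H : Set Ver}

/-- two of the times are shifted -/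
def sh2 {k : ℕ} (i j : Fin k) (st a b : ℕ) (t : Fin k → ℕ) : Fin k → ℕ :=
  shf {i} (st * a) (shf {j} (st * b) t)

theorem sh2_zero {k : ℕ} (i j : Fin k) (st : ℕ) (t : Fin k → ℕ) : sh2 i j st 0 0 t = t := by
  funext l
  unfold sh2 shf
  simp

theorem sh2_i {k : ℕ} {i j : Fin k} (hij : i ≠ j) (st a b : ℕ) (t : Fin k → ℕ) :
    shf {i} st (sh2 i j st a b t) = sh2 i j st (a + 1) b t := by
  unfold sh2
  rw [shf_shf_same, Nat.mul_succ]

theorem sh2_j {k : ℕ} {i j : Fin k} (hij : i ≠ j) (st a b : ℕ) (t : Fin k → ℕ) :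
    shf {j} st (sh2 i j st a b t) = sh2 i j st a (b + 1) t := by
  unfold sh2
  rw [shf_comm {j} {i}, shf_shf_same, Nat.mul_succ]

theorem sep_le {k g g' n d : ℕ} {t t' : Fin k → ℕ} (hs : Sep g n t)
    (h : ∀ l, t l ≤ t' l ∧ t' l ≤ t l + d) (hg : d + g' ≤ g) : Sep g' n t' := by
  intro i
  obtain ⟨h1, h2, h3⟩ := hs i
  have h4 := h i
  refine ⟨by omega, by omega, fun i' hi' => ?_⟩
  have h5 := h i'
  rcases h3 i' hi' with h6 | h6
  · left; omega
  · right; omega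

theorem sh2_le {k : ℕ} {i j : Fin k} (hij : i ≠ j) {st a b c : ℕ} (hst : st ≤ 2) (ha : a ≤ c)
    (hb : b ≤ c) (t : Fin k → ℕ) (l : Fin k) :
    t l ≤ sh2 i j st a b t l ∧ sh2 i j st a b t l ≤ t l + 2 * c := by
  have h1 : st * a ≤ 2 * c := Nat.mul_le_mul hst ha
  have h2 : st * b ≤ 2 * c := Nat.mul_le_mul hst hb
  unfold sh2 shf
  simp only [mem_singleton]
  by_cases h3 : l = i
  · rw [if_pos h3, if_neg (fun h4 => hij (h3.symm.trans h4))]
    omega
  · rw [if_neg h3]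
    split_ifs <;> omega

/-- mixed differences over rectangles -/
theorem rect (Z : Rul X A) (hS : Cla X A H S) {ψ lam : ℕ → ℝ} {st k : ℕ}
    (hst : st ≤ 2) (hlog : ∀ n : ℕ, 2 ≤ n → Real.log n ≤ lam n)
    (hψ : ∀ n : ℕ, 2 ≤ n → Real.log n ≤ ψ n) (gen : ∀ r : ℕ, 1 ≤ r → GenP S ψ lam st k r) :
    ∃ C : ℝ, 1 ≤ C ∧ ∀ (α : Type) (_ : LinearOrder α)
    (φ : Fin k → Ver → α), (∀ i, Function.Injective (φ i)) → ∀ (n g : ℕ) (t : Fin k → ℕ)
    (i j : Fin k) (L : ℝ) (a b : ℕ), i ≠ j → 2 ≤ n → lam n ≤ L → Real.exp (-L) ≤ Jp S φ n t →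
    Sep g n t → C * (ψ n + L) ≤ g → C * ((a : ℝ) + b) ^ 2 * L ≤ g →
    (∀ c d, c ≤ a → d ≤ b → 0 < Jp S φ n (sh2 i j st c d t)) ∧
    |Real.log (Jp S φ n (sh2 i j st a b t)) - Real.log (Jp S φ n (sh2 i j st a 0 t)) -
      Real.log (Jp S φ n (sh2 i j st 0 b t)) + Real.log (Jp S φ n t)| ≤ C * a * b * (L / g) := by
  obtain ⟨C1, hC1, h1⟩ := block_diff Z hS hst hlog hψ (gen 1 le_rfl)
  obtain ⟨C2, hC2, h2⟩ := d2_of Z hS hst hlog hψ gen
  obtain ⟨C, hC⟩ : ∃ C : ℝ, C = 36 * C1 ^ 2 + 7200 * C2 + 100 * C1 + 100 := ⟨_, rfl⟩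
  have hCC : 0 ≤ C1 ^ 2 := by positivity
  have hC100 : 7000 ≤ C := by rw [hC]; linarith
  refine ⟨C, by linarith,
    fun α _ φ hφ n g t i j L a b hij hn hL hp hs hg hab => ?_⟩
  have hn' : (2 : ℝ) ≤ n := by exact_mod_cast hn
  have hlog0 : (0.69 : ℝ) ≤ Real.log n := by
    have h1 : Real.log 2 ≤ Real.log n := Real.log_le_log (by norm_num) hn'
    have := Real.log_two_gt_d9
    linarith
  have k1 := hlog n hn
  have k2 := hψ n hn
  have hψL : 0 < ψ n + L := by linarith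
  have hL0 : 0 < L := by linarith
  have hCψ0 : 0 < C * (ψ n + L) := by positivity
  have hg0 : (0 : ℝ) < g := by linarith
  have hg100 : 5000 ≤ (g : ℝ) := by
    have : 7000 * (0.69 + 0.69) ≤ C * (ψ n + L) :=
      mul_le_mul hC100 (by linarith) (by norm_num) (by linarith)
    linarith
  have ha0 : (0 : ℝ) ≤ a := Nat.cast_nonneg a
  have hb0 : (0 : ℝ) ≤ b := Nat.cast_nonneg b
  -- the gap
  obtain ⟨c, hc⟩ : ∃ c : ℕ, c = a + b := ⟨_, rfl⟩
  have hcr : (c : ℝ) = a + b := by rw [hc]; push_cast; ring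
  have hc0 : (0 : ℝ) ≤ c := Nat.cast_nonneg c
  rw [← hcr] at hab
  have hcc : (c : ℝ) ≤ (c : ℝ) ^ 2 := by
    have : c ≤ c ^ 2 := Nat.le_self_pow (by norm_num) c
    exact_mod_cast this
  have hc8 : 8 * (c : ℝ) ≤ g := by
    have h3 : 7000 * (c : ℝ) * 0.69 ≤ C * (c : ℝ) ^ 2 * L :=
      mul_le_mul (mul_le_mul hC100 hcc hc0 (by linarith)) (by linarith) (by norm_num)
        (by positivity)
    linarith
  obtain ⟨g', hg'⟩ : ∃ g' : ℕ, g' = g - 2 * c := ⟨_, rfl⟩
  have hc8' : 8 * c ≤ g := by exact_mod_cast hc8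
  have hgg : 2 * c + g' = g := by omega
  have hgg' : (g : ℝ) = 2 * c + g' := by rw [← hgg]; push_cast; ring
  have hg2 : (g : ℝ) ≤ 2 * g' := by linarith
  have hg'0 : (0 : ℝ) < g' := by linarith
  have hLg' : 6 * L / g' ≤ 12 * (L / g) := by
    rw [mul_div_assoc', div_le_div_iff₀ hg'0 hg0]
    have : L * g ≤ L * (2 * g') := mul_le_mul_of_nonneg_left hg2 hL0.le
    linarith
  have hlp : -L ≤ Real.log (Jp S φ n t) := by
    rw [← Real.log_exp (-L)]
    exact Real.log_le_log (Real.exp_pos _) hp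
  have hp0 : 0 < Jp S φ n t := lt_of_lt_of_le (Real.exp_pos _) hp
  -- the size of one step
  obtain ⟨δ, hδ⟩ : ∃ δ : ℝ, δ = C1 * Real.sqrt (12 * (L / g)) := ⟨_, rfl⟩
  have hδ0 : 0 ≤ δ := by rw [hδ]; positivity
  have hcδ : (c : ℝ) * δ ≤ 1 := by
    have h3 : ((c : ℝ) * δ) ^ 2 ≤ 1 ^ 2 := by
      rw [hδ, mul_pow, mul_pow, Real.sq_sqrt (by positivity), one_pow]
      have e : (c : ℝ) ^ 2 * (C1 ^ 2 * (12 * (L / g))) = (12 * C1 ^ 2 * (c : ℝ) ^ 2 * L) / g := by
        ring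
      rw [e, div_le_one hg0]
      refine le_trans ?_ hab
      refine mul_le_mul_of_nonneg_right (mul_le_mul_of_nonneg_right ?_ (by positivity)) hL0.le
      rw [hC]
      linarith
    exact (abs_le_of_sq_le_sq' h3 zero_le_one).2
  -- one step
  have step : ∀ (t' : Fin k → ℕ) (l : Fin k), Sep g' n t' → 0 < Jp S φ n t' →
      Real.log (Jp S φ n t) - 1 ≤ Real.log (Jp S φ n t') →
      0 < Jp S φ n (shf {l} st t') ∧
        Real.log (Jp S φ n t') - δ ≤ Real.log (Jp S φ n (shf {l} st t')) := by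
    intro t' l hs' hp' hlow
    have hg'1 : 0 < g' := by exact_mod_cast hg'0
    have hB := blk_bw hg'1 hs' (le_refl (t' l))
    rw [bw_self hg'1 hs' l] at hB
    have low : Real.exp (-(6 * L)) ≤ Jp S φ n t' := by
      rw [← Real.exp_log hp']
      exact Real.exp_le_exp.mpr (by linarith)
    obtain ⟨p1, q1⟩ := h1 α inferInstance φ hφ n g' t' {l} (6 * L) hn (by linarith) low hB (by
      have h3 : C1 * (ψ n + 6 * L) ≤ C1 * (6 * (ψ n + L)) :=
        mul_le_mul_of_nonneg_left (by linarith) (by linarith)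
      have h4 : 100 * C1 * (ψ n + L) ≤ C * (ψ n + L) := by
        refine mul_le_mul_of_nonneg_right ?_ hψL.le
        rw [hC]
        linarith
      linarith)
    have hup0 : shf {l} (st * 0) t' = t' := by
      funext i
      unfold shf
      split_ifs <;> simp
    have e1 : df 1 (fun i => Real.log (Jp S φ n (shf {l} (st * i) t'))) =
        Real.log (Jp S φ n t') - Real.log (Jp S φ n (shf {l} st t')) := by
      unfold df
      rw [Finset.sum_range_succ, Finset.sum_range_one]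
      simp only [hup0, mul_one]
      simp
      ring
    rw [e1, pow_one] at q1
    have h5 : C1 * Real.sqrt (6 * L / g') ≤ δ := by
      rw [hδ]
      exact mul_le_mul_of_nonneg_left (Real.sqrt_le_sqrt hLg') (by linarith)
    have h6 := (abs_le.mp (q1.trans h5)).2
    exact ⟨by simpa using p1 1 le_rfl, by linarith⟩
  have hsep : ∀ c' d', c' ≤ a → d' ≤ b → Sep g' n (sh2 i j st c' d' t) := by
    intro c' d' h3 h4
    exact sep_le hs (sh2_le hij hst (c := c) (by omega) (by omega) t) (by omega)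
  -- all the values
  have val : ∀ c' d', c' ≤ a → d' ≤ b → 0 < Jp S φ n (sh2 i j st c' d' t) ∧
      Real.log (Jp S φ n t) - ((c' : ℝ) + d') * δ ≤ Real.log (Jp S φ n (sh2 i j st c' d' t)) := by
    intro c'
    induction c' with
    | zero =>
      intro d'
      induction d' with
      | zero =>
        intro _ _
        rw [sh2_zero]
        exact ⟨hp0, by simp⟩
      | succ d' ih =>
        intro h3 h4
        obtain ⟨p1, p2⟩ := ih h3 (by omega)
        have h5 : ((0 : ℕ) : ℝ) + (d' : ℝ) ≤ c := by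
          have : 0 + d' ≤ c := by omega
          exact_mod_cast this
        have h6 := mul_le_mul_of_nonneg_right h5 hδ0
        obtain ⟨p3, p4⟩ := step _ j (hsep 0 d' h3 (by omega)) p1 (by linarith)
        rw [sh2_j hij] at p3 p4
        refine ⟨p3, ?_⟩
        push_cast at p2 ⊢
        linarith
    | succ c' ih =>
      intro d' h3 h4
      obtain ⟨p1, p2⟩ := ih d' (by omega) h4
      have h5 : (c' : ℝ) + (d' : ℝ) ≤ c := by
        have : c' + d' ≤ c := by omega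
        exact_mod_cast this
      have h6 := mul_le_mul_of_nonneg_right h5 hδ0
      obtain ⟨p3, p4⟩ := step _ i (hsep c' d' (by omega) h4) p1 (by linarith)
      rw [sh2_i hij] at p3 p4
      refine ⟨p3, ?_⟩
      push_cast at p2 ⊢
      linarith
  refine ⟨fun c' d' h3 h4 => (val c' d' h3 h4).1, ?_⟩
  -- the mixed differences
  obtain ⟨f, hf⟩ : ∃ f : ℕ → ℕ → ℝ, ∀ x y, f x y = Real.log (Jp S φ n (sh2 i j st x y t)) :=
    ⟨_, fun _ _ => rfl⟩
  have hM : ∀ x y, x < a → y < b →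
      |f (x + 1) (y + 1) - f (x + 1) y - f x (y + 1) + f x y| ≤ C * (L / g) := by
    intro x y hx hy
    obtain ⟨p1, p2⟩ := val x y hx.le hy.le
    have h5 : (x : ℝ) + (y : ℝ) ≤ c := by
      have : x + y ≤ c := by omega
      exact_mod_cast this
    have h6 := mul_le_mul_of_nonneg_right h5 hδ0
    have low : Real.exp (-(6 * L)) ≤ Jp S φ n (sh2 i j st x y t) := by
      rw [← Real.exp_log p1]
      exact Real.exp_le_exp.mpr (by linarith)
    obtain ⟨-, -, -, q4⟩ := mixed hst hlog hψ hC2 h2 hφ hn (by linarith : lam n ≤ 6 * L) low hij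
      (hsep x y hx.le hy.le) (by
        have h3 : 300 * C2 * (ψ n + 6 * L) ≤ 300 * C2 * (6 * (ψ n + L)) :=
          mul_le_mul_of_nonneg_left (by linarith) (by linarith)
        have h4 : 7200 * C2 * (ψ n + L) ≤ C * (ψ n + L) := by
          refine mul_le_mul_of_nonneg_right ?_ hψL.le
          rw [hC]
          linarith
        linarith)
    rw [sh2_j hij, sh2_i hij, sh2_i hij, ← hf, ← hf, ← hf, ← hf] at q4
    refine q4.trans ?_
    have h7 : 600 * C2 * (6 * L / g') ≤ 600 * C2 * (12 * (L / g)) :=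
      mul_le_mul_of_nonneg_left hLg' (by linarith)
    have h8 : 7200 * C2 * (L / g) ≤ C * (L / g) := by
      refine mul_le_mul_of_nonneg_right ?_ (by positivity)
      rw [hC]
      linarith
    linarith
  have hsum : ∑ x ∈ range a, ∑ y ∈ range b,
      (f (x + 1) (y + 1) - f (x + 1) y - f x (y + 1) + f x y) =
      f a b - f a 0 - f 0 b + f 0 0 := by
    have e1 : ∀ x, ∑ y ∈ range b, (f (x + 1) (y + 1) - f (x + 1) y - f x (y + 1) + f x y) =
        (f (x + 1) b - f x b) - (f (x + 1) 0 - f x 0) := by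
      intro x
      have e2 := Finset.sum_range_sub (fun y => f (x + 1) y - f x y) b
      rw [← e2]
      refine sum_congr rfl fun y _ => ?_
      ring
    rw [sum_congr rfl fun x _ => e1 x, sum_sub_distrib,
      Finset.sum_range_sub (fun x => f x b) a, Finset.sum_range_sub (fun x => f x 0) a]
    ring
  have e3 : f 0 0 = Real.log (Jp S φ n t) := by rw [hf, sh2_zero]
  rw [← hf, ← hf, ← hf, ← e3, ← hsum]
  refine (abs_sum_le_sum_abs _ _).trans ?_
  have e4 : C * a * b * (L / g) = ∑ x ∈ range a, ∑ y ∈ range b, C * (L / g) := by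
    rw [sum_const, sum_const, card_range, card_range, nsmul_eq_mul, nsmul_eq_mul]
    ring
  rw [e4]
  refine sum_le_sum fun x hx => (abs_sum_le_sum_abs _ _).trans (sum_le_sum fun y hy => ?_)
  exact hM x y (mem_range.mp hx) (mem_range.mp hy)

/-- the numbers of walks -/
theorem count_rect (Z : Rul X A) (hS : Cla X A H S) {ψ lam : ℕ → ℝ} {st k : ℕ}
    (hst : st ≤ 2) (hlog : ∀ n : ℕ, 2 ≤ n → Real.log n ≤ lam n)
    (hψ : ∀ n : ℕ, 2 ≤ n → Real.log n ≤ ψ n)
    (hc : ∀ n : ℕ, 2 ≤ n → (0 : ℝ) < ((S n).ncard : ℝ))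
    (gen : ∀ r : ℕ, 1 ≤ r → GenP S ψ lam st k r) :
    ∃ C : ℝ, 0 < C ∧ ∀ (α : Type) (_ : LinearOrder α)
    (φ : Fin k → Ver → α), (∀ i, Function.Injective (φ i)) → ∀ (n g : ℕ) (t : Fin k → ℕ)
    (i j : Fin k) (L : ℝ) (a b : ℕ), i ≠ j → 2 ≤ n → lam n ≤ L →
    Real.exp (-L) * ((S n).ncard : ℝ) ≤ (NT S φ n t : ℝ) → Sep g n t →
    C * (ψ n + L) ≤ g → C * ((a : ℝ) + b) ^ 2 * L ≤ g →
    (∀ c d, c ≤ a → d ≤ b → 0 < NT S φ n (sh2 i j st c d t)) ∧
    |Real.log (NT S φ n (sh2 i j st a b t) : ℝ) - Real.log (NT S φ n (sh2 i j st a 0 t) : ℝ) -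
      Real.log (NT S φ n (sh2 i j st 0 b t) : ℝ) + Real.log (NT S φ n t : ℝ)| ≤
      C * a * b * (L / g) := by
  obtain ⟨C, hC, h⟩ := rect Z hS hst hlog hψ gen
  refine ⟨C, by linarith, fun α _ φ hφ n g t i j L a b hij hn hL hp hsep hg hab => ?_⟩
  have hcn := hc n hn
  have hp' : Real.exp (-L) ≤ Jp S φ n t := by
    rw [jp_eq Z hS, le_div_iff₀ hcn]
    exact hp
  obtain ⟨a1, a4⟩ := h α inferInstance φ hφ n g t i j L a b hij hn hL hp' hsep hg hab
  have hp0 : 0 < Jp S φ n t := lt_of_lt_of_le (Real.exp_pos _) hp'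
  have key : ∀ t' : Fin k → ℕ, 0 < Jp S φ n t' → (0 : ℝ) < (NT S φ n t' : ℝ) ∧
      Real.log (Jp S φ n t') = Real.log (NT S φ n t' : ℝ) - Real.log ((S n).ncard : ℝ) := by
    intro t' h1
    rw [jp_eq Z hS] at h1 ⊢
    have h2 := (div_pos_iff_of_pos_right hcn).mp h1
    exact ⟨h2, Real.log_div h2.ne' hcn.ne'⟩
  obtain ⟨b0, c0⟩ := key _ hp0
  obtain ⟨b1, c1⟩ := key _ (a1 a b le_rfl le_rfl)
  obtain ⟨b2, c2⟩ := key _ (a1 a 0 le_rfl (Nat.zero_le _))
  obtain ⟨b3, c3⟩ := key _ (a1 0 b (Nat.zero_le _) le_rfl)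
  rw [c0, c1, c2, c3] at a4
  refine ⟨fun c d h1 h2 => by exact_mod_cast (key _ (a1 c d h1 h2)).1, ?_⟩
  refine le_trans (le_of_eq ?_) a4
  congr 1
  ring

end

end Pool.Agent.U954.GE.Jt
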