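import Pool.Agent.U954.GE.Jt

/-!
# Several rankings: shifts of blocks of the times of the highest sites
-/

set_option autoImplicit false
set_option linter.unusedVariables false

namespace Pool.Agent.U954.GE.Jt

open Finset Pool.Agent.N929.EG Pool.Agent.N169.EG Pool.Agent.U954.GE
open scoped Classical

variable {Ver : Type} {X : Geo Ver} {A : Ver → Ver → Prop}

noncomputable section

variable {S : ∀ n : ℕ, Set (Fin (n + 1) → Ver)} {H : Set Ver}

/-- the times `t i`, `i ∈ I`, are increased by `h` -/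
def shf {k : ℕ} (I : Finset (Fin k)) (h : ℕ) (t : Fin k → ℕ) : Fin k → ℕ :=
  fun i => if i ∈ I then t i + h else t i

/-- the times `t i`, `i ∈ I`, form a block, far from the other times and from `0` and `n` -/
def Blk {k : ℕ} (g n : ℕ) (t : Fin k → ℕ) (I : Finset (Fin k)) : Prop :=
  I.Nonempty ∧ (∀ i ∈ I, g ≤ t i ∧ t i + g ≤ n) ∧
    ∀ i', i' ∉ I → t i' ≤ n ∧ ((∀ i ∈ I, t i' + g ≤ t i) ∨ (∀ i ∈ I, t i + g ≤ t i'))

/-- the position at time `t i`, from the parts -/
def vb {k a m b : ℕ} (n : ℕ) (t : Fin k → ℕ) (I : Finset (Fin k)) (s : ℕ)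
    (x : (Fin (a + 1) → Ver) × (Fin (m + 1) → Ver) × (Fin (b + 1) → Ver)) (i : Fin k) : Ver :=
  if i ∈ I then x.2.1 (Fin.ofNat (m + 1) (t i - s)) else
    if t i ≤ a then x.1 (Fin.ofNat (a + 1) (t i)) else
    x.2.2 (Fin.ofNat (b + 1) (t i - (n - b)))

/-- the positions at the times `t i` are the highest ones in the parts -/
def Cb {α : Type} [LinearOrder α] {k a m b : ℕ} (φ : Fin k → Ver → α) (n : ℕ) (t : Fin k → ℕ)
    (I : Finset (Fin k)) (s : ℕ)
    (x : (Fin (a + 1) → Ver) × (Fin (m + 1) → Ver) × (Fin (b + 1) → Ver)) : Prop :=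
  ∀ i, (∀ u, φ i (x.1 u) ≤ φ i (vb n t I s x i)) ∧
    (∀ u, φ i (x.2.1 u) ≤ φ i (vb n t I s x i)) ∧
    ∀ u, φ i (x.2.2 u) ≤ φ i (vb n t I s x i)

theorem vb_parts (w : List Ver) {k a m b n s h : ℕ} (t : Fin k → ℕ) (I : Finset (Fin k))
    (ha : a ≤ n) (hs : s + h + m ≤ n) (hb : b ≤ n)
    (hI : ∀ i ∈ I, s ≤ t i ∧ t i ≤ s + m)
    (ht : ∀ i, i ∉ I → t i ≤ a ∨ (n - b ≤ t i ∧ t i ≤ n)) (i : Fin k) :
    vb n t I s (parts a m b (s + h) (fnw X n w)) i = vx X w (shf I h t i) := by
  unfold vb parts shf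
  by_cases hij : i ∈ I
  · rw [if_pos hij, if_pos hij]
    simp only
    rw [piece_fnw w (by omega)]
    obtain ⟨h1, h2⟩ := hI i hij
    congr 1
    have e : ((Fin.ofNat (m + 1) (t i - s) : Fin (m + 1)) : ℕ) = t i - s := by
      simp [Nat.mod_eq_of_lt (show t i - s < m + 1 by omega)]
    rw [e]
    omega
  · rw [if_neg hij, if_neg hij]
    by_cases h1 : t i ≤ a
    · rw [if_pos h1]
      simp only
      rw [piece_fnw w (by omega)]
      congr 1
      simp [Nat.mod_eq_of_lt (show t i < a + 1 by omega)]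
    · rw [if_neg h1]
      simp only
      rw [piece_fnw w (by omega)]
      rcases ht i hij with h2 | ⟨h2, h3⟩
      · exact absurd h2 h1
      · congr 1
        have e : ((Fin.ofNat (b + 1) (t i - (n - b)) : Fin (b + 1)) : ℕ) = t i - (n - b) := by
          simp [Nat.mod_eq_of_lt (show t i - (n - b) < b + 1 by omega)]
        rw [e]
        omega

theorem cb_iff {α : Type} [LinearOrder α] (w : List Ver) {k a m b n s h : ℕ}
    (φ : Fin k → Ver → α) (t : Fin k → ℕ) (I : Finset (Fin k))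
    (ha : a ≤ n) (hs : s + h + m ≤ n) (hb : b ≤ n)
    (hI : ∀ i ∈ I, s ≤ t i ∧ t i ≤ s + m)
    (ht : ∀ i, i ∉ I → t i ≤ a ∨ (n - b ≤ t i ∧ t i ≤ n)) :
    (TopsIn φ a m b (s + h) (fnw X n w) ∧ Cb φ n t I s (parts a m b (s + h) (fnw X n w))) ↔
      AT φ (fnw X n w) (shf I h t) := by
  have hv := vb_parts (X := X) w t I ha hs hb hI ht
  have hp1 : ∀ u : Fin (a + 1), (parts a m b (s + h) (fnw X n w)).1 u = vx X w u := by
    intro u
    show piece 0 a (fnw X n w) u = _
    rw [piece_fnw w (by omega), Nat.zero_add]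
  have hp2 : ∀ u : Fin (m + 1),
      (parts a m b (s + h) (fnw X n w)).2.1 u = vx X w (s + h + u) := by
    intro u
    show piece (s + h) m (fnw X n w) u = _
    rw [piece_fnw w (by omega)]
  have hp3 : ∀ u : Fin (b + 1),
      (parts a m b (s + h) (fnw X n w)).2.2 u = vx X w (n - b + u) := by
    intro u
    show piece (n - b) b (fnw X n w) u = _
    rw [piece_fnw w (by omega)]
  have hle : ∀ i, shf I h t i ≤ n := by
    intro i
    unfold shf
    by_cases hij : i ∈ I
    · rw [if_pos hij]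
      have := hI i hij
      omega
    · rw [if_neg hij]
      rcases ht i hij with h1 | h1 <;> omega
  constructor
  · rintro ⟨h1, h2⟩ i
    rw [isTop_iff]
    obtain ⟨τ, h3, h4⟩ := h1 i
    rw [isTop_iff] at h4
    obtain ⟨h4, h5⟩ := h4
    obtain ⟨k1, k2, k3⟩ := h2 i
    rw [hv i] at k1 k2 k3
    have h6 : φ i (vx X w τ) ≤ φ i (vx X w (shf I h t i)) := by
      rcases h3 with h3 | h3 | h3
      · have := k1 ⟨τ, by omega⟩
        rwa [hp1] at this
      · have := k2 ⟨τ - (s + h), by omega⟩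
        rw [hp2] at this
        simp only at this
        rwa [show s + h + (τ - (s + h)) = τ by omega] at this
      · have := k3 ⟨τ - (n - b), by omega⟩
        rw [hp3] at this
        simp only at this
        rwa [show n - b + (τ - (n - b)) = τ by omega] at this
    exact ⟨hle i, fun u hu => (h5 u hu).trans h6⟩
  · intro h0
    constructor
    · intro i
      refine ⟨_, ?_, h0 i⟩
      unfold InP shf
      by_cases hij : i ∈ I
      · rw [if_pos hij]
        right; left
        have := hI i hij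
        omega
      · rw [if_neg hij]
        rcases ht i hij with h1 | h1
        · exact Or.inl h1
        · exact Or.inr (Or.inr h1)
    · intro i
      have h1 := (isTop_iff (X := X) (φ i) w).mp (h0 i)
      obtain ⟨h1, h2⟩ := h1
      rw [hv i]
      refine ⟨fun u => ?_, fun u => ?_, fun u => ?_⟩
      · rw [hp1]
        exact h2 _ (by have := u.isLt; omega)
      · rw [hp2]
        exact h2 _ (by have := u.isLt; omega)
      · rw [hp3]
        exact h2 _ (by have := u.isLt; omega)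

theorem block_eq {α : Type} [LinearOrder α] (Z : Rul X A) (hS : Cla X A H S) {k a m b n s h : ℕ}
    (φ : Fin k → Ver → α) (t : Fin k → ℕ) (I : Finset (Fin k))
    (ha : a ≤ n) (hs : s + h + m ≤ n) (hb : b ≤ n)
    (hI : ∀ i ∈ I, s ≤ t i ∧ t i ≤ s + m)
    (ht : ∀ i, i ∉ I → t i ≤ a ∨ (n - b ≤ t i ∧ t i ≤ n)) :
    TopMean S φ n a m b (s + h) (fun x => if Cb φ n t I s x then 1 else 0) =
      Jp S φ n (shf I h t) := by
  unfold TopMean Jp Prb
  rw [mean_eq Z hS, mean_eq Z hS]
  congr 1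
  refine Finset.sum_congr rfl fun w hw => ?_
  have h0 := cb_iff (X := X) w φ t I ha hs hb hI ht
  by_cases h1 : TopsIn φ a m b (s + h) (fnw X n w)
  · rw [if_pos h1]
    by_cases h2 : Cb φ n t I s (parts a m b (s + h) (fnw X n w))
    · have h3 := h0.mp ⟨h1, h2⟩
      exact (if_pos h2).trans (if_pos h3).symm
    · have h3 : ¬ AT φ (fnw X n w) (shf I h t) :=
        fun hc => h2 (h0.mpr hc).2
      exact (if_neg h2).trans (if_neg h3).symm
  · rw [if_neg h1]
    have h3 : ¬ AT φ (fnw X n w) (shf I h t) :=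
      fun hc => h1 (h0.mpr hc).1
    exact (if_neg h3).symm

/-- a block of the times is shifted -/
theorem block_diff (Z : Rul X A) (hS : Cla X A H S) {ψ lam : ℕ → ℝ} {st k r : ℕ}
    (hst : st ≤ 2) (hlog : ∀ n : ℕ, 2 ≤ n → Real.log n ≤ lam n)
    (hψ : ∀ n : ℕ, 2 ≤ n → Real.log n ≤ ψ n) (gen : GenP S ψ lam st k r) :
    ∃ C : ℝ, 1 ≤ C ∧ ∀ (α : Type) (_ : LinearOrder α)
    (φ : Fin k → Ver → α), (∀ i, Function.Injective (φ i)) → ∀ (n g : ℕ) (t : Fin k → ℕ)
    (I : Finset (Fin k)) (L : ℝ), 2 ≤ n → lam n ≤ L → Real.exp (-L) ≤ Jp S φ n t → Blk g n t I →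
    C * (ψ n + L) ≤ g →
    (∀ i, i ≤ r → 0 < Jp S φ n (shf I (st * i) t)) ∧
    |df r (fun i => Real.log (Jp S φ n (shf I (st * i) t)))| ≤
      C * Real.sqrt (L / g) ^ r := by
  obtain ⟨C, hC, h⟩ := gen
  refine ⟨C + 1, by linarith, fun α _ φ hφ n g t I L hn hL hp hblk hg => ?_⟩
  have hn' : (2 : ℝ) ≤ n := by exact_mod_cast hn
  have hlog0 : (0.69 : ℝ) ≤ Real.log n := by
    have h1 : Real.log 2 ≤ Real.log n := Real.log_le_log (by norm_num) hn'
    have := Real.log_two_gt_d9
    linarith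
  have k1 := hlog n hn
  have k2 := hψ n hn
  have hg0 : 0 < g := by
    have h1 : (1 : ℝ) * 1 ≤ (C + 1) * (ψ n + L) :=
      mul_le_mul (by linarith) (by linarith) (by norm_num) (by linarith)
    have h2 : (0 : ℝ) < g := by linarith
    exact_mod_cast h2
  obtain ⟨hne, hin, hout⟩ := hblk
  -- the first and the last time of the block
  obtain ⟨i0, hi0, hmin⟩ := Finset.exists_min_image I t hne
  obtain ⟨i1, hi1, hmax⟩ := Finset.exists_max_image I t hne
  obtain ⟨s, hs⟩ : ∃ s, s = t i0 := ⟨_, rfl⟩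
  obtain ⟨m, hm⟩ : ∃ m, m = t i1 - t i0 := ⟨_, rfl⟩
  have h01 := hmin i1 hi1
  have hI : ∀ i ∈ I, s ≤ t i ∧ t i ≤ s + m := by
    intro i hi
    have h1 := hmin i hi
    have h2 := hmax i hi
    omega
  have hj1 := (hin i0 hi0).1
  have hj2 := (hin i1 hi1).2
  obtain ⟨a, ha⟩ : ∃ a, a = (univ.filter (fun i => i ∉ I ∧ t i < s)).sup t := ⟨_, rfl⟩
  obtain ⟨b, hb⟩ : ∃ b, b = (univ.filter (fun i => i ∉ I ∧ s < t i)).sup
    (fun i => n - t i) := ⟨_, rfl⟩
  have ha1 : a ≤ s - g := by
    rw [ha]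
    refine Finset.sup_le fun i hi => ?_
    rw [mem_filter] at hi
    rcases (hout i hi.2.1).2 with h1 | h1
    · have := h1 i0 hi0
      omega
    · have := h1 i0 hi0
      omega
  have hb1 : b ≤ n - (s + m) - g := by
    rw [hb]
    refine Finset.sup_le fun i hi => ?_
    rw [mem_filter] at hi
    rcases (hout i hi.2.1).2 with h1 | h1
    · have := h1 i0 hi0
      omega
    · have := h1 i1 hi1
      omega
  have ht : ∀ i, i ∉ I → t i ≤ a ∨ (n - b ≤ t i ∧ t i ≤ n) := by
    intro i hij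
    have hi3 := (hout i hij).1
    rcases Nat.lt_or_ge (t i) s with h1 | h1
    · left
      rw [ha]
      exact Finset.le_sup (f := t) (mem_filter.mpr ⟨mem_univ _, hij, h1⟩)
    · right
      have h2 : s < t i := by
        rcases (hout i hij).2 with h3 | h3
        · have := h3 i0 hi0
          omega
        · have := h3 i0 hi0
          omega
      have h3 : n - t i ≤ b := by
        rw [hb]
        exact Finset.le_sup (f := fun i => n - t i) (mem_filter.mpr ⟨mem_univ _, hij, h2⟩)
      omega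
  have hup0 : shf I 0 t = t := by
    funext i
    unfold shf
    split_ifs <;> rfl
  have e0 := block_eq Z hS φ t I (a := a) (m := m) (b := b) (s := s) (n := n) (h := 0) (by omega)
    (by omega) (by omega) hI ht
  rw [hup0, Nat.add_zero] at e0
  obtain ⟨h1, h2, h3⟩ := h α inferInstance φ hφ n a m b s g
    (fun x => if Cb φ n t I s x then 1 else 0) L hn (fun x => by split_ifs <;> norm_num) hL
    (by rw [e0]; exact hp) (by omega) (by omega) (by
      refine le_trans (mul_le_mul_of_nonneg_right ?_ (by linarith)) hg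
      linarith)
  have ei : ∀ i, i ≤ r → TopMean S φ n a m b (s + st * i)
      (fun x => if Cb φ n t I s x then 1 else 0) =
      Jp S φ n (shf I (st * i) t) := by
    intro i hi
    have h4 : st * i ≤ 2 * r := Nat.mul_le_mul hst hi
    exact block_eq Z hS φ t I (by omega) (by omega) (by omega) hI ht
  refine ⟨fun i hi => by rw [← ei i hi]; exact h2 i hi, ?_⟩
  have e1 : df r (fun i => Real.log (Jp S φ n (shf I (st * i) t))) =
      df r (fun i => Real.log (TopMean S φ n a m b (s + st * i)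
        (fun x => if Cb φ n t I s x then 1 else 0))) := by
    unfold df
    refine Finset.sum_congr rfl fun i hi => ?_
    rw [Finset.mem_range] at hi
    simp only
    rw [ei i (by omega)]
  rw [e1]
  refine h3.trans (mul_le_mul_of_nonneg_right (by linarith) (by positivity))

end

end Pool.Agent.U954.GE.Jt
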