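import Pool.Agent.U954.GE.Fn
import Pool.Agent.N929.EG.Three
import Pool.Agent.N546.EG.CNT3

/-!
# The cubic lattice
-/

set_option autoImplicit false
set_option linter.unusedVariables false

namespace Pool.Agent.U954.GE

open Finset Pool.Agent.N929.EG Pool.Agent.N169.EG KN TH966.KO
open scoped Classical

/-- no exceptional places -/
theorem exc_zero {Ver : Type} {X : Geo Ver} {A : Ver → Ver → Prop} {Z : Rul X A}
    (hU : ∀ U U', Z.T U U' → ∀ x ∈ U, x ∈ U') : Exc Z 0 := by
  intro N a b w hab hb hw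
  rw [Nat.le_zero, card_eq_zero]
  refine filter_eq_empty_iff.mpr fun q hq h => h.2.2 fun x hx hx' => ?_
  have hT : Z.T q.1 q.2 := by
    unfold UU at hq
    exact (mem_filter.mp hq).2
  exact absurd (hU _ _ hT x hx) hx'

theorem t3_sub (v : Z3) {U U' : List Z3} (h : T3 U U') :
    T3 (U.map (fun x => x - v)) (U'.map (fun x => x - v)) := by
  obtain ⟨p, d, e, h1, rfl, rfl⟩ := h
  refine ⟨p - v, d, e, h1, ?_, ?_⟩
  · simp only [List.map_cons, List.map_nil]
    congr 2
    abel
  · simp only [List.map_cons, List.map_nil]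
    congr 2
    · abel
    · congr 1
      · abel
      · congr 1
        abel

theorem t3_iff (v : Z3) (U U' : List Z3) :
    T3 (U.map (fun x => x - v)) (U'.map (fun x => x - v)) ↔ T3 U U' := by
  refine ⟨fun h => ?_, t3_sub v⟩
  have h1 := t3_sub (-v) h
  rw [List.map_map, List.map_map] at h1
  have e : (fun x : Z3 => x - -v) ∘ (fun x : Z3 => x - v) = id := by
    funext x
    simp
  rwa [e, List.map_id, List.map_id] at h1

/-- the translations -/
def tra3 : Tra Pool.Agent.N953.EG.R3 where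
  τ v := Equiv.subRight v
  o v := by
    show v - v = 0
    exact sub_self v
  adj v x y := by
    show A3 (x - v) (y - v) ↔ A3 x y
    unfold A3
    refine exists_congr fun d => ?_
    constructor
    · intro h
      have := congrArg (· + v) h
      simp only [sub_add_cancel] at this
      rw [this]
      abel
    · rintro rfl
      abel
  T v U U' := t3_iff v U U'

theorem sub3 : ∀ U U', Pool.Agent.N953.EG.R3.T U U' → ∀ x ∈ U, x ∈ U' := by
  rintro U U' ⟨p, d, e, h1, rfl, rfl⟩ x hx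
  simp only [List.mem_cons, List.not_mem_nil, or_false] at hx ⊢
  tauto

theorem gr3 : ∀ n : ℕ, 2 ≤ n → ((Pool.Agent.N953.EG.X3.g n : ℕ) : ℝ) ≤
    Real.exp (9 * Real.log n) := by
  intro n hn
  have hn' : (2 : ℝ) ≤ n := by exact_mod_cast hn
  have h1 : Real.exp (9 * Real.log n) = (n : ℝ) ^ 9 := by
    rw [mul_comm, Real.exp_mul, Real.exp_log (by linarith)]
    norm_cast
  rw [h1]
  show (((2 * n + 1) ^ 3 : ℕ) : ℝ) ≤ (n : ℝ) ^ 9
  push_cast
  have h2 : 2 * (n : ℝ) + 1 ≤ (n : ℝ) ^ 3 := by nlinarith [sq_nonneg (n : ℝ)]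
  calc (2 * (n : ℝ) + 1) ^ 3 ≤ ((n : ℝ) ^ 3) ^ 3 := pow_le_pow_left₀ (by positivity) h2 3
    _ = _ := by ring

theorem kw3 (n : ℕ) : Kw Pool.Agent.N953.EG.X3 A3 n = (SS n).image (fun u => (path u).reverse) := by
  ext w
  rw [mem_K Pool.Agent.N953.EG.R3, mem_image]
  show (w.length = n + 1 ∧ Walk 0 A3 w) ↔ _
  rw [Pool.Agent.N558.EG.wk3 n w]
  constructor
  · rintro ⟨u, hu, rfl⟩; exact ⟨u, hu, rfl⟩
  · rintro ⟨u, hu, rfl⟩; exact ⟨u, hu, rfl⟩

theorem card3 (n : ℕ) : ((Kw Pool.Agent.N953.EG.X3 A3 n).card : ℝ) = c n := by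
  rw [kw3, card_image_of_injective _ (fun u v h => path_inj u v (List.reverse_injective h)),
    card_SS]

theorem grw3 : ∃ K K₁ : ℝ, 0 ≤ K ∧ 3 ≤ K₁ ∧
    Grw Pool.Agent.N953.EG.R3 μ (fun n => K₁ * psi3 K n) := by
  obtain ⟨K, K₁, hK0, hK₁, hup⟩ := up3
  refine ⟨K, K₁, hK0, hK₁, ⟨mu_one, (phi3 K K₁ hK0 hK₁).log, ?_, ?_, ?_⟩⟩
  · intro n
    rw [card3]
    exact mu_pow n
  · intro n m hn hm
    rw [card3]
    exact hup n m hn hm
  · -- the pattern theorem
    have hinv : TH966.KO.Inv (fun _ => True) := fun w _ i d _ => Iff.rfl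
    obtain ⟨θ, C, hθ0, hθ1, hbad⟩ := o_pattern (fun _ => True) hinv μ (by linarith [mu_ge]) mu_le
      (fun τ hτ => by
        obtain ⟨C, _, hC⟩ := growth τ hτ
        refine ⟨C, fun n => le_trans ?_ (hC n)⟩
        exact_mod_cast a_le n)
    have hμ : 0 < μ := by linarith [mu_one]
    have hθμ : 0 < θ * μ := mul_pos hθ0 hμ
    obtain ⟨C', hC'⟩ : ∃ C' : ℝ, C' = |C| + ∑ m ∈ range 4, (c m : ℝ) / (θ * μ) ^ m := ⟨_, rfl⟩
    have hsum0 : 0 ≤ ∑ m ∈ range 4, (c m : ℝ) / (θ * μ) ^ m :=
      sum_nonneg fun m _ => by positivity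
    refine ⟨10 ^ 7, θ, C', by norm_num, hθ0, hθ1, ?_, fun n => ?_⟩
    · rw [hC']
      positivity
    · rcases Nat.lt_or_ge n 4 with hn | hn
      · have e1 : (((Kw Pool.Agent.N953.EG.X3 A3 n).filter
            (fun w => 10 ^ 7 * (B Pool.Agent.N953.EG.R3 w).card ≤ n)).card : ℝ) ≤ c n := by
          rw [← card3]
          exact_mod_cast card_filter_le _ _
        have e2 : (c n : ℝ) / (θ * μ) ^ n ≤ ∑ m ∈ range 4, (c m : ℝ) / (θ * μ) ^ m :=
          single_le_sum (f := fun m => (c m : ℝ) / (θ * μ) ^ m)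
            (fun m _ => by positivity) (mem_range.2 hn)
        have e3 : (c n : ℝ) / (θ * μ) ^ n ≤ C' := by
          rw [hC']
          linarith [abs_nonneg C]
        rw [div_le_iff₀ (by positivity)] at e3
        linarith
      · have e1 : (((Kw Pool.Agent.N953.EG.X3 A3 n).filter
            (fun w => 10 ^ 7 * (B Pool.Agent.N953.EG.R3 w).card ≤ n)).card : ℝ) ≤
            TH966.KO.bad (fun _ => True) n := by
          unfold TH966.KO.bad
          have e2 : (Kw Pool.Agent.N953.EG.X3 A3 n).filter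
              (fun w => 10 ^ 7 * (B Pool.Agent.N953.EG.R3 w).card ≤ n) ⊆
              ((TH966.KO.K (fun _ => True) n).filter
              (fun w => 10 ^ 7 * fr w ≤ n ∨ 10 ^ 7 * bu w ≤ n)).image
              (fun u => (path u).reverse) := by
            intro w hw
            rw [mem_filter, kw3, mem_image] at hw
            obtain ⟨⟨u, hu, rfl⟩, hw2⟩ := hw
            rw [mem_image]
            refine ⟨u, ?_, rfl⟩
            obtain ⟨hl, hsaw⟩ := mem_SS.1 hu
            rw [mem_filter, TH966.KO.mem_K]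
            refine ⟨⟨hl, ⟨by omega, hsaw⟩, trivial⟩, Or.inr ?_⟩
            have e4 := (Pool.Agent.N546.EG.cnt3 n u hu
              (B Pool.Agent.N953.EG.R3 (path u).reverse)).2 (fun q => by
                rw [mem_B]
                exact Iff.rfl)
            have := Nat.mul_le_mul_left (10 ^ 7) e4
            omega
          exact_mod_cast (card_le_card e2).trans card_image_le
        refine e1.trans ((hbad n).trans ?_)
        have e5 : C ≤ C' := by
          rw [hC']
          have := le_abs_self C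
          linarith
        exact mul_le_mul_of_nonneg_right e5 (by positivity)

/-- the data of the cubic lattice -/
theorem dat3 : ∃ K K₁ : ℝ, 0 ≤ K ∧ 3 ≤ K₁ ∧
    Nonempty (Dat Pool.Agent.N953.EG.R3 μ (fun n => K₁ * psi3 K n) (fun n => Real.log n) 9 0
      Set.univ) := by
  obtain ⟨K, K₁, hK, hK₁, hG⟩ := grw3
  refine ⟨K, K₁, hK, hK₁, ⟨{
    hs := rfl
    t := tra3
    exc := exc_zero sub3
    G := hG
    d0 := by norm_num
    gr := gr3
    log := fun n _ => le_rfl
    low := fun n hn => ?_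
    dom := Or.inl sub3 }⟩⟩
  have h1 : HW Pool.Agent.N953.EG.X3 A3 Set.univ n = Kw Pool.Agent.N953.EG.X3 A3 n := by
    unfold HW
    exact filter_true_of_mem fun w _ x _ => Set.mem_univ x
  rw [h1]
  refine le_mul_of_one_le_left (Nat.cast_nonneg _) (Real.one_le_exp ?_)
  exact Real.log_natCast_nonneg n

end Pool.Agent.U954.GE
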