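import Pool.Agent.U954.GE.Mn

/-!
# Marked self-avoiding walks: the main inequality
-/

set_option autoImplicit false
set_option linter.unusedVariables false

namespace Pool.Agent.U954.GE

open Finset Pool.Agent.U954.TA
open scoped Classical

noncomputable section

variable {α σ : Type} {Y : Sy α σ}

/-- many occupied and many free slots in the window -/
def G3 (Y : Sy α σ) (M : ℕ) (L : Finset σ) (a b : ℕ) (w : α) : Prop :=
  (b - a) / M ≤ (Y.O L (a, b) w).card ∧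
    (Y.O L (a, b) w).card + (b - a) / M ≤ (Y.D L (a, b) w).card

theorem sh_iff (h : ℕ) (P : Key σ → Prop) (x : Key σ) :
    (h ≤ x.2.1 ∧ P (sh h x)) ↔ (h ≤ x.2.1 ∧ P (x.1, (x.2.1 - h, x.2.2 + h))) := Iff.rfl

/-- the number of bad walks -/
theorem bad {M : ℕ} (hM : 1 ≤ M) {Q : α → Prop} {L : Finset σ} (hL : Y.ok L)
    {N p U m V l g : ℕ}
    (hN : N = p + U + m + V + l) (ε G E : ℝ) (hε : 0 < ε) (hε1 : ε ≤ 1) (hG : 0 < G) (h : ℕ)
    (hh : 32 * (h : ℝ) ≤ ε * G) (hgG : 3 * M * G ≤ g) (hg1 : 3 * M * ((h : ℝ) + 1) ≤ g)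
    (hU : g ≤ U) (hV : g ≤ V)
    (hgood : ∀ a b : ℕ, a ≤ b → b ≤ N → g ≤ b - a →
        (((Y.W N).filter (fun w => Q w ∧ ¬ G3 Y M L a b w)).card : ℝ) ≤ E) :
    (((Y.W N).filter (fun w => Q w ∧
      ¬ (h ≤ (ky Y L p (p + U) m (p + U + m + V) w).2.1 ∧
      GK G (sh h (ky Y L p (p + U) m (p + U + m + V) w)) ∧
      BK ε (sh h (ky Y L p (p + U) m (p + U + m + V) w))))).card : ℝ) ≤
      2 * E + 4 * Real.exp (-(ε ^ 2 * G / 128)) * ((Y.W N).card : ℝ) := by
  have hU' : (g : ℝ) ≤ U := by exact_mod_cast hU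
  have hV' : (g : ℝ) ≤ V := by exact_mod_cast hV
  have hh0 : (0 : ℝ) ≤ h := Nat.cast_nonneg h
  have hM' : (1 : ℝ) ≤ M := by exact_mod_cast hM
  have hMG : 3 * G ≤ 3 * M * G := by nlinarith
  have b1 := conc hL hN ε G hε hε1 hG h hh (by linarith) (by linarith)
  have b2 := hgood p (p + U) (by omega) (by omega) (by omega)
  have b3 := hgood (p + U + m) (p + U + m + V) (by omega) (by omega) (by omega)
  have hsub : (Y.W N).filter (fun w => Q w ∧
      ¬ (h ≤ (ky Y L p (p + U) m (p + U + m + V) w).2.1 ∧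
      GK G (sh h (ky Y L p (p + U) m (p + U + m + V) w)) ∧
      BK ε (sh h (ky Y L p (p + U) m (p + U + m + V) w)))) ⊆
      (Y.W N).filter (fun w => Q w ∧ ¬ G3 Y M L p (p + U) w) ∪
      ((Y.W N).filter (fun w => Q w ∧
        ¬ G3 Y M L (p + U + m) (p + U + m + V) w) ∪
      (Y.W N).filter (fun w => (GK G (ky Y L p (p + U) m (p + U + m + V) w) ∧
      h ≤ (ky Y L p (p + U) m (p + U + m + V) w).2.1 ∧
      GK G (sh h (ky Y L p (p + U) m (p + U + m + V) w)) ∧
      ¬ BK ε (sh h (ky Y L p (p + U) m (p + U + m + V) w))))) := by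
    intro w hw
    rw [mem_filter] at hw
    obtain ⟨hw0, hwD, hw1⟩ := hw
    rw [mem_union, mem_union, mem_filter, mem_filter, mem_filter]
    by_contra hcon
    push Not at hcon
    obtain ⟨c1, c2, c3⟩ := hcon
    have d1 := c1 hw0 hwD
    have d2 := c2 hw0 hwD
    obtain ⟨d3, d4⟩ := d1
    obtain ⟨d5, d6⟩ := d2
    obtain ⟨x, hx⟩ : ∃ x, x = ky Y L p (p + U) m (p + U + m + V) w := ⟨_, rfl⟩
    have x1 : (Y.D L (p, p + U) w) = x.1.1 := by rw [hx]; rfl
    have x2 : (Y.D L (p + U + m, p + U + m + V) w) = x.1.2 := by rw [hx]; rfl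
    have x3 : (Y.O L (p, p + U) w).card = x.2.1 := by rw [hx]; rfl
    have x4 : (Y.O L (p + U + m, p + U + m + V) w).card = x.2.2 := by rw [hx]; rfl
    rw [x1, x3] at d4
    rw [x3] at d3
    rw [x2, x4] at d6
    rw [x4] at d5
    rw [← hx] at hw1 c3
    have e1 : p + U - p = U := by omega
    have e2 : p + U + m + V - (p + U + m) = V := by omega
    rw [e1] at d3 d4
    rw [e2] at d5 d6
    obtain ⟨u, hu⟩ : ∃ u, u = U / M := ⟨_, rfl⟩
    obtain ⟨v, hv⟩ : ∃ v, v = V / M := ⟨_, rfl⟩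
    rw [← hu] at d3 d4
    rw [← hv] at d5 d6
    have hu1 : U < M * (u + 1) := by
      rw [hu]
      exact Nat.lt_mul_div_succ U (by omega)
    have hv1 : V < M * (v + 1) := by
      rw [hv]
      exact Nat.lt_mul_div_succ V (by omega)
    have hu2 : (U : ℝ) < M * ((u : ℝ) + 1) := by exact_mod_cast hu1
    have hv2 : (V : ℝ) < M * ((v : ℝ) + 1) := by exact_mod_cast hv1
    have d3' : (u : ℝ) ≤ x.2.1 := by exact_mod_cast d3
    have d4' : (x.2.1 : ℝ) + u ≤ x.1.1.card := by exact_mod_cast d4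
    have d5' : (v : ℝ) ≤ x.2.2 := by exact_mod_cast d5
    have d6' : (x.2.2 : ℝ) + v ≤ x.1.2.card := by exact_mod_cast d6
    have hgM : 3 / 2 * M * (G + h + 1) ≤ (g : ℝ) := by linarith
    have hGu : G + h ≤ u := by
      have e3 : (M : ℝ) * (3 / 2 * (G + h + 1)) < M * ((u : ℝ) + 1) := by linarith
      have e4 := lt_of_mul_lt_mul_left e3 (by linarith)
      linarith
    have hGv : G + h ≤ v := by
      have e3 : (M : ℝ) * (3 / 2 * (G + h + 1)) < M * ((v : ℝ) + 1) := by linarith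
      have e4 := lt_of_mul_lt_mul_left e3 (by linarith)
      linarith
    have k0 : h ≤ x.2.1 := by
      have : (h : ℝ) ≤ x.2.1 := by linarith
      exact_mod_cast this
    have k1 : GK G x := ⟨by linarith, by linarith, by linarith, by linarith⟩
    have k2 : GK G (sh h x) := by
      unfold GK sh
      simp only
      rw [Nat.cast_sub k0]
      push_cast
      exact ⟨by linarith, by linarith, by linarith, by linarith⟩
    exact hw1 ⟨k0, k2, c3 hw0 k1 k0 k2⟩
  have hc := (card_le_card hsub).trans ((card_union_le _ _).trans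
          (Nat.add_le_add_left (card_union_le _ _) _))
  calc _ ≤ (((((Y.W N).filter (fun w => Q w ∧
          ¬ G3 Y M L p (p + U) w)).card +
      (((Y.W N).filter (fun w => Q w ∧
        ¬ G3 Y M L (p + U + m) (p + U + m + V) w)).card +
      ((Y.W N).filter (fun w => (GK G (ky Y L p (p + U) m (p + U + m + V) w) ∧
      h ≤ (ky Y L p (p + U) m (p + U + m + V) w).2.1 ∧
      GK G (sh h (ky Y L p (p + U) m (p + U + m + V) w)) ∧
      ¬ BK ε (sh h (ky Y L p (p + U) m (p + U + m + V) w))))).card) : ℕ)) : ℝ) := by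
        exact_mod_cast hc
    _ ≤ _ := by
        push_cast
        linarith

/-- the marked sums -/
def aa (Y : Sy α σ) (F : ℕ → α → ℝ) (N q : ℕ) : ℝ := ∑ w ∈ Y.W N, F q w

/-- the main inequality for small `ε` and long windows -/
theorem eng0 (r : ℕ) {M : ℕ} (hM : 1 ≤ M) {R : Set σ} {Q : α → Prop} {L : Finset σ} (hL : Y.ok L) (hD : ∀ q ∈ L, q ∈ R)
    {p m l : ℕ} {F : ℕ → α → ℝ} (hF : Mk Y R p m l F)
    (hF01 : ∀ q w, 0 ≤ F q w ∧ F q w ≤ 1)
    (hFD : ∀ q w, F q w ≠ 0 → Q w) {N U V g : ℕ}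
    (hN : N = p + U + m + V + l) (ε G E C : ℝ) (hC : 0 < C) (hε : 0 < ε) (hε1 : ε ≤ 1 / 8)
    (hG : 0 < G) (hCG : C ≤ ε ^ 2 * G) (hrG : 32 * (r : ℝ) ≤ ε ^ 2 * G)
    (hgG : 3 * M * G ≤ g) (hg1 : 3 * M * ((r : ℝ) + 1) ≤ g)
    (hU : g ≤ U) (hV : g + 2 * r ≤ V)
    (hdp : ∀ (S k S' j : ℕ) (ε G : ℝ), 0 < ε → ε ≤ 1 / 8 →
      C ≤ ε ^ 2 * G → G ≤ k → k + G ≤ S → G ≤ j → j + G ≤ S' →
      ((S : ℝ) - k) * j ≤ (1 + ε) * (((S' : ℝ) - j) * k) →
      ((S' : ℝ) - j) * k ≤ (1 + ε) * (((S : ℝ) - k) * j) →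
      |∑ h ∈ range (r + 1), (-1 : ℝ) ^ h * (r.choose h : ℝ) *
        ((S.choose (k + h) : ℝ) * (S'.choose (j - h) : ℝ))| ≤
        C * ε ^ r * ((S.choose k : ℝ) * (S'.choose j : ℝ)))
    (hgood : ∀ a b : ℕ, a ≤ b → b ≤ N → g ≤ b - a →
        (((Y.W N).filter (fun w => Q w ∧ ¬ G3 Y M L a b w)).card : ℝ) ≤ E) :
    |∑ h ∈ range (r + 1), (-1 : ℝ) ^ h * (r.choose h : ℝ) * aa Y F N (p + U + 2 * h)| ≤
      C * ε ^ r * aa Y F N (p + U) +
        2 ^ r * (2 * E + 4 * Real.exp (-(ε ^ 2 * G / 128)) * ((Y.W N).card : ℝ)) := by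
  have hεε : ε ^ 2 ≤ ε := by
    have := mul_le_mul_of_nonneg_right hε1 hε.le
    rw [pow_two]
    linarith
  have hεG : ε ^ 2 * G ≤ ε * G := mul_le_mul_of_nonneg_right hεε hG.le
  obtain ⟨P, hP⟩ : ∃ P : Key σ → Prop, P = fun x => GK G x ∧ BK ε x := ⟨_, rfl⟩
  obtain ⟨P', hP'⟩ : ∃ P' : ℕ → Key σ → Prop, P' = fun h x => h ≤ x.2.1 ∧ P (sh h x) := ⟨_, rfl⟩
  obtain ⟨B, hB⟩ : ∃ B : ℝ, B = 2 * E + 4 * Real.exp (-(ε ^ 2 * G / 128)) * ((Y.W N).card : ℝ) :=
    ⟨_, rfl⟩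
  have hPr : ∀ x, P x → r ≤ x.2.2 := by
    intro x hx
    rw [hP] at hx
    obtain ⟨⟨-, -, h3, -⟩, -⟩ := hx
    have h4 : ε * G ≤ 1 / 8 * G := mul_le_mul_of_nonneg_right hε1 hG.le
    have h5 : (0 : ℝ) ≤ r := Nat.cast_nonneg r
    have : (r : ℝ) ≤ x.2.2 := by linarith
    exact_mod_cast this
  -- the good part and the bad part
  obtain ⟨a1, ha1⟩ : ∃ a1 : ℕ → ℝ, ∀ h, a1 h = ∑ x ∈ (KK L U V).filter P,
      bb x (x.2.1 + h) (x.2.2 - h) * T0 Y L F p m l x (U - 2 * x.2.1) (V - 2 * x.2.2) :=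
    ⟨_, fun _ => rfl⟩
  have hsplit : ∀ h, h ≤ r → |aa Y F N (p + U + 2 * h) - a1 h| ≤ B := by
    intro h hh
    have hh' : (h : ℝ) ≤ r := by exact_mod_cast hh
    have e0 : p + U + 2 * h = p + (U + 2 * h) := by ring
    have e1 := sum_shift hL hD hF hN (h := h) (by omega) P (P' h)
      (fun x hx => (hh.trans (hPr x hx))) (fun x => by rw [hP']; exact Iff.rfl)
    rw [ha1, ← e1, e0]
    unfold aa
    rw [← sum_filter_add_sum_filter_not (Y.W N) (fun w => P' h (ky Y L p (p + (U + 2 * h)) m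
      (p + (U + 2 * h) + m + (V - 2 * h)) w)), add_sub_cancel_left,
      abs_of_nonneg (sum_nonneg fun w _ => (hF01 _ w).1)]
    have b1 := bad hM (Q := Q) hL (N := N) (p := p) (U := U + 2 * h) (m := m) (V := V - 2 * h)
      (l := l) (g := g) (by omega) ε G E hε (by linarith) hG h (by linarith) hgG
      (le_trans (mul_le_mul_of_nonneg_left (by linarith) (by positivity)) hg1)
      (by omega) (by omega) hgood
    rw [hB]
    refine le_trans ?_ b1
    have e2 : ∑ w ∈ (Y.W N).filter (fun w => ¬ P' h (ky Y L p (p + (U + 2 * h)) m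
        (p + (U + 2 * h) + m + (V - 2 * h)) w)), F (p + (U + 2 * h)) w =
        ∑ w ∈ ((Y.W N).filter (fun w => ¬ P' h (ky Y L p (p + (U + 2 * h)) m
        (p + (U + 2 * h) + m + (V - 2 * h)) w))).filter
          (fun w => Q w), F (p + (U + 2 * h)) w := by
      symm
      refine sum_subset (filter_subset _ _) fun w hw hw' => ?_
      by_contra hne
      apply hw'
      rw [mem_filter]
      exact ⟨hw, hFD _ w hne⟩
    rw [e2]
    calc _ ≤ ∑ w ∈ ((Y.W N).filter (fun w => ¬ P' h (ky Y L p (p + (U + 2 * h)) m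
        (p + (U + 2 * h) + m + (V - 2 * h)) w))).filter
          (fun w => Q w), (1 : ℝ) :=
          sum_le_sum fun w _ => (hF01 _ w).2
      _ = ((((Y.W N).filter (fun w => ¬ P' h (ky Y L p (p + (U + 2 * h)) m
        (p + (U + 2 * h) + m + (V - 2 * h)) w))).filter
          (fun w => Q w)).card : ℝ) := by
          rw [sum_const, nsmul_eq_mul, mul_one]
      _ ≤ _ := by
          have : (((Y.W N).filter (fun w => ¬ P' h (ky Y L p (p + (U + 2 * h)) m
              (p + (U + 2 * h) + m + (V - 2 * h)) w))).filter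
              (fun w => Q w)).card ≤
              ((Y.W N).filter (fun w => Q w ∧
              ¬ (h ≤ (ky Y L p (p + (U + 2 * h)) m (p + (U + 2 * h) + m + (V - 2 * h)) w).2.1 ∧
              GK G (sh h (ky Y L p (p + (U + 2 * h)) m (p + (U + 2 * h) + m + (V - 2 * h)) w)) ∧
              BK ε (sh h (ky Y L p (p + (U + 2 * h)) m
                (p + (U + 2 * h) + m + (V - 2 * h)) w))))).card := by
            refine card_le_card fun w hw => ?_
            rw [mem_filter, mem_filter] at hw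
            rw [mem_filter]
            refine ⟨hw.1.1, hw.2, fun hcon => hw.1.2 ?_⟩
            rw [hP', hP]
            exact hcon
          exact_mod_cast this
  have hT := fun x => T0_nonneg (Y := Y) (L := L) (fun q w => (hF01 q w).1) p m l x (U - 2 * x.2.1)
    (V - 2 * x.2.2)
  -- the good part
  have hgoodsum : |∑ h ∈ range (r + 1), (-1 : ℝ) ^ h * (r.choose h : ℝ) * a1 h| ≤
      C * ε ^ r * aa Y F N (p + U) := by
    have e1 : ∑ h ∈ range (r + 1), (-1 : ℝ) ^ h * (r.choose h : ℝ) * a1 h =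
        ∑ x ∈ (KK L U V).filter P, (∑ h ∈ range (r + 1), (-1 : ℝ) ^ h * (r.choose h : ℝ) *
          bb x (x.2.1 + h) (x.2.2 - h)) * T0 Y L F p m l x (U - 2 * x.2.1) (V - 2 * x.2.2) := by
      simp_rw [ha1, mul_sum, sum_mul]
      rw [sum_comm]
      refine sum_congr rfl fun x _ => sum_congr rfl fun h _ => ?_
      ring
    rw [e1]
    refine (abs_sum_le_sum_abs _ _).trans ?_
    have e2 : ∑ x ∈ (KK L U V).filter P, |(∑ h ∈ range (r + 1), (-1 : ℝ) ^ h *
          (r.choose h : ℝ) * bb x (x.2.1 + h) (x.2.2 - h)) *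
          T0 Y L F p m l x (U - 2 * x.2.1) (V - 2 * x.2.2)| ≤
        ∑ x ∈ (KK L U V).filter P, C * ε ^ r * (bb x x.2.1 x.2.2 *
          T0 Y L F p m l x (U - 2 * x.2.1) (V - 2 * x.2.2)) := by
      refine sum_le_sum fun x hx => ?_
      rw [mem_filter, hP] at hx
      obtain ⟨-, ⟨g1, g2, g3, g4⟩, g5, g6⟩ := hx
      rw [abs_mul, abs_of_nonneg (hT x), ← mul_assoc]
      refine mul_le_mul_of_nonneg_right ?_ (hT x)
      exact hdp _ _ _ _ ε G hε hε1 hCG g1 g2 g3 g4 g5 g6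
    refine e2.trans ?_
    rw [← mul_sum, ← sum_cls hL hD hF hN P]
    refine mul_le_mul_of_nonneg_left ?_ (by positivity)
    unfold aa
    exact sum_le_sum_of_subset_of_nonneg (filter_subset _ _) fun w _ _ => (hF01 _ w).1
  -- the end
  have hfin : ∑ h ∈ range (r + 1), (-1 : ℝ) ^ h * (r.choose h : ℝ) * aa Y F N (p + U + 2 * h) =
      ∑ h ∈ range (r + 1), (-1 : ℝ) ^ h * (r.choose h : ℝ) * a1 h +
      ∑ h ∈ range (r + 1), (-1 : ℝ) ^ h * (r.choose h : ℝ) *
        (aa Y F N (p + U + 2 * h) - a1 h) := by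
    rw [← sum_add_distrib]
    refine sum_congr rfl fun h _ => ?_
    ring
  have hB0 : |∑ h ∈ range (r + 1), (-1 : ℝ) ^ h * (r.choose h : ℝ) *
        (aa Y F N (p + U + 2 * h) - a1 h)| ≤ 2 ^ r * B := by
    refine (abs_sum_le_sum_abs _ _).trans ?_
    have e3 : (2 : ℝ) ^ r = ∑ h ∈ range (r + 1), (r.choose h : ℝ) := by
      have := Nat.sum_range_choose r
      exact_mod_cast this.symm
    rw [e3, sum_mul]
    refine sum_le_sum fun h hh => ?_
    rw [mem_range] at hh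
    rw [abs_mul, abs_mul, abs_pow, abs_neg, abs_one, one_pow, one_mul, Nat.abs_cast]
    exact mul_le_mul_of_nonneg_left (hsplit h (by omega)) (Nat.cast_nonneg _)
  rw [hfin, ← hB]
  exact (abs_add_le _ _).trans (add_le_add hgoodsum hB0)

end

end Pool.Agent.U954.GE
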