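import Pool.Agent.U954.GE.Eng

/-!
# Walks with local moves: the main inequality, with constants
-/

set_option autoImplicit false
set_option linter.unusedVariables false

namespace Pool.Agent.U954.GE

open Finset Pool.Agent.U954.TA
open scoped Classical

noncomputable section

variable {α σ : Type} {Y : Sy α σ}

/-- for every domain there is a family of places which is good in all long windows -/
def FamP (Y : Sy α σ) (φ : ℕ → ℝ) (Dm : Set σ → (α → Prop) → Prop) : Prop :=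
  ∃ (M : ℕ) (A c C : ℝ), 1 ≤ M ∧ 0 < A ∧ 0 < c ∧ 0 < C ∧ ∀ N g : ℕ, 2 ≤ N → A * φ N ≤ g →
    ∀ (R : Set σ) (Q : α → Prop), Dm R Q → ∃ L : Finset σ, Y.ok L ∧ (∀ q ∈ L, q ∈ R) ∧
      ∀ a b : ℕ, a ≤ b → b ≤ N → g ≤ b - a →
        (((Y.W N).filter (fun w => Q w ∧ ¬ G3 Y M L a b w)).card : ℝ) ≤
          C * Real.exp (-(c * g)) * ((Y.W N).card : ℝ)

theorem aa_le {F : ℕ → α → ℝ} (hF01 : ∀ q w, 0 ≤ F q w ∧ F q w ≤ 1) (N q : ℕ) :
    0 ≤ aa Y F N q ∧ aa Y F N q ≤ ((Y.W N).card : ℝ) := by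
  constructor
  · exact sum_nonneg fun w _ => (hF01 _ w).1
  · calc aa Y F N q ≤ ∑ w ∈ Y.W N, (1 : ℝ) := sum_le_sum fun w _ => (hF01 _ w).2
      _ = _ := by rw [sum_const, nsmul_eq_mul, mul_one]

/-- the main inequality -/
theorem eng {φ : ℕ → ℝ} {Dm : Set σ → (α → Prop) → Prop} (hφ : ∀ n, 2 ≤ n → 0 ≤ φ n)
    (hfam : FamP Y φ Dm) (r : ℕ) : ∃ A C : ℝ, 0 < A ∧ 0 < C ∧
    ∀ (R : Set σ) (Q : α → Prop) (p m l N U V g : ℕ) (ε : ℝ)
    (F : ℕ → α → ℝ), Dm R Q → 2 ≤ N → N = p + U + m + V + l → A * φ N ≤ g →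
    g ≤ U → g + 2 * r ≤ V → 0 < ε → ε ≤ 1 → (∀ q w, 0 ≤ F q w ∧ F q w ≤ 1) →
    (∀ q w, F q w ≠ 0 → Q w) → Mk Y R p m l F →
    |∑ h ∈ range (r + 1), (-1 : ℝ) ^ h * (r.choose h : ℝ) * aa Y F N (p + U + 2 * h)| ≤
      C * (ε ^ r * aa Y F N (p + U) + Real.exp (-(ε ^ 2 * g / A)) * ((Y.W N).card : ℝ)) := by
  obtain ⟨C1, hC1, hdp⟩ := dp r
  obtain ⟨M, A0, c, C2, hM, hA0, hc, hC2, hfam⟩ := hfam
  have hM' : (1 : ℝ) ≤ M := by exact_mod_cast hM
  obtain ⟨K, hK⟩ : ∃ K : ℝ, K = 3 * M := ⟨_, rfl⟩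
  have hK0 : 0 < K := by rw [hK]; linarith
  obtain ⟨A1, hA1⟩ : ∃ A1 : ℝ, A1 = 64 * K * (C1 + 32 * r + 1) + K * (r + 1) := ⟨_, rfl⟩
  have hr0 : (0 : ℝ) ≤ r := Nat.cast_nonneg r
  have hA10 : 0 < A1 := by rw [hA1]; positivity
  obtain ⟨A, hA⟩ : ∃ A : ℝ, A = A0 + A1 + 1 / c + 8192 * K := ⟨_, rfl⟩
  have hc' : 0 < 1 / c := by positivity
  have hApos : 0 < A := by rw [hA]; positivity
  refine ⟨A, C1 + 2 ^ r * (2 * C2 + 4), hApos, by positivity,
    fun R Q p m l N U V g ε F hDm hN2 hN hg hU hV hε hε1 hF01 hFD hF => ?_⟩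
  obtain ⟨x, hx⟩ : ∃ x : ℝ, x = ((Y.W N).card : ℝ) := ⟨_, rfl⟩
  have hx0 : 0 ≤ x := by rw [hx]; exact Nat.cast_nonneg _
  have hg0 : (0 : ℝ) ≤ g := Nat.cast_nonneg g
  obtain ⟨hq1, hq2⟩ := aa_le (Y := Y) hF01 N (p + U)
  rw [← hx] at hq2 ⊢
  by_cases hcase : ε ^ 2 * g < A1
  · -- trivial case
    have h1 : |∑ h ∈ range (r + 1), (-1 : ℝ) ^ h * (r.choose h : ℝ) * aa Y F N (p + U + 2 * h)| ≤
        2 ^ r * x := by
      refine (abs_sum_le_sum_abs _ _).trans ?_
      have e3 : (2 : ℝ) ^ r = ∑ h ∈ range (r + 1), (r.choose h : ℝ) := by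
        have := Nat.sum_range_choose r
        exact_mod_cast this.symm
      rw [e3, sum_mul]
      refine sum_le_sum fun h hh => ?_
      rw [abs_mul, abs_mul, abs_pow, abs_neg, abs_one, one_pow, one_mul, Nat.abs_cast]
      refine mul_le_mul_of_nonneg_left ?_ (Nat.cast_nonneg _)
      obtain ⟨h2, h3⟩ := aa_le (Y := Y) hF01 N (p + U + 2 * h)
      rw [abs_of_nonneg h2, hx]
      exact h3
    refine h1.trans ?_
    have h2 : (1 / 3 : ℝ) ≤ Real.exp (-(ε ^ 2 * g / A)) := by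
      have h3 : -(1 : ℝ) ≤ -(ε ^ 2 * g / A) := by
        rw [neg_le_neg_iff, div_le_one hApos, hA]
        have : 0 < 8192 * K := by positivity
        linarith
      have h4 : Real.exp (-(1 : ℝ)) ≤ Real.exp (-(ε ^ 2 * g / A)) := Real.exp_le_exp.mpr h3
      refine le_trans ?_ h4
      rw [Real.exp_neg, ← one_div]
      apply one_div_le_one_div_of_le (Real.exp_pos _)
      have := Real.exp_one_lt_d9
      linarith
    have h5 : 0 ≤ ε ^ r * aa Y F N (p + U) := by positivity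
    have h6 : (1 / 3 : ℝ) * x ≤ Real.exp (-(ε ^ 2 * g / A)) * x :=
      mul_le_mul_of_nonneg_right h2 hx0
    have h7 : (0 : ℝ) < 2 ^ r := by positivity
    calc (2 : ℝ) ^ r * x ≤ (2 ^ r * 4) * (1 / 3 * x) := by
          have : 0 ≤ (2 : ℝ) ^ r * x := by positivity
          linarith
      _ ≤ (C1 + 2 ^ r * (2 * C2 + 4)) * (1 / 3 * x) := by
          refine mul_le_mul_of_nonneg_right ?_ (by positivity)
          have : 0 ≤ (2 : ℝ) ^ r * (2 * C2) := by positivity
          linarith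
      _ ≤ _ := by
          refine mul_le_mul_of_nonneg_left ?_ (by positivity)
          linarith
  · push Not at hcase
    obtain ⟨L, hL, hLD, hgood⟩ := hfam N g hN2 (by
      have h1 : 0 ≤ φ N := hφ N hN2
      have h2 : A0 * φ N ≤ A * φ N := by
        refine mul_le_mul_of_nonneg_right ?_ h1
        rw [hA]
        have : 0 < 8192 * K := by positivity
        linarith
      linarith) R Q hDm
    have hεg : ε ^ 2 * g ≤ 1 * g := by
      refine mul_le_mul_of_nonneg_right ?_ hg0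
      exact pow_le_one₀ hε.le hε1
    have hg1 : A1 ≤ g := by linarith
    have hgpos : 0 < (g : ℝ) := by linarith
    have eG : (ε / 8) ^ 2 * ((g : ℝ) / K) = ε ^ 2 * g / (64 * K) := by
      field_simp
      ring
    have hA1' : 0 ≤ K * ((r : ℝ) + 1) := by positivity
    have h1 := eng0 r hM hL hLD hF hF01 hFD hN (ε / 8) ((g : ℝ) / K)
      (C2 * Real.exp (-(c * g)) * ((Y.W N).card : ℝ)) C1 hC1 (by positivity) (by linarith)
      (by positivity)
      (by
        rw [eG, le_div_iff₀ (by positivity)]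
        have : 0 ≤ 64 * K * (32 * (r : ℝ) + 1) := by positivity
        linarith)
      (by
        rw [eG, le_div_iff₀ (by positivity)]
        have : 0 ≤ 64 * K * (C1 + 1) := by positivity
        linarith)
      (by
        rw [← hK]
        exact (mul_div_cancel₀ (g : ℝ) hK0.ne').le)
      (by
        rw [← hK]
        have : 0 ≤ 64 * K * (C1 + 32 * (r : ℝ) + 1) := by positivity
        linarith) hU hV hdp hgood
    rw [← hx] at h1
    refine h1.trans ?_
    have h2 : (ε / 8) ^ r ≤ ε ^ r := pow_le_pow_left₀ (by positivity) (by linarith) r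
    obtain ⟨e, he⟩ : ∃ e : ℝ, e = Real.exp (-(ε ^ 2 * g / A)) := ⟨_, rfl⟩
    have he0 : 0 < e := by rw [he]; exact Real.exp_pos _
    have h3 : Real.exp (-(c * g)) ≤ e := by
      rw [he]
      apply Real.exp_le_exp.mpr
      rw [neg_le_neg_iff, div_le_iff₀ hApos]
      have h4 : 1 ≤ c * A := by
        have h5 : 1 / c ≤ A := by
          rw [hA]
          have : 0 < 8192 * K := by positivity
          linarith
        rw [div_le_iff₀ hc] at h5
        linarith
      calc ε ^ 2 * g ≤ 1 * g := hεg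
        _ ≤ (c * A) * g := mul_le_mul_of_nonneg_right h4 hg0
        _ = c * g * A := by ring
    have h4 : Real.exp (-((ε / 8) ^ 2 * ((g : ℝ) / K) / 128)) ≤ e := by
      rw [he]
      apply Real.exp_le_exp.mpr
      have e5 : (ε / 8) ^ 2 * ((g : ℝ) / K) / 128 = ε ^ 2 * g / (8192 * K) := by
        rw [eG, div_div]
        congr 1
        ring
      rw [neg_le_neg_iff, e5]
      refine div_le_div_of_nonneg_left (by positivity) (by positivity) ?_
      rw [hA]
      linarith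
    rw [← he]
    have h5 : C1 * (ε / 8) ^ r * aa Y F N (p + U) ≤ C1 * (ε ^ r * aa Y F N (p + U)) := by
      rw [mul_assoc]
      exact mul_le_mul_of_nonneg_left (mul_le_mul_of_nonneg_right h2 hq1) hC1.le
    have h6 : C2 * Real.exp (-(c * g)) * x ≤ C2 * e * x :=
      mul_le_mul_of_nonneg_right (mul_le_mul_of_nonneg_left h3 hC2.le) hx0
    have h7 : Real.exp (-((ε / 8) ^ 2 * ((g : ℝ) / K) / 128)) * x ≤ e * x :=
      mul_le_mul_of_nonneg_right h4 hx0
    have h8 : 2 ^ r * (2 * (C2 * Real.exp (-(c * g)) * x) +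
        4 * Real.exp (-((ε / 8) ^ 2 * ((g : ℝ) / K) / 128)) * x) ≤
        2 ^ r * (2 * C2 + 4) * (e * x) := by
      have : 2 * (C2 * Real.exp (-(c * g)) * x) +
        4 * Real.exp (-((ε / 8) ^ 2 * ((g : ℝ) / K) / 128)) * x ≤
        (2 * C2 + 4) * (e * x) := by linarith
      calc _ ≤ 2 ^ r * ((2 * C2 + 4) * (e * x)) := mul_le_mul_of_nonneg_left this (by positivity)
        _ = _ := by ring
    have h9 : 0 ≤ 2 ^ r * (2 * C2 + 4) * (ε ^ r * aa Y F N (p + U)) := by positivity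
    have h10 : 0 ≤ C1 * (e * x) := by positivity
    linarith

end

end Pool.Agent.U954.GE
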