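import Pool.Agent.U954.GE.Lst

/-!
# Local replacements which add one step: the system with doubled times
-/

set_option autoImplicit false
set_option linter.unusedVariables false

namespace Pool.Agent.U954.GE

open Finset Pool.Agent.N929.EG Pool.Agent.N169.EG
open scoped Classical

variable {Ver : Type}

theorem swap1s {s : ℕ} {L U U' R V : List Ver} (hU : U ≠ []) (hU' : U' ≠ []) (hV : V ≠ [])
    (hn : (L ++ U ++ R).Nodup) (hn' : (L ++ U' ++ R).Nodup) (hl : U'.length = U.length + s)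
    (hd : ∀ x ∈ U ++ U', x ∉ V) {a b : ℕ} (ha : a ≤ L.length) (hb : L.length + U.length ≤ b + 1) :
    Inn (L ++ U' ++ R) V a (b + s) ↔ Inn (L ++ U ++ R) V a b := by
  rw [inn_iff hU hV hn (fun x hx => hd x (by simp [hx])),
    inn_iff hU' hV hn' (fun x hx => hd x (by simp [hx]))]
  have h0 := len_pos' hU
  have h0' := len_pos' hV
  constructor
  · rintro (⟨L1, R1, e, h1, h2⟩ | ⟨L1, R1, e, h1, h2⟩)
    · left
      have h3 := congrArg List.length e
      simp only [List.length_append] at h3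
      exact ⟨L1, R1, e, h1, by omega⟩
    · right
      exact ⟨L1, R1, e, by omega, by omega⟩
  · rintro (⟨L1, R1, e, h1, h2⟩ | ⟨L1, R1, e, h1, h2⟩)
    · left
      exact ⟨L1, R1, e, h1, by omega⟩
    · right
      exact ⟨L1, R1, e, by omega, by omega⟩

theorem swap2s {s : ℕ} {L U U' R V : List Ver} (hU : U ≠ []) (hU' : U' ≠ []) (hV : V ≠ [])
    (hn : (L ++ U ++ R).Nodup) (hn' : (L ++ U' ++ R).Nodup) (hl : U'.length = U.length + s)
    (hd : ∀ x ∈ U ++ U', x ∉ V) {c d : ℕ} (hdl : d ≤ L.length) :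
    Inn (L ++ U' ++ R) V c d ↔ Inn (L ++ U ++ R) V c d := by
  rw [inn_iff hU hV hn (fun x hx => hd x (by simp [hx])),
    inn_iff hU' hV hn' (fun x hx => hd x (by simp [hx]))]
  have h0 := len_pos' hU
  have h0' := len_pos' hV
  constructor
  · rintro (⟨L1, R1, e, h1, h2⟩ | ⟨L1, R1, e, h1, h2⟩)
    · left
      exact ⟨L1, R1, e, h1, h2⟩
    · omega
  · rintro (⟨L1, R1, e, h1, h2⟩ | ⟨L1, R1, e, h1, h2⟩)
    · left
      exact ⟨L1, R1, e, h1, h2⟩
    · omega

theorem swap3s {s : ℕ} {L U U' R V : List Ver} (hU : U ≠ []) (hU' : U' ≠ []) (hV : V ≠ [])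
    (hn : (L ++ U ++ R).Nodup) (hn' : (L ++ U' ++ R).Nodup) (hl : U'.length = U.length + s)
    (hd : ∀ x ∈ U ++ U', x ∉ V) {c d : ℕ} (hcl : L.length + U.length ≤ c + 1) :
    Inn (L ++ U' ++ R) V (c + s) (d + s) ↔ Inn (L ++ U ++ R) V c d := by
  rw [inn_iff hU hV hn (fun x hx => hd x (by simp [hx])),
    inn_iff hU' hV hn' (fun x hx => hd x (by simp [hx]))]
  have h0 := len_pos' hU
  have h0' := len_pos' hV
  constructor
  · rintro (⟨L1, R1, e, h1, h2⟩ | ⟨L1, R1, e, h1, h2⟩)
    · have h3 := congrArg List.length e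
      simp only [List.length_append] at h3
      omega
    · right
      exact ⟨L1, R1, e, by omega, by omega⟩
  · rintro (⟨L1, R1, e, h1, h2⟩ | ⟨L1, R1, e, h1, h2⟩)
    · have h3 := congrArg List.length e
      simp only [List.length_append] at h3
      omega
    · right
      exact ⟨L1, R1, e, by omega, by omega⟩

section rul

variable {X : Geo Ver} {A : Ver → Ver → Prop} (Z : Rul X A)

theorem lens {q : List Ver × List Ver} (h : Z.T q.1 q.2) :
    q.2.length = q.1.length + Z.s ∧ 2 ≤ q.1.length := by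
  obtain ⟨h1, h2⟩ := Z.len _ _ h
  exact ⟨by omega, two_le (Z.pair _ _ h)⟩

/-- a slot is not free and occupied -/
theorem nofos {q : List Ver × List Ver} (h : Z.T q.1 q.2) {w : List Ver}
    (h1 : ∀ x ∈ q.2, x ∈ w) : ¬ ∀ x ∈ q.2, x ∉ q.1 → x ∉ w := by
  intro h2
  have h3 : ∀ x ∈ q.2, x ∈ q.1 := fun x hx => by
    by_contra hc
    exact h2 x hx hc (h1 x hx)
  obtain ⟨-, h5, h6, -⟩ := Z.pair _ _ h
  have h4 : q.2.toFinset ⊆ q.1.toFinset := by
    intro x hx
    rw [List.mem_toFinset] at hx ⊢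
    exact h3 x hx
  have h7 := Finset.card_le_card h4
  rw [List.toFinset_card_of_nodup h5, List.toFinset_card_of_nodup h6] at h7
  have := (lens Z h).1
  have := Z.hs
  omega

/-- one slot `q` in the window `[a, b]` of the walk `w` with `n` steps is occupied in `w'` -/
structure StR (F : Finset (List Ver × List Ver)) (a b n : ℕ) (w : List Ver)
    (q : List Ver × List Ver) (w' : List Ver) : Prop where
  sw : w ∈ Kw X A n
  sw' : w' ∈ Kw X A (n + Z.s)
  mem : q ∈ Dl Z F (a, b) w
  nm : q ∉ Ol Z F (a, b) w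
  dd : Dl Z F (a, b + Z.s) w' = Dl Z F (a, b) w
  os : ∀ q', q' ∈ Ol Z F (a, b + Z.s) w' ↔ q' = q ∨ q' ∈ Ol Z F (a, b) w
  dlo : ∀ c d, d ≤ a → Dl Z F (c, d) w' = Dl Z F (c, d) w
  olo : ∀ c d, d ≤ a → Ol Z F (c, d) w' = Ol Z F (c, d) w
  dhi : ∀ c d, b ≤ c → Dl Z F (c + Z.s, d + Z.s) w' = Dl Z F (c, d) w
  ohi : ∀ c d, b ≤ c → Ol Z F (c + Z.s, d + Z.s) w' = Ol Z F (c, d) w

/-- the main lemma: one slot is occupied -/
theorem cores {F : Finset (List Ver × List Ver)} (hF : okl F) {n a b : ℕ}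
    {q : List Ver × List Ver} (hq : q ∈ F) (hT : Z.T q.1 q.2) {L R : List Ver}
    (hw : L ++ q.1 ++ R ∈ Kw X A n) (hf : ∀ x ∈ q.2, x ∉ q.1 → x ∉ L ++ q.1 ++ R)
    (ha : a ≤ L.length) (hb : L.length + q.1.length ≤ b + 1) :
    StR Z F a b n (L ++ q.1 ++ R) q (L ++ q.2 ++ R) := by
  obtain ⟨l1, l2⟩ := lens Z hT
  have hw0 := (mem_K Z).mp hw
  obtain ⟨hl, hwalk⟩ := hw0
  obtain ⟨fw, ff⟩ := flip (Z.pair _ _ hT) hwalk hf
  have hn : (L ++ q.1 ++ R).Nodup := hwalk.2.1
  have hn' : (L ++ q.2 ++ R).Nodup := fw.2.1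
  have hw' : L ++ q.2 ++ R ∈ Kw X A (n + Z.s) := by
    rw [mem_K Z]
    refine ⟨?_, fw⟩
    simp only [List.length_append] at hl ⊢
    omega
  have hin : ∀ x ∈ q.2, x ∈ L ++ q.2 ++ R := fun x hx => by simp [hx]
  -- the place `q`
  have q1 : Fre Z (a, b) (L ++ q.1 ++ R) q := ⟨hT, (inn_at (ne1 Z hT) hn).mpr ⟨ha, hb⟩, hf⟩
  have q2 : ∀ T, ¬ Ocp Z T (L ++ q.1 ++ R) q := by
    rintro T ⟨-, ⟨L0, R0, e, -, -⟩, -⟩
    exact nofos Z hT (fun x hx => by rw [e]; simp [hx]) hf
  have q3 : Ocp Z (a, b + Z.s) (L ++ q.2 ++ R) q :=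
    ⟨hT, (inn_at (ne2 Z hT) hn').mpr ⟨ha, by show _ ≤ b + Z.s + 1; omega⟩, ff.2⟩
  have q4 : ∀ T, ¬ Fre Z T (L ++ q.2 ++ R) q := by
    rintro T ⟨-, -, h⟩
    exact nofos Z hT hin h
  -- the other places
  have hoth : ∀ q' ∈ F, q' ≠ q → ∀ x ∈ q.1 ++ q.2, x ∉ q'.1 ++ q'.2 := by
    intro q' hq' hne x hx hx'
    exact hF q hq q' hq' (Ne.symm hne) ⟨x, hx, hx'⟩
  have gen : ∀ T T' : ℕ × ℕ, (∀ V : List Ver, V ≠ [] → (∀ x ∈ q.1 ++ q.2, x ∉ V) →
      (Inn (L ++ q.2 ++ R) V T'.1 T'.2 ↔ Inn (L ++ q.1 ++ R) V T.1 T.2)) →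
      ∀ q' ∈ F, q' ≠ q → ((Fre Z T' (L ++ q.2 ++ R) q' ↔ Fre Z T (L ++ q.1 ++ R) q') ∧
      (Ocp Z T' (L ++ q.2 ++ R) q' ↔ Ocp Z T (L ++ q.1 ++ R) q')) := by
    intro T T' hI q' hq' hne
    by_cases hT' : Z.T q'.1 q'.2
    · exact sw_iff Z hT' (hoth q' hq' hne) hI
    · constructor
      · exact ⟨fun h => absurd h.1 hT', fun h => absurd h.1 hT'⟩
      · exact ⟨fun h => absurd h.1 hT', fun h => absurd h.1 hT'⟩
  have g1 := gen (a, b) (a, b + Z.s) (fun V hV hd =>
    swap1s (ne1 Z hT) (ne2 Z hT) hV hn hn' l1 hd ha hb)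
  have g2 : ∀ c d, d ≤ a → _ := fun c d hda => gen (c, d) (c, d) (fun V hV hd =>
    swap2s (ne1 Z hT) (ne2 Z hT) hV hn hn' l1 hd (le_trans hda ha))
  have g3 : ∀ c d, b ≤ c → _ := fun c d hbc => gen (c, d) (c + Z.s, d + Z.s) (fun V hV hd =>
    swap3s (ne1 Z hT) (ne2 Z hT) hV hn hn' l1 hd (by omega))
  refine ⟨hw, hw', ?_, ?_, ?_, ?_, ?_, ?_, ?_, ?_⟩
  · exact Finset.mem_filter.mpr ⟨hq, Or.inl q1⟩
  · intro h
    exact q2 _ (Finset.mem_filter.mp h).2
  · ext q'
    unfold Dl
    rw [Finset.mem_filter, Finset.mem_filter]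
    refine and_congr_right fun hq' => ?_
    by_cases hne : q' = q
    · rw [hne]
      exact ⟨fun _ => Or.inl q1, fun _ => Or.inr q3⟩
    · rw [(g1 q' hq' hne).1, (g1 q' hq' hne).2]
  · intro q'
    unfold Ol
    rw [Finset.mem_filter, Finset.mem_filter]
    by_cases hne : q' = q
    · rw [hne]
      exact ⟨fun _ => Or.inl rfl, fun _ => ⟨hq, q3⟩⟩
    · constructor
      · rintro ⟨h1, h2⟩
        exact Or.inr ⟨h1, (g1 q' h1 hne).2.mp h2⟩
      · rintro (h | ⟨h1, h2⟩)
        · exact absurd h hne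
        · exact ⟨h1, (g1 q' h1 hne).2.mpr h2⟩
  · intro c d hda
    ext q'
    unfold Dl
    rw [Finset.mem_filter, Finset.mem_filter]
    refine and_congr_right fun hq' => ?_
    by_cases hne : q' = q
    · rw [hne]
      constructor
      · rintro (h | ⟨-, h, -⟩)
        · exact absurd h (q4 _)
        · have := ((inn_at (ne2 Z hT) hn').mp h).2
          simp only at this
          omega
      · rintro (⟨-, h, -⟩ | h)
        · have := ((inn_at (ne1 Z hT) hn).mp h).2
          simp only at this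
          omega
        · exact absurd h (q2 _)
    · rw [(g2 c d hda q' hq' hne).1, (g2 c d hda q' hq' hne).2]
  · intro c d hda
    ext q'
    unfold Ol
    rw [Finset.mem_filter, Finset.mem_filter]
    refine and_congr_right fun hq' => ?_
    by_cases hne : q' = q
    · rw [hne]
      constructor
      · rintro ⟨-, h, -⟩
        have := ((inn_at (ne2 Z hT) hn').mp h).2
        simp only at this
        omega
      · intro h
        exact absurd h (q2 _)
    · exact (g2 c d hda q' hq' hne).2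
  · intro c d hbc
    ext q'
    unfold Dl
    rw [Finset.mem_filter, Finset.mem_filter]
    refine and_congr_right fun hq' => ?_
    by_cases hne : q' = q
    · rw [hne]
      constructor
      · rintro (h | ⟨-, h, -⟩)
        · exact absurd h (q4 _)
        · have := ((inn_at (ne2 Z hT) hn').mp h).1
          simp only at this
          omega
      · rintro (⟨-, h, -⟩ | h)
        · have := ((inn_at (ne1 Z hT) hn).mp h).1
          simp only at this
          omega
        · exact absurd h (q2 _)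
    · rw [(g3 c d hbc q' hq' hne).1, (g3 c d hbc q' hq' hne).2]
  · intro c d hbc
    ext q'
    unfold Ol
    rw [Finset.mem_filter, Finset.mem_filter]
    refine and_congr_right fun hq' => ?_
    by_cases hne : q' = q
    · rw [hne]
      constructor
      · rintro ⟨-, h, -⟩
        have := ((inn_at (ne2 Z hT) hn').mp h).1
        simp only at this
        omega
      · intro h
        exact absurd h (q2 _)
    · exact (g3 c d hbc q' hq' hne).2

/-- the number of the occupied slots -/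
theorem len_les {F : Finset (List Ver × List Ver)} (hF : okl F) (a b : ℕ) (w : List Ver) :
    3 * (Ol Z F (a, b) w).card ≤ b + 1 - a := by
  have h1 : ∑ q ∈ Ol Z F (a, b) w, (q.2.toFinset.image some).card ≤
      ((Finset.Icc a b).image (fun i => w[i]?)).card := by
    rw [← Finset.card_biUnion]
    · refine Finset.card_le_card ?_
      intro y hy
      rw [Finset.mem_biUnion] at hy
      obtain ⟨q, hq, hy⟩ := hy
      rw [Finset.mem_image] at hy
      obtain ⟨x, hx, rfl⟩ := hy
      rw [List.mem_toFinset] at hx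
      exact inn_img (Finset.mem_filter.mp hq).2.2.1 hx
    · intro q hq q' hq' hne
      show Disjoint _ _
      rw [Finset.disjoint_left]
      intro y hy hy'
      rw [Finset.mem_image] at hy hy'
      obtain ⟨x, hx, rfl⟩ := hy
      obtain ⟨x', hx', e⟩ := hy'
      rw [Option.some.injEq] at e
      subst e
      rw [List.mem_toFinset] at hx hx'
      exact hF q (Finset.mem_filter.mp hq).1 q' (Finset.mem_filter.mp hq').1 hne
        ⟨x', by simp [hx], by simp [hx']⟩
  have h2 : ((Finset.Icc a b).image (fun i => w[i]?)).card ≤ b + 1 - a :=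
    Finset.card_image_le.trans (by rw [Nat.card_Icc])
  have h3 : ∀ q ∈ Ol Z F (a, b) w, 3 ≤ (q.2.toFinset.image some).card := by
    intro q hq
    have hT := (Finset.mem_filter.mp hq).2.1
    obtain ⟨-, -, h6, -⟩ := Z.pair _ _ hT
    rw [Finset.card_image_of_injective _ (Option.some_injective _),
      List.toFinset_card_of_nodup h6]
    have := lens Z hT
    have := Z.hs
    omega
  have h4 : 3 * (Ol Z F (a, b) w).card ≤ ∑ q ∈ Ol Z F (a, b) w, (q.2.toFinset.image some).card := by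
    rw [mul_comm, ← smul_eq_mul]
    exact Finset.card_nsmul_le_sum _ _ _ h3
  omega

/-- adding a slot at the times `k, …` -/
def Bls (n k : ℕ) (w : List Ver) (q : List Ver × List Ver) (w' : List Ver) : Prop :=
  w ∈ Kw X A n ∧ w' ∈ Kw X A (n + Z.s) ∧ Z.T q.1 q.2 ∧
    ∃ L R, w = L ++ q.1 ++ R ∧ w' = L ++ q.2 ++ R ∧ L.length = k

/-- adding a slot, with doubled times -/
def Bl1 (n k : ℕ) (w : List Ver) (q : List Ver × List Ver) (w' : List Ver) : Prop :=
  ∃ k', k = 2 * k' ∧ Bls Z (n / 2) k' w q w'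

/-- the slots, with doubled times -/
noncomputable def D1 (L : Finset (List Ver × List Ver)) (T : ℕ × ℕ) (w : List Ver) :
    Finset (List Ver × List Ver) := Dl Z L ((T.1 + 1) / 2, T.2 / 2) w

/-- the occupied slots, with doubled times -/
noncomputable def O1 (L : Finset (List Ver × List Ver)) (T : ℕ × ℕ) (w : List Ver) :
    Finset (List Ver × List Ver) := Ol Z L ((T.1 + 1) / 2, T.2 / 2) w

theorem st_of (hs : Z.s = 1) {F : Finset (List Ver × List Ver)} {a b n : ℕ} {w : List Ver}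
    {q : List Ver × List Ver} {w' : List Ver}
    (h : StR Z F ((a + 1) / 2) (b / 2) (n / 2) w q w') :
    St (fun m => Kw X A (m / 2)) (D1 Z) (O1 Z) F a b n w q w' where
  sw := h.sw
  sw' := by
    have := h.sw'
    rw [hs] at this
    show w' ∈ Kw X A ((n + 2) / 2)
    rw [show (n + 2) / 2 = n / 2 + 1 by omega]
    exact this
  mem := h.mem
  nm := h.nm
  dd := by
    have := h.dd
    rw [hs] at this
    show Dl Z F ((a + 1) / 2, (b + 2) / 2) w' = _
    rw [show (b + 2) / 2 = b / 2 + 1 by omega]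
    exact this
  os := by
    have := h.os
    rw [hs] at this
    ext q'
    rw [@Finset.mem_insert _ (fun a b => Classical.propDecidable (a = b))]
    show q' ∈ Ol Z F ((a + 1) / 2, (b + 2) / 2) w' ↔ _
    rw [show (b + 2) / 2 = b / 2 + 1 by omega]
    exact this q'
  dlo c d _ hd := h.dlo _ _ (show d / 2 ≤ (a + 1) / 2 by omega)
  olo c d _ hd := h.olo _ _ (show d / 2 ≤ (a + 1) / 2 by omega)
  dhi c d hc _ _ := by
    have := h.dhi ((c + 1) / 2) (d / 2) (by omega)
    rw [hs] at this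
    show Dl Z F ((c + 2 + 1) / 2, (d + 2) / 2) w' = _
    rw [show (c + 2 + 1) / 2 = (c + 1) / 2 + 1 by omega, show (d + 2) / 2 = d / 2 + 1 by omega]
    exact this
  ohi c d hc _ _ := by
    have := h.ohi ((c + 1) / 2) (d / 2) (by omega)
    rw [hs] at this
    show Ol Z F ((c + 2 + 1) / 2, (d + 2) / 2) w' = _
    rw [show (c + 2 + 1) / 2 = (c + 1) / 2 + 1 by omega, show (d + 2) / 2 = d / 2 + 1 by omega]
    exact this

/-- **The system of the local replacements which add one step, with doubled times** -/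
noncomputable def sy1 (hs : Z.s = 1) : Sy (List Ver) (List Ver × List Ver) where
  W := fun m => Kw X A (m / 2)
  ok := okl
  D := D1 Z
  O := O1 Z
  Bp := Bl1 Z
  c := 2 * (Z.k - 1)
  D_sub L T w := Finset.filter_subset _ _
  O_sub L T w := by
    intro q hq
    obtain ⟨h1, h2⟩ := Finset.mem_filter.mp hq
    exact Finset.mem_filter.mpr ⟨h1, Or.inr h2⟩
  len L hL a b n w hab _ _ := by
    have h := len_les Z hL ((a + 1) / 2) (b / 2) w
    show 2 * (Ol Z L ((a + 1) / 2, b / 2) w).card ≤ b - a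
    omega
  mv F hF := by
    refine ⟨fun w q => rep w q.1 q.2, fun w q => rep w q.2 q.1, ?_, ?_⟩
    · intro a b n w q hab hbn hw hD hO
      obtain ⟨hqF, hD⟩ := Finset.mem_filter.mp hD
      have hfr : Fre Z ((a + 1) / 2, b / 2) w q := by
        rcases hD with h | h
        · exact h
        · exact absurd (Finset.mem_filter.mpr ⟨hqF, h⟩) hO
      obtain ⟨hT, ⟨L, R, e, h1, h2⟩, h3⟩ := hfr
      simp only at h1 h2
      have hwalk := ((mem_K Z).mp hw).2
      have e1 : rep w q.1 q.2 = L ++ q.2 ++ R := by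
        rw [e]
        exact rep_eq (ne1 Z hT) (by rw [← e]; exact hwalk.2.1)
      have hc := cores Z hF (n := n / 2) (a := (a + 1) / 2) (b := b / 2) hqF hT (L := L) (R := R)
        (by rw [← e]; exact hw) (by rw [← e]; exact h3) h1 h2
      have e2 : rep (L ++ q.2 ++ R) q.2 q.1 = w := by
        rw [e]
        exact rep_eq (ne2 Z hT) ((mem_K Z).mp hc.sw').2.2.1
      simp only [e1]
      refine ⟨?_, ⟨2 * L.length, by omega, ?_, L.length, rfl, hw, hc.sw', hT, L, R, e, rfl, rfl⟩,
        e2⟩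
      · have := hc
        rw [← e] at this
        exact st_of Z hs this
      · have h5 := (Z.len _ _ hT).1
        have h6 := (lens Z hT).2
        show 2 * L.length + 2 * (Z.k - 1) ≤ b
        omega
    · intro a b n w' q hab hbn hw' hO
      obtain ⟨hqF, hT, ⟨L, R, e, h1, h2⟩, h3⟩ := Finset.mem_filter.mp hO
      simp only at h1 h2
      obtain ⟨hl', hwalk'⟩ := (mem_K Z).mp hw'
      rw [e] at hwalk' hl' h3
      obtain ⟨fw, ff⟩ := flip (Z.pair _ _ hT).symm hwalk' h3
      obtain ⟨l1, l2⟩ := lens Z hT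
      have hw : L ++ q.1 ++ R ∈ Kw X A (n / 2) := by
        rw [mem_K Z]
        refine ⟨?_, fw⟩
        simp only [List.length_append] at hl' ⊢
        omega
      have e1 : rep w' q.2 q.1 = L ++ q.1 ++ R := by
        rw [e]
        exact rep_eq (ne2 Z hT) hwalk'.2.1
      have hc := cores Z hF (n := n / 2) (a := (a + 1) / 2) (b := b / 2) hqF hT (L := L) (R := R)
        hw ff.2 h1 (by omega)
      have e2 : rep (L ++ q.1 ++ R) q.1 q.2 = w' := by
        rw [e]
        exact rep_eq (ne1 Z hT) fw.2.1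
      simp only [e1]
      have hw'' : w' ∈ Kw X A (n / 2 + Z.s) := by
        have e3 : (n + 2) / 2 = n / 2 + Z.s := by omega
        rw [← e3]
        exact hw'
      refine ⟨?_, ⟨2 * L.length, by omega, ?_, L.length, rfl, hw, hw'', hT, L, R, rfl, e, rfl⟩, e2⟩
      · have := hc
        rw [← e] at this
        exact st_of Z hs this
      · have h5 := (Z.len _ _ hT).1
        show 2 * L.length + 2 * (Z.k - 1) ≤ b
        omega

end rul

end Pool.Agent.U954.GE
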