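import Pool.Agent.U954.GE.FamW
import Pool.Agent.U954.GE.Lst1

/-!
# One family of places, good in all long windows: moves which add one step
-/

set_option autoImplicit false
set_option linter.unusedVariables false

namespace Pool.Agent.U954.GE

open Finset Pool.Agent.N929.EG Pool.Agent.N169.EG
open scoped Classical

variable {Ver : Type} {X : Geo Ver} {A : Ver → Ver → Prop}

/-- one family with many occupied places in all long windows -/
theorem fam0 {Z : Rul X A} (t : Tra Z) {e : ℕ} (he : Exc Z e) {μ : ℝ} {φ : ℕ → ℝ}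
    (G : Grw Z μ φ) : ∃ (M1 : ℕ) (A0 c C : ℝ), 1 ≤ M1 ∧ 0 < A0 ∧ 0 < c ∧ 0 < C ∧
    ∀ N g : ℕ, 2 ≤ N → A0 * φ N ≤ g → ∀ (RR : Set (List Ver × List Ver)) (Q : List Ver → Prop),
      Dd Z RR Q → ∃ L : Finset (List Ver × List Ver), okl L ∧ (∀ q ∈ L, q ∈ RR) ∧
      ∀ a b : ℕ, a ≤ b → b ≤ N → g ≤ b - a →
        (((Kw X A N).filter (fun w => Q w ∧ ¬ (b - a ≤ M1 * (Ol Z L (a, b) w).card))).card : ℝ) ≤
          C * Real.exp (-(c * g)) * ((Kw X A N).card : ℝ) := by
  obtain ⟨κ, hκ, hsel⟩ := sel' (CC Z)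
  obtain ⟨M0, θ, C', hM0, hθ0, hθ1, hC', hpat⟩ := G.pat
  obtain ⟨M1, hM1⟩ : ∃ M1, M1 = 2 * M0 * κ := ⟨_, rfl⟩
  have hM1p : 1 ≤ M1 := by rw [hM1]; exact Nat.mul_pos (by omega) hκ
  obtain ⟨A0, c, hA, hc, hana⟩ := anaF hθ0 hθ1 hC' hM1p (M := M1) le_rfl (2 * M0 * e)
  have hμ0 : 0 < μ := lt_of_lt_of_le one_pos G.one
  refine ⟨M1, A0, c, C' + 4, hM1p, hA, hc, by positivity,
    fun N g hN hg RR Q hDm => ?_⟩
  obtain ⟨h1, h2⟩ := hana N g (φ N) hN (G.log N hN) hg
  obtain ⟨ι, _, _, Λ, hΛ, hP⟩ := hsel (List Ver × List Ver) inferInstance (UU Z N) Cf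
    (fun q q' => (sys Z).cf_symm q q') ((sys Z).deg N)
  -- the families in `D`
  obtain ⟨L, hL⟩ : ∃ L : ι → Finset (List Ver × List Ver), ∀ i, L i = (Λ i).filter (· ∈ RR) :=
    ⟨fun i => (Λ i).filter (· ∈ RR), fun _ => rfl⟩
  have hLC : ∀ i, okl (L i) := by
    intro i p hp q hq hpq
    rw [hL, mem_filter] at hp hq
    exact (hΛ i).2 p hp.1 q hq.1 hpq
  have hLD : ∀ i, ∀ q ∈ L i, q ∈ RR := by
    intro i q hq
    rw [hL, mem_filter] at hq
    exact hq.2
  obtain ⟨x, hx⟩ : ∃ x : ℝ, x = ((Kw X A N).card : ℝ) := ⟨_, rfl⟩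
  have hx0 : 0 < x := by rw [hx]; exact lt_of_lt_of_le (by positivity) (G.low N)
  -- the walks with few occupied places
  obtain ⟨F, hF⟩ : ∃ F : ℕ × ℕ → List Ver → Prop, ∀ s w, F s w ↔
      M0 * (B Z ((pc w s.1 (s.2 - s.1)).map (t.τ (vx X w s.1)))).card ≤ s.2 - s.1 :=
    ⟨_, fun _ _ => Iff.rfl⟩
  -- the exceptional sets
  obtain ⟨R, hR⟩ : ∃ R : ℕ × ℕ → ι → Finset (List Ver), ∀ s i, R s i =
      (Kw X A N).filter (fun w => Q w ∧ ¬ F s w ∧
        ¬ (s.2 - s.1 ≤ M1 * (Ol Z (L i) (s.1, s.2) w).card)) := ⟨_, fun _ _ => rfl⟩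
  obtain ⟨T, hT⟩ : ∃ T : Finset (ℕ × ℕ), T = (range (N + 1) ×ˢ range (N + 1)).filter
        (fun s => s.1 ≤ s.2 ∧ g ≤ s.2 - s.1) := ⟨_, rfl⟩
  have hTc : ((T.card : ℕ) : ℝ) ≤ ((N : ℝ) + 1) ^ 2 := by
    have : T.card ≤ (N + 1) ^ 2 := by
      rw [hT]
      refine (card_filter_le _ _).trans ?_
      rw [card_product, card_range]
      apply le_of_eq
      ring
    exact_mod_cast this
  have hκR : (0 : ℝ) < κ := by exact_mod_cast hκ
  have hM0R : (0 : ℝ) < M0 := by exact_mod_cast hM0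
  have hRs : ∀ s ∈ T, ∑ i, ((R s i).card : ℝ) ≤
      Real.exp (-((g : ℝ) / M1)) * Fintype.card ι * x := by
    rintro ⟨a, b⟩ ht
    rw [hT, mem_filter] at ht
    obtain ⟨ht1, hab, hg'⟩ := ht
    simp only [mem_product, mem_range] at ht1 hab hg' ⊢
    have hbN : b ≤ N := by omega
    have key : ∀ w ∈ Kw X A N, ((univ.filter (fun i => w ∈ R (a, b) i)).card : ℝ) ≤
        Real.exp (-((g : ℝ) / M1)) * Fintype.card ι := by
      intro w hw
      by_cases hw2 : Q w ∧ ¬ F (a, b) w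
      · obtain ⟨hwD, hwF⟩ := hw2
        rw [hF] at hwF
        simp only at hwF
        obtain ⟨P, hPd⟩ : ∃ P, P = (UU Z N).filter (Ocp Z (a, b) w) := ⟨_, rfl⟩
        have hocc := occ_le t he hab hbN hw
        rw [← hPd] at hocc
        have hPR : ∀ q ∈ P, q ∈ RR := by
          intro q hq
          rw [hPd, mem_filter] at hq
          obtain ⟨-, hq1, ⟨L0, R0, hq2, -⟩, -⟩ := hq
          exact hDm w q hwD hq1 (fun y hy => by rw [hq2]; simp [hy])
        have hPc : b - a ≤ 2 * M0 * P.card := by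
          have h3 : b - a < M0 * (P.card + e) :=
            lt_of_lt_of_le (not_le.mp hwF) (Nat.mul_le_mul_left _ hocc)
          have h4 : 2 * M0 * e ≤ b - a := by omega
          nlinarith
        have hs' := hP P (by rw [hPd]; exact filter_subset _ _)
        have hs : ((univ.filter (fun i => κ * (Λ i ∩ P).card < P.card)).card : ℝ) ≤
            Real.exp (-((P.card : ℝ) / κ)) * Fintype.card ι := hs'
        have hsub : (univ.filter (fun i => w ∈ R (a, b) i)).card ≤
            (univ.filter (fun i => κ * (Λ i ∩ P).card < P.card)).card := by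
          refine card_le_card (fun i hi => ?_)
          rw [mem_filter] at hi ⊢
          refine ⟨mem_univ _, ?_⟩
          obtain ⟨-, hi⟩ := hi
          rw [hR, mem_filter] at hi
          obtain ⟨-, -, -, hi⟩ := hi
          simp only at hi
          by_contra hcon
          push Not at hcon
          apply hi
          have h5 : (Λ i ∩ P).card ≤ (Ol Z (L i) (a, b) w).card := by
            refine card_le_card (fun p hp => ?_)
            rw [mem_inter] at hp
            have hp2 := hp.2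
            rw [hPd, mem_filter] at hp2
            unfold Ol
            rw [hL, mem_filter, mem_filter]
            exact ⟨⟨hp.1, hPR p hp.2⟩, hp2.2⟩
          calc b - a ≤ 2 * M0 * P.card := hPc
            _ ≤ 2 * M0 * (κ * (Λ i ∩ P).card) := Nat.mul_le_mul_left _ hcon
            _ ≤ 2 * M0 * (κ * (Ol Z (L i) (a, b) w).card) :=
                Nat.mul_le_mul_left _ (Nat.mul_le_mul_left _ h5)
            _ = _ := by rw [hM1]; ring
        calc ((univ.filter (fun i => w ∈ R (a, b) i)).card : ℝ) ≤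
            ((univ.filter (fun i => κ * (Λ i ∩ P).card < P.card)).card : ℝ) := by
              exact_mod_cast hsub
          _ ≤ Real.exp (-((P.card : ℝ) / κ)) * Fintype.card ι := hs
          _ ≤ _ := by
              refine mul_le_mul_of_nonneg_right (Real.exp_le_exp.mpr ?_) (Nat.cast_nonneg _)
              have h6 : g ≤ 2 * M0 * P.card := by omega
              have h7 : (g : ℝ) ≤ 2 * M0 * P.card := by exact_mod_cast h6
              rw [neg_le_neg_iff, hM1]
              push_cast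
              rw [div_le_div_iff₀ (by positivity) hκR]
              nlinarith
      · have : univ.filter (fun i => w ∈ R (a, b) i) = ∅ := by
          refine filter_eq_empty_iff.mpr fun i _ hi => hw2 ?_
          rw [hR, mem_filter] at hi
          exact ⟨hi.2.1, hi.2.2.1⟩
        rw [this, card_empty, Nat.cast_zero]
        positivity
    have hswap : ∑ i, ((R (a, b) i).card : ℝ) =
        ∑ w ∈ Kw X A N, ((univ.filter (fun i => w ∈ R (a, b) i)).card : ℝ) := by
      have e1 : ∀ i, ((R (a, b) i).card : ℝ) =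
          ∑ w ∈ Kw X A N, if w ∈ R (a, b) i then (1 : ℝ) else 0 := by
        intro i
        rw [← sum_filter, sum_const, nsmul_eq_mul, mul_one]
        congr 2
        ext w
        rw [mem_filter]
        constructor
        · intro h
          refine ⟨?_, h⟩
          rw [hR, mem_filter] at h
          exact h.1
        · exact fun h => h.2
      simp_rw [e1]
      rw [sum_comm]
      refine sum_congr rfl fun w _ => ?_
      rw [← sum_filter, sum_const, nsmul_eq_mul, mul_one]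
    rw [hswap]
    calc _ ≤ ∑ w ∈ Kw X A N, Real.exp (-((g : ℝ) / M1)) * Fintype.card ι := sum_le_sum key
      _ = _ := by rw [sum_const, nsmul_eq_mul, hx]; ring
  -- the choice of the family
  obtain ⟨i, -, hi⟩ : ∃ i ∈ (univ : Finset ι), ∑ s ∈ T, ((R s i).card : ℝ) ≤
      ((N : ℝ) + 1) ^ 2 * Real.exp (-((g : ℝ) / M1)) * x := by
    refine exists_le_of_sum_le univ_nonempty ?_
    rw [sum_comm, sum_const, nsmul_eq_mul]
    calc _ ≤ ∑ s ∈ T, Real.exp (-((g : ℝ) / M1)) * Fintype.card ι * x := sum_le_sum hRs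
      _ = (T.card : ℝ) * (Real.exp (-((g : ℝ) / M1)) * Fintype.card ι * x) := by
          rw [sum_const, nsmul_eq_mul]
      _ ≤ ((N : ℝ) + 1) ^ 2 * (Real.exp (-((g : ℝ) / M1)) * Fintype.card ι * x) :=
          mul_le_mul_of_nonneg_right hTc (by positivity)
      _ = _ := by rw [card_univ]; ring
  refine ⟨L i, hLC i, hLD i, fun a b hab hbN hgab => ?_⟩
  have hgab' : (g : ℝ) ≤ ((b - a : ℕ) : ℝ) := by exact_mod_cast hgab
  -- the two parts
  have p1 : ((R (a, b) i).card : ℝ) ≤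
      ((N : ℝ) + 1) ^ 2 * Real.exp (-((g : ℝ) / M1)) * x := by
    have ht : (a, b) ∈ T := by
      rw [hT, mem_filter]
      simp only [mem_product, mem_range]
      omega
    have h3 := single_le_sum (f := fun s => ((R s i).card : ℝ))
      (fun s _ => by positivity) ht
    exact h3.trans hi
  have p2 : (((Kw X A N).filter (F (a, b))).card : ℝ) ≤
      C' * θ ^ (b - a) * Real.exp (2 * φ N) * x := by
    rw [hx]
    have h3 := few t G hθ0 hC' hpat hN hab hbN
    refine le_trans (le_of_eq ?_) h3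
    congr 2
    ext w
    rw [mem_filter, mem_filter, hF]
  have hsub : (Kw X A N).filter (fun w => Q w ∧ ¬ (b - a ≤ M1 * (Ol Z (L i) (a, b) w).card)) ⊆
      (Kw X A N).filter (F (a, b)) ∪ R (a, b) i := by
    intro w hw
    rw [mem_filter] at hw
    obtain ⟨hw1, hw2, hw3⟩ := hw
    rw [mem_union, mem_filter, hR, mem_filter]
    by_cases hf : F (a, b) w
    · exact Or.inl ⟨hw1, hf⟩
    · exact Or.inr ⟨hw1, hw2, hf, hw3⟩
  have h3 := h2 (b - a) hgab
  have h4 : (0 : ℝ) ≤ (2 / 7 : ℝ) ^ ((b - a) / M1) * Real.exp (φ N) := by positivity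
  calc _ ≤ ((((Kw X A N).filter (F (a, b))).card + (R (a, b) i).card : ℕ) : ℝ) := by
        exact_mod_cast (card_le_card hsub).trans (card_union_le _ _)
    _ ≤ C' * θ ^ (b - a) * Real.exp (2 * φ N) * x +
        ((N : ℝ) + 1) ^ 2 * Real.exp (-((g : ℝ) / M1)) * x := by
        push_cast
        linarith
    _ = (C' * θ ^ (b - a) * Real.exp (2 * φ N) +
        ((N : ℝ) + 1) ^ 2 * Real.exp (-((g : ℝ) / M1))) * x := by ring
    _ ≤ (C' + 4) * Real.exp (-(c * g)) * x :=
        mul_le_mul_of_nonneg_right (by linarith) hx0.le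
    _ = _ := by rw [hx]

/-- the growth function of the system with doubled times -/
def ph (φ : ℕ → ℝ) (m : ℕ) : ℝ := φ (max 2 (m / 2))

/-- one family for all long windows, for moves which add one step -/
theorem famw1 {Z : Rul X A} (hs : Z.s = 1) (t : Tra Z) {e : ℕ} (he : Exc Z e) {μ : ℝ} {φ : ℕ → ℝ}
    (G : Grw Z μ φ) : FamP (sy1 Z hs) (ph φ) (Dd Z) := by
  obtain ⟨M1, A1, c1, C1, hM1, hA1, hc1, hC1, h⟩ := fam0 t he G
  obtain ⟨A2, c2, hA2, hc2, hana⟩ := anaF (θ := 1 / 2) (C' := 0) (by norm_num) (by norm_num) le_rfl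
    (M1 := 1) (M := 32 * M1) le_rfl (by omega) 0
  have hμ0 : 0 < μ := lt_of_lt_of_le one_pos G.one
  obtain ⟨c, hcd⟩ : ∃ c : ℝ, c = min (c1 / 3) c2 := ⟨_, rfl⟩
  have hc0 : 0 < c := by rw [hcd]; exact lt_min (by positivity) hc2
  have hcc1 : c ≤ c1 / 3 := by rw [hcd]; exact min_le_left _ _
  have hcc2 : c ≤ c2 := by rw [hcd]; exact min_le_right _ _
  refine ⟨32 * M1, 3 * A1 + A2 + 100, c, C1 * Real.exp c1 + 4, by omega, by positivity, hc0,
    by positivity, fun N' g' hN' hg' RR Q hDm => ?_⟩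
  obtain ⟨n, hn⟩ : ∃ n, n = N' / 2 := ⟨_, rfl⟩
  have hlog2 : (0.69 : ℝ) ≤ Real.log 2 := by
    have := Real.log_two_gt_d9
    linarith
  have hph : (0.69 : ℝ) ≤ ph φ N' := by
    have h1 := G.log (max 2 (N' / 2)) (le_max_left _ _)
    have h2 : Real.log 2 ≤ Real.log ((max 2 (N' / 2) : ℕ) : ℝ) :=
      Real.log_le_log (by norm_num) (by exact_mod_cast le_max_left _ _)
    exact hlog2.trans (h2.trans h1)
  have hg69 : (69 : ℝ) ≤ g' := by
    have h1 : 100 * (0.69 : ℝ) ≤ (3 * A1 + A2 + 100) * ph φ N' :=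
      mul_le_mul (by linarith) hph (by norm_num) (by positivity)
    linarith
  have hg69' : 69 ≤ g' := by exact_mod_cast hg69
  by_cases hn2 : n < 2
  · refine ⟨∅, fun q hq => absurd hq (notMem_empty _), fun q hq => absurd hq (notMem_empty _),
      fun a b hab hb hgab => ?_⟩
    omega
  push Not at hn2
  have hphn : ph φ N' = φ n := by
    unfold ph
    rw [← hn, max_eq_right hn2]
  rw [hphn] at hph hg'
  have hA1' : 0 ≤ A1 * φ n := by positivity
  have hA2' : 0 ≤ A2 * φ n := by positivity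
  obtain ⟨g, hg⟩ : ∃ g, g = g' / 3 := ⟨_, rfl⟩
  have hg1 : g' ≤ 3 * g + 2 := by omega
  have hg1' : (g' : ℝ) ≤ 3 * g + 2 := by exact_mod_cast hg1
  have hA1g : A1 * φ n ≤ g := by
    have : (3 * A1 + A2 + 100) * φ n = 3 * (A1 * φ n) + A2 * φ n + 100 * φ n := by ring
    linarith
  have hA2g : A2 * φ n ≤ g' := by
    have : (3 * A1 + A2 + 100) * φ n = 3 * (A1 * φ n) + A2 * φ n + 100 * φ n := by ring
    linarith
  obtain ⟨L, hL1, hL2, hL3⟩ := h n g hn2 hA1g RR Q hDm
  obtain ⟨-, hana2⟩ := hana n g' (φ n) hn2 (G.log n hn2) hA2g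
  refine ⟨L, hL1, hL2, fun a b hab hbN hgab => ?_⟩
  obtain ⟨x, hx⟩ : ∃ x : ℝ, x = ((Kw X A n).card : ℝ) := ⟨_, rfl⟩
  have hx0 : 0 < x := by rw [hx]; exact lt_of_lt_of_le (by positivity) (G.low n)
  obtain ⟨T, hT⟩ : ∃ T, T = (b - a) / (32 * M1) := ⟨_, rfl⟩
  have hW : (sy1 Z hs).W N' = Kw X A n := by rw [hn]; rfl
  have p1 := hL3 ((a + 1) / 2) (b / 2) (by omega) (by omega) (by omega)
  have p3 : (((Kw X A n).filter (fun w => 8 * T ≤ (O1 Z L (a, b) w).card ∧
      (D1 Z L (a, b) w).card ≤ (O1 Z L (a, b) w).card + T)).card : ℝ) ≤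
      4 * Real.exp (-(c2 * g')) * x := by
    have q1 := offs (Y := sy1 Z hs) (L := L) hL1 (N := N') (t := T) hab hbN
    rw [hW] at q1
    refine le_trans (le_of_eq rfl) (q1.trans ?_)
    have hW2 : (sy1 Z hs).W (N' - 2 * T) = Kw X A (n - T) := by
      show Kw X A ((N' - 2 * T) / 2) = _
      congr 1
      omega
    rw [hW2]
    have g4 := G.up n (n - T) hn2 (by omega)
    have g5 : μ ^ (n - T) ≤ x := by
      rw [hx]
      refine le_trans ?_ (G.low n)
      exact pow_le_pow_right₀ G.one (by omega)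
    have h5 := hana2 (b - a) hgab
    rw [← hT] at h5
    have h6 : 0 ≤ ((n : ℝ) + 1) ^ 2 * Real.exp (-((g' : ℝ) / ((1 : ℕ) : ℝ))) := by positivity
    have h7 : (2 / 7 : ℝ) ^ T * Real.exp (φ n) ≤ 4 * Real.exp (-(c2 * g')) := by
      have h8 : (0 : ℝ) * (1 / 2) ^ (b - a) * Real.exp (2 * φ n) = 0 := by ring
      linarith
    calc (2 / 7 : ℝ) ^ T * ((Kw X A (n - T)).card : ℝ)
        ≤ (2 / 7 : ℝ) ^ T * (x * Real.exp (φ n)) := by
          refine mul_le_mul_of_nonneg_left (g4.trans ?_) (by positivity)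
          gcongr
      _ = (2 / 7 : ℝ) ^ T * Real.exp (φ n) * x := by ring
      _ ≤ _ := mul_le_mul_of_nonneg_right h7 hx0.le
  rw [hW, ← hx]
  have hsub : (Kw X A n).filter (fun w => Q w ∧ ¬ G3 (sy1 Z hs) (32 * M1) L a b w) ⊆
      (Kw X A n).filter (fun w => Q w ∧
        ¬ (b / 2 - (a + 1) / 2 ≤ M1 * (Ol Z L ((a + 1) / 2, b / 2) w).card)) ∪
      (Kw X A n).filter (fun w => 8 * T ≤ (O1 Z L (a, b) w).card ∧
        (D1 Z L (a, b) w).card ≤ (O1 Z L (a, b) w).card + T) := by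
    intro w hw
    rw [mem_filter] at hw
    obtain ⟨hw1, hw2, hw3⟩ := hw
    rw [mem_union, mem_filter, mem_filter]
    by_contra hcon
    push Not at hcon
    obtain ⟨k1, k2⟩ := hcon
    have k1' := k1 hw1 hw2
    have k4 : 8 * T ≤ (O1 Z L (a, b) w).card := by
      have h3 : 32 * M1 * T ≤ b - a := by rw [hT]; exact Nat.mul_div_le _ _
      have h4 : M1 * (8 * T) ≤ M1 * (Ol Z L ((a + 1) / 2, b / 2) w).card := by
        have e4 : 32 * M1 * T = 4 * (M1 * (8 * T)) := by ring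
        omega
      exact Nat.le_of_mul_le_mul_left h4 (by omega)
    have k2' := k2 hw1 k4
    apply hw3
    unfold G3
    show (b - a) / (32 * M1) ≤ (O1 Z L (a, b) w).card ∧
      (O1 Z L (a, b) w).card + (b - a) / (32 * M1) ≤ (D1 Z L (a, b) w).card
    rw [← hT]
    omega
  have e1 : Real.exp (-(c1 * g)) ≤ Real.exp c1 * Real.exp (-(c * g')) := by
    rw [← Real.exp_add]
    apply Real.exp_le_exp.mpr
    have h3 : c * g' ≤ c1 / 3 * g' := mul_le_mul_of_nonneg_right hcc1 (by positivity)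
    have h4 : c1 / 3 * g' ≤ c1 / 3 * (3 * g + 2) := mul_le_mul_of_nonneg_left hg1' (by positivity)
    linarith
  have e2 : Real.exp (-(c2 * g')) ≤ Real.exp (-(c * g')) := by
    apply Real.exp_le_exp.mpr
    have h3 : c * g' ≤ c2 * g' := mul_le_mul_of_nonneg_right hcc2 (by positivity)
    linarith
  rw [← hx] at p1
  calc _ ≤ ((((Kw X A n).filter (fun w => Q w ∧
        ¬ (b / 2 - (a + 1) / 2 ≤ M1 * (Ol Z L ((a + 1) / 2, b / 2) w).card))).card +
      ((Kw X A n).filter (fun w => 8 * T ≤ (O1 Z L (a, b) w).card ∧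
        (D1 Z L (a, b) w).card ≤ (O1 Z L (a, b) w).card + T)).card : ℕ) : ℝ) := by
        exact_mod_cast (card_le_card hsub).trans (card_union_le _ _)
    _ ≤ C1 * Real.exp (-(c1 * g)) * x + 4 * Real.exp (-(c2 * g')) * x := by
        push_cast
        linarith
    _ ≤ C1 * (Real.exp c1 * Real.exp (-(c * g'))) * x + 4 * Real.exp (-(c * g')) * x := by
        gcongr
    _ = _ := by ring

end Pool.Agent.U954.GE
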