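import Pool.Agent.U954.GE.Few
import Pool.Agent.U954.GE.Eng2
import Pool.Agent.N547.EG.SEL

/-!
# One family of places in a domain, good in all long windows
-/

set_option autoImplicit false
set_option linter.unusedVariables false

namespace Pool.Agent.U954.GE

open Finset Pool.Agent.N929.EG Pool.Agent.N169.EG
open scoped Classical

variable {Ver : Type}

/-- the real analysis of the error terms -/
theorem anaF {θ C' : ℝ} (hθ0 : 0 < θ) (hθ1 : θ < 1) (hC' : 0 ≤ C') {M M1 : ℕ} (hM1 : 1 ≤ M1)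
    (hMM : M1 ≤ M) (E : ℕ) : ∃ A c : ℝ, 0 < A ∧ 0 < c ∧ ∀ (N g : ℕ) (l : ℝ), 2 ≤ N →
      Real.log N ≤ l → A * l ≤ g → E ≤ g ∧
      ∀ g' : ℕ, g ≤ g' → C' * θ ^ g' * Real.exp (2 * l) +
          (2 / 7 : ℝ) ^ (g' / M) * Real.exp l +
          ((N : ℝ) + 1) ^ 2 * Real.exp (-((g : ℝ) / M1)) ≤ (C' + 4) * Real.exp (-(c * g)) := by
  obtain ⟨lam, hlam⟩ : ∃ lam : ℝ, lam = Real.log (1 / θ) := ⟨_, rfl⟩
  have hlam0 : 0 < lam := by rw [hlam]; exact Real.log_pos (by rw [lt_div_iff₀ hθ0]; linarith)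
  have hM1' : (1 : ℝ) ≤ M1 := by exact_mod_cast hM1
  have hMM' : (M1 : ℝ) ≤ M := by exact_mod_cast hMM
  have hM' : (1 : ℝ) ≤ M := hM1'.trans hMM'
  obtain ⟨c, hc⟩ : ∃ c : ℝ, c = min (lam / 2) (1 / (2 * M)) := ⟨_, rfl⟩
  have hc0 : 0 < c := by rw [hc]; exact lt_min (by positivity) (by positivity)
  have hc1 : 2 * c ≤ lam := by
    have : c ≤ lam / 2 := by rw [hc]; exact min_le_left _ _
    linarith
  have hc2 : 2 * c ≤ 1 / M := by
    have : c ≤ 1 / (2 * M) := by rw [hc]; exact min_le_right _ _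
    have e : (1 : ℝ) / M = 2 * (1 / (2 * M)) := by field_simp
    rw [e]
    linarith
  have hc3 : 2 * c ≤ 1 / M1 := hc2.trans (by
    apply one_div_le_one_div_of_le (by linarith) hMM')
  refine ⟨10 / c + 2 * E, c, by positivity, hc0, fun N g l hN hl hg => ?_⟩
  have hN' : (2 : ℝ) ≤ N := by exact_mod_cast hN
  have hl0 : (0.69 : ℝ) ≤ l := by
    have h1 : Real.log 2 ≤ Real.log N := Real.log_le_log (by norm_num) hN'
    have := Real.log_two_gt_d9
    linarith
  have hE0 : (0 : ℝ) ≤ E := Nat.cast_nonneg _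
  have hq : 0 ≤ 10 / c * l := by positivity
  have hEg : (E : ℝ) ≤ g := by nlinarith
  have hcg : 10 * l ≤ c * g := by
    have h1 : 10 / c * l ≤ (g : ℝ) := by nlinarith
    have h2 := mul_le_mul_of_nonneg_left h1 hc0.le
    have e : c * (10 / c * l) = 10 * l := by field_simp
    linarith
  refine ⟨by exact_mod_cast hEg, fun g' hgg => ?_⟩
  have hgg' : (g : ℝ) ≤ g' := by exact_mod_cast hgg
  have hg0 : (0 : ℝ) ≤ g := Nat.cast_nonneg g
  have f1 : C' * θ ^ g' * Real.exp (2 * l) ≤ C' * Real.exp (-(c * g)) := by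
    rw [mul_assoc]
    refine mul_le_mul_of_nonneg_left ?_ hC'
    have e1 : θ ^ g' = Real.exp (-(lam * g')) := by
      rw [hlam, one_div, Real.log_inv, ← Real.rpow_natCast, Real.rpow_def_of_pos hθ0]
      congr 1
      ring
    rw [e1, ← Real.exp_add]
    apply Real.exp_le_exp.mpr
    have h1 : 2 * c * g ≤ lam * g' := mul_le_mul hc1 hgg' hg0 hlam0.le
    linarith
  have f2 : (2 / 7 : ℝ) ^ (g' / M) * Real.exp l ≤ 3 * Real.exp (-(c * g)) := by
    obtain ⟨m, hm⟩ : ∃ m : ℕ, m = g' / M := ⟨_, rfl⟩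
    rw [← hm]
    have hm1 : g' < M * (m + 1) := by
      rw [hm]
      exact Nat.lt_mul_div_succ g' (by omega)
    have hm2 : (g' : ℝ) < M * ((m : ℝ) + 1) := by exact_mod_cast hm1
    have hp : (2 / 7 : ℝ) ^ m ≤ Real.exp (-(m : ℝ)) := by
      have h7 : (2.7182818286 : ℝ) > Real.exp 1 := Real.exp_one_lt_d9
      have h9 : (2 / 7 : ℝ) ≤ Real.exp (-1) := by
        rw [Real.exp_neg, ← one_div, div_le_div_iff₀ (by norm_num) (Real.exp_pos _)]
        linarith
      calc (2 / 7 : ℝ) ^ m ≤ Real.exp (-1) ^ m := pow_le_pow_left₀ (by norm_num) h9 m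
        _ = Real.exp (-(m : ℝ)) := by rw [← Real.exp_nat_mul]; ring_nf
    have hm3 : 2 * c * g ≤ m + 1 := by
      have h1 : (g' : ℝ) / M ≤ m + 1 := by
        rw [div_le_iff₀ (by linarith)]
        linarith
      have h2 : 2 * c * g ≤ 1 / M * g' := mul_le_mul hc2 hgg' hg0 (by positivity)
      have e : 1 / (M : ℝ) * g' = g' / M := by ring
      linarith
    calc (2 / 7 : ℝ) ^ m * Real.exp l ≤ Real.exp (-(m : ℝ)) * Real.exp l := by gcongr
      _ = Real.exp (-(m : ℝ) + l) := by rw [Real.exp_add]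
      _ ≤ Real.exp (1 + -(c * g)) := by
          apply Real.exp_le_exp.mpr
          linarith
      _ = Real.exp 1 * Real.exp (-(c * g)) := by rw [Real.exp_add]
      _ ≤ 3 * Real.exp (-(c * g)) := by
          have := Real.exp_one_lt_d9
          refine mul_le_mul_of_nonneg_right (by linarith) (Real.exp_pos _).le
  have f3 : ((N : ℝ) + 1) ^ 2 * Real.exp (-((g : ℝ) / M1)) ≤ 1 * Real.exp (-(c * g)) := by
    have h1 : (N : ℝ) + 1 ≤ Real.exp (2 * l) := by
      have h2 : (N : ℝ) + 1 ≤ Real.exp (2 * Real.log N) := by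
        rw [two_mul, Real.exp_add, Real.exp_log (by linarith)]
        nlinarith
      exact h2.trans (Real.exp_le_exp.mpr (by linarith))
    calc ((N : ℝ) + 1) ^ 2 * Real.exp (-((g : ℝ) / M1))
        ≤ Real.exp (2 * l) ^ 2 * Real.exp (-((g : ℝ) / M1)) := by gcongr
      _ = Real.exp (4 * l + -((g : ℝ) / M1)) := by
          rw [← Real.exp_nat_mul, ← Real.exp_add]
          congr 1
          push_cast
          ring
      _ ≤ 1 * Real.exp (-(c * g)) := by
          rw [one_mul]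
          apply Real.exp_le_exp.mpr
          have h2 : 2 * c * g ≤ 1 / M1 * g := mul_le_mul_of_nonneg_right hc3 hg0
          have e : 1 / (M1 : ℝ) * g = g / M1 := by ring
          linarith
  have h2 := Real.exp_pos (-(c * g))
  linarith

section rul

variable {X : Geo Ver} {A : Ver → Ver → Prop}

/-- the places which are occupied in a walk with `Q` are in `R` -/
def Dd (Z : Rul X A) (R : Set (List Ver × List Ver)) (Q : List Ver → Prop) : Prop :=
  ∀ w q, Q w → Z.T q.1 q.2 → (∀ x ∈ q.2, x ∈ w) → q ∈ R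

/-- the selection of a family, for all instances -/
theorem sel' (d : ℕ) : ∃ κ : ℕ, 1 ≤ κ ∧ ∀ (σ : Type) (dec : DecidableEq σ) (U : Finset σ)
    (cf : σ → σ → Prop),
    (∀ q q', cf q q' → cf q' q) → (∀ q ∈ U, (U.filter (fun q' => cf q q')).card ≤ d) →
    ∃ (ι : Type) (_ : Fintype ι) (_ : Nonempty ι) (Λ : ι → Finset σ),
      (∀ i, Λ i ⊆ U ∧ ∀ q ∈ Λ i, ∀ q' ∈ Λ i, q ≠ q' → ¬ cf q q') ∧
      ∀ P ⊆ U, ((univ.filter (fun i => κ * (Λ i ∩ P).card < P.card)).card : ℝ) ≤
        Real.exp (-((P.card : ℝ) / κ)) * Fintype.card ι := by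
  obtain ⟨κ, h1, h2⟩ := Pool.Agent.N547.EG.Sel.sel d
  refine ⟨κ, h1, fun σ dec U cf hs hd => ?_⟩
  have e : dec = (fun a b => Classical.propDecidable (a = b)) := Subsingleton.elim _ _
  subst e
  exact h2 σ U cf hs hd

/-- one family for all long windows -/
theorem famw {Z : Rul X A} (hs : Z.s = 2) (t : Tra Z) {e : ℕ} (he : Exc Z e) {μ : ℝ} {φ : ℕ → ℝ}
    (G : Grw Z μ φ) : FamP (sy Z hs) φ (Dd Z) := by
  obtain ⟨κ, hκ, hsel⟩ := sel' (CC Z)
  obtain ⟨M0, θ, C', hM0, hθ0, hθ1, hC', hpat⟩ := G.pat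
  obtain ⟨M1, hM1⟩ : ∃ M1, M1 = 2 * M0 * κ := ⟨_, rfl⟩
  have hM1p : 1 ≤ M1 := by rw [hM1]; exact Nat.mul_pos (by omega) hκ
  obtain ⟨M, hM⟩ : ∃ M, M = 8 * M1 := ⟨_, rfl⟩
  obtain ⟨A0, c, hA, hc, hana⟩ := anaF hθ0 hθ1 hC' hM1p (M := M) (by omega) (2 * M0 * e)
  have hμ0 : 0 < μ := lt_of_lt_of_le one_pos G.one
  refine ⟨M, A0, c, C' + 4, by omega, hA, hc, by positivity,
    fun N g hN hg RR Q hDm => ?_⟩
  obtain ⟨h1, h2⟩ := hana N g (φ N) hN (G.log N hN) hg
  obtain ⟨ι, _, _, Λ, hΛ, hP⟩ := hsel (List Ver × List Ver) inferInstance (UU Z N) Cf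
    (fun q q' => (sys Z).cf_symm q q') ((sys Z).deg N)
  -- the families in `D`
  obtain ⟨L, hL⟩ : ∃ L : ι → Finset (List Ver × List Ver), ∀ i, L i = (Λ i).filter (· ∈ RR) :=
    ⟨fun i => (Λ i).filter (· ∈ RR), fun _ => rfl⟩
  have hLC : ∀ i, okl (L i) := by
    intro i p hp q hq hpq
    rw [hL, mem_filter] at hp hq
    exact (hΛ i).2 p hp.1 q hq.1 hpq
  have hLD : ∀ i, ∀ q ∈ L i, q ∈ RR := by
    intro i q hq
    rw [hL, mem_filter] at hq
    exact hq.2
  obtain ⟨x, hx⟩ : ∃ x : ℝ, x = ((Kw X A N).card : ℝ) := ⟨_, rfl⟩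
  have hx0 : 0 < x := by rw [hx]; exact lt_of_lt_of_le (by positivity) (G.low N)
  -- the walks with few occupied places
  obtain ⟨F, hF⟩ : ∃ F : ℕ × ℕ → List Ver → Prop, ∀ s w, F s w ↔
      M0 * (B Z ((pc w s.1 (s.2 - s.1)).map (t.τ (vx X w s.1)))).card ≤ s.2 - s.1 :=
    ⟨_, fun _ _ => Iff.rfl⟩
  -- the exceptional sets
  obtain ⟨R, hR⟩ : ∃ R : ℕ × ℕ → ι → Finset (List Ver), ∀ s i, R s i =
      (Kw X A N).filter (fun w => Q w ∧ ¬ F s w ∧
        ¬ (s.2 - s.1 ≤ M1 * (Ol Z (L i) (s.1, s.2) w).card)) := ⟨_, fun _ _ => rfl⟩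
  obtain ⟨T, hT⟩ : ∃ T : Finset (ℕ × ℕ), T = (range (N + 1) ×ˢ range (N + 1)).filter
        (fun s => s.1 ≤ s.2 ∧ g ≤ s.2 - s.1) := ⟨_, rfl⟩
  have hTc : ((T.card : ℕ) : ℝ) ≤ ((N : ℝ) + 1) ^ 2 := by
    have : T.card ≤ (N + 1) ^ 2 := by
      rw [hT]
      refine (card_filter_le _ _).trans ?_
      rw [card_product, card_range]
      apply le_of_eq
      ring
    exact_mod_cast this
  have hκR : (0 : ℝ) < κ := by exact_mod_cast hκ
  have hM0R : (0 : ℝ) < M0 := by exact_mod_cast hM0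
  have hRs : ∀ s ∈ T, ∑ i, ((R s i).card : ℝ) ≤
      Real.exp (-((g : ℝ) / M1)) * Fintype.card ι * x := by
    rintro ⟨a, b⟩ ht
    rw [hT, mem_filter] at ht
    obtain ⟨ht1, hab, hg'⟩ := ht
    simp only [mem_product, mem_range] at ht1 hab hg' ⊢
    have hbN : b ≤ N := by omega
    have key : ∀ w ∈ Kw X A N, ((univ.filter (fun i => w ∈ R (a, b) i)).card : ℝ) ≤
        Real.exp (-((g : ℝ) / M1)) * Fintype.card ι := by
      intro w hw
      by_cases hw2 : Q w ∧ ¬ F (a, b) w
      · obtain ⟨hwD, hwF⟩ := hw2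
        rw [hF] at hwF
        simp only at hwF
        obtain ⟨P, hPd⟩ : ∃ P, P = (UU Z N).filter (Ocp Z (a, b) w) := ⟨_, rfl⟩
        have hocc := occ_le t he hab hbN hw
        rw [← hPd] at hocc
        have hPR : ∀ q ∈ P, q ∈ RR := by
          intro q hq
          rw [hPd, mem_filter] at hq
          obtain ⟨-, hq1, ⟨L0, R0, hq2, -⟩, -⟩ := hq
          exact hDm w q hwD hq1 (fun y hy => by rw [hq2]; simp [hy])
        have hPc : b - a ≤ 2 * M0 * P.card := by
          have h3 : b - a < M0 * (P.card + e) :=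
            lt_of_lt_of_le (not_le.mp hwF) (Nat.mul_le_mul_left _ hocc)
          have h4 : 2 * M0 * e ≤ b - a := by omega
          nlinarith
        have hs' := hP P (by rw [hPd]; exact filter_subset _ _)
        have hs : ((univ.filter (fun i => κ * (Λ i ∩ P).card < P.card)).card : ℝ) ≤
            Real.exp (-((P.card : ℝ) / κ)) * Fintype.card ι := hs'
        have hsub : (univ.filter (fun i => w ∈ R (a, b) i)).card ≤
            (univ.filter (fun i => κ * (Λ i ∩ P).card < P.card)).card := by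
          refine card_le_card (fun i hi => ?_)
          rw [mem_filter] at hi ⊢
          refine ⟨mem_univ _, ?_⟩
          obtain ⟨-, hi⟩ := hi
          rw [hR, mem_filter] at hi
          obtain ⟨-, -, -, hi⟩ := hi
          simp only at hi
          by_contra hcon
          push Not at hcon
          apply hi
          have h5 : (Λ i ∩ P).card ≤ (Ol Z (L i) (a, b) w).card := by
            refine card_le_card (fun p hp => ?_)
            rw [mem_inter] at hp
            have hp2 := hp.2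
            rw [hPd, mem_filter] at hp2
            unfold Ol
            rw [hL, mem_filter, mem_filter]
            exact ⟨⟨hp.1, hPR p hp.2⟩, hp2.2⟩
          calc b - a ≤ 2 * M0 * P.card := hPc
            _ ≤ 2 * M0 * (κ * (Λ i ∩ P).card) := Nat.mul_le_mul_left _ hcon
            _ ≤ 2 * M0 * (κ * (Ol Z (L i) (a, b) w).card) :=
                Nat.mul_le_mul_left _ (Nat.mul_le_mul_left _ h5)
            _ = _ := by rw [hM1]; ring
        calc ((univ.filter (fun i => w ∈ R (a, b) i)).card : ℝ) ≤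
            ((univ.filter (fun i => κ * (Λ i ∩ P).card < P.card)).card : ℝ) := by
              exact_mod_cast hsub
          _ ≤ Real.exp (-((P.card : ℝ) / κ)) * Fintype.card ι := hs
          _ ≤ _ := by
              refine mul_le_mul_of_nonneg_right (Real.exp_le_exp.mpr ?_) (Nat.cast_nonneg _)
              have h6 : g ≤ 2 * M0 * P.card := by omega
              have h7 : (g : ℝ) ≤ 2 * M0 * P.card := by exact_mod_cast h6
              rw [neg_le_neg_iff, hM1]
              push_cast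
              rw [div_le_div_iff₀ (by positivity) hκR]
              nlinarith
      · have : univ.filter (fun i => w ∈ R (a, b) i) = ∅ := by
          refine filter_eq_empty_iff.mpr fun i _ hi => hw2 ?_
          rw [hR, mem_filter] at hi
          exact ⟨hi.2.1, hi.2.2.1⟩
        rw [this, card_empty, Nat.cast_zero]
        positivity
    have hswap : ∑ i, ((R (a, b) i).card : ℝ) =
        ∑ w ∈ Kw X A N, ((univ.filter (fun i => w ∈ R (a, b) i)).card : ℝ) := by
      have e1 : ∀ i, ((R (a, b) i).card : ℝ) =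
          ∑ w ∈ Kw X A N, if w ∈ R (a, b) i then (1 : ℝ) else 0 := by
        intro i
        rw [← sum_filter, sum_const, nsmul_eq_mul, mul_one]
        congr 2
        ext w
        rw [mem_filter]
        constructor
        · intro h
          refine ⟨?_, h⟩
          rw [hR, mem_filter] at h
          exact h.1
        · exact fun h => h.2
      simp_rw [e1]
      rw [sum_comm]
      refine sum_congr rfl fun w _ => ?_
      rw [← sum_filter, sum_const, nsmul_eq_mul, mul_one]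
    rw [hswap]
    calc _ ≤ ∑ w ∈ Kw X A N, Real.exp (-((g : ℝ) / M1)) * Fintype.card ι := sum_le_sum key
      _ = _ := by rw [sum_const, nsmul_eq_mul, hx]; ring
  -- the choice of the family
  obtain ⟨i, -, hi⟩ : ∃ i ∈ (univ : Finset ι), ∑ s ∈ T, ((R s i).card : ℝ) ≤
      ((N : ℝ) + 1) ^ 2 * Real.exp (-((g : ℝ) / M1)) * x := by
    refine exists_le_of_sum_le univ_nonempty ?_
    rw [sum_comm, sum_const, nsmul_eq_mul]
    calc _ ≤ ∑ s ∈ T, Real.exp (-((g : ℝ) / M1)) * Fintype.card ι * x := sum_le_sum hRs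
      _ = (T.card : ℝ) * (Real.exp (-((g : ℝ) / M1)) * Fintype.card ι * x) := by
          rw [sum_const, nsmul_eq_mul]
      _ ≤ ((N : ℝ) + 1) ^ 2 * (Real.exp (-((g : ℝ) / M1)) * Fintype.card ι * x) :=
          mul_le_mul_of_nonneg_right hTc (by positivity)
      _ = _ := by rw [card_univ]; ring
  refine ⟨L i, hLC i, hLD i, fun a b hab hbN hgab => ?_⟩
  show (((Kw X A N).filter (fun w => Q w ∧ ¬ G3 (sy Z hs) M (L i) a b w)).card : ℝ) ≤ _
  have hgab' : (g : ℝ) ≤ ((b - a : ℕ) : ℝ) := by exact_mod_cast hgab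
  -- the three parts
  have p1 : ((R (a, b) i).card : ℝ) ≤
      ((N : ℝ) + 1) ^ 2 * Real.exp (-((g : ℝ) / M1)) * x := by
    have ht : (a, b) ∈ T := by
      rw [hT, mem_filter]
      simp only [mem_product, mem_range]
      omega
    have h3 := single_le_sum (f := fun s => ((R s i).card : ℝ))
      (fun s _ => by positivity) ht
    exact h3.trans hi
  have p2 : (((Kw X A N).filter (F (a, b))).card : ℝ) ≤
      C' * θ ^ (b - a) * Real.exp (2 * φ N) * x := by
    rw [hx]
    have h3 := few t G hθ0 hC' hpat hN hab hbN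
    refine le_trans (le_of_eq ?_) h3
    congr 2
    ext w
    rw [mem_filter, mem_filter, hF]
  have p3 : (((Kw X A N).filter (fun w => 8 * ((b - a) / M) ≤
      (Ol Z (L i) (a, b) w).card ∧ (Dl Z (L i) (a, b) w).card ≤
        (Ol Z (L i) (a, b) w).card + (b - a) / M)).card : ℝ) ≤
      (2 / 7 : ℝ) ^ ((b - a) / M) * Real.exp (φ N) * x := by
    have q1 := offs (Y := sy Z hs) (L := L i) (hLC i) (N := N) (t := (b - a) / M) hab hbN
    refine le_trans (le_of_eq rfl) (q1.trans ?_)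
    have g4 := G.up N (N - 2 * ((b - a) / M)) hN (by omega)
    have g5 : μ ^ (N - 2 * ((b - a) / M)) ≤ x := by
      rw [hx]
      refine le_trans ?_ (G.low N)
      exact pow_le_pow_right₀ G.one (by omega)
    show (2 / 7 : ℝ) ^ ((b - a) / M) * ((Kw X A (N - 2 * ((b - a) / M))).card : ℝ) ≤ _
    calc (2 / 7 : ℝ) ^ ((b - a) / M) * ((Kw X A (N - 2 * ((b - a) / M))).card : ℝ)
        ≤ (2 / 7 : ℝ) ^ ((b - a) / M) * (x * Real.exp (φ N)) := by
          refine mul_le_mul_of_nonneg_left (g4.trans ?_) (by positivity)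
          gcongr
      _ = _ := by ring
  have hsub : (Kw X A N).filter (fun w => Q w ∧ ¬ G3 (sy Z hs) M (L i) a b w) ⊆
      (Kw X A N).filter (F (a, b)) ∪
      ((Kw X A N).filter (fun w => 8 * ((b - a) / M) ≤
        (Ol Z (L i) (a, b) w).card ∧ (Dl Z (L i) (a, b) w).card ≤
        (Ol Z (L i) (a, b) w).card + (b - a) / M) ∪ R (a, b) i) := by
    intro w hw
    rw [mem_filter] at hw
    obtain ⟨hw1, hw2, hw3⟩ := hw
    rw [mem_union, mem_union, mem_filter, mem_filter, hR, mem_filter]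
    by_contra hcon
    push Not at hcon
    obtain ⟨k1, k2, k3⟩ := hcon
    have k1' := k1 hw1
    have k3' := k3 hw1 hw2 k1'
    simp only at k3'
    have k4 : 8 * ((b - a) / M) ≤ (Ol Z (L i) (a, b) w).card := by
      have h3 : M * ((b - a) / M) ≤ b - a := Nat.mul_div_le _ _
      have h4 : M1 * (8 * ((b - a) / M)) ≤ M1 * (Ol Z (L i) (a, b) w).card := by
        calc M1 * (8 * ((b - a) / M)) = M * ((b - a) / M) := by rw [hM]; ring
          _ ≤ b - a := h3
          _ ≤ _ := k3'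
      exact Nat.le_of_mul_le_mul_left h4 (by omega)
    have k2' := k2 hw1 k4
    apply hw3
    unfold G3
    show (b - a) / M ≤ (Ol Z (L i) (a, b) w).card ∧
      (Ol Z (L i) (a, b) w).card + (b - a) / M ≤ (Dl Z (L i) (a, b) w).card
    omega
  calc _ ≤ ((((Kw X A N).filter (F (a, b))).card +
      (((Kw X A N).filter (fun w => 8 * ((b - a) / M) ≤
        (Ol Z (L i) (a, b) w).card ∧ (Dl Z (L i) (a, b) w).card ≤
        (Ol Z (L i) (a, b) w).card + (b - a) / M)).card +
        (R (a, b) i).card) : ℕ) : ℝ) := by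
        exact_mod_cast (card_le_card hsub).trans ((card_union_le _ _).trans
          (Nat.add_le_add_left (card_union_le _ _) _))
    _ ≤ C' * θ ^ (b - a) * Real.exp (2 * φ N) * x +
        ((2 / 7 : ℝ) ^ ((b - a) / M) * Real.exp (φ N) * x +
        ((N : ℝ) + 1) ^ 2 * Real.exp (-((g : ℝ) / M1)) * x) := by
        push_cast
        linarith
    _ = (C' * θ ^ (b - a) * Real.exp (2 * φ N) +
        (2 / 7 : ℝ) ^ ((b - a) / M) * Real.exp (φ N) +
        ((N : ℝ) + 1) ^ 2 * Real.exp (-((g : ℝ) / M1))) * x := by ring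
    _ ≤ (C' + 4) * Real.exp (-(c * g)) * x :=
        mul_le_mul_of_nonneg_right (h2 (b - a) hgab) hx0.le
    _ = _ := by rw [hx]; rfl

end rul

end Pool.Agent.U954.GE
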