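import Pool.Agent.U954.GE.Cls

/-!
# Marked self-avoiding walks: the sum over the classes
-/

set_option autoImplicit false
set_option linter.unusedVariables false

namespace Pool.Agent.U954.GE

open Finset
open scoped Classical

noncomputable section

variable {α σ : Type} {Y : Sy α σ}

/-- the keys: slots in the two windows and numbers of the occupied ones -/
abbrev Key (σ : Type) := (Finset σ × Finset σ) × (ℕ × ℕ)

/-- the possible keys for windows of lengths `U`, `V` -/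
def KK (L : Finset σ) (U V : ℕ) : Finset (Key σ) :=
  (L.powerset ×ˢ L.powerset) ×ˢ (range (U / 2 + 1) ×ˢ range (V / 2 + 1))

/-- the key of a walk marked at `q` -/
def ky (Y : Sy α σ) (L : Finset σ) (p q m r : ℕ) (w : α) : Key σ :=
  ((Y.D L (p, q) w, Y.D L (q + m, r) w),
    ((Y.O L (p, q) w).card, (Y.O L (q + m, r) w).card))

/-- the weight of a class without occupied slots -/
def T0 (Y : Sy α σ) (L : Finset σ) (F : ℕ → α → ℝ) (p m l : ℕ) (x : Key σ) (a b : ℕ) : ℝ :=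
  WS Y L F x.1.1 x.1.2 p a m b l 0 0

/-- the product of binomial coefficients of a key -/
def bb (x : Key σ) (i j : ℕ) : ℝ := (x.1.1.card.choose i : ℝ) * (x.1.2.card.choose j : ℝ)

theorem ky_mem {L : Finset σ} (hL : Y.ok L) {N p U m V l : ℕ} (hN : N = p + U + m + V + l)
    {w : α} (hw : w ∈ Y.W N) :
    ky Y L p (p + U) m (p + U + m + V) w ∈ KK L U V ∧
      2 * (Y.O L (p, p + U) w).card ≤ U ∧ 2 * (Y.O L (p + U + m, p + U + m + V) w).card ≤ V ∧
      (Y.O L (p, p + U) w).card ≤ (Y.D L (p, p + U) w).card ∧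
      (Y.O L (p + U + m, p + U + m + V) w).card ≤
        (Y.D L (p + U + m, p + U + m + V) w).card := by
  have w1 := Y.len L hL p (p + U) N w (by omega) (by omega) hw
  have w2 := Y.len L hL (p + U + m) (p + U + m + V) N w (by omega) (by omega) hw
  refine ⟨?_, by omega, by omega, card_le_card (Y.O_sub _ _ _), card_le_card (Y.O_sub _ _ _)⟩
  unfold KK ky
  simp only [mem_product, mem_powerset, mem_range]
  refine ⟨⟨?_, ?_⟩, ?_, ?_⟩
  · exact Y.D_sub _ _ _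
  · exact Y.D_sub _ _ _
  · omega
  · omega

/-- the sum over the classes -/
theorem sum_cls {R : Set σ} {L : Finset σ} (hL : Y.ok L) (hD : ∀ q ∈ L, q ∈ R)
    {p m l : ℕ} {F : ℕ → α → ℝ} (hF : Mk Y R p m l F) {N U V : ℕ}
    (hN : N = p + U + m + V + l) (P : Key σ → Prop) :
    ∑ w ∈ (Y.W N).filter (fun w => P (ky Y L p (p + U) m (p + U + m + V) w)), F (p + U) w =
      ∑ x ∈ (KK L U V).filter P, bb x x.2.1 x.2.2 *
        T0 Y L F p m l x (U - 2 * x.2.1) (V - 2 * x.2.2) := by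
  have h1 : ∑ x ∈ (KK L U V).filter P, ∑ w ∈ ((Y.W N).filter (fun w =>
        P (ky Y L p (p + U) m (p + U + m + V) w))).filter
          (fun w => ky Y L p (p + U) m (p + U + m + V) w = x), F (p + U) w =
      ∑ w ∈ (Y.W N).filter (fun w => P (ky Y L p (p + U) m (p + U + m + V) w)), F (p + U) w := by
    refine sum_fiberwise_of_maps_to ?_ _
    intro w hw
    rw [mem_filter] at hw ⊢
    exact ⟨(ky_mem hL hN hw.1).1, hw.2⟩
  rw [← h1]
  refine sum_congr rfl fun x hx => ?_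
  rw [mem_filter] at hx
  obtain ⟨hxK, hP⟩ := hx
  unfold KK at hxK
  simp only [mem_product, mem_range] at hxK
  obtain ⟨-, h2, h3⟩ := hxK
  have e1 : p + (U - 2 * x.2.1 + 2 * x.2.1) = p + U := by omega
  have e2 : V - 2 * x.2.2 + 2 * x.2.2 = V := by omega
  have h4 : ((Y.W N).filter (fun w =>
        P (ky Y L p (p + U) m (p + U + m + V) w))).filter
          (fun w => ky Y L p (p + U) m (p + U + m + V) w = x) =
      CS Y L x.1.1 x.1.2 p (U - 2 * x.2.1) m (V - 2 * x.2.2) l x.2.1 x.2.2 := by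
    ext w
    rw [mem_filter, mem_filter, CS_mem (a := p + U) (b := p + U + m + V) (n := N) e1.symm
      (by rw [e2]) (by omega)]
    constructor
    · rintro ⟨⟨h5, h6⟩, rfl⟩
      exact ⟨h5, rfl, rfl, rfl, rfl⟩
    · rintro ⟨h5, h6, h7, h8, h9⟩
      have h10 : ky Y L p (p + U) m (p + U + m + V) w = x := by
        unfold ky
        rw [h6, h7, h8, h9]
      exact ⟨⟨h5, by rw [h10]; exact hP⟩, h10⟩
  rw [h4]
  have h5 : ∑ w ∈ CS Y L x.1.1 x.1.2 p (U - 2 * x.2.1) m (V - 2 * x.2.2) l x.2.1 x.2.2,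
      F (p + U) w = WS Y L F x.1.1 x.1.2 p (U - 2 * x.2.1) m (V - 2 * x.2.2) l x.2.1 x.2.2 := by
    unfold WS
    rw [e1]
  rw [h5, ws_eq hL hD hF]
  rfl

theorem T0_nonneg {L : Finset σ} {F : ℕ → α → ℝ} (h : ∀ q w, 0 ≤ F q w)
    (p m l : ℕ) (x : Key σ) (a b : ℕ) : 0 ≤ T0 Y L F p m l x a b :=
  sum_nonneg fun w _ => h _ w

theorem bb_nonneg (x : Key σ) (i j : ℕ) : 0 ≤ bb x i j := by unfold bb; positivity

/-- the constant weight is invariant -/
theorem mk_one (p m l : ℕ) : Mk Y Set.univ p m l (fun _ _ => 1) :=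
  ⟨fun _ _ _ _ _ _ _ _ _ _ _ => rfl, fun _ _ _ _ _ _ _ _ _ _ _ => rfl⟩

/-- moving bumps from one window to the other one: counting -/
theorem gen2 {L : Finset σ} (hL : Y.ok L) {N N' p U m V l U' V' : ℕ}
    (hN : N = p + U + m + V + l) (hN' : N' = p + U' + m + V' + l) (Q : Key σ → Prop) (M : ℝ)
    (hM : 0 ≤ M) (s1 t1 : ℕ → ℕ)
    (hQ : ∀ x, Q x → x.2.1 ≤ x.1.1.card → x.2.2 ≤ x.1.2.card → 2 * x.2.1 ≤ U → 2 * x.2.2 ≤ V →
      2 * s1 x.2.1 + U = 2 * x.2.1 + U' ∧ 2 * t1 x.2.2 + V = 2 * x.2.2 + V' ∧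
        bb x x.2.1 x.2.2 ≤ M * bb x (s1 x.2.1) (t1 x.2.2)) :
    (((Y.W N).filter (fun w => Q (ky Y L p (p + U) m (p + U + m + V) w))).card : ℝ) ≤
      M * ((Y.W N').card : ℝ) := by
  obtain ⟨F, hF⟩ : ∃ F : ℕ → α → ℝ, F = fun _ _ => 1 := ⟨_, rfl⟩
  have hFM : Mk Y Set.univ p m l F := by rw [hF]; exact mk_one p m l
  have hF0 : ∀ q w, 0 ≤ F q w := fun q w => by rw [hF]; exact zero_le_one
  obtain ⟨Q', hQ'⟩ : ∃ Q' : Key σ → Prop, Q' = fun x => Q x ∧ x.2.1 ≤ x.1.1.card ∧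
    x.2.2 ≤ x.1.2.card := ⟨_, rfl⟩
  have e1 : (((Y.W N).filter (fun w => Q (ky Y L p (p + U) m (p + U + m + V) w))).card : ℝ) =
      ∑ w ∈ (Y.W N).filter (fun w => Q' (ky Y L p (p + U) m (p + U + m + V) w)), F (p + U) w := by
    have : (Y.W N).filter (fun w => Q (ky Y L p (p + U) m (p + U + m + V) w)) =
        (Y.W N).filter (fun w => Q' (ky Y L p (p + U) m (p + U + m + V) w)) := by
      refine filter_congr fun w hw => ?_
      obtain ⟨-, -, -, h3, h4⟩ := ky_mem hL hN hw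
      rw [hQ']
      exact ⟨fun h => ⟨h, h3, h4⟩, fun h => h.1⟩
    rw [this, hF]
    simp
  have sc1 := sum_cls hL (fun q _ => Set.mem_univ q) hFM hN Q'
  obtain ⟨Tr, hTr⟩ : ∃ Tr : Key σ → Prop, Tr = fun _ => True := ⟨_, rfl⟩
  have sc2 := sum_cls hL (fun q _ => Set.mem_univ q) hFM hN' Tr
  have e2 : ((Y.W N').card : ℝ) = ∑ x ∈ (KK L U' V').filter Tr, bb x x.2.1 x.2.2 *
        T0 Y L F p m l x (U' - 2 * x.2.1) (V' - 2 * x.2.2) := by
    refine Eq.trans ?_ sc2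
    rw [hF, hTr]
    simp
  rw [e1, sc1, e2]
  -- the shifted keys
  obtain ⟨ψ, hψ⟩ : ∃ ψ : Key σ → Key σ, ψ = fun x => (x.1, (s1 x.2.1, t1 x.2.2)) := ⟨_, rfl⟩
  obtain ⟨X, hX⟩ : ∃ X, X = (KK L U V).filter Q' := ⟨_, rfl⟩
  have hxx : ∀ x ∈ X, 2 * s1 x.2.1 + U = 2 * x.2.1 + U' ∧ 2 * t1 x.2.2 + V = 2 * x.2.2 + V' ∧
        bb x x.2.1 x.2.2 ≤ M * bb x (s1 x.2.1) (t1 x.2.2) ∧ 2 * x.2.1 ≤ U ∧ 2 * x.2.2 ≤ V ∧
        x.1.1 ∈ L.powerset ∧ x.1.2 ∈ L.powerset := by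
    intro x hx
    rw [hX, mem_filter, hQ'] at hx
    obtain ⟨h1, h2, h3, h4⟩ := hx
    unfold KK at h1
    simp only [mem_product, mem_range] at h1
    obtain ⟨⟨h5, h6⟩, h7, h8⟩ := h1
    obtain ⟨k1, k2, k3⟩ := hQ x h2 h3 h4 (by omega) (by omega)
    exact ⟨k1, k2, k3, by omega, by omega, h5, h6⟩
  rw [← hX]
  have hinj : Set.InjOn ψ (X : Set (Key σ)) := by
    intro x hx y hy hxy
    rw [mem_coe] at hx hy
    obtain ⟨a1, a2, -⟩ := hxx x hx
    obtain ⟨b1, b2, -⟩ := hxx y hy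
    rw [hψ] at hxy
    simp only [Prod.mk.injEq] at hxy
    obtain ⟨c1, c2, c3⟩ := hxy
    have d1 : x.2.1 = y.2.1 := by omega
    have d2 : x.2.2 = y.2.2 := by omega
    exact Prod.ext c1 (Prod.ext d1 d2)
  have himg : X.image ψ ⊆ (KK L U' V').filter Tr := by
    intro y hy
    rw [mem_image] at hy
    obtain ⟨x, hx, rfl⟩ := hy
    obtain ⟨a1, a2, a3, a4, a5, a6, a7⟩ := hxx x hx
    rw [mem_filter]
    refine ⟨?_, by rw [hTr]; trivial⟩
    unfold KK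
    rw [hψ]
    simp only [mem_product, mem_range]
    refine ⟨⟨a6, a7⟩, by omega, by omega⟩
  calc ∑ x ∈ X, bb x x.2.1 x.2.2 * T0 Y L F p m l x (U - 2 * x.2.1) (V - 2 * x.2.2)
      ≤ ∑ x ∈ X, M * (bb (ψ x) (ψ x).2.1 (ψ x).2.2 *
          T0 Y L F p m l (ψ x) (U' - 2 * (ψ x).2.1) (V' - 2 * (ψ x).2.2)) := by
        refine sum_le_sum fun x hx => ?_
        obtain ⟨a1, a2, a3, a4, a5, -⟩ := hxx x hx
        have e3 : U' - 2 * (ψ x).2.1 = U - 2 * x.2.1 := by rw [hψ]; simp only; omega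
        have e4 : V' - 2 * (ψ x).2.2 = V - 2 * x.2.2 := by rw [hψ]; simp only; omega
        rw [e3, e4]
        have e5 : T0 Y L F p m l (ψ x) (U - 2 * x.2.1) (V - 2 * x.2.2) =
            T0 Y L F p m l x (U - 2 * x.2.1) (V - 2 * x.2.2) := by rw [hψ]; rfl
        have e6 : bb (ψ x) (ψ x).2.1 (ψ x).2.2 = bb x (s1 x.2.1) (t1 x.2.2) := by rw [hψ]; rfl
        rw [e5, e6, ← mul_assoc]
        exact mul_le_mul_of_nonneg_right a3 (T0_nonneg hF0 _ _ _ _ _ _)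
    _ = M * ∑ y ∈ X.image ψ, (bb y y.2.1 y.2.2 *
          T0 Y L F p m l y (U' - 2 * y.2.1) (V' - 2 * y.2.2)) := by
        rw [sum_image hinj, mul_sum]
    _ ≤ _ := by
        refine mul_le_mul_of_nonneg_left ?_ hM
        exact sum_le_sum_of_subset_of_nonneg himg fun y _ _ =>
          mul_nonneg (bb_nonneg _ _ _) (T0_nonneg hF0 _ _ _ _ _ _)

/-- the keys of the walks marked at `q + 2 h`, in terms of the keys for the mark `q` -/
theorem sum_shift {R : Set σ} {L : Finset σ} (hL : Y.ok L) (hD : ∀ q ∈ L, q ∈ R)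
    {p m l : ℕ} {F : ℕ → α → ℝ} (hF : Mk Y R p m l F) {N U V h : ℕ}
    (hN : N = p + U + m + V + l) (hV : 2 * h ≤ V) (P P' : Key σ → Prop)
    (hP : ∀ x, P x → h ≤ x.2.2)
    (hPP : ∀ x, P' x ↔ h ≤ x.2.1 ∧ P (x.1, (x.2.1 - h, x.2.2 + h))) :
    ∑ w ∈ (Y.W N).filter (fun w =>
        P' (ky Y L p (p + (U + 2 * h)) m (p + (U + 2 * h) + m + (V - 2 * h)) w)),
        F (p + (U + 2 * h)) w =
      ∑ x ∈ (KK L U V).filter P, bb x (x.2.1 + h) (x.2.2 - h) *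
        T0 Y L F p m l x (U - 2 * x.2.1) (V - 2 * x.2.2) := by
  rw [sum_cls hL hD hF (N := N) (U := U + 2 * h) (V := V - 2 * h) (by omega) P']
  symm
  refine sum_nbij' (fun x => (x.1, (x.2.1 + h, x.2.2 - h)))
    (fun x => (x.1, (x.2.1 - h, x.2.2 + h))) ?_ ?_ ?_ ?_ ?_
  · intro x hx
    rw [mem_filter] at hx ⊢
    obtain ⟨h2, h3⟩ := hx
    have h4 := hP x h3
    rw [hPP]
    unfold KK at h2 ⊢
    simp only [mem_product, mem_range] at h2 ⊢
    refine ⟨⟨h2.1, by omega, by omega⟩, by omega, ?_⟩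
    have e2 : (x.1, (x.2.1 + h - h, x.2.2 - h + h)) = x := by
      rw [Nat.add_sub_cancel, Nat.sub_add_cancel h4]
    rw [e2]
    exact h3
  · intro x hx
    rw [mem_filter, hPP] at hx
    rw [mem_filter]
    obtain ⟨h2, h3, h4⟩ := hx
    unfold KK at h2 ⊢
    simp only [mem_product, mem_range] at h2 ⊢
    exact ⟨⟨h2.1, by omega, by omega⟩, h4⟩
  · intro x hx
    rw [mem_filter] at hx
    have h4 := hP x hx.2
    show (x.1, (x.2.1 + h - h, x.2.2 - h + h)) = x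
    rw [Nat.add_sub_cancel, Nat.sub_add_cancel h4]
  · intro x hx
    rw [mem_filter, hPP] at hx
    obtain ⟨-, h3, -⟩ := hx
    show (x.1, (x.2.1 - h + h, x.2.2 + h - h)) = x
    rw [Nat.add_sub_cancel, Nat.sub_add_cancel h3]
  · intro x hx
    rw [mem_filter] at hx
    obtain ⟨h2, h3⟩ := hx
    have h4 := hP x h3
    have e2 : U + 2 * h - 2 * (x.2.1 + h) = U - 2 * x.2.1 := by omega
    have e3 : V - 2 * h - 2 * (x.2.2 - h) = V - 2 * x.2.2 := by omega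
    show _ = bb (x.1, (x.2.1 + h, x.2.2 - h)) (x.2.1 + h) (x.2.2 - h) *
      T0 Y L F p m l (x.1, (x.2.1 + h, x.2.2 - h)) (U + 2 * h - 2 * (x.2.1 + h))
        (V - 2 * h - 2 * (x.2.2 - h))
    rw [e2, e3]
    rfl

end

end Pool.Agent.U954.GE
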