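import Pool.Agent.U954.GE.Lst
import Pool.Agent.U954.GE.Sum

/-!
# Walks with few occupied slots in a window
-/

set_option autoImplicit false
set_option linter.unusedVariables false

namespace Pool.Agent.U954.GE

open Finset Pool.Agent.N929.EG Pool.Agent.N169.EG
open scoped Classical

variable {Ver : Type}

/-! ### binomial coefficients -/

theorem ch_off (t D i : ℕ) (h1 : 8 * t ≤ i) (h2 : D ≤ i + t) : ∀ j : ℕ, j ≤ t →
    (D.choose i : ℝ) ≤ (2 / 7 : ℝ) ^ j * (D.choose (i - j) : ℝ) := by
  intro j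
  induction j with
  | zero => intro _; simp
  | succ j ih =>
    intro hj
    refine (ih (by omega)).trans ?_
    rw [pow_succ, mul_assoc]
    refine mul_le_mul_of_nonneg_left ?_ (by positivity)
    obtain ⟨k, hk⟩ : ∃ k, k = i - (j + 1) := ⟨_, rfl⟩
    have e1 : i - j = k + 1 := by omega
    rw [← hk, e1]
    have h3 := Nat.choose_succ_right_eq D k
    have h4 : 7 * (D - k) ≤ 2 * (k + 1) := by omega
    have h5 : (k + 1) * (7 * D.choose (k + 1)) ≤ (k + 1) * (2 * D.choose k) := by
      calc (k + 1) * (7 * D.choose (k + 1)) = 7 * (D.choose (k + 1) * (k + 1)) := by ring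
        _ = 7 * (D.choose k * (D - k)) := by rw [h3]
        _ = D.choose k * (7 * (D - k)) := by ring
        _ ≤ D.choose k * (2 * (k + 1)) := Nat.mul_le_mul_left _ h4
        _ = _ := by ring
    have h6 := Nat.le_of_mul_le_mul_left h5 (Nat.succ_pos k)
    have h7 : (7 : ℝ) * (D.choose (k + 1) : ℝ) ≤ 2 * (D.choose k : ℝ) := by exact_mod_cast h6
    linarith

/-- few walks have many occupied and only few free slots -/
theorem offs {α σ : Type} {Y : Sy α σ} {L : Finset σ} (hL : Y.ok L) {N a b t : ℕ}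
    (hab : a ≤ b) (hbN : b ≤ N) :
    (((Y.W N).filter (fun w => 8 * t ≤ (Y.O L (a, b) w).card ∧
      (Y.D L (a, b) w).card ≤ (Y.O L (a, b) w).card + t)).card : ℝ) ≤
      (2 / 7 : ℝ) ^ t * ((Y.W (N - 2 * t)).card : ℝ) := by
  by_cases hU : 16 * t ≤ b - a
  · have h := gen2 (Y := Y) hL (N := N) (N' := N - 2 * t) (p := a) (U := b - a) (m := 0) (V := 0)
      (l := N - b) (U' := b - a - 2 * t) (V' := 0) (by omega) (by omega)
      (fun x => 8 * t ≤ x.2.1 ∧ x.1.1.card ≤ x.2.1 + t) ((2 / 7 : ℝ) ^ t) (by positivity)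
      (fun i => i - t) (fun i => i) ?_
    · have e1 : a + (b - a) = b := by omega
      refine le_trans (le_of_eq ?_) h
      unfold ky
      simp only [e1]
    · intro x hx hx1 hx2 hx3 hx4
      refine ⟨by omega, by omega, ?_⟩
      unfold bb
      rw [← mul_assoc]
      refine mul_le_mul_of_nonneg_right ?_ (Nat.cast_nonneg _)
      exact ch_off t _ _ hx.1 hx.2 t le_rfl
  · have h0 : (Y.W N).filter (fun w => 8 * t ≤ (Y.O L (a, b) w).card ∧
      (Y.D L (a, b) w).card ≤ (Y.O L (a, b) w).card + t) = ∅ := by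
      refine filter_eq_empty_iff.mpr fun w hw h => ?_
      have := Y.len L hL a b N w hab hbN hw
      omega
    rw [h0, card_empty, Nat.cast_zero]
    positivity

/-! ### windows of walks -/

section rul

variable {X : Geo Ver} {A : Ver → Ver → Prop} (Z : Rul X A)

/-- translations -/
structure Tra {X : Geo Ver} {A : Ver → Ver → Prop} (Z : Rul X A) where
  τ : Ver → Ver ≃ Ver
  o : ∀ v, τ v v = X.o
  adj : ∀ v x y, A (τ v x) (τ v y) ↔ A x y
  T : ∀ v U U', Z.T (U.map (τ v)) (U'.map (τ v)) ↔ Z.T U U'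

/-- the number of walks, and the pattern theorem -/
structure Grw (Z : Rul X A) (μ : ℝ) (φ : ℕ → ℝ) : Prop where
  one : 1 ≤ μ
  log : ∀ n : ℕ, 2 ≤ n → Real.log n ≤ φ n
  low : ∀ n : ℕ, μ ^ n ≤ ((Kw X A n).card : ℝ)
  up : ∀ n m : ℕ, 2 ≤ n → m ≤ 2 * n → ((Kw X A m).card : ℝ) ≤ μ ^ m * Real.exp (φ n)
  pat : ∃ (M : ℕ) (θ C' : ℝ), 1 ≤ M ∧ 0 < θ ∧ θ < 1 ∧ 0 ≤ C' ∧ ∀ n : ℕ,
    (((Kw X A n).filter (fun w => M * (B Z w).card ≤ n)).card : ℝ) ≤ C' * (θ * μ) ^ n

/-- the vertex at time `a` -/
def vx (X : Geo Ver) (w : List Ver) (a : ℕ) : Ver := (w[a]?).getD X.o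

/-- the piece from time `a` to time `a + c` -/
def pc (w : List Ver) (a c : ℕ) : List Ver := (w.drop a).take (c + 1)

variable {Z}

include Z in
theorem pc_len {N a c : ℕ} {w : List Ver} (hw : w ∈ Kw X A N) (h : a + c ≤ N) :
    (pc w a c).length = c + 1 := by
  have hl := ((mem_K Z).mp hw).1
  unfold pc
  rw [List.length_take, List.length_drop]
  omega

/-- the translated piece is a walk -/
theorem pc_mem (t : Tra Z) {N a c : ℕ} {w : List Ver} (hw : w ∈ Kw X A N) (h : a + c ≤ N) :
    (pc w a c).map (t.τ (vx X w a)) ∈ Kw X A c := by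
  obtain ⟨hl, h1, h2, h3⟩ := (mem_K Z).mp hw
  rw [mem_K Z]
  refine ⟨by rw [List.length_map, pc_len (Z := Z) hw h], ?_, ?_, ?_⟩
  · unfold pc vx
    rw [List.head?_map, List.head?_take, if_neg (by omega), List.head?_drop,
      List.getElem?_eq_getElem (show a < w.length by omega)]
    simp [t.o]
  · refine List.Nodup.map (t.τ _).injective ?_
    unfold pc
    exact ((List.take_sublist _ _).trans (List.drop_sublist _ _)).nodup h2
  · rw [List.isChain_map]
    have h4 : (pc w a c).IsChain A := by
      unfold pc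
      exact (h3.drop a).take (c + 1)
    exact h4.imp fun x y hxy => (t.adj _ _ _).mpr hxy

theorem vx_eq {w w' : List Ver} {a c : ℕ} (hc : a ≤ c) (h : w.take (c + 1) = w'.take (c + 1)) :
    vx X w a = vx X w' a := by
  unfold vx
  have h1 : (w.take (c + 1))[a]? = (w'.take (c + 1))[a]? := by rw [h]
  rw [List.getElem?_take_of_lt (by omega), List.getElem?_take_of_lt (by omega)] at h1
  rw [h1]

/-- walks with a condition on a piece -/
theorem card_pc (t : Tra Z) {N a c : ℕ} (h : a + c ≤ N) (P : List Ver → Prop) :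
    ((Kw X A N).filter (fun w => P ((pc w a c).map (t.τ (vx X w a))))).card ≤
      (Kw X A a).card * (((Kw X A c).filter P).card * (Kw X A (N - (a + c))).card) := by
  rw [← card_product, ← card_product]
  refine card_le_card_of_injOn (fun w => ((pc w 0 a).map (t.τ (vx X w 0)),
    ((pc w a c).map (t.τ (vx X w a)),
      (pc w (a + c) (N - (a + c))).map (t.τ (vx X w (a + c)))))) ?_ ?_
  · intro w hw
    rw [mem_coe, mem_filter] at hw
    rw [mem_coe, mem_product, mem_product, mem_filter]
    exact ⟨pc_mem t hw.1 (by omega), ⟨pc_mem t hw.1 (by omega), hw.2⟩,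
      pc_mem t hw.1 (by omega)⟩
  · intro w hw w' hw' he
    rw [mem_coe, mem_filter] at hw hw'
    simp only [Prod.mk.injEq] at he
    obtain ⟨e1, e2, e3⟩ := he
    obtain ⟨hl, g1, -, -⟩ := (mem_K Z).mp hw.1
    obtain ⟨hl', g1', -, -⟩ := (mem_K Z).mp hw'.1
    have v0 : vx X w 0 = vx X w' 0 := by
      unfold vx
      rw [← List.head?_eq_getElem?, ← List.head?_eq_getElem?, g1, g1']
    rw [v0] at e1
    have f1 := List.map_injective_iff.mpr (t.τ (vx X w' 0)).injective e1
    unfold pc at f1
    rw [List.drop_zero, List.drop_zero] at f1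
    have va := vx_eq (X := X) (le_refl a) f1
    rw [va] at e2
    have f2 := List.map_injective_iff.mpr (t.τ (vx X w' a)).injective e2
    have f3 : w.take (a + c + 1) = w'.take (a + c + 1) := by
      have k1 : w.take a = w'.take a := by
        have := congrArg (List.take a) f1
        rw [List.take_take, List.take_take, min_eq_left (by omega)] at this
        exact this
      unfold pc at f2
      have k2 : ∀ v : List Ver, v.take (a + c + 1) = v.take a ++ (v.drop a).take (c + 1) := by
        intro v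
        rw [show a + c + 1 = a + (c + 1) by ring, List.take_add]
      rw [k2, k2, k1, f2]
    have vb := vx_eq (X := X) (le_refl (a + c)) f3
    rw [vb] at e3
    have f4 := List.map_injective_iff.mpr (t.τ (vx X w' (a + c))).injective e3
    unfold pc at f4
    rw [List.take_of_length_le (by rw [List.length_drop]; omega),
      List.take_of_length_le (by rw [List.length_drop]; omega)] at f4
    have k1 : w.take (a + c) = w'.take (a + c) := by
      have := congrArg (List.take (a + c)) f3
      rw [List.take_take, List.take_take, min_eq_left (by omega)] at this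
      exact this
    rw [← List.take_append_drop (a + c) w, ← List.take_append_drop (a + c) w', k1, f4]

/-- few walks have a piece with few occupied places -/
theorem few (t : Tra Z) {μ : ℝ} {φ : ℕ → ℝ} (G : Grw Z μ φ) {M : ℕ} {θ C' : ℝ} (hθ : 0 < θ)
    (hC' : 0 ≤ C')
    (hp : ∀ n : ℕ, (((Kw X A n).filter (fun w => M * (B Z w).card ≤ n)).card : ℝ) ≤
      C' * (θ * μ) ^ n) {N a b : ℕ} (hN : 2 ≤ N) (hab : a ≤ b) (hb : b ≤ N) :
    (((Kw X A N).filter (fun w =>
      M * (B Z ((pc w a (b - a)).map (t.τ (vx X w a)))).card ≤ b - a)).card : ℝ) ≤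
      C' * θ ^ (b - a) * Real.exp (2 * φ N) * ((Kw X A N).card : ℝ) := by
  have h1 := card_pc t (N := N) (a := a) (c := b - a) (by omega)
    (fun u => M * (B Z u).card ≤ b - a)
  have h2 : (((Kw X A N).filter (fun w =>
      M * (B Z ((pc w a (b - a)).map (t.τ (vx X w a)))).card ≤ b - a)).card : ℝ) ≤
      ((Kw X A a).card : ℝ) * ((((Kw X A (b - a)).filter
        (fun u => M * (B Z u).card ≤ b - a)).card : ℝ) *
        ((Kw X A (N - (a + (b - a)))).card : ℝ)) := by
    have h3 : ((Kw X A N).filter (fun w =>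
      M * (B Z ((pc w a (b - a)).map (t.τ (vx X w a)))).card ≤ b - a)).card ≤
      (Kw X A a).card * (((Kw X A (b - a)).filter
        (fun u => M * (B Z u).card ≤ b - a)).card * (Kw X A (N - (a + (b - a)))).card) := by
      convert h1
    exact_mod_cast h3
  refine h2.trans ?_
  have hμ0 : 0 < μ := lt_of_lt_of_le one_pos G.one
  have g1 := G.up N a hN (by omega)
  have g2 := hp (b - a)
  have g3 := G.up N (N - (a + (b - a))) hN (by omega)
  have g4 := G.low N
  have hK0 : (0 : ℝ) ≤ (Kw X A N).card := Nat.cast_nonneg _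
  calc _ ≤ (μ ^ a * Real.exp (φ N)) * ((C' * (θ * μ) ^ (b - a)) *
        (μ ^ (N - (a + (b - a))) * Real.exp (φ N))) := by gcongr
    _ = C' * θ ^ (b - a) * Real.exp (2 * φ N) * μ ^ N := by
        have e1 : μ ^ N = μ ^ a * μ ^ (b - a) * μ ^ (N - (a + (b - a))) := by
          rw [← pow_add, ← pow_add]
          congr 1
          omega
        have e2 : Real.exp (2 * φ N) = Real.exp (φ N) * Real.exp (φ N) := by
          rw [← Real.exp_add]
          congr 1
          ring
        rw [e1, e2, mul_pow]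
        ring
    _ ≤ _ := by gcongr

/-- places which are occupied in the piece but not in the walk -/
def Exc (Z : Rul X A) (e : ℕ) : Prop := ∀ (N a b : ℕ) (w : List Ver), a ≤ b → b ≤ N →
  w ∈ Kw X A N → ((UU Z N).filter (fun q => Inn w q.2 a b ∧
    (∀ x ∈ q.1, x ∉ q.2 → x ∉ pc w a (b - a)) ∧ ¬ (∀ x ∈ q.1, x ∉ q.2 → x ∉ w))).card ≤ e

/-- the number of occupied places in a window -/
theorem occ_le (t : Tra Z) {e : ℕ} (he : Exc Z e) {N a b : ℕ} {w : List Ver} (hab : a ≤ b)
    (hb : b ≤ N) (hw : w ∈ Kw X A N) :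
    (B Z ((pc w a (b - a)).map (t.τ (vx X w a)))).card ≤
      ((UU Z N).filter (Ocp Z (a, b) w)).card + e := by
  obtain ⟨v, hv⟩ : ∃ v, v = vx X w a := ⟨_, rfl⟩
  rw [← hv]
  obtain ⟨hl, hwalk⟩ := (mem_K Z).mp hw
  have h1 : ((B Z ((pc w a (b - a)).map (t.τ v))).image
      (fun q => (q.1.map (t.τ v).symm, q.2.map (t.τ v).symm))) ⊆
      ((UU Z N).filter (Ocp Z (a, b) w)) ∪ ((UU Z N).filter (fun q => Inn w q.2 a b ∧
    (∀ x ∈ q.1, x ∉ q.2 → x ∉ pc w a (b - a)) ∧ ¬ (∀ x ∈ q.1, x ∉ q.2 → x ∉ w))) := by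
    intro q hq
    rw [mem_image] at hq
    obtain ⟨q', hq', rfl⟩ := hq
    rw [mem_B] at hq'
    obtain ⟨hT, hI, hF⟩ := hq'
    have m1 : ∀ l : List Ver, (l.map (t.τ v).symm).map (t.τ v) = l := by
      intro l
      rw [List.map_map]
      simp
    have m2 : ∀ l : List Ver, (l.map (t.τ v)).map (t.τ v).symm = l := by
      intro l
      rw [List.map_map]
      simp
    have hT' : Z.T (q'.1.map (t.τ v).symm) (q'.2.map (t.τ v).symm) := by
      rw [← t.T v, m1, m1]
      exact hT
    obtain ⟨L, R, e1⟩ := hI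
    have e2 := congrArg (List.map (t.τ v).symm) e1
    rw [m2, List.map_append, List.map_append] at e2
    have e3 : w = (w.take a ++ L.map (t.τ v).symm) ++ q'.2.map (t.τ v).symm ++
        (R.map (t.τ v).symm ++ (w.drop a).drop (b - a + 1)) := by
      conv_lhs => rw [← List.take_append_drop a w, ← List.take_append_drop (b - a + 1) (w.drop a)]
      have : (w.drop a).take (b - a + 1) = pc w a (b - a) := rfl
      rw [this, ← e2]
      simp only [List.append_assoc]
    have e4 := congrArg List.length e2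
    rw [pc_len (Z := Z) hw (by omega)] at e4
    simp only [List.length_append, List.length_map] at e4
    have hInn : Inn w (q'.2.map (t.τ v).symm) a b := by
      refine ⟨_, _, e3, ?_, ?_⟩
      · rw [List.length_append, List.length_take]
        omega
      · rw [List.length_append, List.length_take, List.length_map, List.length_map]
        omega
    have hUU : (q'.1.map (t.τ v).symm, q'.2.map (t.τ v).symm) ∈ UU Z N := by
      obtain ⟨p, U0, h3⟩ := List.exists_cons_of_ne_nil (ne2 Z (q := (q'.1.map (t.τ v).symm,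
        q'.2.map (t.τ v).symm)) hT')
      simp only at h3
      refine mem_UU Z hw le_rfl hT' (p := p) ?_ ?_
      · simp only
        rw [h3]
        simp
      · rw [e3, h3]
        simp
    rw [mem_union, mem_filter, mem_filter]
    have hF' : ∀ x ∈ q'.1.map (t.τ v).symm, x ∉ q'.2.map (t.τ v).symm → x ∉ pc w a (b - a) := by
      intro x hx hx2 hx3
      rw [List.mem_map] at hx
      obtain ⟨y, hy, rfl⟩ := hx
      refine hF y hy ?_ ?_
      · intro hy2
        exact hx2 (List.mem_map_of_mem hy2)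
      · rw [List.mem_map]
        exact ⟨_, hx3, by simp⟩
    by_cases hc : ∀ x ∈ q'.1.map (t.τ v).symm, x ∉ q'.2.map (t.τ v).symm → x ∉ w
    · exact Or.inl ⟨hUU, hT', hInn, hc⟩
    · exact Or.inr ⟨hUU, hInn, hF', hc⟩
  have h2 := card_le_card h1
  rw [card_image_of_injective] at h2
  · exact h2.trans ((card_union_le _ _).trans (Nat.add_le_add_left (he N a b w hab hb hw) _))
  · intro q q' hqq
    simp only [Prod.mk.injEq] at hqq
    have hi := List.map_injective_iff.mpr (t.τ v).symm.injective
    exact Prod.ext (hi hqq.1) (hi hqq.2)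

end rul

end Pool.Agent.U954.GE
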