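import Pool.Agent.U954.GE.Vx
import Pool.Agent.U954.GE.Fam1

/-!
# Functions of the positions, for moves which add one step
-/

set_option autoImplicit false
set_option linter.unusedVariables false

namespace Pool.Agent.U954.GE

open Finset Pool.Agent.N929.EG Pool.Agent.N169.EG
open scoped Classical

variable {Ver : Type} {X : Geo Ver} {A : Ver → Ver → Prop} {Z : Rul X A}

theorem vxs_lo {n k : ℕ} {w : List Ver} {q : List Ver × List Ver} {w' : List Ver}
    (h : Bls Z n k w q w') {i : ℕ} (hi : i ≤ k) : vx X w' i = vx X w i := by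
  obtain ⟨-, -, hT, L, R, e, e', hk⟩ := h
  obtain ⟨⟨p, r, U, U', h1, h2, -, -⟩, -⟩ := Z.pair _ _ hT
  have g1 : w = (L ++ [p]) ++ (U ++ [r] ++ R) := by rw [e, h1]; simp
  have g2 : w' = (L ++ [p]) ++ (U' ++ [r] ++ R) := by rw [e', h2]; simp
  have hl : i < (L ++ [p]).length := by
    rw [List.length_append, List.length_singleton]
    omega
  unfold vx
  rw [g1, g2, List.getElem?_append_left hl, List.getElem?_append_left hl]

theorem vxs_hi {n k : ℕ} {w : List Ver} {q : List Ver × List Ver} {w' : List Ver}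
    (h : Bls Z n k w q w') {i : ℕ} (hi : k + (Z.k - 1) ≤ i) :
    vx X w' (i + Z.s) = vx X w i := by
  obtain ⟨-, -, hT, L, R, e, e', hk⟩ := h
  obtain ⟨l1, l2⟩ := Z.len _ _ hT
  obtain ⟨⟨p, r, U, U', h1, h2, -, -⟩, -⟩ := Z.pair _ _ hT
  rw [h1] at l1
  rw [h2] at l2
  simp only [List.length_cons, List.length_append, List.length_nil] at l1 l2
  have g1 : w = (L ++ [p] ++ U) ++ (r :: R) := by rw [e, h1]; simp
  have g2 : w' = (L ++ [p] ++ U') ++ (r :: R) := by rw [e', h2]; simp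
  have m1 : (L ++ [p] ++ U).length = k + 1 + U.length := by
    simp only [List.length_append, List.length_cons, List.length_nil]
    omega
  have m2 : (L ++ [p] ++ U').length = k + 1 + U'.length := by
    simp only [List.length_append, List.length_cons, List.length_nil]
    omega
  unfold vx
  rw [g1, g2, List.getElem?_append_right (by omega), List.getElem?_append_right (by omega), m1, m2]
  congr 2
  omega

theorem inLs_iff {D : Set Ver} {n k : ℕ} {w : List Ver} {q : List Ver × List Ver} {w' : List Ver}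
    (h : Bls Z n k w q w') (hq : q ∈ RD D) : InL D w' ↔ InL D w := by
  obtain ⟨-, -, hT, L, R, e, e', hk⟩ := h
  have h1 : ∀ x ∈ q.1, x ∈ D := fun x hx => hq x (by simp [hx])
  have h2 : ∀ x ∈ q.2, x ∈ D := fun x hx => hq x (by simp [hx])
  unfold InL
  rw [e, e']
  simp only [List.mem_append]
  constructor
  · rintro h x ((hx | hx) | hx)
    · exact h x (Or.inl (Or.inl hx))
    · exact h1 x hx
    · exact h x (Or.inr hx)
  · rintro h x ((hx | hx) | hx)
    · exact h x (Or.inl (Or.inl hx))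
    · exact h2 x hx
    · exact h x (Or.inr hx)

noncomputable section

/-- a function of the positions outside the windows, for the walks in `D`, with doubled times -/
def dm1 (X : Geo Ver) (D : Set Ver) (p m l : ℕ) (Ψ : (ℕ → Ver) → (ℕ → Ver) → (ℕ → Ver) → ℝ)
    (q : ℕ) (w : List Ver) : ℝ := dmF X D p m l Ψ (q / 2) w

theorem ob1_lo (hs : Z.s = 1) {p m l : ℕ} (Ψ : (ℕ → Ver) → (ℕ → Ver) → (ℕ → Ver) → ℝ)
    {n k q : ℕ} {w : List Ver} {s : List Ver × List Ver} {w' : List Ver} (hB : Bls Z n k w s w')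
    (h1 : p ≤ k) (h2 : k + (Z.k - 1) ≤ q) (h3 : q + m + l ≤ n) :
    obF X p m l Ψ (q + 1) w' = obF X p m l Ψ q w := by
  have l1 : w.length = n + 1 := ((mem_K Z).mp hB.1).1
  have l2 : w'.length = n + Z.s + 1 := ((mem_K Z).mp hB.2.1).1
  rw [hs] at l2
  have hv : ∀ i, k + (Z.k - 1) ≤ i → vx X w' (i + 1) = vx X w i := fun i hi => by
    have := vxs_hi hB hi
    rwa [hs] at this
  unfold obF
  have e1 : (fun i => vx X w' (min i p)) = fun i => vx X w (min i p) := by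
    funext i
    exact vxs_lo hB (by omega)
  have e2 : (fun i => vx X w' (q + 1 + min i m)) = fun i => vx X w (q + min i m) := by
    funext i
    rw [show q + 1 + min i m = q + min i m + 1 by ring]
    exact hv _ (by omega)
  have e3 : (fun i => vx X w' (w'.length - 1 - l + min i l)) =
      fun i => vx X w (w.length - 1 - l + min i l) := by
    funext i
    rw [l1, l2, show n + 1 + 1 - 1 - l + min i l = n + 1 - 1 - l + min i l + 1 by omega]
    exact hv _ (by omega)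
  rw [e1, e2, e3]

theorem ob1_hi (hs : Z.s = 1) {p m l : ℕ} (Ψ : (ℕ → Ver) → (ℕ → Ver) → (ℕ → Ver) → ℝ)
    {n k q : ℕ} {w : List Ver} {s : List Ver × List Ver} {w' : List Ver} (hB : Bls Z n k w s w')
    (h1 : p ≤ q) (h2 : q + m ≤ k) (h3 : k + (Z.k - 1) + l ≤ n) :
    obF X p m l Ψ q w' = obF X p m l Ψ q w := by
  have l1 : w.length = n + 1 := ((mem_K Z).mp hB.1).1
  have l2 : w'.length = n + Z.s + 1 := ((mem_K Z).mp hB.2.1).1
  rw [hs] at l2
  have hv : ∀ i, k + (Z.k - 1) ≤ i → vx X w' (i + 1) = vx X w i := fun i hi => by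
    have := vxs_hi hB hi
    rwa [hs] at this
  unfold obF
  have e1 : (fun i => vx X w' (min i p)) = fun i => vx X w (min i p) := by
    funext i
    exact vxs_lo hB (by omega)
  have e2 : (fun i => vx X w' (q + min i m)) = fun i => vx X w (q + min i m) := by
    funext i
    exact vxs_lo hB (by omega)
  have e3 : (fun i => vx X w' (w'.length - 1 - l + min i l)) =
      fun i => vx X w (w.length - 1 - l + min i l) := by
    funext i
    rw [l1, l2, show n + 1 + 1 - 1 - l + min i l = n + 1 - 1 - l + min i l + 1 by omega]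
    exact hv _ (by omega)
  rw [e1, e2, e3]

theorem mk_dm1 (hs : Z.s = 1) (D : Set Ver) (p m l : ℕ)
    (Ψ : (ℕ → Ver) → (ℕ → Ver) → (ℕ → Ver) → ℝ) :
    Mk (sy1 Z hs) (RD D) (2 * p) (2 * m) (2 * l) (dm1 X D p m l Ψ) := by
  constructor
  · intro n k q w s w' hB hq h1 h2 h3
    obtain ⟨k', hk, hB'⟩ : Bl1 Z n k w s w' := hB
    have h2' : k + 2 * (Z.k - 1) ≤ q := h2
    unfold dm1 dmF
    rw [show (q + 2) / 2 = q / 2 + 1 by omega,
      ob1_lo hs Ψ hB' (show p ≤ k' by omega) (show k' + (Z.k - 1) ≤ q / 2 by omega) (by omega)]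
    by_cases hd : InL D w
    · rw [if_pos hd, if_pos ((inLs_iff hB' hq).mpr hd)]
    · rw [if_neg hd, if_neg (fun hc => hd ((inLs_iff hB' hq).mp hc))]
  · intro n k q w s w' hB hq h1 h2 h3
    obtain ⟨k', hk, hB'⟩ : Bl1 Z n k w s w' := hB
    have h3' : k + 2 * (Z.k - 1) + 2 * l ≤ n := h3
    unfold dm1 dmF
    rw [ob1_hi hs Ψ hB' (show p ≤ q / 2 by omega) (show q / 2 + m ≤ k' by omega) (by omega)]
    by_cases hd : InL D w
    · rw [if_pos hd, if_pos ((inLs_iff hB' hq).mpr hd)]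
    · rw [if_neg hd, if_neg (fun hc => hd ((inLs_iff hB' hq).mp hc))]

theorem aa1 (hs : Z.s = 1) (D : Set Ver) (p m l : ℕ)
    (Ψ : (ℕ → Ver) → (ℕ → Ver) → (ℕ → Ver) → ℝ) (n s : ℕ) :
    aa (sy1 Z hs) (dm1 X D p m l Ψ) (2 * n) (2 * s) = ∑ w ∈ Kw X A n, dmF X D p m l Ψ s w := by
  unfold aa dm1
  show ∑ w ∈ Kw X A (2 * n / 2), dmF X D p m l Ψ (2 * s / 2) w = _
  rw [Nat.mul_div_cancel_left _ (by norm_num), Nat.mul_div_cancel_left _ (by norm_num)]

theorem GG_eq1 {α : Type} [LinearOrder α] (hs1 : Z.s = 1) {k : ℕ} (H : Set Ver)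
    (φ : Fin k → Ver → α)
    (hφ : ∀ i, Function.Injective (φ i)) {n a m b s : ℕ} (ha : a ≤ n) (hs : s + m ≤ n) (hb : b ≤ n)
    (Ψ : (ℕ → Ver) → (ℕ → Ver) → (ℕ → Ver) → ℝ) :
    GG X A H φ a m b Ψ n s =
      ∑ z ∈ Zt X n k, aa (sy1 Z hs1) (dm1 X (Dt H φ z) a m b (Pt Ψ z)) (2 * n) (2 * s) := by
  simp only [aa1]
  unfold GG
  rw [Finset.sum_comm]
  exact Finset.sum_congr rfl fun w hw => (sum_t Z H φ hφ ha hs hb Ψ hw).symm

/-- the general result: `M i` are the weighted numbers divided by a constant -/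
theorem engTop1 (hs1 : Z.s = 1) (t : Tra Z) {e : ℕ} (he : Exc Z e) {μ : ℝ} {ψ : ℕ → ℝ}
    (G : Grw Z μ ψ) {d : ℝ} (hd0 : 0 ≤ d)
    (hd : ∀ n : ℕ, 2 ≤ n → (X.g n : ℝ) ≤ Real.exp (d * Real.log n)) (k r : ℕ) (hr : 1 ≤ r) :
    ∃ C : ℝ, 0 < C ∧ ∀ (α : Type) (_ : LinearOrder α)
    (H : Set Ver) (φ : Fin k → Ver → α), (∀ i, Function.Injective (φ i)) →
    ((∀ U U', Z.T U U' → ∀ x ∈ U, x ∈ U') ∨ (k = 0 ∧ H = Set.univ)) →
    ∀ (n a m b s g : ℕ) (Ψ : (ℕ → Ver) → (ℕ → Ver) → (ℕ → Ver) → ℝ) (Λ h : ℝ) (M : ℕ → ℝ),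
    2 ≤ n → (∀ x y z, 0 ≤ Ψ x y z ∧ Ψ x y z ≤ 1) → Real.log n ≤ Λ → 0 < h →
    ((Kw X A n).card : ℝ) ≤ Real.exp Λ * h → Real.exp (-Λ) ≤ M 0 →
    (∀ i, i ≤ r → M i = GG X A H φ a m b Ψ n (s + i) / h) →
    a + g ≤ s → s + m + g + b ≤ n → C * (ψ n + Λ) ≤ g →
    2 * r ≤ g ∧ (∀ i, i ≤ r → 0 < M i) ∧
    |df r (fun i => Real.log (M i))| ≤ C * Real.sqrt (Λ / g) ^ r := by
  have hψ0 : ∀ n : ℕ, 2 ≤ n → 0 ≤ ph ψ n := by
    intro n hn
    refine le_trans ?_ (G.log _ (le_max_left 2 (n / 2)))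
    exact Real.log_natCast_nonneg _
  have hcp : ∀ n, (0 : ℝ) < (((sy1 Z hs1).W n).card : ℝ) := fun n =>
    lt_of_lt_of_le (pow_pos (lt_of_lt_of_le one_pos G.one) (n / 2)) (G.low (n / 2))
  obtain ⟨C, hC, he⟩ := engZ hψ0 (famw1 hs1 t he G) hcp r hr
  obtain ⟨κ, hκ⟩ : ∃ κ : ℝ, κ = d * k + 2 := ⟨_, rfl⟩
  have hk0 : (0 : ℝ) ≤ k := Nat.cast_nonneg k
  have hdk : 0 ≤ d * k := mul_nonneg hd0 hk0
  have hκ2 : 2 ≤ κ := by rw [hκ]; linarith
  have hκ1 : 1 ≤ κ := by linarith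
  refine ⟨C * κ + C * Real.sqrt κ ^ r + 4 * r + 1, by positivity,
    fun α _ H φ hφ hDom n a m b s g Ψ Λ h M hn hΨ hΛ hh hcn hM0 hM has hsn hg => ?_⟩
  have hWn : (sy1 Z hs1).W (2 * n) = Kw X A n := by
    show Kw X A (2 * n / 2) = _
    rw [Nat.mul_div_cancel_left _ (by norm_num)]
  have hphn : ph ψ (2 * n) = ψ n := by
    unfold ph
    rw [Nat.mul_div_cancel_left _ (by norm_num), max_eq_right hn]
  have hc : (0 : ℝ) < ((Kw X A n).card : ℝ) := by
    have := hcp (2 * n)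
    rwa [hWn] at this
  have hn' : (2 : ℝ) ≤ n := by exact_mod_cast hn
  have hlog2 : Real.log 2 ≤ Real.log n := Real.log_le_log (by norm_num) hn'
  have hlog0 : (0.69 : ℝ) ≤ Real.log n := by
    have := Real.log_two_gt_d9
    linarith
  have hψl := G.log n hn
  have hr0 : (0 : ℝ) ≤ r := Nat.cast_nonneg r
  have hy0 : 1 ≤ ψ n + Λ := by linarith
  have hψn : 0 ≤ ψ n := by linarith
  have hCs : 0 ≤ C * Real.sqrt κ ^ r := by positivity
  have hCκ : 0 ≤ C * κ := by positivity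
  have hg1 : C * (ψ n + κ * Λ) ≤ g := by
    refine le_trans ?_ hg
    have e1 : ψ n ≤ κ * ψ n := le_mul_of_one_le_left hψn hκ1
    calc C * (ψ n + κ * Λ) ≤ C * (κ * ψ n + κ * Λ) :=
          mul_le_mul_of_nonneg_left (by linarith) hC.le
      _ = C * κ * (ψ n + Λ) := by ring
      _ ≤ _ := mul_le_mul_of_nonneg_right (by linarith) (by linarith)
  have hg2 : 2 * r ≤ g := by
    have h1 : 2 * (r : ℝ) * 1 ≤ 2 * (r : ℝ) * (ψ n + Λ) :=
      mul_le_mul_of_nonneg_left hy0 (by positivity)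
    have h2 : 2 * (r : ℝ) * (ψ n + Λ) ≤
        (C * κ + C * Real.sqrt κ ^ r + 4 * r + 1) * (ψ n + Λ) :=
      mul_le_mul_of_nonneg_right (by linarith) (by linarith)
    have h3 : 2 * (r : ℝ) ≤ g := by linarith
    exact_mod_cast h3
  have hP : ∀ (z : Fin k → Ver) (x y u : ℕ → Ver), 0 ≤ Pt Ψ z x y u ∧ Pt Ψ z x y u ≤ 1 := by
    intro z x y u
    unfold Pt
    split_ifs
    · exact hΨ _ _ _
    · exact ⟨le_rfl, zero_le_one⟩
  have ei : ∀ i, i ≤ r → ∑ z ∈ Zt X n k, aa (sy1 Z hs1)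
      (dm1 X (Dt H φ z) a m b (Pt Ψ z)) (2 * n) (2 * s + 2 * i) = M i * h := by
    intro i hi
    rw [← Nat.mul_add, ← GG_eq1 hs1 H φ hφ (by omega) (by omega) (by omega), hM i hi]
    field_simp
  have e0 : ∑ z ∈ Zt X n k, aa (sy1 Z hs1) (dm1 X (Dt H φ z) a m b (Pt Ψ z)) (2 * n) (2 * s) =
      M 0 * h := ei 0 (by omega)
  have hDD : ∀ z ∈ Zt X n k, Dd Z (RD (Dt H φ z)) (InL (Dt H φ z)) := by
    intro z _
    rcases hDom with hU | ⟨h0, hH⟩
    · exact dd_dom hU _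
    · have : Dt H φ z = Set.univ := by
        subst h0
        rw [hH]
        ext v
        simp [Dt]
      rw [this]
      exact dd_univ
  have h1 := he (Fin k → Ver) (Zt X n k) (fun z => RD (Dt H φ z)) (fun z => InL (Dt H φ z))
    (fun z => dm1 X (Dt H φ z) a m b (Pt Ψ z))
    (2 * a) (2 * m) (2 * b) (2 * n) (2 * s) (2 * g) (κ * Λ) (by omega)
    (fun z _ q w => dmF_01 (hP z) (q / 2) w)
    (fun z _ q w => dmF_D (q / 2) w) hDD
    (fun z _ => mk_dm1 hs1 _ _ _ _ _) (by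
      have h5 : Real.log ((2 * n : ℕ) : ℝ) = Real.log 2 + Real.log n := by
        push_cast
        exact Real.log_mul (by norm_num) (by linarith)
      have h6 : 2 * Λ ≤ κ * Λ := mul_le_mul_of_nonneg_right hκ2 (by linarith)
      rw [h5]
      linarith)
    (by
      rw [e0, hWn]
      calc ((Zt X n k).card : ℝ) * ((Kw X A n).card : ℝ)
          ≤ Real.exp (d * k * Real.log n) * ((Kw X A n).card : ℝ) :=
            mul_le_mul_of_nonneg_right (Zt_card hd hn) hc.le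
        _ ≤ Real.exp (d * k * Λ) * (Real.exp Λ * h) :=
            mul_le_mul (Real.exp_le_exp.mpr (mul_le_mul_of_nonneg_left hΛ hdk)) hcn
              hc.le (Real.exp_pos _).le
        _ = Real.exp (κ * Λ) * (Real.exp (-Λ) * h) := by
            rw [← mul_assoc, ← mul_assoc, ← Real.exp_add, ← Real.exp_add]
            congr 2
            rw [hκ]
            ring
        _ ≤ Real.exp (κ * Λ) * (M 0 * h) :=
            mul_le_mul_of_nonneg_left (mul_le_mul_of_nonneg_right hM0 hh.le)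
              (Real.exp_pos _).le) (by
      rw [hphn]
      push_cast
      have : (0 : ℝ) ≤ g := Nat.cast_nonneg g
      linarith) (by omega) (by omega)
  obtain ⟨h2, h3⟩ := h1
  have hM0' : 0 < M 0 := lt_of_lt_of_le (Real.exp_pos _) hM0
  have hpos : ∀ i, i ≤ r → 0 < M i := by
    intro i hi
    have := (h2 i hi).1
    rw [e0, ei i hi] at this
    have h5 : 0 < M i * h := lt_of_lt_of_le (by positivity) this
    exact pos_of_mul_pos_left h5 hh.le
  refine ⟨hg2, hpos, ?_⟩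
  have e1 : df r (fun i => Real.log (M i)) =
      df r (fun i => Real.log (∑ z ∈ Zt X n k, aa (sy1 Z hs1)
        (dm1 X (Dt H φ z) a m b (Pt Ψ z)) (2 * n) (2 * s + 2 * i))) := by
    rw [← df_const r hr (fun i => Real.log (M i)) (Real.log h)]
    unfold df
    refine Finset.sum_congr rfl fun i hi => ?_
    rw [Finset.mem_range] at hi
    simp only
    rw [ei i (by omega), Real.log_mul (hpos i (by omega)).ne' hh.ne']
  rw [e1]
  refine le_trans h3 ?_
  have hg0 : (0 : ℝ) < g := by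
    have h5 : 1 ≤ g := by omega
    exact_mod_cast h5
  have e5 : Real.sqrt (κ * Λ / ((2 * g : ℕ) : ℝ)) ≤ Real.sqrt κ * Real.sqrt (Λ / g) := by
    rw [← Real.sqrt_mul (by linarith)]
    apply Real.sqrt_le_sqrt
    push_cast
    rw [← mul_div_assoc]
    have h6 : 0 ≤ κ * Λ := mul_nonneg (by linarith) (by linarith)
    exact div_le_div_of_nonneg_left h6 hg0 (by linarith)
  calc C * Real.sqrt (κ * Λ / ((2 * g : ℕ) : ℝ)) ^ r
      ≤ C * (Real.sqrt κ * Real.sqrt (Λ / g)) ^ r := by gcongr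
    _ = C * Real.sqrt κ ^ r * Real.sqrt (Λ / g) ^ r := by rw [mul_pow, ← mul_assoc]
    _ ≤ _ := mul_le_mul_of_nonneg_right (by linarith) (by positivity)

end

end Pool.Agent.U954.GE
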