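import Pool.Agent.U954.GE.Fn
import Pool.Agent.U954.GE.Vx1

/-!
# Walks as functions: the results for moves which add one step
-/

set_option autoImplicit false
set_option linter.unusedVariables false

namespace Pool.Agent.U954.GE

open Finset Pool.Agent.N929.EG Pool.Agent.N169.EG
open scoped Classical

variable {Ver : Type} {X : Geo Ver} {A : Ver → Ver → Prop} {Z : Rul X A}

noncomputable section

variable {H : Set Ver} {S : ∀ n : ℕ, Set (Fin (n + 1) → Ver)}

/-- the data of a class of walks -/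
structure Dat1 {Ver : Type} {X : Geo Ver} {A : Ver → Ver → Prop} (Z : Rul X A) (μ : ℝ)
    (ψ lam : ℕ → ℝ) (d : ℝ) (e : ℕ) (H : Set Ver) where
  hs : Z.s = 1
  t : Tra Z
  exc : Exc Z e
  G : Grw Z μ ψ
  d0 : 0 ≤ d
  gr : ∀ n : ℕ, 2 ≤ n → (X.g n : ℝ) ≤ Real.exp (d * Real.log n)
  log : ∀ n : ℕ, 2 ≤ n → Real.log n ≤ lam n
  low : ∀ n : ℕ, 2 ≤ n → ((Kw X A n).card : ℝ) ≤ Real.exp (lam n) * ((HW X A H n).card : ℝ)
  dom : (∀ U U', Z.T U U' → ∀ x ∈ U, x ∈ U') ∨ H = Set.univ

variable {μ : ℝ} {ψ lam : ℕ → ℝ} {d : ℝ} {e : ℕ}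

theorem HW_pos1 (D : Dat1 Z μ ψ lam d e H) {n : ℕ} (hn : 2 ≤ n) :
    (0 : ℝ) < ((HW X A H n).card : ℝ) := by
  have h1 := D.low n hn
  have h2 : (0 : ℝ) < ((Kw X A n).card : ℝ) :=
    lt_of_lt_of_le (pow_pos (lt_of_lt_of_le one_pos D.G.one) n) (D.G.low n)
  have h3 : 0 < Real.exp (lam n) * ((HW X A H n).card : ℝ) := lt_of_lt_of_le h2 h1
  exact pos_of_mul_pos_right h3 (Real.exp_pos _).le

/-- the general statement -/
theorem general1 (D : Dat1 Z μ ψ lam d e H) (hS : Cla X A H S) (k : ℕ)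
    (hk : (∀ U U', Z.T U U' → ∀ x ∈ U, x ∈ U') ∨ k = 0) (r : ℕ) (hr : 1 ≤ r) :
    ∃ C : ℝ, 0 < C ∧ ∀ (α : Type) (_ : LinearOrder α)
    (φ : Fin k → Ver → α), (∀ i, Function.Injective (φ i)) → ∀ (n a m b s g : ℕ)
    (Φ : (Fin (a + 1) → Ver) × (Fin (m + 1) → Ver) × (Fin (b + 1) → Ver) → ℝ) (L : ℝ),
    2 ≤ n → (∀ x, 0 ≤ Φ x ∧ Φ x ≤ 1) → lam n ≤ L →
    Real.exp (-L) ≤ TopMean S φ n a m b s Φ →
    a + g ≤ s → s + m + g + b ≤ n → C * (ψ n + L) ≤ g →
    2 * r ≤ g ∧ (∀ i, i ≤ r → 0 < TopMean S φ n a m b (s + i) Φ) ∧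
    |df r (fun i => Real.log (TopMean S φ n a m b (s + i) Φ))| ≤
      C * Real.sqrt (L / g) ^ r := by
  obtain ⟨C, hC, h⟩ := engTop1 D.hs D.t D.exc D.G D.d0 D.gr k r hr
  refine ⟨C, hC, fun α _ φ hφ n a m b s g Φ L hn hΦ hL hm has hsn hg => ?_⟩
  have hDom : (∀ U U', Z.T U U' → ∀ x ∈ U, x ∈ U') ∨ (k = 0 ∧ H = Set.univ) := by
    rcases hk with h1 | h1
    · exact Or.inl h1
    · rcases D.dom with h2 | h2
      · exact Or.inl h2
      · exact Or.inr ⟨h1, h2⟩
  have hlog := D.log n hn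
  have hcn : ((Kw X A n).card : ℝ) ≤ Real.exp L * ((HW X A H n).card : ℝ) :=
    (D.low n hn).trans (mul_le_mul_of_nonneg_right (Real.exp_le_exp.mpr hL) (Nat.cast_nonneg _))
  have h7 := h α inferInstance H φ hφ hDom n a m b s g (Ps Φ) L ((HW X A H n).card : ℝ)
      (fun i => GG X A H φ a m b (Ps Φ) n (s + i) / ((HW X A H n).card : ℝ)) hn
      (fun x y z => hΦ _) (by linarith) (HW_pos1 D hn) hcn (by
        have e0 := topMean_eq Z hS φ (n := n) (a := a) (m := m) (b := b) (s := s) (by omega)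
          (by omega) (by omega) Φ
        show _ ≤ GG X A H φ a m b (Ps Φ) n (s + 0) / ((HW X A H n).card : ℝ)
        rw [Nat.add_zero, ← e0]
        exact hm) (fun i _ => rfl) has hsn hg
  obtain ⟨h8, h9, h10⟩ := h7
  have ei : ∀ i, i ≤ r → TopMean S φ n a m b (s + i) Φ =
      GG X A H φ a m b (Ps Φ) n (s + i) / ((HW X A H n).card : ℝ) := fun i hi =>
    topMean_eq Z hS φ (by omega) (by omega) (by omega) Φ
  refine ⟨h8, fun i hi => by rw [ei i hi]; exact h9 i hi, ?_⟩
  have e1 : df r (fun i => Real.log (TopMean S φ n a m b (s + i) Φ)) =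
      df r (fun i => Real.log (GG X A H φ a m b (Ps Φ) n (s + i) /
        ((HW X A H n).card : ℝ))) := by
    unfold df
    refine Finset.sum_congr rfl fun i hi => ?_
    rw [Finset.mem_range] at hi
    simp only
    rw [ei i (by omega)]
  rw [e1]
  exact h10

/-- positive quantities which are not too large and not too small -/
theorem mom1 (D : Dat1 Z μ ψ lam d e H) (hS : Cla X A H S) (κ : ℝ) (hκ : 0 ≤ κ) (r : ℕ)
    (hr : 1 ≤ r) : ∃ C : ℝ, 0 < C ∧ ∀ (n a m b q g : ℕ)
    (Y : ℕ → (Fin (n + 1) → Ver) → ℝ)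
    (V : (Fin (a + 1) → Ver) × (Fin (m + 1) → Ver) × (Fin (b + 1) → Ver) → ℝ), 2 ≤ n →
    a + g ≤ q → q + m + g + b ≤ n → C * (ψ n + lam n) ≤ g →
    (2 * r + 1 ≤ g → ∀ i, i ≤ r → ∀ w ∈ HW X A H n,
      Y i (fnw X n w) = V (parts a m b (q + i) (fnw X n w)) ∧
      Y i (fnw X n w) ≤ Real.exp (κ * Real.log n) ∧
      Real.exp (-(κ * Real.log n)) ≤ Y i (fnw X n w)) →
    |df r (fun i => Real.log (Mean S n (Y i)))| ≤ C * Real.sqrt (lam n / g) ^ r := by
  obtain ⟨C, hC, h⟩ := general1 D hS 0 (Or.inr rfl) r hr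
  obtain ⟨c, hc⟩ : ∃ c : ℝ, c = 1 + 2 * κ := ⟨_, rfl⟩
  have hc1 : 1 ≤ c := by rw [hc]; linarith
  refine ⟨C * c + C * Real.sqrt c ^ r + 5 * (r + 1), by positivity,
    fun n a m b q g Y V hn haq hqn hg hY => ?_⟩
  have hn' : (2 : ℝ) ≤ n := by exact_mod_cast hn
  have hlog0 : (0.69 : ℝ) ≤ Real.log n := by
    have h1 : Real.log 2 ≤ Real.log n := Real.log_le_log (by norm_num) hn'
    have := Real.log_two_gt_d9
    linarith
  have hlam := D.log n hn
  have hψ := D.G.log n hn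
  obtain ⟨y, hy⟩ : ∃ y : ℝ, y = ψ n + lam n := ⟨_, rfl⟩
  rw [← hy] at hg
  have hy1 : 1.38 ≤ y := by rw [hy]; linarith
  have hr0 : (0 : ℝ) ≤ r := Nat.cast_nonneg r
  have hCs : 0 ≤ C * Real.sqrt c ^ r := by positivity
  have hCc : 0 ≤ C * c := by positivity
  have hgr : 2 * r + 1 ≤ g := by
    have h1 : 5 * ((r : ℝ) + 1) * 1.38 ≤ 5 * ((r : ℝ) + 1) * y :=
      mul_le_mul_of_nonneg_left hy1 (by positivity)
    have h2 : 5 * ((r : ℝ) + 1) * y ≤
        (C * c + C * Real.sqrt c ^ r + 5 * (r + 1)) * y :=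
      mul_le_mul_of_nonneg_right (by linarith) (by linarith)
    have h3 : 2 * (r : ℝ) + 1 ≤ g := by linarith
    exact_mod_cast h3
  have hY' := hY hgr
  have hh := HW_pos1 D hn
  obtain ⟨M, hM⟩ : ∃ M : ℝ, M = Real.exp (κ * Real.log n) := ⟨_, rfl⟩
  have hM0 : 0 < M := by rw [hM]; exact Real.exp_pos _
  obtain ⟨Φ, hΦ⟩ : ∃ Φ : (Fin (a + 1) → Ver) × (Fin (m + 1) → Ver) ×
      (Fin (b + 1) → Ver) → ℝ, ∀ x, Φ x = min 1 (max 0 (V x / M)) := ⟨_, fun _ => rfl⟩
  have hΦ01 : ∀ x, 0 ≤ Φ x ∧ Φ x ≤ 1 := fun x => by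
    rw [hΦ]
    exact ⟨le_min zero_le_one (le_max_left _ _), min_le_left _ _⟩
  obtain ⟨φ, hφ⟩ : ∃ φ : Fin 0 → Ver → ℕ, True := ⟨fun _ _ => 0, trivial⟩
  have hmi : ∀ i, i ≤ r → TopMean S φ n a m b (q + i) Φ = Mean S n (Y i) / M ∧
      Real.exp (-(2 * κ * Real.log n)) ≤ Mean S n (Y i) / M := by
    intro i hi
    have e1 : ∀ w ∈ HW X A H n, Φ (parts a m b (q + i) (fnw X n w)) = Y i (fnw X n w) / M ∧
        Real.exp (-(2 * κ * Real.log n)) ≤ Y i (fnw X n w) / M := by
      intro w hw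
      obtain ⟨b1, b2, b3⟩ := hY' i hi w hw
      have b4 : 0 < Y i (fnw X n w) := lt_of_lt_of_le (Real.exp_pos _) b3
      constructor
      · rw [hΦ, ← b1, max_eq_right (by positivity), min_eq_right]
        rw [div_le_one hM0, hM]
        exact b2
      · rw [le_div_iff₀ hM0, hM, ← Real.exp_add]
        refine le_trans (le_of_eq ?_) b3
        congr 1
        ring
    constructor
    · unfold TopMean
      rw [mean_eq Z hS, mean_eq Z hS]
      have e8 : (∑ w ∈ HW X A H n, Y i (fnw X n w)) / ((HW X A H n).card : ℝ) / M =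
          (∑ w ∈ HW X A H n, Y i (fnw X n w) / M) / ((HW X A H n).card : ℝ) := by
        rw [div_right_comm, Finset.sum_div]
      rw [e8]
      refine congrArg (· / ((HW X A H n).card : ℝ)) ?_
      refine Finset.sum_congr rfl fun w hw => ?_
      rw [if_pos (show TopsIn φ a m b (q + i) (fnw X n w) from fun j => j.elim0)]
      exact (e1 w hw).1
    · rw [mean_eq Z hS, div_right_comm, Finset.sum_div, le_div_iff₀ hh]
      have e9 : Real.exp (-(2 * κ * Real.log n)) * ((HW X A H n).card : ℝ) =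
          ∑ _w ∈ HW X A H n, Real.exp (-(2 * κ * Real.log n)) := by
        rw [Finset.sum_const, nsmul_eq_mul]
        ring
      rw [e9]
      exact Finset.sum_le_sum fun w hw => (e1 w hw).2
  have hcl : 2 * κ * Real.log n ≤ c * lam n := by
    have h5 : 2 * κ * Real.log n ≤ 2 * κ * lam n := mul_le_mul_of_nonneg_left hlam (by positivity)
    rw [hc]
    linarith
  have h1 := h ℕ inferInstance φ (fun j => j.elim0) n a m b q g Φ (c * lam n) hn hΦ01
    (le_mul_of_one_le_left (by linarith) hc1)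
    (by
      have := hmi 0 (by omega)
      simp only [Nat.add_zero] at this
      rw [this.1]
      refine le_trans (Real.exp_le_exp.mpr ?_) this.2
      linarith) haq hqn
    (by
      refine le_trans ?_ hg
      have h5 : ψ n ≤ c * ψ n := le_mul_of_one_le_left (by linarith) hc1
      calc C * (ψ n + c * lam n) ≤ C * (c * ψ n + c * lam n) :=
            mul_le_mul_of_nonneg_left (by linarith) hC.le
        _ = C * c * y := by rw [hy]; ring
        _ ≤ _ := mul_le_mul_of_nonneg_right (by linarith) (by linarith))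
  obtain ⟨-, h2, h3⟩ := h1
  have e4 : df r (fun i => Real.log (Mean S n (Y i))) =
      df r (fun i => Real.log (TopMean S φ n a m b (q + i) Φ)) := by
    rw [← df_const r hr (fun i => Real.log (TopMean S φ n a m b (q + i) Φ)) (Real.log M)]
    unfold df
    refine Finset.sum_congr rfl fun i hi => ?_
    rw [Finset.mem_range] at hi
    have hp := h2 i (by omega)
    rw [(hmi i (by omega)).1] at hp
    have hp' : 0 < Mean S n (Y i) := by
      have := mul_pos hp hM0
      rwa [div_mul_cancel₀ _ hM0.ne'] at this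
    simp only
    rw [(hmi i (by omega)).1, Real.log_div hp'.ne' hM0.ne']
    ring
  rw [e4]
  refine h3.trans ?_
  have e5 : Real.sqrt (c * lam n / g) = Real.sqrt c * Real.sqrt (lam n / g) := by
    rw [← Real.sqrt_mul (by linarith)]
    congr 1
    ring
  rw [e5, mul_pow, ← mul_assoc]
  refine mul_le_mul_of_nonneg_right ?_ (by positivity)
  linarith

/-- moments of the distances -/
theorem dist1 (D : Dat1 Z μ ψ lam d e H) (hS : Cla X A H S) (ρ : Ver → Ver → ℝ)
    (hρ : ∀ n : ℕ, 2 ≤ n → ∀ w ∈ Kw X A n, ∀ s t, s ≤ n → t ≤ n → s ≠ t →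
      1 ≤ ρ (vx X w s) (vx X w t) ∧ ρ (vx X w s) (vx X w t) ≤ (n : ℝ) ^ 3) (θ : ℝ) (r : ℕ)
    (hr : 1 ≤ r) : ∃ C : ℝ, 0 < C ∧ ∀ n s t g : ℕ, 2 ≤ n → s < t →
      C * (ψ n + lam n) ≤ g →
      (s + g ≤ t → t + g ≤ n →
        |df r (fun i => Real.log (Mean S n (fun ω =>
          ρ (ω (Fin.ofNat (n + 1) s)) (ω (Fin.ofNat (n + 1) (t + i))) ^ θ)))| ≤
          C * Real.sqrt (lam n / g) ^ r) ∧
      (g ≤ s → s + g ≤ t → t ≤ n →
        |df r (fun i => Real.log (Mean S n (fun ω =>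
          ρ (ω (Fin.ofNat (n + 1) (s + i))) (ω (Fin.ofNat (n + 1) t)) ^ θ)))| ≤
          C * Real.sqrt (lam n / g) ^ r) ∧
      (g ≤ s → t + g ≤ n →
        |df r (fun i => Real.log (Mean S n (fun ω =>
          ρ (ω (Fin.ofNat (n + 1) (s + i))) (ω (Fin.ofNat (n + 1) (t + i))) ^ θ)))| ≤
          C * Real.sqrt (lam n / g) ^ r) := by
  obtain ⟨C, hC, h⟩ := mom1 D hS (3 * |θ|) (by positivity) r hr
  refine ⟨C, hC, fun n s t g hn hst hg => ⟨fun h1 h2 => ?_, fun h1 h2 h3 => ?_, fun h1 h2 => ?_⟩⟩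
  · refine h n s 0 0 t g
      (fun i ω => ρ (ω (Fin.ofNat (n + 1) s)) (ω (Fin.ofNat (n + 1) (t + i))) ^ θ)
      (fun x => ρ (x.1 (Fin.last s)) (x.2.1 0) ^ θ) hn h1 (by omega) hg
      (fun hrg i hi w hw => ?_)
    have hw' : w ∈ Kw X A n := (Finset.mem_filter.mp hw).1
    simp only [parts]
    rw [piece_fnw w (by omega), piece_fnw w (by omega), fnw_at w _ (by omega),
      fnw_at w _ (by omega)]
    obtain ⟨b1, b2⟩ := hρ n hn w hw' s (t + i) (by omega) (by omega) (by omega)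
    refine ⟨by simp, pow_bd θ hn b1 b2⟩
  · refine h n 0 0 (n - t) s g
      (fun i ω => ρ (ω (Fin.ofNat (n + 1) (s + i))) (ω (Fin.ofNat (n + 1) t)) ^ θ)
      (fun x => ρ (x.2.1 0) (x.2.2 0) ^ θ) hn (by omega) (by omega) hg
      (fun hrg i hi w hw => ?_)
    have hw' : w ∈ Kw X A n := (Finset.mem_filter.mp hw).1
    simp only [parts]
    rw [piece_fnw w (by omega), piece_fnw w (by omega), fnw_at w _ (by omega),
      fnw_at w _ (by omega)]
    obtain ⟨b1, b2⟩ := hρ n hn w hw' (s + i) t (by omega) (by omega) (by omega)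
    refine ⟨?_, pow_bd θ hn b1 b2⟩
    simp only [Fin.val_zero, Nat.add_zero]
    rw [show n - (n - t) = t by omega]
  · refine h n 0 (t - s) 0 s g
      (fun i ω => ρ (ω (Fin.ofNat (n + 1) (s + i))) (ω (Fin.ofNat (n + 1) (t + i))) ^ θ)
      (fun x => ρ (x.2.1 0) (x.2.1 (Fin.last (t - s))) ^ θ) hn (by omega) (by omega) hg
      (fun hrg i hi w hw => ?_)
    have hw' : w ∈ Kw X A n := (Finset.mem_filter.mp hw).1
    simp only [parts]
    rw [piece_fnw w (by omega), piece_fnw w (by omega), fnw_at w _ (by omega),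
      fnw_at w _ (by omega)]
    obtain ⟨b1, b2⟩ := hρ n hn w hw' (s + i) (t + i) (by omega) (by omega) (by omega)
    refine ⟨?_, pow_bd θ hn b1 b2⟩
    simp only [Fin.val_zero, Nat.add_zero, Fin.val_last]
    rw [show s + i + (t - s) = t + i by omega]

/-- the sum of the probabilities -/
theorem sum_prb1 (D : Dat1 Z μ ψ lam d e H) (hS : Cla X A H S) {α : Type} [LinearOrder α]
    (φ : Ver → α) (hφ : Function.Injective φ) {n s J : ℕ}
    (hn : 2 ≤ n) (_ : s + J ≤ n) :
    ∑ j ∈ Finset.range (J + 1), Prb S n (fun ω => IsTop φ ω (s + j)) ≤ 1 := by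
  have hc := HW_pos1 D hn
  unfold Prb
  simp only [mean_eq Z hS]
  rw [← Finset.sum_div, div_le_one hc, Finset.sum_comm]
  calc _ ≤ ∑ w ∈ HW X A H n, (1 : ℝ) := by
        refine Finset.sum_le_sum fun w hw => ?_
        have hw' : w ∈ Kw X A n := (Finset.mem_filter.mp hw).1
        rw [← Finset.sum_filter, Finset.sum_const, nsmul_eq_mul, mul_one]
        have h1 : ((Finset.range (J + 1)).filter (fun j => IsTop φ (fnw X n w) (s + j))).card
            ≤ 1 := by
          rw [Finset.card_le_one]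
          intro i hi j hj
          rw [Finset.mem_filter, isTop_iff] at hi hj
          obtain ⟨hi0, hi1, hi2⟩ := hi
          obtain ⟨hj0, hj1, hj2⟩ := hj
          have e3 := hφ (le_antisymm (hi2 _ hj1) (hj2 _ hi1))
          have := vx_inj hw' Z (s := s + j) (t := s + i) (by omega) (by omega) e3
          omega
        exact_mod_cast h1
    _ = _ := by rw [Finset.sum_const, nsmul_eq_mul, mul_one]

/-- the differences for one ranking -/
theorem one1 (D : Dat1 Z μ ψ lam d e H) (hS : Cla X A H S)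
    (hU : ∀ U U', Z.T U U' → ∀ x ∈ U, x ∈ U') (r : ℕ) (hr : 1 ≤ r) : ∃ C : ℝ, 0 < C ∧
      ∀ (α : Type) (_ : LinearOrder α)
      (φ : Ver → α), Function.Injective φ → ∀ (n t g : ℕ) (L : ℝ), 2 ≤ n → lam n ≤ L →
      Real.exp (-L) ≤ Prb S n (fun ω => IsTop φ ω t) → g ≤ t → t + g ≤ n →
      C * (ψ n + L) ≤ g →
      (∀ i, i ≤ r → 0 < Prb S n (fun ω => IsTop φ ω (t + i))) ∧
      |df r (fun i => Real.log (Prb S n (fun ω => IsTop φ ω (t + i))))| ≤
        C * Real.sqrt (L / g) ^ r := by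
  obtain ⟨C, hC, h⟩ := general1 D hS 1 (Or.inl hU) r hr
  refine ⟨C, hC, fun α _ φ hφ n t g L hn hL hp hgt htn hg => ?_⟩
  have h3 := h α inferInstance (fun _ => φ) (fun _ => hφ) n 0 0 0 t g
    (fun x => if Mid φ x then 1 else 0) L hn
    (fun x => by split_ifs <;> norm_num) hL (by rw [one_eq Z hS φ (by omega)]; exact hp) (by omega)
    (by omega) hg
  obtain ⟨h2, h4, h5⟩ := h3
  constructor
  · intro i hi
    have := h4 i hi
    rwa [one_eq Z hS φ (by omega)] at this
  · have e1 : df r (fun i => Real.log (Prb S n (fun ω => IsTop φ ω (t + i)))) =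
        df r (fun i => Real.log (TopMean S (k := 1) (fun _ => φ) n 0 0 0 (t + i)
          (fun x => if Mid φ x then 1 else 0))) := by
      unfold df
      refine Finset.sum_congr rfl fun i hi => ?_
      rw [Finset.mem_range] at hi
      simp only
      rw [one_eq Z hS φ (by omega)]
    rw [e1]
    exact h5

/-- the bound for one ranking -/
theorem point1 (D : Dat1 Z μ ψ lam d e H) (hS : Cla X A H S)
    (hU : ∀ U U', Z.T U U' → ∀ x ∈ U, x ∈ U') : ∃ C : ℝ, 0 < C ∧
    ∀ (α : Type) (_ : LinearOrder α) (φ : Ver → α),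
    Function.Injective φ → ∀ n t g : ℕ, 2 ≤ n → g ≤ t → t + g ≤ n → C * (ψ n + lam n) ≤ g →
      Prb S n (fun ω => IsTop φ ω t) ≤ C * Real.sqrt (lam n / g) := by
  obtain ⟨C, hC, h⟩ := one1 D hS hU 1 le_rfl
  obtain ⟨B, hB⟩ : ∃ B : ℝ, B = 6 * (C + 1) := ⟨_, rfl⟩
  refine ⟨100 * B, by rw [hB]; positivity, fun α _ φ hφ n t g hn hgt htn hg => ?_⟩
  have hn' : (2 : ℝ) ≤ n := by exact_mod_cast hn
  have hlog0 : (0.69 : ℝ) ≤ Real.log n := by
    have h1 : Real.log 2 ≤ Real.log n := Real.log_le_log (by norm_num) hn'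
    have := Real.log_two_gt_d9
    linarith
  have hlam := D.log n hn
  have hψ := D.G.log n hn
  obtain ⟨l, hl⟩ : ∃ l : ℝ, l = lam n := ⟨_, rfl⟩
  rw [← hl] at hg hlam ⊢
  have hl0 : 0.69 ≤ l := by linarith
  have hB1 : 6 ≤ B := by rw [hB]; linarith
  have hg1 : 100 * B ≤ (g : ℝ) := by
    have : 100 * B * 1 ≤ 100 * B * (ψ n + l) :=
      mul_le_mul_of_nonneg_left (by linarith) (by linarith)
    linarith
  have hg0 : (0 : ℝ) < g := by linarith
  have hgn : (g : ℝ) ≤ n := by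
    have : g ≤ n := by omega
    exact_mod_cast this
  obtain ⟨σ, hσ⟩ : ∃ σ : ℝ, σ = Real.sqrt (l / g) := ⟨_, rfl⟩
  have hσ0 : 0 < σ := by rw [hσ]; exact Real.sqrt_pos.mpr (by positivity)
  have hσ2 : σ ^ 2 = l / g := by
    rw [hσ]
    exact Real.sq_sqrt (by positivity)
  have hσg : σ ^ 2 * g = l := by rw [hσ2]; field_simp
  rw [← hσ]
  obtain ⟨P, hP⟩ : ∃ P : ℕ → ℝ, ∀ j, P j = Prb S n (fun ω => IsTop φ ω (t + j)) :=
    ⟨_, fun _ => rfl⟩
  have hP0 : P 0 = Prb S n (fun ω => IsTop φ ω t) := by rw [hP]; rfl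
  rw [← hP0]
  have hP00 : 0 ≤ P 0 := by rw [hP0]; exact prb_nonneg Z hS _ _
  -- small probabilities
  by_cases hsm : P 0 < Real.exp (-l)
  · have h3 : Real.exp (-l) ≤ 2 * σ := by
      have h4 : (g : ℝ) ≤ Real.exp l := by
        refine hgn.trans ?_
        rw [← Real.exp_log (show (0 : ℝ) < n by linarith)]
        exact Real.exp_le_exp.mpr hlam
      have h5 : Real.exp (-l) ^ 2 ≤ (2 * σ) ^ 2 := by
        have h6 : (2 * σ) ^ 2 = 4 * l / g := by
          rw [mul_pow, hσ2]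
          ring
        rw [h6, le_div_iff₀ hg0]
        have h7 : Real.exp (-l) ^ 2 * Real.exp l ≤ 1 := by
          rw [← Real.exp_nat_mul, ← Real.exp_add]
          apply Real.exp_le_one_iff.mpr
          push_cast
          linarith
        have h8 : Real.exp (-l) ^ 2 * g ≤ Real.exp (-l) ^ 2 * Real.exp l :=
          mul_le_mul_of_nonneg_left h4 (by positivity)
        linarith
      exact (abs_le_of_sq_le_sq' h5 (by positivity)).2
    have : 2 * σ ≤ 100 * B * σ := mul_le_mul_of_nonneg_right (by linarith) hσ0.le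
    linarith
  push Not at hsm
  obtain ⟨δ, hδ⟩ : ∃ δ : ℝ, δ = B * σ := ⟨_, rfl⟩
  have hδ0 : 0 < δ := by rw [hδ]; positivity
  obtain ⟨J, hJ⟩ : ∃ J : ℕ, J = ⌊1 / δ⌋₊ := ⟨_, rfl⟩
  have hJ1 : (J : ℝ) ≤ 1 / δ := by rw [hJ]; exact Nat.floor_le (by positivity)
  have hJ2 : 1 / δ < J + 1 := by rw [hJ]; exact Nat.lt_floor_add_one _
  have hJδ : (J : ℝ) * δ ≤ 1 := by
    rw [le_div_iff₀ hδ0] at hJ1
    exact hJ1
  have hJδ2 : 1 < ((J : ℝ) + 1) * δ := by
    rw [div_lt_iff₀ hδ0] at hJ2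
    exact hJ2
  have hJg : 4 * J + 4 ≤ g := by
    have h3 : (J : ℝ) ≤ g / 8 := by
      refine hJ1.trans ?_
      rw [div_le_div_iff₀ hδ0 (by norm_num), hδ]
      have h5 : 2 ≤ σ * g := by
        have h6 : (2 : ℝ) ^ 2 ≤ (σ * g) ^ 2 := by
          have : (σ * g) ^ 2 = l * g := by
            rw [← hσg]
            ring
          rw [this]
          have h7 : 0.69 * 600 ≤ l * g :=
            mul_le_mul hl0 (by linarith) (by norm_num) (by linarith)
          linarith
        exact (abs_le_of_sq_le_sq' h6 (by positivity)).2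
      have h8 : 6 * 2 ≤ B * (σ * g) := mul_le_mul hB1 h5 (by norm_num) (by linarith)
      linarith
    have h7 : 4 * (J : ℝ) + 4 ≤ g := by linarith
    exact_mod_cast h7
  have hfin := spread P δ J hδ0 hJδ hJδ2 hP00 (fun j hj hPj => by
      have hPj' : Real.exp (-(3 * l)) ≤ P j := by
        refine le_trans ?_ hPj
        calc Real.exp (-(3 * l)) ≤ Real.exp (-l + -1) := by
              apply Real.exp_le_exp.mpr
              linarith
          _ = Real.exp (-l) * Real.exp (-1) := Real.exp_add _ _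
          _ ≤ _ := mul_le_mul_of_nonneg_right hsm (Real.exp_pos _).le
      obtain ⟨g', hg'⟩ : ∃ g' : ℕ, g' = g / 2 := ⟨_, rfl⟩
      have hg'1 : g < 2 * (g' + 1) := by omega
      have hg'2 : (g : ℝ) < 2 * ((g' : ℝ) + 1) := by exact_mod_cast hg'1
      have hg'3 : (g : ℝ) ≤ 3 * g' := by linarith
      have hg'0 : (0 : ℝ) < g' := by linarith
      have h3 := h α inferInstance φ hφ n (t + j) g' (3 * l) hn (by rw [← hl]; linarith)
        (by rw [← hP]; exact hPj') (by omega) (by omega) (by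
          have h4 : C * (ψ n + 3 * l) ≤ C * (3 * (ψ n + l)) :=
            mul_le_mul_of_nonneg_left (by linarith) hC.le
          have h5 : 3 * (C * (3 * (ψ n + l))) ≤ 100 * B * (ψ n + l) := by
            rw [hB]
            have : 0 ≤ C * (ψ n + l) := by
              have : 0 ≤ ψ n + l := by linarith
              positivity
            linarith
          linarith)
      obtain ⟨h4, h5⟩ := h3
      have h6 := h4 1 le_rfl
      have e1 : df 1 (fun i => Real.log (Prb S n (fun ω => IsTop φ ω (t + j + i)))) =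
          Real.log (P j) - Real.log (P (j + 1)) := by
        unfold df
        rw [Finset.sum_range_succ, Finset.sum_range_one]
        simp only [hP]
        have e2 : t + j + 1 = t + (j + 1) := by ring
        rw [e2]
        simp
        ring
      rw [e1, pow_one] at h5
      rw [show t + j + 1 = t + (j + 1) by ring, ← hP] at h6
      have h7 : C * Real.sqrt (3 * l / g') ≤ δ := by
        have h8 : Real.sqrt (3 * l / g') ≤ 3 * σ := by
          rw [Real.sqrt_le_left (by positivity), div_le_iff₀ hg'0]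
          have h9 : (3 * σ) ^ 2 * g' = 3 * (σ ^ 2 * (3 * g')) := by ring
          have h10 : σ ^ 2 * g ≤ σ ^ 2 * (3 * g') := mul_le_mul_of_nonneg_left hg'3 (by positivity)
          rw [h9]
          rw [hσg] at h10
          linarith
        calc C * Real.sqrt (3 * l / g') ≤ C * (3 * σ) := by gcongr
          _ ≤ δ := by
            rw [hδ, hB]
            have : 0 ≤ C * σ := by positivity
            linarith
      have h8 : Real.log (P j) - δ ≤ Real.log (P (j + 1)) := by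
        have := (abs_le.mp h5).2
        linarith
      have hPjpos : 0 < P j := lt_of_lt_of_le (Real.exp_pos _) hPj'
      rw [← Real.exp_log hPjpos, ← Real.exp_add, ← Real.exp_log h6]
      apply Real.exp_le_exp.mpr
      linarith) (by
      have := sum_prb1 D hS φ hφ (n := n) (s := t) (J := J) hn (by omega)
      simp only [hP]
      exact this)
  calc P 0 ≤ 3 * δ := hfin
    _ = 3 * B * σ := by rw [hδ]; ring
    _ ≤ _ := mul_le_mul_of_nonneg_right (by linarith) hσ0.le

end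

end Pool.Agent.U954.GE
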