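import Pool.Agent.U954.GE.Fn1

/-!
# Several rankings: the joint law of the times of the highest sites
-/

set_option autoImplicit false
set_option linter.unusedVariables false

namespace Pool.Agent.U954.GE.Jt

open Finset Pool.Agent.N929.EG Pool.Agent.N169.EG Pool.Agent.U954.GE
open scoped Classical

variable {Ver : Type} {X : Geo Ver} {A : Ver → Ver → Prop}

noncomputable section

/-- the general statement, for moves with `st` steps -/
def GenP (S : ∀ n : ℕ, Set (Fin (n + 1) → Ver)) (ψ lam : ℕ → ℝ) (st k r : ℕ) : Prop :=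
  ∃ C : ℝ, 0 < C ∧ ∀ (α : Type) (_ : LinearOrder α)
    (φ : Fin k → Ver → α), (∀ i, Function.Injective (φ i)) → ∀ (n a m b s g : ℕ)
    (Φ : (Fin (a + 1) → Ver) × (Fin (m + 1) → Ver) × (Fin (b + 1) → Ver) → ℝ) (L : ℝ),
    2 ≤ n → (∀ x, 0 ≤ Φ x ∧ Φ x ≤ 1) → lam n ≤ L →
    Real.exp (-L) ≤ TopMean S φ n a m b s Φ →
    a + g ≤ s → s + m + g + b ≤ n → C * (ψ n + L) ≤ g →
    2 * r ≤ g ∧ (∀ i, i ≤ r → 0 < TopMean S φ n a m b (s + st * i) Φ) ∧
    |df r (fun i => Real.log (TopMean S φ n a m b (s + st * i) Φ))| ≤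
      C * Real.sqrt (L / g) ^ r

variable {S : ∀ n : ℕ, Set (Fin (n + 1) → Ver)} {H : Set Ver}

/-- the times `t i` are the ones of the highest sites -/
def AT {α : Type} [LinearOrder α] {k n : ℕ} (φ : Fin k → Ver → α) (ω : Fin (n + 1) → Ver)
    (t : Fin k → ℕ) : Prop := ∀ i, IsTop (φ i) ω (t i)

/-- the joint law of the times of the highest sites -/
def Jp {α : Type} [LinearOrder α] {k : ℕ} (S : ∀ n : ℕ, Set (Fin (n + 1) → Ver))
    (φ : Fin k → Ver → α) (n : ℕ) (t : Fin k → ℕ) : ℝ :=
  Prb S n (fun ω => AT φ ω t)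

/-- the position at time `t i`, from the parts -/
def vl {k a b : ℕ} (n : ℕ) (t : Fin k → ℕ) (j : Fin k)
    (x : (Fin (a + 1) → Ver) × (Fin 1 → Ver) × (Fin (b + 1) → Ver)) (i : Fin k) : Ver :=
  if i = j then x.2.1 0 else if t i ≤ a then x.1 (Fin.ofNat (a + 1) (t i)) else
    x.2.2 (Fin.ofNat (b + 1) (t i - (n - b)))

/-- the positions at the times `t i` are the highest ones in the parts -/
def Cn {α : Type} [LinearOrder α] {k a b : ℕ} (φ : Fin k → Ver → α) (n : ℕ) (t : Fin k → ℕ)
    (j : Fin k) (x : (Fin (a + 1) → Ver) × (Fin 1 → Ver) × (Fin (b + 1) → Ver)) : Prop :=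
  ∀ i, (∀ u, φ i (x.1 u) ≤ φ i (vl n t j x i)) ∧ φ i (x.2.1 0) ≤ φ i (vl n t j x i) ∧
    ∀ u, φ i (x.2.2 u) ≤ φ i (vl n t j x i)

theorem vl_parts (w : List Ver) {k a b n s : ℕ} (t : Fin k → ℕ) (j : Fin k) (ha : a ≤ n)
    (hs : s ≤ n) (hb : b ≤ n)
    (ht : ∀ i, i ≠ j → t i ≤ a ∨ (n - b ≤ t i ∧ t i ≤ n)) (i : Fin k) :
    vl n t j (parts a 0 b s (fnw X n w)) i = vx X w (Function.update t j s i) := by
  unfold vl parts
  by_cases hij : i = j
  · rw [if_pos hij, hij, Function.update_self]
    simp only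
    rw [piece_fnw w (by omega)]
    simp
  · rw [if_neg hij, Function.update_of_ne hij]
    by_cases h1 : t i ≤ a
    · rw [if_pos h1]
      simp only
      rw [piece_fnw w (by omega)]
      congr 1
      simp [Nat.mod_eq_of_lt (show t i < a + 1 by omega)]
    · rw [if_neg h1]
      simp only
      rw [piece_fnw w (by omega)]
      rcases ht i hij with h2 | ⟨h2, h3⟩
      · exact absurd h2 h1
      · congr 1
        have e : ((Fin.ofNat (b + 1) (t i - (n - b)) : Fin (b + 1)) : ℕ) = t i - (n - b) := by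
          simp [Nat.mod_eq_of_lt (show t i - (n - b) < b + 1 by omega)]
        rw [e]
        omega

theorem cn_iff {α : Type} [LinearOrder α] (w : List Ver) {k a b n s : ℕ} (φ : Fin k → Ver → α)
    (t : Fin k → ℕ) (j : Fin k) (ha : a ≤ n) (hs : s ≤ n) (hb : b ≤ n)
    (ht : ∀ i, i ≠ j → t i ≤ a ∨ (n - b ≤ t i ∧ t i ≤ n)) :
    (TopsIn φ a 0 b s (fnw X n w) ∧ Cn φ n t j (parts a 0 b s (fnw X n w))) ↔
      AT φ (fnw X n w) (Function.update t j s) := by
  have hv := vl_parts (X := X) w t j ha hs hb ht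
  have hp1 : ∀ u : Fin (a + 1), (parts a 0 b s (fnw X n w)).1 u = vx X w u := by
    intro u
    show piece 0 a (fnw X n w) u = _
    rw [piece_fnw w (by omega), Nat.zero_add]
  have hp2 : (parts a 0 b s (fnw X n w)).2.1 0 = vx X w s := by
    show piece s 0 (fnw X n w) 0 = _
    rw [piece_fnw w (by omega)]
    simp
  have hp3 : ∀ u : Fin (b + 1), (parts a 0 b s (fnw X n w)).2.2 u = vx X w (n - b + u) := by
    intro u
    show piece (n - b) b (fnw X n w) u = _
    rw [piece_fnw w (by omega)]
  have hle : ∀ i, Function.update t j s i ≤ n := by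
    intro i
    by_cases hij : i = j
    · rw [hij, Function.update_self]
      exact hs
    · rw [Function.update_of_ne hij]
      rcases ht i hij with h | h <;> omega
  constructor
  · rintro ⟨h1, h2⟩ i
    rw [isTop_iff]
    obtain ⟨τ, h3, h4⟩ := h1 i
    rw [isTop_iff] at h4
    obtain ⟨h4, h5⟩ := h4
    obtain ⟨k1, k2, k3⟩ := h2 i
    rw [hv i] at k1 k2 k3
    have h6 : φ i (vx X w τ) ≤ φ i (vx X w (Function.update t j s i)) := by
      rcases h3 with h3 | h3 | h3
      · have := k1 ⟨τ, by omega⟩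
        rwa [hp1] at this
      · have e : τ = s := by omega
        rw [e]
        rwa [hp2] at k2
      · have := k3 ⟨τ - (n - b), by omega⟩
        rw [hp3] at this
        simp only at this
        rwa [show n - b + (τ - (n - b)) = τ by omega] at this
    exact ⟨hle i, fun u hu => (h5 u hu).trans h6⟩
  · intro h
    constructor
    · intro i
      refine ⟨_, ?_, h i⟩
      unfold InP
      by_cases hij : i = j
      · rw [hij, Function.update_self]
        right; left
        omega
      · rw [Function.update_of_ne hij]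
        rcases ht i hij with h1 | h1
        · exact Or.inl h1
        · exact Or.inr (Or.inr h1)
    · intro i
      have h1 := (isTop_iff (X := X) (φ i) w).mp (h i)
      obtain ⟨h1, h2⟩ := h1
      rw [hv i]
      refine ⟨fun u => ?_, ?_, fun u => ?_⟩
      · rw [hp1]
        exact h2 _ (by have := u.isLt; omega)
      · rw [hp2]
        exact h2 _ hs
      · rw [hp3]
        exact h2 _ (by have := u.isLt; omega)

theorem joint_eq {α : Type} [LinearOrder α] (Z : Rul X A) (hS : Cla X A H S) {k a b n s : ℕ}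
    (φ : Fin k → Ver → α)
    (t : Fin k → ℕ) (j : Fin k) (ha : a ≤ n) (hs : s ≤ n) (hb : b ≤ n)
    (ht : ∀ i, i ≠ j → t i ≤ a ∨ (n - b ≤ t i ∧ t i ≤ n)) :
    TopMean S φ n a 0 b s (fun x => if Cn φ n t j x then 1 else 0) =
      Jp S φ n (Function.update t j s) := by
  unfold TopMean Jp Prb
  rw [mean_eq Z hS, mean_eq Z hS]
  congr 1
  refine Finset.sum_congr rfl fun w hw => ?_
  have h := cn_iff (X := X) w φ t j ha hs hb ht
  by_cases h1 : TopsIn φ a 0 b s (fnw X n w)
  · rw [if_pos h1]
    by_cases h2 : Cn φ n t j (parts a 0 b s (fnw X n w))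
    · have h3 := h.mp ⟨h1, h2⟩
      exact (if_pos h2).trans (if_pos h3).symm
    · have h3 : ¬ AT φ (fnw X n w) (Function.update t j s) :=
        fun hc => h2 (h.mpr hc).2
      exact (if_neg h2).trans (if_neg h3).symm
  · rw [if_neg h1]
    have h3 : ¬ AT φ (fnw X n w) (Function.update t j s) :=
      fun hc => h1 (h.mpr hc).1
    exact (if_neg h3).symm

/-- the times are far from each other and from the ends -/
def Sep {k : ℕ} (g n : ℕ) (t : Fin k → ℕ) : Prop :=
  ∀ i, g ≤ t i ∧ t i + g ≤ n ∧ ∀ i', i' ≠ i → t i + g ≤ t i' ∨ t i' + g ≤ t i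

/-- one of the times is shifted -/
theorem joint_diff (Z : Rul X A) (hS : Cla X A H S) {ψ lam : ℕ → ℝ} {st k r : ℕ}
    (hst : st ≤ 2) (hlog : ∀ n : ℕ, 2 ≤ n → Real.log n ≤ lam n)
    (hψ : ∀ n : ℕ, 2 ≤ n → Real.log n ≤ ψ n) (gen : GenP S ψ lam st k r) :
    ∃ C : ℝ, 0 < C ∧ ∀ (α : Type) (_ : LinearOrder α)
    (φ : Fin k → Ver → α), (∀ i, Function.Injective (φ i)) → ∀ (n g : ℕ) (t : Fin k → ℕ)
    (j : Fin k) (L : ℝ), 2 ≤ n → lam n ≤ L → Real.exp (-L) ≤ Jp S φ n t → Sep g n t →
    C * (ψ n + L) ≤ g →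
    (∀ i, i ≤ r → 0 < Jp S φ n (Function.update t j (t j + st * i))) ∧
    |df r (fun i => Real.log (Jp S φ n (Function.update t j (t j + st * i))))| ≤
      C * Real.sqrt (L / g) ^ r := by
  obtain ⟨C, hC, h⟩ := gen
  refine ⟨C + 1, by positivity, fun α _ φ hφ n g t j L hn hL hp hsep hg => ?_⟩
  have hn' : (2 : ℝ) ≤ n := by exact_mod_cast hn
  have hlog0 : (0.69 : ℝ) ≤ Real.log n := by
    have h1 : Real.log 2 ≤ Real.log n := Real.log_le_log (by norm_num) hn'
    have := Real.log_two_gt_d9
    linarith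
  have k1 := hlog n hn
  have k2 := hψ n hn
  have hg0 : 0 < g := by
    have h1 : (1 : ℝ) * 1 ≤ (C + 1) * (ψ n + L) :=
      mul_le_mul (by linarith) (by linarith) (by norm_num) (by linarith)
    have h2 : (0 : ℝ) < g := by linarith
    exact_mod_cast h2
  obtain ⟨hj1, hj2, hj3⟩ := hsep j
  obtain ⟨a, ha⟩ : ∃ a, a = (univ.filter (fun i => i ≠ j ∧ t i < t j)).sup t := ⟨_, rfl⟩
  obtain ⟨b, hb⟩ : ∃ b, b = (univ.filter (fun i => i ≠ j ∧ t j < t i)).sup
    (fun i => n - t i) := ⟨_, rfl⟩
  have ha1 : a ≤ t j - g := by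
    rw [ha]
    refine Finset.sup_le fun i hi => ?_
    rw [mem_filter] at hi
    rcases hj3 i hi.2.1 with h1 | h1 <;> omega
  have hb1 : b ≤ n - t j - g := by
    rw [hb]
    refine Finset.sup_le fun i hi => ?_
    rw [mem_filter] at hi
    rcases hj3 i hi.2.1 with h1 | h1
    · omega
    · omega
  have ht : ∀ i, i ≠ j → t i ≤ a ∨ (n - b ≤ t i ∧ t i ≤ n) := by
    intro i hij
    have hi3 := (hsep i).2.1
    rcases Nat.lt_or_ge (t i) (t j) with h1 | h1
    · left
      rw [ha]
      exact Finset.le_sup (f := t) (mem_filter.mpr ⟨mem_univ _, hij, h1⟩)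
    · right
      have h2 : t j < t i := by
        rcases hj3 i hij with h3 | h3 <;> omega
      have h3 : n - t i ≤ b := by
        rw [hb]
        exact Finset.le_sup (f := fun i => n - t i) (mem_filter.mpr ⟨mem_univ _, hij, h2⟩)
      omega
  have hup0 : Function.update t j (t j) = t := Function.update_eq_self j t
  have e0 := joint_eq Z hS φ t j (a := a) (b := b) (s := t j) (n := n) (by omega) (by omega)
    (by omega) ht
  rw [hup0] at e0
  obtain ⟨h1, h2, h3⟩ := h α inferInstance φ hφ n a 0 b (t j) g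
    (fun x => if Cn φ n t j x then 1 else 0) L hn (fun x => by split_ifs <;> norm_num) hL
    (by rw [e0]; exact hp) (by omega) (by omega) (by
      refine le_trans (mul_le_mul_of_nonneg_right ?_ (by linarith)) hg
      linarith)
  have ei : ∀ i, i ≤ r → TopMean S φ n a 0 b (t j + st * i)
      (fun x => if Cn φ n t j x then 1 else 0) =
      Jp S φ n (Function.update t j (t j + st * i)) := by
    intro i hi
    have h4 : st * i ≤ 2 * r := Nat.mul_le_mul hst hi
    exact joint_eq Z hS φ t j (by omega) (by omega) (by omega) ht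
  refine ⟨fun i hi => by rw [← ei i hi]; exact h2 i hi, ?_⟩
  have e1 : df r (fun i => Real.log (Jp S φ n (Function.update t j (t j + st * i)))) =
      df r (fun i => Real.log (TopMean S φ n a 0 b (t j + st * i)
        (fun x => if Cn φ n t j x then 1 else 0))) := by
    unfold df
    refine Finset.sum_congr rfl fun i hi => ?_
    rw [Finset.mem_range] at hi
    simp only
    rw [ei i (by omega)]
  rw [e1]
  refine h3.trans (mul_le_mul_of_nonneg_right (by linarith) (by positivity))

theorem jp_nonneg {α : Type} [LinearOrder α] (Z : Rul X A) (hS : Cla X A H S) {k : ℕ}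
    (φ : Fin k → Ver → α) (n : ℕ) (t : Fin k → ℕ) : 0 ≤ Jp S φ n t :=
  prb_nonneg Z hS n _

/-- the sum of the probabilities -/
theorem sum_joint {α : Type} [LinearOrder α] (Z : Rul X A) (hS : Cla X A H S) {k : ℕ}
    (φ : Fin k → Ver → α) (hφ : ∀ i, Function.Injective (φ i)) {n : ℕ}
    (hc : (0 : ℝ) < ((HW X A H n).card : ℝ)) (V : Finset (Fin k → ℕ))
    (f : (Fin k → ℕ) → Fin k → ℕ) (hf : Function.Injective f) :
    ∑ v ∈ V, Jp S φ n (f v) ≤ 1 := by
  unfold Jp Prb
  simp only [mean_eq Z hS]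
  rw [← Finset.sum_div, div_le_one hc, Finset.sum_comm]
  calc _ ≤ ∑ w ∈ HW X A H n, (1 : ℝ) := by
        refine Finset.sum_le_sum fun w hw => ?_
        have hw' : w ∈ Kw X A n := (Finset.mem_filter.mp hw).1
        rw [Finset.sum_boole]
        have h1 : (V.filter (fun v => AT φ (fnw X n w) (f v))).card ≤ 1 := by
          rw [Finset.card_le_one]
          intro u hu v hv
          rw [Finset.mem_filter] at hu hv
          apply hf
          funext i
          have h2 := (isTop_iff (X := X) (φ i) w).mp (hu.2 i)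
          have h3 := (isTop_iff (X := X) (φ i) w).mp (hv.2 i)
          have e3 := hφ i (le_antisymm (h2.2 _ h3.1) (h3.2 _ h2.1))
          exact (vx_inj hw' Z h3.1 h2.1 e3).symm
        exact_mod_cast h1
    _ = _ := by rw [Finset.sum_const, nsmul_eq_mul, mul_one]

/-- a function on a grid -/
theorem spread_k {k : ℕ} (P : (Fin k → ℕ) → ℝ) (δ : ℝ) (J : ℕ) (hδ : 0 < δ) (hJ : (J : ℝ) * δ ≤ 1)
    (hJ2 : 1 < ((J : ℝ) + 1) * δ) (h0 : 0 ≤ P 0)
    (hstep : ∀ (v : Fin k → ℕ) (i : Fin k), (∀ i, v i ≤ J) → v i < J →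
      P 0 * Real.exp (-(k : ℝ)) ≤ P v → P v * Real.exp (-δ) ≤ P (Function.update v i (v i + 1)))
    (hsum : ∑ v ∈ Fintype.piFinset (fun _ : Fin k => range (J + 1)), P v ≤ 1) :
    P 0 ≤ (3 * δ) ^ k := by
  have key : ∀ (m : ℕ) (v : Fin k → ℕ), (∀ i, v i ≤ J) → ∑ i, v i = m →
      P 0 * Real.exp (-((m : ℝ) * δ)) ≤ P v := by
    intro m
    induction m with
    | zero =>
      intro v hv hs
      have : v = 0 := by
        funext i
        exact (Finset.sum_eq_zero_iff.mp hs) i (mem_univ _)
      rw [this]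
      simp
    | succ m ih =>
      intro v hv hs
      obtain ⟨i, -, hi⟩ : ∃ i ∈ (univ : Finset (Fin k)), v i ≠ 0 := by
        by_contra hcon
        push Not at hcon
        have : ∑ i, v i = 0 := Finset.sum_eq_zero hcon
        omega
      obtain ⟨u, hu⟩ : ∃ u, u = Function.update v i (v i - 1) := ⟨_, rfl⟩
      have hui : u i = v i - 1 := by rw [hu, Function.update_self]
      have hvu : Function.update u i (u i + 1) = v := by
        rw [hui, hu, Function.update_idem, show v i - 1 + 1 = v i by omega,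
          Function.update_eq_self]
      have huJ : ∀ i', u i' ≤ J := by
        intro i'
        by_cases h : i' = i
        · rw [h, hui]
          have := hv i
          omega
        · rw [hu, Function.update_of_ne h]
          exact hv i'
      have hus : ∑ i, u i = m := by
        have h1 := Finset.add_sum_erase univ u (mem_univ i)
        have h2 := Finset.add_sum_erase univ v (mem_univ i)
        have h3 : ∑ x ∈ univ.erase i, u x = ∑ x ∈ univ.erase i, v x := by
          refine Finset.sum_congr rfl fun x hx => ?_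
          rw [hu, Function.update_of_ne (Finset.ne_of_mem_erase hx)]
        omega
      have ih' := ih u huJ hus
      have hmk : (m : ℝ) * δ ≤ k := by
        have h1 : m ≤ k * J := by
          rw [← hus]
          calc ∑ i, u i ≤ ∑ _i : Fin k, J := Finset.sum_le_sum fun i _ => huJ i
            _ = k * J := by simp
        have h2 : (m : ℝ) ≤ k * J := by exact_mod_cast h1
        calc (m : ℝ) * δ ≤ k * J * δ := mul_le_mul_of_nonneg_right h2 hδ.le
          _ = k * (J * δ) := by ring
          _ ≤ k * 1 := mul_le_mul_of_nonneg_left hJ (Nat.cast_nonneg _)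
          _ = k := mul_one _
      have h4 : P 0 * Real.exp (-(k : ℝ)) ≤ P u := by
        refine le_trans (mul_le_mul_of_nonneg_left (Real.exp_le_exp.mpr ?_) h0) ih'
        linarith
      have h5 := hstep u i huJ (by have := hv i; omega) h4
      rw [hvu] at h5
      calc P 0 * Real.exp (-(((m + 1 : ℕ) : ℝ) * δ))
          = P 0 * Real.exp (-((m : ℝ) * δ)) * Real.exp (-δ) := by
            rw [mul_assoc, ← Real.exp_add]
            congr 2
            push_cast
            ring
        _ ≤ P u * Real.exp (-δ) := mul_le_mul_of_nonneg_right ih' (Real.exp_pos _).le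
        _ ≤ _ := h5
  have h1 : (((J : ℝ) + 1) ^ k) * (P 0 * Real.exp (-(k : ℝ))) ≤ 1 := by
    refine le_trans ?_ hsum
    calc (((J : ℝ) + 1) ^ k) * (P 0 * Real.exp (-(k : ℝ)))
        = ∑ v ∈ Fintype.piFinset (fun _ : Fin k => range (J + 1)), P 0 * Real.exp (-(k : ℝ)) := by
          rw [sum_const, nsmul_eq_mul, Fintype.card_piFinset_const, card_range]
          push_cast
          ring
      _ ≤ _ := by
          refine sum_le_sum fun v hv => ?_
          rw [Fintype.mem_piFinset] at hv
          have hvJ : ∀ i, v i ≤ J := fun i => by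
            have := hv i
            rw [mem_range] at this
            omega
          refine le_trans (mul_le_mul_of_nonneg_left ?_ h0) (key _ v hvJ rfl)
          apply Real.exp_le_exp.mpr
          have h1 : ∑ i, v i ≤ k * J := by
            calc ∑ i, v i ≤ ∑ _i : Fin k, J := Finset.sum_le_sum fun i _ => hvJ i
              _ = k * J := by simp
          have h2 : ((∑ i, v i : ℕ) : ℝ) ≤ k * J := by exact_mod_cast h1
          have h3 : ((∑ i, v i : ℕ) : ℝ) * δ ≤ k := by
            calc ((∑ i, v i : ℕ) : ℝ) * δ ≤ k * J * δ := mul_le_mul_of_nonneg_right h2 hδ.le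
              _ = k * (J * δ) := by ring
              _ ≤ k * 1 := mul_le_mul_of_nonneg_left hJ (Nat.cast_nonneg _)
              _ = k := mul_one _
          linarith
  have h2 : 1 ≤ (((J : ℝ) + 1) * δ) ^ k := one_le_pow₀ hJ2.le
  have h3 : P 0 * Real.exp (-(k : ℝ)) ≤ δ ^ k := by
    have h4 : (0 : ℝ) < ((J : ℝ) + 1) ^ k := by positivity
    have h5 : 0 ≤ P 0 * Real.exp (-(k : ℝ)) := by positivity
    calc P 0 * Real.exp (-(k : ℝ)) ≤ (((J : ℝ) + 1) * δ) ^ k * (P 0 * Real.exp (-(k : ℝ))) :=
          le_mul_of_one_le_left h5 h2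
      _ = δ ^ k * ((((J : ℝ) + 1) ^ k) * (P 0 * Real.exp (-(k : ℝ)))) := by
          rw [mul_pow]
          ring
      _ ≤ δ ^ k * 1 := mul_le_mul_of_nonneg_left h1 (by positivity)
      _ = _ := mul_one _
  have he : Real.exp (k : ℝ) ≤ 3 ^ k := by
    have h5 : Real.exp (k : ℝ) = Real.exp 1 ^ k := by
      rw [← Real.exp_nat_mul]
      congr 1
      ring
    rw [h5]
    have := Real.exp_one_lt_d9
    exact pow_le_pow_left₀ (Real.exp_pos _).le (by linarith) k
  calc P 0 = Real.exp (k : ℝ) * (P 0 * Real.exp (-(k : ℝ))) := by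
        rw [Real.exp_neg]
        field_simp
    _ ≤ 3 ^ k * δ ^ k := mul_le_mul he h3 (by positivity) (by positivity)
    _ = _ := by rw [mul_pow]

/-- the upper bound -/
theorem joint_point (Z : Rul X A) (hS : Cla X A H S) {ψ lam : ℕ → ℝ} {st k : ℕ}
    (hst1 : 1 ≤ st) (hst : st ≤ 2) (hlog : ∀ n : ℕ, 2 ≤ n → Real.log n ≤ lam n)
    (hψ : ∀ n : ℕ, 2 ≤ n → Real.log n ≤ ψ n)
    (hc : ∀ n : ℕ, 2 ≤ n → (0 : ℝ) < ((HW X A H n).card : ℝ)) (gen : GenP S ψ lam st k 1) :
    ∃ C : ℝ, 0 < C ∧ ∀ (α : Type) (_ : LinearOrder α)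
    (φ : Fin k → Ver → α), (∀ i, Function.Injective (φ i)) → ∀ (n g : ℕ) (t : Fin k → ℕ),
    2 ≤ n → Sep g n t → C * (ψ n + lam n) ≤ g →
    Jp S φ n t ≤ C * Real.sqrt (lam n / g) ^ k := by
  obtain ⟨C, hC, h⟩ := joint_diff Z hS hst hlog hψ gen
  obtain ⟨q, hq⟩ : ∃ q : ℝ, q = 3 * (k : ℝ) + 1 := ⟨_, rfl⟩
  have hk0 : (0 : ℝ) ≤ k := Nat.cast_nonneg k
  have hq1 : 1 ≤ q := by rw [hq]; linarith
  obtain ⟨B, hB⟩ : ∃ B : ℝ, B = 6 * q * (C + 1) := ⟨_, rfl⟩
  have hB1 : 6 ≤ B := by
    rw [hB]
    have : 1 * 1 ≤ q * (C + 1) := mul_le_mul hq1 (by linarith) (by norm_num) (by linarith)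
    linarith
  refine ⟨(3 * B) ^ k + 100 * B, by positivity, fun α _ φ hφ n g t hn hsep hg => ?_⟩
  have hn' : (2 : ℝ) ≤ n := by exact_mod_cast hn
  have hlog0 : (0.69 : ℝ) ≤ Real.log n := by
    have h1 : Real.log 2 ≤ Real.log n := Real.log_le_log (by norm_num) hn'
    have := Real.log_two_gt_d9
    linarith
  have hlam := hlog n hn
  have hψn := hψ n hn
  obtain ⟨l, hl⟩ : ∃ l : ℝ, l = lam n := ⟨_, rfl⟩
  rw [← hl] at hg hlam ⊢
  have hl0 : 0.69 ≤ l := by linarith
  have hBk : (0 : ℝ) ≤ (3 * B) ^ k := by positivity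
  have hg100 : 100 * B * (ψ n + l) ≤ g := by
    refine le_trans (mul_le_mul_of_nonneg_right ?_ (by linarith)) hg
    linarith
  have hg1 : 100 * B ≤ (g : ℝ) := by
    have : 100 * B * 1 ≤ 100 * B * (ψ n + l) :=
      mul_le_mul_of_nonneg_left (by linarith) (by linarith)
    linarith
  have hg0 : (0 : ℝ) < g := by linarith
  obtain ⟨σ, hσ⟩ : ∃ σ : ℝ, σ = Real.sqrt (l / g) := ⟨_, rfl⟩
  have hσ0 : 0 < σ := by rw [hσ]; exact Real.sqrt_pos.mpr (by positivity)
  have hσ2 : σ ^ 2 = l / g := by
    rw [hσ]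
    exact Real.sq_sqrt (by positivity)
  have hσg : σ ^ 2 * g = l := by rw [hσ2]; field_simp
  rw [← hσ]
  have hfin : Jp S φ n t ≤ (3 * B * σ) ^ k → Jp S φ n t ≤ ((3 * B) ^ k + 100 * B) * σ ^ k := by
    intro h1
    rw [mul_pow] at h1
    have h2 : 0 ≤ 100 * B * σ ^ k := by positivity
    rw [add_mul]
    linarith
  apply hfin
  rcases Nat.eq_zero_or_pos k with hk | hk
  · subst hk
    rw [pow_zero]
    have h1 := sum_joint Z hS φ hφ (hc n hn) {t} id Function.injective_id
    rwa [sum_singleton] at h1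
  -- `g ≤ n`
  have hgn : (g : ℝ) ≤ n := by
    have h1 := hsep ⟨0, hk⟩
    have : g ≤ n := by omega
    exact_mod_cast this
  have hk1 : (1 : ℝ) ≤ k := by exact_mod_cast hk
  obtain ⟨P, hP⟩ : ∃ P : (Fin k → ℕ) → ℝ, ∀ v, P v = Jp S φ n (fun i => t i + st * v i) :=
    ⟨_, fun _ => rfl⟩
  have hP0 : P 0 = Jp S φ n t := by
    have e : (fun i => t i + st * (0 : Fin k → ℕ) i) = t := by
      funext i
      simp
    rw [hP, e]
  rw [← hP0]
  have hP00 : 0 ≤ P 0 := by rw [hP0]; exact jp_nonneg Z hS φ n t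
  -- small probabilities
  by_cases hsm : P 0 < Real.exp (-(k * l))
  · have h3 : Real.exp (-l) ≤ 2 * σ := by
      have h4 : (g : ℝ) ≤ Real.exp l := by
        refine hgn.trans ?_
        rw [← Real.exp_log (show (0 : ℝ) < n by linarith)]
        exact Real.exp_le_exp.mpr hlam
      have h5 : Real.exp (-l) ^ 2 ≤ (2 * σ) ^ 2 := by
        have h6 : (2 * σ) ^ 2 = 4 * l / g := by
          rw [mul_pow, hσ2]
          ring
        rw [h6, le_div_iff₀ hg0]
        have h7 : Real.exp (-l) ^ 2 * Real.exp l ≤ 1 := by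
          rw [← Real.exp_nat_mul, ← Real.exp_add]
          apply Real.exp_le_one_iff.mpr
          push_cast
          linarith
        have h8 : Real.exp (-l) ^ 2 * g ≤ Real.exp (-l) ^ 2 * Real.exp l :=
          mul_le_mul_of_nonneg_left h4 (by positivity)
        linarith
      exact (abs_le_of_sq_le_sq' h5 (by positivity)).2
    have h9 : Real.exp (-(k * l)) = Real.exp (-l) ^ k := by
      rw [← Real.exp_nat_mul]
      congr 1
      ring
    rw [h9] at hsm
    refine hsm.le.trans ?_
    refine pow_le_pow_left₀ (Real.exp_pos _).le (h3.trans ?_) k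
    exact mul_le_mul_of_nonneg_right (by linarith) hσ0.le
  push Not at hsm
  obtain ⟨δ, hδ⟩ : ∃ δ : ℝ, δ = B * σ := ⟨_, rfl⟩
  have hδ0 : 0 < δ := by rw [hδ]; positivity
  obtain ⟨J, hJ⟩ : ∃ J : ℕ, J = ⌊1 / δ⌋₊ := ⟨_, rfl⟩
  have hJ1 : (J : ℝ) ≤ 1 / δ := by rw [hJ]; exact Nat.floor_le (by positivity)
  have hJ2 : 1 / δ < J + 1 := by rw [hJ]; exact Nat.lt_floor_add_one _
  have hJδ : (J : ℝ) * δ ≤ 1 := by
    rw [le_div_iff₀ hδ0] at hJ1
    exact hJ1
  have hJδ2 : 1 < ((J : ℝ) + 1) * δ := by
    rw [div_lt_iff₀ hδ0] at hJ2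
    exact hJ2
  have hJg : 4 * J + 4 ≤ g := by
    have h3 : (J : ℝ) ≤ g / 8 := by
      refine hJ1.trans ?_
      rw [div_le_div_iff₀ hδ0 (by norm_num), hδ]
      have h5 : 2 ≤ σ * g := by
        have h6 : (2 : ℝ) ^ 2 ≤ (σ * g) ^ 2 := by
          have : (σ * g) ^ 2 = l * g := by
            rw [← hσg]
            ring
          rw [this]
          have h7 : 0.69 * 600 ≤ l * g :=
            mul_le_mul hl0 (by linarith) (by norm_num) (by linarith)
          linarith
        exact (abs_le_of_sq_le_sq' h6 (by positivity)).2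
      have h8 : 6 * 2 ≤ B * (σ * g) := mul_le_mul hB1 h5 (by norm_num) (by linarith)
      linarith
    have h7 : 4 * (J : ℝ) + 4 ≤ g := by linarith
    exact_mod_cast h7
  have e3 : 3 * B * σ = 3 * δ := by rw [hδ]; ring
  rw [e3]
  refine spread_k P δ J hδ0 hJδ hJδ2 hP00 (fun v i hv hvi hPv => ?_) ?_
  · have hPv' : Real.exp (-(q * l)) ≤ P v := by
      refine le_trans ?_ hPv
      calc Real.exp (-(q * l)) ≤ Real.exp (-(k * l) + -(k : ℝ)) := by
            apply Real.exp_le_exp.mpr
            rw [hq]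
            have h4 : (k : ℝ) * 0.69 ≤ k * l := mul_le_mul_of_nonneg_left hl0 hk0
            have e : (3 * (k : ℝ) + 1) * l = 3 * (k * l) + l := by ring
            rw [e]
            linarith
        _ = Real.exp (-(k * l)) * Real.exp (-(k : ℝ)) := Real.exp_add _ _
        _ ≤ _ := mul_le_mul_of_nonneg_right hsm (Real.exp_pos _).le
    obtain ⟨g', hg'⟩ : ∃ g' : ℕ, g' = g / 2 := ⟨_, rfl⟩
    have hg'1 : g < 2 * (g' + 1) := by omega
    have hg'2 : (g : ℝ) < 2 * ((g' : ℝ) + 1) := by exact_mod_cast hg'1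
    have hg'3 : (g : ℝ) ≤ 3 * g' := by linarith
    have hg'0 : (0 : ℝ) < g' := by linarith
    have hsh : ∀ i, st * v i ≤ 2 * J := fun i => Nat.mul_le_mul hst (hv i)
    have hsep' : Sep g' n (fun i => t i + st * v i) := by
      intro i
      obtain ⟨m1, m2, m3⟩ := hsep i
      refine ⟨by show g' ≤ t i + st * v i; omega, ?_, fun i' hi' => ?_⟩
      · show t i + st * v i + g' ≤ n
        have := hsh i
        omega
      · show t i + st * v i + g' ≤ t i' + st * v i' ∨ t i' + st * v i' + g' ≤ t i + st * v i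
        have a1 := hsh i
        have a2 := hsh i'
        rcases m3 i' hi' with m4 | m4
        · left; omega
        · right; omega
    have h3 := h α inferInstance φ hφ n g' (fun i => t i + st * v i) i (q * l) hn (by
        rw [← hl]
        exact le_mul_of_one_le_left (by linarith) hq1)
      (by rw [← hP]; exact hPv') hsep' (by
        have h4 : C * (ψ n + q * l) ≤ C * (q * (ψ n + l)) := by
          refine mul_le_mul_of_nonneg_left ?_ hC.le
          have : ψ n ≤ q * ψ n := le_mul_of_one_le_left (by linarith) hq1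
          rw [mul_add]
          linarith
        have h5 : 3 * (C * (q * (ψ n + l))) ≤ 100 * B * (ψ n + l) := by
          rw [hB]
          have h6 : 0 ≤ ψ n + l := by linarith
          have h7 : 0 ≤ q * (ψ n + l) := by positivity
          have h8 : 0 ≤ C * (q * (ψ n + l)) := by positivity
          have e : 100 * (6 * q * (C + 1)) * (ψ n + l) =
              600 * (C * (q * (ψ n + l))) + 600 * (q * (ψ n + l)) := by ring
          rw [e]
          linarith
        linarith)
    obtain ⟨h4, h5⟩ := h3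
    have eup : ∀ h : ℕ, Function.update (fun i => t i + st * v i) i (t i + st * v i + st * h) =
        fun i' => t i' + st * (Function.update v i (v i + h) i') := by
      intro h
      funext i'
      by_cases hii : i' = i
      · subst hii
        rw [Function.update_self, Function.update_self]
        ring
      · rw [Function.update_of_ne hii, Function.update_of_ne hii]
    have h6 := h4 1 le_rfl
    rw [eup 1, ← hP] at h6
    have e1 : df 1 (fun h => Real.log (Jp S φ n (Function.update (fun i => t i + st * v i) i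
        (t i + st * v i + st * h)))) =
        Real.log (P v) - Real.log (P (Function.update v i (v i + 1))) := by
      unfold df
      rw [Finset.sum_range_succ, Finset.sum_range_one]
      simp only [eup, hP]
      simp
      ring
    rw [e1, pow_one] at h5
    have h7 : C * Real.sqrt (q * l / g') ≤ δ := by
      have h8 : Real.sqrt (q * l / g') ≤ 3 * q * σ := by
        rw [Real.sqrt_le_left (by positivity), div_le_iff₀ hg'0]
        have h9 : (3 * q * σ) ^ 2 * g' = 3 * q ^ 2 * (σ ^ 2 * (3 * g')) := by ring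
        have h10 : σ ^ 2 * g ≤ σ ^ 2 * (3 * g') := mul_le_mul_of_nonneg_left hg'3 (by positivity)
        rw [h9]
        rw [hσg] at h10
        have h11 : q ≤ 3 * q ^ 2 := by nlinarith
        calc q * l ≤ 3 * q ^ 2 * l := mul_le_mul_of_nonneg_right h11 (by linarith)
          _ ≤ _ := mul_le_mul_of_nonneg_left h10 (by positivity)
      calc C * Real.sqrt (q * l / g') ≤ C * (3 * q * σ) := by gcongr
        _ ≤ δ := by
          rw [hδ, hB]
          have h12 : 0 ≤ C * (q * σ) := by positivity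
          have h13 : 0 ≤ q * σ := by positivity
          have e : 6 * q * (C + 1) * σ = 6 * (C * (q * σ)) + 6 * (q * σ) := by ring
          rw [e]
          linarith
    have h8 : Real.log (P v) - δ ≤ Real.log (P (Function.update v i (v i + 1))) := by
      have := (abs_le.mp h5).2
      linarith
    have hPvpos : 0 < P v := lt_of_lt_of_le (Real.exp_pos _) hPv'
    rw [← Real.exp_log hPvpos, ← Real.exp_add, ← Real.exp_log h6]
    apply Real.exp_le_exp.mpr
    linarith
  · simp only [hP]
    refine sum_joint Z hS φ hφ (hc n hn) _ (fun v i => t i + st * v i) (fun u v huv => ?_)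
    funext i
    have h1 := congrFun huv i
    simp only at h1
    have h2 : st * u i = st * v i := by omega
    exact Nat.eq_of_mul_eq_mul_left (by omega) h2

end

end Pool.Agent.U954.GE.Jt
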