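import Mathlib

/-!
# Walks with local moves at given times: the abstract system
-/

set_option autoImplicit false
set_option linter.unusedVariables false

namespace Pool.Agent.U954.GE

open Finset
open scoped Classical

noncomputable section

/-- one slot `p` in the window `[a, b]` of the walk `w` with `n` steps is occupied in `w'` -/
structure St {α σ : Type} (W : ℕ → Finset α) (D O : Finset σ → ℕ × ℕ → α → Finset σ)
    (L : Finset σ) (a b n : ℕ) (w : α) (p : σ) (w' : α) : Prop where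
  sw : w ∈ W n
  sw' : w' ∈ W (n + 2)
  mem : p ∈ D L (a, b) w
  nm : p ∉ O L (a, b) w
  dd : D L (a, b + 2) w' = D L (a, b) w
  os : O L (a, b + 2) w' = insert p (O L (a, b) w)
  dlo : ∀ c d, c ≤ d → d ≤ a → D L (c, d) w' = D L (c, d) w
  olo : ∀ c d, c ≤ d → d ≤ a → O L (c, d) w' = O L (c, d) w
  dhi : ∀ c d, b ≤ c → c ≤ d → d ≤ n → D L (c + 2, d + 2) w' = D L (c, d) w
  ohi : ∀ c d, b ≤ c → c ≤ d → d ≤ n → O L (c + 2, d + 2) w' = O L (c, d) w

/-- walks with `n` steps, slots `D` and occupied slots `O` of a family `L` of places in a window;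
`Bp n k w q w'` says that `w'` is obtained from the walk `w` with `n` steps by occupying the slot
`q`, which is free and at the times `k, …, k + c` in `w` -/
structure Sy (α σ : Type) where
  W : ℕ → Finset α
  ok : Finset σ → Prop
  D : Finset σ → ℕ × ℕ → α → Finset σ
  O : Finset σ → ℕ × ℕ → α → Finset σ
  Bp : ℕ → ℕ → α → σ → α → Prop
  c : ℕ
  D_sub : ∀ L T w, D L T w ⊆ L
  O_sub : ∀ L T w, O L T w ⊆ D L T w
  len : ∀ L, ok L → ∀ a b n w, a ≤ b → b ≤ n → w ∈ W n → 2 * (O L (a, b) w).card ≤ b - a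
  mv : ∀ L, ok L → ∃ f g : α → σ → α,
    (∀ (a b n : ℕ) (w : α) (p : σ), a ≤ b → b ≤ n → w ∈ W n →
      p ∈ D L (a, b) w → p ∉ O L (a, b) w →
      St W D O L a b n w p (f w p) ∧ (∃ k, a ≤ k ∧ k + c ≤ b ∧ Bp n k w p (f w p)) ∧
      g (f w p) p = w) ∧
    (∀ (a b n : ℕ) (w' : α) (p : σ), a ≤ b → b ≤ n → w' ∈ W (n + 2) →
      p ∈ O L (a, b + 2) w' → St W D O L a b n (g w' p) p w' ∧
      (∃ k, a ≤ k ∧ k + c ≤ b ∧ Bp n k (g w' p) p w') ∧ f (g w' p) p = w')

variable {α σ : Type}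

/-- invariance of the weight of a marked walk -/
structure Mk (Y : Sy α σ) (P : Set σ) (p m l : ℕ) (F : ℕ → α → ℝ) : Prop where
  lo : ∀ (n k q : ℕ) (w : α) (s : σ) (w' : α), Y.Bp n k w s w' → s ∈ P →
    p ≤ k → k + Y.c ≤ q → q + m + l ≤ n → F (q + 2) w' = F q w
  hi : ∀ (n k q : ℕ) (w : α) (s : σ) (w' : α), Y.Bp n k w s w' → s ∈ P →
    p ≤ q → q + m ≤ k → k + Y.c + l ≤ n → F q w' = F q w

end

end Pool.Agent.U954.GE
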