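import Pool.Agent.N169.EG.Win
import Pool.Agent.U954.GE.Sys

/-!
# The system of the local replacements in self-avoiding walks on a graph
-/

set_option autoImplicit false
set_option linter.unusedVariables false

namespace Pool.Agent.U954.GE

open Finset Pool.Agent.N929.EG Pool.Agent.N169.EG
open scoped Classical

variable {Ver : Type}

/-- `V` is a block of `w`, in the window `[a, b]` -/
def Inn (w V : List Ver) (a b : ℕ) : Prop :=
  ∃ L R, w = L ++ V ++ R ∧ a ≤ L.length ∧ L.length + V.length ≤ b + 1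

theorem inn_at {L V R : List Ver} (hV : V ≠ []) (hn : (L ++ V ++ R).Nodup) {a b : ℕ} :
    Inn (L ++ V ++ R) V a b ↔ a ≤ L.length ∧ L.length + V.length ≤ b + 1 := by
  constructor
  · rintro ⟨L0, R0, e, h1, h2⟩
    obtain ⟨rfl, -⟩ := split_unique hV hn e
    exact ⟨h1, h2⟩
  · rintro ⟨h1, h2⟩
    exact ⟨L, R, rfl, h1, h2⟩

theorem inn_iff {L U R V : List Ver} (hU : U ≠ []) (hV : V ≠ []) (hn : (L ++ U ++ R).Nodup)
    (hd : ∀ x ∈ U, x ∉ V) (a b : ℕ) :
    Inn (L ++ U ++ R) V a b ↔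
      (∃ L1 R1, L = L1 ++ V ++ R1 ∧ a ≤ L1.length ∧ L1.length + V.length ≤ b + 1) ∨
      (∃ L1 R1, R = L1 ++ V ++ R1 ∧ a ≤ L.length + U.length + L1.length ∧
        L.length + U.length + L1.length + V.length ≤ b + 1) := by
  constructor
  · rintro ⟨L0, R0, e, h1, h2⟩
    have hin : V <:+: L ++ U ++ R := ⟨L0, R0, e.symm⟩
    rcases side hU hV hin hd with h | h
    · obtain ⟨L1, R1, e1⟩ := h
      left
      have e2 : L ++ U ++ R = L1 ++ V ++ (R1 ++ U ++ R) := by rw [← e1]; simp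
      have hn' : (L0 ++ V ++ R0).Nodup := by rw [← e]; exact hn
      obtain ⟨rfl, -⟩ := split_unique hV hn' (e.symm.trans e2)
      exact ⟨L0, R1, e1.symm, h1, h2⟩
    · obtain ⟨L1, R1, e1⟩ := h
      right
      have e2 : L ++ U ++ R = (L ++ U ++ L1) ++ V ++ R1 := by rw [← e1]; simp
      have hn' : (L0 ++ V ++ R0).Nodup := by rw [← e]; exact hn
      obtain ⟨rfl, -⟩ := split_unique hV hn' (e.symm.trans e2)
      rw [List.length_append, List.length_append] at h1 h2
      exact ⟨L1, R1, e1.symm, h1, h2⟩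
  · rintro (⟨L1, R1, e, h1, h2⟩ | ⟨L1, R1, e, h1, h2⟩)
    · exact ⟨L1, R1 ++ U ++ R, by rw [e]; simp, h1, h2⟩
    · refine ⟨L ++ U ++ L1, R1, by rw [e]; simp, ?_, ?_⟩
      · rw [List.length_append, List.length_append]; exact h1
      · rw [List.length_append, List.length_append]; exact h2

theorem len_pos' {V : List Ver} (hV : V ≠ []) : 1 ≤ V.length := List.length_pos_iff.mpr hV

theorem swap1 {L U U' R V : List Ver} (hU : U ≠ []) (hU' : U' ≠ []) (hV : V ≠ [])
    (hn : (L ++ U ++ R).Nodup) (hn' : (L ++ U' ++ R).Nodup) (hl : U'.length = U.length + 2)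
    (hd : ∀ x ∈ U ++ U', x ∉ V) {a b : ℕ} (ha : a ≤ L.length) (hb : L.length + U.length ≤ b + 1) :
    Inn (L ++ U' ++ R) V a (b + 2) ↔ Inn (L ++ U ++ R) V a b := by
  rw [inn_iff hU hV hn (fun x hx => hd x (by simp [hx])),
    inn_iff hU' hV hn' (fun x hx => hd x (by simp [hx]))]
  have h0 := len_pos' hU
  have h0' := len_pos' hV
  constructor
  · rintro (⟨L1, R1, e, h1, h2⟩ | ⟨L1, R1, e, h1, h2⟩)
    · left
      have h3 := congrArg List.length e
      simp only [List.length_append] at h3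
      exact ⟨L1, R1, e, h1, by omega⟩
    · right
      exact ⟨L1, R1, e, by omega, by omega⟩
  · rintro (⟨L1, R1, e, h1, h2⟩ | ⟨L1, R1, e, h1, h2⟩)
    · left
      exact ⟨L1, R1, e, h1, by omega⟩
    · right
      exact ⟨L1, R1, e, by omega, by omega⟩

theorem swap2 {L U U' R V : List Ver} (hU : U ≠ []) (hU' : U' ≠ []) (hV : V ≠ [])
    (hn : (L ++ U ++ R).Nodup) (hn' : (L ++ U' ++ R).Nodup) (hl : U'.length = U.length + 2)
    (hd : ∀ x ∈ U ++ U', x ∉ V) {c d : ℕ} (hdl : d ≤ L.length) :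
    Inn (L ++ U' ++ R) V c d ↔ Inn (L ++ U ++ R) V c d := by
  rw [inn_iff hU hV hn (fun x hx => hd x (by simp [hx])),
    inn_iff hU' hV hn' (fun x hx => hd x (by simp [hx]))]
  have h0 := len_pos' hU
  have h0' := len_pos' hV
  constructor
  · rintro (⟨L1, R1, e, h1, h2⟩ | ⟨L1, R1, e, h1, h2⟩)
    · left
      exact ⟨L1, R1, e, h1, h2⟩
    · omega
  · rintro (⟨L1, R1, e, h1, h2⟩ | ⟨L1, R1, e, h1, h2⟩)
    · left
      exact ⟨L1, R1, e, h1, h2⟩
    · omega

theorem swap3 {L U U' R V : List Ver} (hU : U ≠ []) (hU' : U' ≠ []) (hV : V ≠ [])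
    (hn : (L ++ U ++ R).Nodup) (hn' : (L ++ U' ++ R).Nodup) (hl : U'.length = U.length + 2)
    (hd : ∀ x ∈ U ++ U', x ∉ V) {c d : ℕ} (hcl : L.length + U.length ≤ c + 1) :
    Inn (L ++ U' ++ R) V (c + 2) (d + 2) ↔ Inn (L ++ U ++ R) V c d := by
  rw [inn_iff hU hV hn (fun x hx => hd x (by simp [hx])),
    inn_iff hU' hV hn' (fun x hx => hd x (by simp [hx]))]
  have h0 := len_pos' hU
  have h0' := len_pos' hV
  constructor
  · rintro (⟨L1, R1, e, h1, h2⟩ | ⟨L1, R1, e, h1, h2⟩)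
    · have h3 := congrArg List.length e
      simp only [List.length_append] at h3
      omega
    · right
      exact ⟨L1, R1, e, by omega, by omega⟩
  · rintro (⟨L1, R1, e, h1, h2⟩ | ⟨L1, R1, e, h1, h2⟩)
    · have h3 := congrArg List.length e
      simp only [List.length_append] at h3
      omega
    · right
      exact ⟨L1, R1, e, by omega, by omega⟩

section rul

variable {X : Geo Ver} {A : Ver → Ver → Prop} (Z : Rul X A)

/-- `q` is an occupied slot in the window -/
def Ocp (T : ℕ × ℕ) (w : List Ver) (q : List Ver × List Ver) : Prop :=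
  Z.T q.1 q.2 ∧ Inn w q.2 T.1 T.2 ∧ ∀ x ∈ q.1, x ∉ q.2 → x ∉ w

/-- `q` is a free slot in the window -/
def Fre (T : ℕ × ℕ) (w : List Ver) (q : List Ver × List Ver) : Prop :=
  Z.T q.1 q.2 ∧ Inn w q.1 T.1 T.2 ∧ ∀ x ∈ q.2, x ∉ q.1 → x ∉ w

/-- the slots in the window -/
noncomputable def Dl (L : Finset (List Ver × List Ver)) (T : ℕ × ℕ) (w : List Ver) :
    Finset (List Ver × List Ver) := L.filter (fun q => Fre Z T w q ∨ Ocp Z T w q)

/-- the occupied slots in the window -/
noncomputable def Ol (L : Finset (List Ver × List Ver)) (T : ℕ × ℕ) (w : List Ver) :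
    Finset (List Ver × List Ver) := L.filter (Ocp Z T w)

/-- the families without conflicts -/
def okl (L : Finset (List Ver × List Ver)) : Prop := ∀ q ∈ L, ∀ q' ∈ L, q ≠ q' → ¬ Cf q q'

theorem ne1 {q : List Ver × List Ver} (h : Z.T q.1 q.2) : q.1 ≠ [] := ne_nil (Z.pair _ _ h)

theorem ne2 {q : List Ver × List Ver} (h : Z.T q.1 q.2) : q.2 ≠ [] := ne_nil (Z.pair _ _ h).symm

theorem len12 (hs : Z.s = 2) {q : List Ver × List Ver} (h : Z.T q.1 q.2) :
    q.2.length = q.1.length + 2 ∧ 2 ≤ q.1.length := by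
  obtain ⟨h1, h2⟩ := Z.len _ _ h
  exact ⟨by omega, two_le (Z.pair _ _ h)⟩

/-- a slot is not free and occupied -/
theorem nofo (hs : Z.s = 2) {q : List Ver × List Ver} (h : Z.T q.1 q.2) {w : List Ver}
    (h1 : ∀ x ∈ q.2, x ∈ w) : ¬ ∀ x ∈ q.2, x ∉ q.1 → x ∉ w := by
  intro h2
  have h3 : ∀ x ∈ q.2, x ∈ q.1 := fun x hx => by
    by_contra hc
    exact h2 x hx hc (h1 x hx)
  obtain ⟨-, h5, h6, -⟩ := Z.pair _ _ h
  have h4 : q.2.toFinset ⊆ q.1.toFinset := by
    intro x hx
    rw [List.mem_toFinset] at hx ⊢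
    exact h3 x hx
  have h7 := Finset.card_le_card h4
  rw [List.toFinset_card_of_nodup h5, List.toFinset_card_of_nodup h6] at h7
  have := (len12 Z hs h).1
  omega

/-- the other places -/
theorem sw_iff {L R : List Ver} {q q' : List Ver × List Ver} (hT' : Z.T q'.1 q'.2)
    (hd : ∀ x ∈ q.1 ++ q.2, x ∉ q'.1 ++ q'.2) {T T' : ℕ × ℕ}
    (hI : ∀ V : List Ver, V ≠ [] → (∀ x ∈ q.1 ++ q.2, x ∉ V) →
      (Inn (L ++ q.2 ++ R) V T'.1 T'.2 ↔ Inn (L ++ q.1 ++ R) V T.1 T.2)) :
    (Fre Z T' (L ++ q.2 ++ R) q' ↔ Fre Z T (L ++ q.1 ++ R) q') ∧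
      (Ocp Z T' (L ++ q.2 ++ R) q' ↔ Ocp Z T (L ++ q.1 ++ R) q') := by
  have hm : ∀ x ∈ q'.1 ++ q'.2, (x ∈ L ++ q.2 ++ R ↔ x ∈ L ++ q.1 ++ R) := by
    intro x hx
    have h1 : x ∉ q.1 := fun hc => hd x (by simp [hc]) hx
    have h2 : x ∉ q.2 := fun hc => hd x (by simp [hc]) hx
    simp only [List.mem_append]
    tauto
  have h1 := hI q'.1 (ne1 Z hT') (fun x hx hc => hd x hx (by simp [hc]))
  have h2 := hI q'.2 (ne2 Z hT') (fun x hx hc => hd x hx (by simp [hc]))
  unfold Fre Ocp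
  rw [h1, h2]
  constructor
  · constructor
    · rintro ⟨a, b, c⟩
      exact ⟨a, b, fun x hx hx' hc => c x hx hx' ((hm x (by simp [hx])).mpr hc)⟩
    · rintro ⟨a, b, c⟩
      exact ⟨a, b, fun x hx hx' hc => c x hx hx' ((hm x (by simp [hx])).mp hc)⟩
  · constructor
    · rintro ⟨a, b, c⟩
      exact ⟨a, b, fun x hx hx' hc => c x hx hx' ((hm x (by simp [hx])).mpr hc)⟩
    · rintro ⟨a, b, c⟩
      exact ⟨a, b, fun x hx hx' hc => c x hx hx' ((hm x (by simp [hx])).mp hc)⟩

/-- the main lemma: one slot is occupied -/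
theorem core (hs : Z.s = 2) {F : Finset (List Ver × List Ver)} (hF : okl F) {n a b : ℕ}
    {q : List Ver × List Ver} (hq : q ∈ F) (hT : Z.T q.1 q.2) {L R : List Ver}
    (hw : L ++ q.1 ++ R ∈ Kw X A n) (hf : ∀ x ∈ q.2, x ∉ q.1 → x ∉ L ++ q.1 ++ R)
    (ha : a ≤ L.length) (hb : L.length + q.1.length ≤ b + 1) :
    St (Kw X A) (Dl Z) (Ol Z) F a b n (L ++ q.1 ++ R) q (L ++ q.2 ++ R) := by
  obtain ⟨l1, l2⟩ := len12 Z hs hT
  have hw0 := (mem_K Z).mp hw
  obtain ⟨hl, hwalk⟩ := hw0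
  obtain ⟨fw, ff⟩ := flip (Z.pair _ _ hT) hwalk hf
  have hn : (L ++ q.1 ++ R).Nodup := hwalk.2.1
  have hn' : (L ++ q.2 ++ R).Nodup := fw.2.1
  have hw' : L ++ q.2 ++ R ∈ Kw X A (n + 2) := by
    rw [mem_K Z]
    refine ⟨?_, fw⟩
    simp only [List.length_append] at hl ⊢
    omega
  have hin : ∀ x ∈ q.2, x ∈ L ++ q.2 ++ R := fun x hx => by simp [hx]
  -- the place `q`
  have q1 : Fre Z (a, b) (L ++ q.1 ++ R) q := ⟨hT, (inn_at (ne1 Z hT) hn).mpr ⟨ha, hb⟩, hf⟩
  have q2 : ∀ T, ¬ Ocp Z T (L ++ q.1 ++ R) q := by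
    rintro T ⟨-, ⟨L0, R0, e, -, -⟩, -⟩
    exact nofo Z hs hT (fun x hx => by rw [e]; simp [hx]) hf
  have q3 : Ocp Z (a, b + 2) (L ++ q.2 ++ R) q :=
    ⟨hT, (inn_at (ne2 Z hT) hn').mpr ⟨ha, by show _ ≤ b + 2 + 1; omega⟩, ff.2⟩
  have q4 : ∀ T, ¬ Fre Z T (L ++ q.2 ++ R) q := by
    rintro T ⟨-, -, h⟩
    exact nofo Z hs hT hin h
  -- the other places
  have hoth : ∀ q' ∈ F, q' ≠ q → ∀ x ∈ q.1 ++ q.2, x ∉ q'.1 ++ q'.2 := by
    intro q' hq' hne x hx hx'
    exact hF q hq q' hq' (Ne.symm hne) ⟨x, hx, hx'⟩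
  have gen : ∀ T T' : ℕ × ℕ, (∀ V : List Ver, V ≠ [] → (∀ x ∈ q.1 ++ q.2, x ∉ V) →
      (Inn (L ++ q.2 ++ R) V T'.1 T'.2 ↔ Inn (L ++ q.1 ++ R) V T.1 T.2)) →
      ∀ q' ∈ F, q' ≠ q → ((Fre Z T' (L ++ q.2 ++ R) q' ↔ Fre Z T (L ++ q.1 ++ R) q') ∧
      (Ocp Z T' (L ++ q.2 ++ R) q' ↔ Ocp Z T (L ++ q.1 ++ R) q')) := by
    intro T T' hI q' hq' hne
    by_cases hT' : Z.T q'.1 q'.2
    · exact sw_iff Z hT' (hoth q' hq' hne) hI
    · constructor
      · exact ⟨fun h => absurd h.1 hT', fun h => absurd h.1 hT'⟩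
      · exact ⟨fun h => absurd h.1 hT', fun h => absurd h.1 hT'⟩
  have g1 := gen (a, b) (a, b + 2) (fun V hV hd =>
    swap1 (ne1 Z hT) (ne2 Z hT) hV hn hn' l1 hd ha hb)
  have g2 : ∀ c d, d ≤ a → _ := fun c d hda => gen (c, d) (c, d) (fun V hV hd =>
    swap2 (ne1 Z hT) (ne2 Z hT) hV hn hn' l1 hd (le_trans hda ha))
  have g3 : ∀ c d, b ≤ c → _ := fun c d hbc => gen (c, d) (c + 2, d + 2) (fun V hV hd =>
    swap3 (ne1 Z hT) (ne2 Z hT) hV hn hn' l1 hd (by omega))
  refine ⟨hw, hw', ?_, ?_, ?_, ?_, ?_, ?_, ?_, ?_⟩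
  · exact Finset.mem_filter.mpr ⟨hq, Or.inl q1⟩
  · intro h
    exact q2 _ (Finset.mem_filter.mp h).2
  · ext q'
    unfold Dl
    rw [Finset.mem_filter, Finset.mem_filter]
    refine and_congr_right fun hq' => ?_
    by_cases hne : q' = q
    · rw [hne]
      exact ⟨fun _ => Or.inl q1, fun _ => Or.inr q3⟩
    · rw [(g1 q' hq' hne).1, (g1 q' hq' hne).2]
  · ext q'
    unfold Ol
    rw [@Finset.mem_insert _ (fun a b => Classical.propDecidable (a = b)), Finset.mem_filter,
      Finset.mem_filter]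
    by_cases hne : q' = q
    · rw [hne]
      exact ⟨fun _ => Or.inl rfl, fun _ => ⟨hq, q3⟩⟩
    · constructor
      · rintro ⟨h1, h2⟩
        exact Or.inr ⟨h1, (g1 q' h1 hne).2.mp h2⟩
      · rintro (h | ⟨h1, h2⟩)
        · exact absurd h hne
        · exact ⟨h1, (g1 q' h1 hne).2.mpr h2⟩
  · intro c d hcd hda
    ext q'
    unfold Dl
    rw [Finset.mem_filter, Finset.mem_filter]
    refine and_congr_right fun hq' => ?_
    by_cases hne : q' = q
    · rw [hne]
      constructor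
      · rintro (h | ⟨-, h, -⟩)
        · exact absurd h (q4 _)
        · have := ((inn_at (ne2 Z hT) hn').mp h).2
          simp only at this
          omega
      · rintro (⟨-, h, -⟩ | h)
        · have := ((inn_at (ne1 Z hT) hn).mp h).2
          simp only at this
          omega
        · exact absurd h (q2 _)
    · rw [(g2 c d hda q' hq' hne).1, (g2 c d hda q' hq' hne).2]
  · intro c d hcd hda
    ext q'
    unfold Ol
    rw [Finset.mem_filter, Finset.mem_filter]
    refine and_congr_right fun hq' => ?_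
    by_cases hne : q' = q
    · rw [hne]
      constructor
      · rintro ⟨-, h, -⟩
        have := ((inn_at (ne2 Z hT) hn').mp h).2
        simp only at this
        omega
      · intro h
        exact absurd h (q2 _)
    · exact (g2 c d hda q' hq' hne).2
  · intro c d hbc hcd hdn
    ext q'
    unfold Dl
    rw [Finset.mem_filter, Finset.mem_filter]
    refine and_congr_right fun hq' => ?_
    by_cases hne : q' = q
    · rw [hne]
      constructor
      · rintro (h | ⟨-, h, -⟩)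
        · exact absurd h (q4 _)
        · have := ((inn_at (ne2 Z hT) hn').mp h).1
          simp only at this
          omega
      · rintro (⟨-, h, -⟩ | h)
        · have := ((inn_at (ne1 Z hT) hn).mp h).1
          simp only at this
          omega
        · exact absurd h (q2 _)
    · rw [(g3 c d hbc q' hq' hne).1, (g3 c d hbc q' hq' hne).2]
  · intro c d hbc hcd hdn
    ext q'
    unfold Ol
    rw [Finset.mem_filter, Finset.mem_filter]
    refine and_congr_right fun hq' => ?_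
    by_cases hne : q' = q
    · rw [hne]
      constructor
      · rintro ⟨-, h, -⟩
        have := ((inn_at (ne2 Z hT) hn').mp h).1
        simp only at this
        omega
      · intro h
        exact absurd h (q2 _)
    · exact (g3 c d hbc q' hq' hne).2

/-- the vertices of a block in the window `[a, b]` -/
theorem inn_img {w V : List Ver} {a b : ℕ} (h : Inn w V a b) {x : Ver} (hx : x ∈ V) :
    some x ∈ (Finset.Icc a b).image (fun i => w[i]?) := by
  obtain ⟨L, R, e, h1, h2⟩ := h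
  obtain ⟨j, hj, rfl⟩ := List.getElem_of_mem hx
  rw [Finset.mem_image]
  refine ⟨L.length + j, Finset.mem_Icc.mpr ⟨by omega, by omega⟩, ?_⟩
  rw [e, List.append_assoc, List.getElem?_append_right (by omega),
    List.getElem?_append_left (by omega), Nat.add_sub_cancel_left]
  exact List.getElem?_eq_getElem hj

/-- the number of the occupied slots -/
theorem len_le (hs : Z.s = 2) {F : Finset (List Ver × List Ver)} (hF : okl F) {a b : ℕ}
    (hab : a ≤ b) (w : List Ver) : 2 * (Ol Z F (a, b) w).card ≤ b - a := by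
  by_cases h0 : (Ol Z F (a, b) w).card = 0
  · omega
  have h1 : ∑ q ∈ Ol Z F (a, b) w, (q.2.toFinset.image some).card ≤
      ((Finset.Icc a b).image (fun i => w[i]?)).card := by
    rw [← Finset.card_biUnion]
    · refine Finset.card_le_card ?_
      intro y hy
      rw [Finset.mem_biUnion] at hy
      obtain ⟨q, hq, hy⟩ := hy
      rw [Finset.mem_image] at hy
      obtain ⟨x, hx, rfl⟩ := hy
      rw [List.mem_toFinset] at hx
      exact inn_img (Finset.mem_filter.mp hq).2.2.1 hx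
    · intro q hq q' hq' hne
      show Disjoint _ _
      rw [Finset.disjoint_left]
      intro y hy hy'
      rw [Finset.mem_image] at hy hy'
      obtain ⟨x, hx, rfl⟩ := hy
      obtain ⟨x', hx', e⟩ := hy'
      rw [Option.some.injEq] at e
      subst e
      rw [List.mem_toFinset] at hx hx'
      exact hF q (Finset.mem_filter.mp hq).1 q' (Finset.mem_filter.mp hq').1 hne
        ⟨x', by simp [hx], by simp [hx']⟩
  have h2 : ((Finset.Icc a b).image (fun i => w[i]?)).card ≤ b + 1 - a :=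
    Finset.card_image_le.trans (by rw [Nat.card_Icc])
  have h3 : ∀ q ∈ Ol Z F (a, b) w, 4 ≤ (q.2.toFinset.image some).card := by
    intro q hq
    have hT := (Finset.mem_filter.mp hq).2.1
    obtain ⟨-, -, h6, -⟩ := Z.pair _ _ hT
    rw [Finset.card_image_of_injective _ (Option.some_injective _),
      List.toFinset_card_of_nodup h6]
    have := len12 Z hs hT
    omega
  have h4 : 4 * (Ol Z F (a, b) w).card ≤ ∑ q ∈ Ol Z F (a, b) w, (q.2.toFinset.image some).card := by
    rw [mul_comm, ← smul_eq_mul]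
    exact Finset.card_nsmul_le_sum _ _ _ h3
  omega

/-- adding a slot at the times `k, …` -/
def Bl (n k : ℕ) (w : List Ver) (q : List Ver × List Ver) (w' : List Ver) : Prop :=
  w ∈ Kw X A n ∧ w' ∈ Kw X A (n + 2) ∧ Z.T q.1 q.2 ∧
    ∃ L R, w = L ++ q.1 ++ R ∧ w' = L ++ q.2 ++ R ∧ L.length = k

/-- **The system of the local replacements** -/
noncomputable def sy (hs : Z.s = 2) : Sy (List Ver) (List Ver × List Ver) where
  W := Kw X A
  ok := okl
  D := Dl Z
  O := Ol Z
  Bp := Bl Z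
  c := Z.k - 1
  D_sub L T w := Finset.filter_subset _ _
  O_sub L T w := by
    intro q hq
    obtain ⟨h1, h2⟩ := Finset.mem_filter.mp hq
    exact Finset.mem_filter.mpr ⟨h1, Or.inr h2⟩
  len L hL a b n w hab _ _ := len_le Z hs hL hab w
  mv F hF := by
    refine ⟨fun w q => rep w q.1 q.2, fun w q => rep w q.2 q.1, ?_, ?_⟩
    · intro a b n w q hab hbn hw hD hO
      obtain ⟨hqF, hD⟩ := Finset.mem_filter.mp hD
      have hfr : Fre Z (a, b) w q := by
        rcases hD with h | h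
        · exact h
        · exact absurd (Finset.mem_filter.mpr ⟨hqF, h⟩) hO
      obtain ⟨hT, ⟨L, R, e, h1, h2⟩, h3⟩ := hfr
      simp only at h1 h2
      have hwalk := ((mem_K Z).mp hw).2
      have e1 : rep w q.1 q.2 = L ++ q.2 ++ R := by
        rw [e]
        exact rep_eq (ne1 Z hT) (by rw [← e]; exact hwalk.2.1)
      have hc := core Z hs hF (n := n) (a := a) (b := b) hqF hT (L := L) (R := R)
        (by rw [← e]; exact hw) (by rw [← e]; exact h3) h1 h2
      have e2 : rep (L ++ q.2 ++ R) q.2 q.1 = w := by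
        rw [e]
        exact rep_eq (ne2 Z hT) ((mem_K Z).mp hc.sw').2.2.1
      simp only [e1]
      refine ⟨?_, ⟨L.length, h1, ?_, hw, hc.sw', hT, L, R, e, rfl, rfl⟩, e2⟩
      · have := hc
        rw [← e] at this
        exact this
      · have h5 := (Z.len _ _ hT).1
        have h6 := (len12 Z hs hT).2
        show L.length + (Z.k - 1) ≤ b
        omega
    · intro a b n w' q hab hbn hw' hO
      obtain ⟨hqF, hT, ⟨L, R, e, h1, h2⟩, h3⟩ := Finset.mem_filter.mp hO
      simp only at h1 h2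
      obtain ⟨hl', hwalk'⟩ := (mem_K Z).mp hw'
      rw [e] at hwalk' hl' h3
      obtain ⟨fw, ff⟩ := flip (Z.pair _ _ hT).symm hwalk' h3
      obtain ⟨l1, l2⟩ := len12 Z hs hT
      have hw : L ++ q.1 ++ R ∈ Kw X A n := by
        rw [mem_K Z]
        refine ⟨?_, fw⟩
        simp only [List.length_append] at hl' ⊢
        omega
      have e1 : rep w' q.2 q.1 = L ++ q.1 ++ R := by
        rw [e]
        exact rep_eq (ne2 Z hT) hwalk'.2.1
      have hc := core Z hs hF (n := n) (a := a) (b := b) hqF hT (L := L) (R := R) hw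
        ff.2 h1 (by omega)
      have e2 : rep (L ++ q.1 ++ R) q.1 q.2 = w' := by
        rw [e]
        exact rep_eq (ne1 Z hT) fw.2.1
      simp only [e1]
      refine ⟨?_, ⟨L.length, h1, ?_, hw, hw', hT, L, R, rfl, e, rfl⟩, e2⟩
      · have := hc
        rw [← e] at this
        exact this
      · have h5 := (Z.len _ _ hT).1
        show L.length + (Z.k - 1) ≤ b
        omega

end rul

end Pool.Agent.U954.GE
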