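import Pool.Agent.U954.GE.Sum
import Pool.Agent.U954.TA.Bin

/-!
# Marked self-avoiding walks: differences of all orders in the marked time
-/

set_option autoImplicit false
set_option linter.unusedVariables false

namespace Pool.Agent.U954.GE

open Finset Pool.Agent.U954.TA
open scoped Classical

noncomputable section

variable {α σ : Type} {Y : Sy α σ}

/-- many occupied and many free slots in both windows -/
def GK (G : ℝ) (x : Key σ) : Prop :=
  G ≤ x.2.1 ∧ (x.2.1 : ℝ) + G ≤ x.1.1.card ∧ G ≤ x.2.2 ∧ (x.2.2 : ℝ) + G ≤ x.1.2.card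

/-- the two windows are balanced -/
def BK (ε : ℝ) (x : Key σ) : Prop :=
  ((x.1.1.card : ℝ) - x.2.1) * x.2.2 ≤ (1 + ε) * (((x.1.2.card : ℝ) - x.2.2) * x.2.1) ∧
  ((x.1.2.card : ℝ) - x.2.2) * x.2.1 ≤ (1 + ε) * (((x.1.1.card : ℝ) - x.2.1) * x.2.2)

/-- `(1 + y)` and the exponential function -/
theorem exp_half_le (y : ℝ) (h0 : 0 ≤ y) (h1 : y ≤ 1) : Real.exp (y / 2) ≤ 1 + y := by
  have h2 : 1 - y / 2 ≤ Real.exp (-(y / 2)) := by
    have := Real.add_one_le_exp (-(y / 2))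
    linarith
  have h3 : 0 < 1 - y / 2 := by linarith
  have h4 : Real.exp (y / 2) ≤ (1 - y / 2)⁻¹ := by
    rw [← inv_inv (Real.exp (y / 2)), ← Real.exp_neg]
    exact inv_anti₀ h3 h2
  refine h4.trans ?_
  rw [inv_le_iff_one_le_mul₀ h3]
  nlinarith

theorem pow_exp (ε G : ℝ) (hε : 0 < ε) (hε1 : ε ≤ 1) (t : ℕ) (ht : ε * G / 32 < t + 1) :
    ((1 + ε / 2) ^ t)⁻¹ ≤ 2 * Real.exp (-(ε ^ 2 * G / 128)) := by
  have h1 := exp_half_le (ε / 2) (by positivity) (by linarith)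
  have h2 : Real.exp (ε / 4 * t) ≤ (1 + ε / 2) ^ t := by
    have e1 : Real.exp (ε / 4 * t) = Real.exp (ε / 2 / 2) ^ t := by
      rw [← Real.exp_nat_mul]
      congr 1
      ring
    rw [e1]
    exact pow_le_pow_left₀ (Real.exp_pos _).le h1 t
  have h3 : ((1 + ε / 2) ^ t)⁻¹ ≤ Real.exp (-(ε / 4 * t)) := by
    rw [Real.exp_neg]
    exact inv_anti₀ (Real.exp_pos _) h2
  refine h3.trans ?_
  have h4 : -(ε / 4 * t) ≤ 1 / 2 + -(ε ^ 2 * G / 128) := by
    have h5 : ε / 4 * (ε * G / 32) ≤ ε / 4 * (t + 1) :=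
      mul_le_mul_of_nonneg_left ht.le (by positivity)
    have h6 : ε / 4 * (ε * G / 32) = ε ^ 2 * G / 128 := by ring
    linarith
  have h7 : Real.exp (1 / 2 : ℝ) ≤ 2 := by
    have := exp_half_le 1 zero_le_one le_rfl
    linarith
  calc Real.exp (-(ε / 4 * t)) ≤ Real.exp (1 / 2 + -(ε ^ 2 * G / 128)) := Real.exp_le_exp.mpr h4
    _ = Real.exp (1 / 2) * Real.exp (-(ε ^ 2 * G / 128)) := Real.exp_add _ _
    _ ≤ _ := mul_le_mul_of_nonneg_right h7 (Real.exp_pos _).le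

/-- the key with `h` more occupied slots in the second window and `h` fewer in the first one -/
def sh (h : ℕ) (x : Key σ) : Key σ := (x.1, (x.2.1 - h, x.2.2 + h))

/-- few walks are unbalanced -/
theorem conc {L : Finset σ} (hL : Y.ok L) {N p U m V l : ℕ} (hN : N = p + U + m + V + l)
    (ε G : ℝ) (hε : 0 < ε) (hε1 : ε ≤ 1) (hG : 0 < G) (h : ℕ) (hh : 32 * (h : ℝ) ≤ ε * G)
    (hU : 2 * G ≤ U) (hV : 2 * G ≤ V) :
    (((Y.W N).filter (fun w => (GK G (ky Y L p (p + U) m (p + U + m + V) w) ∧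
      h ≤ (ky Y L p (p + U) m (p + U + m + V) w).2.1 ∧
      GK G (sh h (ky Y L p (p + U) m (p + U + m + V) w)) ∧
      ¬ BK ε (sh h (ky Y L p (p + U) m (p + U + m + V) w))))).card : ℝ) ≤
      4 * Real.exp (-(ε ^ 2 * G / 128)) * ((Y.W N).card : ℝ) := by
  obtain ⟨t, ht⟩ : ∃ t : ℕ, t = ⌊ε * G / 32⌋₊ := ⟨_, rfl⟩
  have ht1 : (t : ℝ) ≤ ε * G / 32 := by rw [ht]; exact Nat.floor_le (by positivity)
  have ht2 : ε * G / 32 < t + 1 := by rw [ht]; exact Nat.lt_floor_add_one _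
  have hεG : ε * G ≤ 1 * G := mul_le_mul_of_nonneg_right hε1 hG.le
  have htG : (t : ℝ) ≤ G / 32 := by linarith
  have hh0 : (0 : ℝ) ≤ h := Nat.cast_nonneg h
  have ht0 : (0 : ℝ) ≤ t := Nat.cast_nonneg t
  have htU : 2 * t ≤ U := by
    have : (2 * (t : ℝ)) ≤ U := by linarith
    exact_mod_cast this
  have htV : 2 * t ≤ V := by
    have : (2 * (t : ℝ)) ≤ V := by linarith
    exact_mod_cast this
  obtain ⟨M, hM⟩ : ∃ M : ℝ, M = ((1 + ε / 2) ^ t)⁻¹ := ⟨_, rfl⟩
  have hρ : 0 < (1 + ε / 2) ^ t := by positivity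
  have hM0 : 0 ≤ M := by rw [hM]; positivity
  have hMle : M ≤ 2 * Real.exp (-(ε ^ 2 * G / 128)) := by
    rw [hM]
    exact pow_exp ε G hε hε1 t ht2
  obtain ⟨Q1, hQ1⟩ : ∃ Q1 : Key σ → Prop, Q1 = fun x => GK G x ∧ h ≤ x.2.1 ∧ GK G (sh h x) ∧
      (1 + ε) * ((((sh h x).1.2.card : ℝ) - (sh h x).2.2) * (sh h x).2.1) <
        (((sh h x).1.1.card : ℝ) - (sh h x).2.1) * (sh h x).2.2 := ⟨_, rfl⟩
  obtain ⟨Q2, hQ2⟩ : ∃ Q2 : Key σ → Prop, Q2 = fun x => GK G x ∧ h ≤ x.2.1 ∧ GK G (sh h x) ∧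
      (1 + ε) * ((((sh h x).1.1.card : ℝ) - (sh h x).2.1) * (sh h x).2.2) <
        (((sh h x).1.2.card : ℝ) - (sh h x).2.2) * (sh h x).2.1 := ⟨_, rfl⟩
  have a1 := gen2 hL hN (show N = p + (U + 2 * t) + m + (V - 2 * t) + l by omega) Q1 M hM0
    (fun i => i + t) (fun j => j - t) (by
      intro x hx hx1 hx2 hx3 hx4
      rw [hQ1] at hx
      obtain ⟨⟨g1, g2, g3, g4⟩, hhi, ⟨g5, g6, g7, g8⟩, g9⟩ := hx
      unfold sh at g5 g6 g7 g8 g9
      simp only at g5 g6 g7 g8 g9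
      rw [Nat.cast_sub hhi] at g5 g6 g9
      push_cast at g5 g6 g7 g8 g9
      have htj : t ≤ x.2.2 := by
        have : (t : ℝ) ≤ x.2.2 := by linarith
        exact_mod_cast this
      have hit : x.2.1 + t ≤ x.1.1.card := by
        have : (x.2.1 : ℝ) + t ≤ x.1.1.card := by linarith
        exact_mod_cast this
      refine ⟨by omega, by omega, ?_⟩
      have u := unb ((x.1.1.card : ℝ) - (x.2.1 - h)) ((x.2.1 : ℝ) - h)
        ((x.1.2.card : ℝ) - (x.2.2 + h)) ((x.2.2 : ℝ) + h) G (h + t) ε hε hε1 hG (by positivity)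
        (by linarith) (by linarith) (by linarith) (by linarith) (by linarith) (by linarith)
      have v := mvr x.1.1.card x.2.1 x.1.2.card x.2.2 t (1 + ε / 2) (by positivity) htj hit hx2
        (by linarith) t le_rfl
      unfold bb
      rw [hM, inv_mul_eq_div, le_div_iff₀ hρ]
      exact v)
  have a2 := gen2 hL hN (show N = p + (U - 2 * t) + m + (V + 2 * t) + l by omega) Q2 M hM0
    (fun i => i - t) (fun j => j + t) (by
      intro x hx hx1 hx2 hx3 hx4
      rw [hQ2] at hx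
      obtain ⟨⟨g1, g2, g3, g4⟩, hhi, ⟨g5, g6, g7, g8⟩, g9⟩ := hx
      unfold sh at g5 g6 g7 g8 g9
      simp only at g5 g6 g7 g8 g9
      rw [Nat.cast_sub hhi] at g5 g6 g9
      push_cast at g5 g6 g7 g8 g9
      have htj : t ≤ x.2.1 := by
        have : (t : ℝ) ≤ x.2.1 := by linarith
        exact_mod_cast this
      have hit : x.2.2 + t ≤ x.1.2.card := by
        have : (x.2.2 : ℝ) + t ≤ x.1.2.card := by linarith
        exact_mod_cast this
      refine ⟨by omega, by omega, ?_⟩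
      have u := unb ((x.1.2.card : ℝ) - (x.2.2 + h)) ((x.2.2 : ℝ) + h)
        ((x.1.1.card : ℝ) - (x.2.1 - h)) ((x.2.1 : ℝ) - h) G (h + t) ε hε hε1 hG (by positivity)
        (by linarith) (by linarith) (by linarith) (by linarith) (by linarith) (by linarith)
      have e1 : ((x.2.2 : ℝ) + t) * ((x.1.1.card : ℝ) - x.2.1 + t) ≤
          ((x.2.2 : ℝ) + h + (h + t)) * ((x.1.1.card : ℝ) - (x.2.1 - h) + (h + t)) := by
        apply mul_le_mul <;> linarith
      have e2 : ((x.1.2.card : ℝ) - (x.2.2 + h) - (h + t)) * ((x.2.1 : ℝ) - h - (h + t)) ≤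
          ((x.1.2.card : ℝ) - x.2.2 - t) * ((x.2.1 : ℝ) - t) := by
        apply mul_le_mul <;> linarith
      have v := mvr x.1.2.card x.2.2 x.1.1.card x.2.1 t (1 + ε / 2) (by positivity) htj hit hx1
        (by
          refine le_trans ?_ (u.trans e2)
          exact mul_le_mul_of_nonneg_left e1 (by positivity)) t le_rfl
      unfold bb
      rw [hM, inv_mul_eq_div, le_div_iff₀ hρ]
      calc _ = (x.1.2.card.choose x.2.2 : ℝ) * (x.1.1.card.choose x.2.1 : ℝ) * (1 + ε / 2) ^ t := by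
            ring
        _ ≤ _ := v
        _ = _ := by ring)
  have hsub : (Y.W N).filter (fun w => (GK G (ky Y L p (p + U) m (p + U + m + V) w) ∧
      h ≤ (ky Y L p (p + U) m (p + U + m + V) w).2.1 ∧
      GK G (sh h (ky Y L p (p + U) m (p + U + m + V) w)) ∧
      ¬ BK ε (sh h (ky Y L p (p + U) m (p + U + m + V) w)))) ⊆
      (Y.W N).filter (fun w => Q1 (ky Y L p (p + U) m (p + U + m + V) w)) ∪
      (Y.W N).filter (fun w => Q2 (ky Y L p (p + U) m (p + U + m + V) w)) := by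
    intro w hw
    rw [mem_filter] at hw
    obtain ⟨hw0, hw1, hw2, hw3, hw4⟩ := hw
    rw [mem_union, mem_filter, mem_filter]
    unfold BK at hw4
    rw [not_and_or, not_le, not_le] at hw4
    rcases hw4 with hw4 | hw4
    · left
      refine ⟨hw0, ?_⟩
      rw [hQ1]
      exact ⟨hw1, hw2, hw3, hw4⟩
    · right
      refine ⟨hw0, ?_⟩
      rw [hQ2]
      exact ⟨hw1, hw2, hw3, hw4⟩
  have hc := (card_le_card hsub).trans (card_union_le _ _)
  have hc' : (((Y.W N).filter (fun w => (GK G (ky Y L p (p + U) m (p + U + m + V) w) ∧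
      h ≤ (ky Y L p (p + U) m (p + U + m + V) w).2.1 ∧
      GK G (sh h (ky Y L p (p + U) m (p + U + m + V) w)) ∧
      ¬ BK ε (sh h (ky Y L p (p + U) m (p + U + m + V) w))))).card : ℝ) ≤
      (((Y.W N).filter (fun w => Q1 (ky Y L p (p + U) m (p + U + m + V) w))).card : ℝ) +
      (((Y.W N).filter (fun w => Q2 (ky Y L p (p + U) m (p + U + m + V) w))).card : ℝ) := by
    exact_mod_cast hc
  have hN0 : (0 : ℝ) ≤ ((Y.W N).card : ℝ) := Nat.cast_nonneg _
  have a3 : M * ((Y.W N).card : ℝ) ≤ 2 * Real.exp (-(ε ^ 2 * G / 128)) * ((Y.W N).card : ℝ) :=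
    mul_le_mul_of_nonneg_right hMle hN0
  linarith

end

end Pool.Agent.U954.GE
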