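import Pool.Agent.U954.GE.Bk
import Pool.Agent.U954.GE.Jt2

/-!
# Several rankings: mixed second differences
-/

set_option autoImplicit false
set_option linter.unusedVariables false

namespace Pool.Agent.U954.GE.Jt

open Finset Pool.Agent.N929.EG Pool.Agent.N169.EG Pool.Agent.U954.GE
open scoped Classical

variable {Ver : Type} {X : Geo Ver} {A : Ver → Ver → Prop}

noncomputable section

variable {S : ∀ n : ℕ, Set (Fin (n + 1) → Ver)} {H : Set Ver}

theorem blk_shf {k g g' n h : ℕ} {t : Fin k → ℕ} {I J : Finset (Fin k)} (hI : Blk g n t I)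
    (hJ : Blk g n t J) (hh : h ≤ 4) (hg : 4 + g' ≤ g) : Blk g' n (shf J h t) I := by
  obtain ⟨a1, a2, a3⟩ := hI
  obtain ⟨b1, b2, b3⟩ := hJ
  have hle : ∀ i, t i ≤ shf J h t i ∧ shf J h t i ≤ t i + 4 := by
    intro i
    unfold shf
    split_ifs <;> omega
  refine ⟨a1, fun i hi => ?_, fun i' hi' => ⟨?_, ?_⟩⟩
  · have h1 := a2 i hi
    have h2 := hle i
    omega
  · unfold shf
    split_ifs with hc
    · have := b2 i' hc
      omega
    · exact (a3 i' hi').1
  · rcases (a3 i' hi').2 with h1 | h1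
    · left
      intro i hi
      have h2 := h1 i hi
      have h3 := hle i
      have h4 := hle i'
      omega
    · right
      intro i hi
      have h2 := h1 i hi
      have h3 := hle i
      have h4 := hle i'
      omega

theorem shf_shf_same {k : ℕ} (I : Finset (Fin k)) (h h' : ℕ) (t : Fin k → ℕ) :
    shf I h (shf I h' t) = shf I (h' + h) t := by
  funext i
  unfold shf
  split_ifs <;> omega

theorem shf_union {k : ℕ} {I J : Finset (Fin k)} (hd : Disjoint I J) (h : ℕ) (t : Fin k → ℕ) :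
    shf (I ∪ J) h t = shf I h (shf J h t) := by
  funext i
  unfold shf
  by_cases h1 : i ∈ I
  · have h2 : i ∉ J := fun h2 => (Finset.disjoint_left.mp hd) h1 h2
    simp [h1, h2]
  · by_cases h2 : i ∈ J
    · simp [h1, h2]
    · simp [h1, h2]

theorem shf_comm {k : ℕ} (I J : Finset (Fin k)) (h h' : ℕ) (t : Fin k → ℕ) :
    shf I h (shf J h' t) = shf J h' (shf I h t) := by
  funext i
  unfold shf
  split_ifs <;> omega

/-- the second differences along blocks, and the comparison of the values -/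
def D2 (S : ∀ n : ℕ, Set (Fin (n + 1) → Ver)) (ψ lam : ℕ → ℝ) (st k : ℕ) (C : ℝ) : Prop :=
  ∀ (α : Type) (_ : LinearOrder α)
    (φ : Fin k → Ver → α), (∀ i, Function.Injective (φ i)) → ∀ (n g : ℕ) (t : Fin k → ℕ)
    (I : Finset (Fin k)) (L : ℝ), 2 ≤ n → lam n ≤ L → Real.exp (-L) ≤ Jp S φ n t → Blk g n t I →
    C * (ψ n + L) ≤ g →
    0 < Jp S φ n (shf I st t) ∧ 0 < Jp S φ n (shf I (2 * st) t) ∧
    |Real.log (Jp S φ n t) - Real.log (Jp S φ n (shf I st t))| ≤ 1 ∧
    |Real.log (Jp S φ n t) - 2 * Real.log (Jp S φ n (shf I st t)) +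
      Real.log (Jp S φ n (shf I (2 * st) t))| ≤ C * (L / g) ∧ C * (L / g) ≤ 1

theorem d2_of (Z : Rul X A) (hS : Cla X A H S) {ψ lam : ℕ → ℝ} {st k : ℕ}
    (hst : st ≤ 2) (hlog : ∀ n : ℕ, 2 ≤ n → Real.log n ≤ lam n)
    (hψ : ∀ n : ℕ, 2 ≤ n → Real.log n ≤ ψ n) (gen : ∀ r : ℕ, 1 ≤ r → GenP S ψ lam st k r) :
    ∃ C : ℝ, 1 ≤ C ∧ D2 S ψ lam st k C := by
  obtain ⟨C1, hC1, h1⟩ := block_diff Z hS hst hlog hψ (gen 1 le_rfl)
  obtain ⟨C2, hC2, h2⟩ := block_diff Z hS hst hlog hψ (gen 2 (by norm_num))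
  refine ⟨C1 ^ 2 + C2 + C1, by nlinarith, fun α _ φ hφ n g t I L hn hL hp hblk hg => ?_⟩
  have hn' : (2 : ℝ) ≤ n := by exact_mod_cast hn
  have hlog0 : (0.69 : ℝ) ≤ Real.log n := by
    have h1 : Real.log 2 ≤ Real.log n := Real.log_le_log (by norm_num) hn'
    have := Real.log_two_gt_d9
    linarith
  have k1 := hlog n hn
  have k2 := hψ n hn
  have hψL : 0 < ψ n + L := by linarith
  have hCC : 0 ≤ C1 ^ 2 := by positivity
  have hg0 : (0 : ℝ) < g := lt_of_lt_of_le (by positivity) hg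
  have hL0 : 0 ≤ L := by linarith
  have hLg : 0 ≤ L / g := by positivity
  -- `C (L / g) ≤ 1`
  have hc1 : (C1 ^ 2 + C2 + C1) * (L / g) ≤ 1 := by
    rw [mul_div_assoc', div_le_one hg0]
    refine le_trans (mul_le_mul_of_nonneg_left ?_ (by positivity)) hg
    linarith
  obtain ⟨p1, q1⟩ := h1 α inferInstance φ hφ n g t I L hn hL hp hblk
    (le_trans (mul_le_mul_of_nonneg_right (by nlinarith) hψL.le) hg)
  obtain ⟨p2, q2⟩ := h2 α inferInstance φ hφ n g t I L hn hL hp hblk
    (le_trans (mul_le_mul_of_nonneg_right (by nlinarith) hψL.le) hg)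
  have hup0 : shf I (st * 0) t = t := by
    funext i
    unfold shf
    split_ifs <;> simp
  have e1 : df 1 (fun i => Real.log (Jp S φ n (shf I (st * i) t))) =
      Real.log (Jp S φ n t) - Real.log (Jp S φ n (shf I st t)) := by
    unfold df
    rw [Finset.sum_range_succ, Finset.sum_range_one]
    simp only [hup0, mul_one]
    simp
    ring
  have e2 : df 2 (fun i => Real.log (Jp S φ n (shf I (st * i) t))) =
      Real.log (Jp S φ n t) - 2 * Real.log (Jp S φ n (shf I st t)) +
      Real.log (Jp S φ n (shf I (2 * st) t)) := by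
    unfold df
    rw [Finset.sum_range_succ, Finset.sum_range_succ, Finset.sum_range_one]
    simp only [hup0, mul_one, mul_comm st 2]
    norm_num
    ring
  rw [e1, pow_one] at q1
  rw [e2, Real.sq_sqrt hLg] at q2
  refine ⟨by simpa using p2 1 (by norm_num), by simpa [mul_comm] using p2 2 le_rfl,
    q1.trans ?_, q2.trans (mul_le_mul_of_nonneg_right (by nlinarith) hLg), hc1⟩
  -- `C1 √(L / g) ≤ 1`
  have h3 : C1 ^ 2 * (L / g) ≤ 1 := by
    refine le_trans (mul_le_mul_of_nonneg_right ?_ hLg) hc1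
    linarith
  have h4 : (C1 * Real.sqrt (L / g)) ^ 2 ≤ 1 ^ 2 := by
    rw [mul_pow, Real.sq_sqrt hLg, one_pow]
    exact h3
  exact (abs_le_of_sq_le_sq' h4 zero_le_one).2

/-- mixed differences for two adjacent blocks -/
theorem adj_mixed {ψ lam : ℕ → ℝ} {st k : ℕ} {C : ℝ}
    (hst : st ≤ 2) (hlog : ∀ n : ℕ, 2 ≤ n → Real.log n ≤ lam n)
    (hψ : ∀ n : ℕ, 2 ≤ n → Real.log n ≤ ψ n) (hC : 1 ≤ C) (h : D2 S ψ lam st k C)
    {α : Type} [LinearOrder α] {φ : Fin k → Ver → α} (hφ : ∀ i, Function.Injective (φ i))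
    {n g : ℕ} {t : Fin k → ℕ} {I J : Finset (Fin k)} {L : ℝ} (hn : 2 ≤ n) (hL : lam n ≤ L)
    (hp : Real.exp (-L) ≤ Jp S φ n t) (hd : Disjoint I J) (hI : Blk g n t I) (hJ : Blk g n t J)
    (hIJ : Blk g n t (I ∪ J)) (hg : 20 * C * (ψ n + L) ≤ g) :
    0 < Jp S φ n (shf I st (shf J st t)) ∧
    |Real.log (Jp S φ n (shf I st (shf J st t))) - Real.log (Jp S φ n (shf I st t)) -
      Real.log (Jp S φ n (shf J st t)) + Real.log (Jp S φ n t)| ≤ 40 * C * (L / g) := by
  have hn' : (2 : ℝ) ≤ n := by exact_mod_cast hn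
  have hlog0 : (0.69 : ℝ) ≤ Real.log n := by
    have h1 : Real.log 2 ≤ Real.log n := Real.log_le_log (by norm_num) hn'
    have := Real.log_two_gt_d9
    linarith
  have k1 := hlog n hn
  have k2 := hψ n hn
  have hψL : 0 < ψ n + L := by linarith
  have hL0 : 0 < L := by linarith
  have hg20 : 27 ≤ (g : ℝ) := by
    have : 20 * 1 * (0.69 + 0.69) ≤ 20 * C * (ψ n + L) :=
      mul_le_mul (by linarith) (by linarith) (by norm_num) (by linarith)
    linarith
  obtain ⟨g', hg'⟩ : ∃ g' : ℕ, g' = g - 4 := ⟨_, rfl⟩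
  have hg8 : 27 ≤ g := by exact_mod_cast hg20
  have hgg : 4 + g' = g := by omega
  have hgg' : (g : ℝ) = 4 + g' := by rw [← hgg]; push_cast; ring
  have hg2 : (g : ℝ) ≤ 2 * g' := by linarith
  have hg'0 : (0 : ℝ) < g' := by linarith
  have hg0 : (0 : ℝ) < g := by linarith
  have hCψ : C * (ψ n + L) ≤ g := by
    refine le_trans ?_ hg
    have : 0 ≤ C * (ψ n + L) := by positivity
    linarith
  have hCψ' : C * (ψ n + 6 * L) ≤ g' := by
    have h1 : C * (ψ n + 6 * L) ≤ C * (6 * (ψ n + L)) :=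
      mul_le_mul_of_nonneg_left (by linarith) (by linarith)
    have h2 : 0 ≤ C * (ψ n + L) := by positivity
    linarith
  have hLg' : 6 * L / g' ≤ 12 * (L / g) := by
    rw [mul_div_assoc', div_le_div_iff₀ hg'0 hg0]
    have : L * g ≤ L * (2 * g') := mul_le_mul_of_nonneg_left hg2 hL0.le
    linarith
  have hpos : 0 < Jp S φ n t := lt_of_lt_of_le (Real.exp_pos _) hp
  -- the values at the shifted places
  obtain ⟨a1, a2, a3, a4, a5⟩ := h α inferInstance φ hφ n g t I L hn hL hp hI hCψ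
  obtain ⟨b1, b2, b3, b4, b5⟩ := h α inferInstance φ hφ n g t J L hn hL hp hJ hCψ
  obtain ⟨c1, c2, c3, c4, c5⟩ := h α inferInstance φ hφ n g t (I ∪ J) L hn hL hp hIJ hCψ
  have hlp : -L ≤ Real.log (Jp S φ n t) := by
    rw [← Real.log_exp (-L)]
    exact Real.log_le_log (Real.exp_pos _) hp
  have low1 : Real.exp (-(6 * L)) ≤ Jp S φ n (shf I st t) := by
    rw [← Real.exp_log a1]
    refine Real.exp_le_exp.mpr ?_
    have := (abs_le.mp a3).2
    linarith
  have low2 : Real.exp (-(6 * L)) ≤ Jp S φ n (shf J (2 * st) t) := by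
    rw [← Real.exp_log b2]
    refine Real.exp_le_exp.mpr ?_
    have h1 := (abs_le.mp b4).1
    have h2 := (abs_le.mp b3).2
    linarith
  have hL6 : lam n ≤ 6 * L := by linarith
  -- the second differences at the shifted places
  obtain ⟨d1, d2, d3, d4, d5⟩ := h α inferInstance φ hφ n g' (shf J (2 * st) t) I (6 * L) hn hL6
    low2 (blk_shf hI hJ (by omega) (by omega)) hCψ'
  obtain ⟨e1, e2, e3, e4, e5⟩ := h α inferInstance φ hφ n g' (shf I st t) J (6 * L) hn hL6
    low1 (blk_shf hJ hI (by omega) (by omega)) hCψ'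
  have u1 : shf (I ∪ J) st t = shf I st (shf J st t) := shf_union hd st t
  have u2 : shf (I ∪ J) (2 * st) t = shf I (2 * st) (shf J (2 * st) t) := shf_union hd _ t
  rw [u1] at c1 c3 c4
  rw [u2] at c2 c4
  rw [shf_comm J I st st t] at e1 e3 e4
  rw [shf_comm J I (2 * st) st t] at e2 e4
  refine ⟨c1, ?_⟩
  have hCL : 0 ≤ C * (L / g) := by positivity
  have d4' := d4.trans (mul_le_mul_of_nonneg_left hLg' (by linarith : (0 : ℝ) ≤ C))
  have e4' := e4.trans (mul_le_mul_of_nonneg_left hLg' (by linarith : (0 : ℝ) ≤ C))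
  have e5 : C * (12 * (L / g)) = 12 * (C * (L / g)) := by ring
  rw [e5] at d4' e4'
  have e6 : 40 * C * (L / g) = 40 * (C * (L / g)) := by ring
  rw [e6]
  obtain ⟨x1, x2⟩ := abs_le.mp b4
  obtain ⟨y1, y2⟩ := abs_le.mp c4
  obtain ⟨z1, z2⟩ := abs_le.mp d4'
  obtain ⟨w1, w2⟩ := abs_le.mp e4'
  rw [abs_le]
  constructor <;> linarith

theorem sep_shf {k g g' n h : ℕ} {t : Fin k → ℕ} {I : Finset (Fin k)} (hs : Sep g n t)
    (hh : h ≤ 4) (hg : 4 + g' ≤ g) : Sep g' n (shf I h t) := by
  have hle : ∀ i, t i ≤ shf I h t i ∧ shf I h t i ≤ t i + 4 := by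
    intro i
    unfold shf
    split_ifs <;> omega
  intro i
  obtain ⟨h1, h2, h3⟩ := hs i
  have h4 := hle i
  refine ⟨by omega, by omega, fun i' hi' => ?_⟩
  have h5 := hle i'
  rcases h3 i' hi' with h6 | h6
  · left; omega
  · right; omega

/-- the times between two of the times -/
def bw {k : ℕ} (t : Fin k → ℕ) (p q : ℕ) : Finset (Fin k) := univ.filter (fun l => p ≤ t l ∧ t l ≤ q)

theorem blk_bw {k g n : ℕ} {t : Fin k → ℕ} (hg : 0 < g) (hs : Sep g n t) {i j : Fin k}
    (hij : t i ≤ t j) : Blk g n t (bw t (t i) (t j)) := by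
  refine ⟨⟨i, mem_filter.mpr ⟨mem_univ _, le_rfl, hij⟩⟩, fun l hl => ⟨(hs l).1, (hs l).2.1⟩,
    fun l hl => ⟨by have := (hs l).2.1; omega, ?_⟩⟩
  unfold bw at hl
  rw [mem_filter] at hl
  have hl' : t l < t i ∨ t j < t l := by
    by_contra hcon
    push Not at hcon
    exact hl ⟨mem_univ _, by omega, by omega⟩
  rcases hl' with h1 | h1
  · left
    intro m hm
    unfold bw at hm
    rw [mem_filter] at hm
    have hne : l ≠ i := by
      rintro rfl
      omega
    rcases (hs i).2.2 l hne with h2 | h2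
    · omega
    · omega
  · right
    intro m hm
    unfold bw at hm
    rw [mem_filter] at hm
    have hne : l ≠ j := by
      rintro rfl
      omega
    rcases (hs j).2.2 l hne with h2 | h2
    · omega
    · omega

theorem bw_self {k g n : ℕ} {t : Fin k → ℕ} (hg : 0 < g) (hs : Sep g n t) (i : Fin k) :
    bw t (t i) (t i) = {i} := by
  ext l
  unfold bw
  rw [mem_filter, mem_singleton]
  constructor
  · rintro ⟨-, h1, h2⟩
    by_contra hne
    rcases (hs i).2.2 l hne with h3 | h3 <;> omega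
  · rintro rfl
    exact ⟨mem_univ _, le_rfl, le_rfl⟩

/-- mixed differences for two of the times, the first one before the second one -/
theorem mixed_lt {ψ lam : ℕ → ℝ} {st k : ℕ} {C : ℝ}
    (hst : st ≤ 2) (hlog : ∀ n : ℕ, 2 ≤ n → Real.log n ≤ lam n)
    (hψ : ∀ n : ℕ, 2 ≤ n → Real.log n ≤ ψ n) (hC : 1 ≤ C) (h : D2 S ψ lam st k C)
    {α : Type} [LinearOrder α] {φ : Fin k → Ver → α} (hφ : ∀ i, Function.Injective (φ i))
    {n g : ℕ} {t : Fin k → ℕ} {i j : Fin k} {L : ℝ} (hn : 2 ≤ n) (hL : lam n ≤ L)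
    (hp : Real.exp (-L) ≤ Jp S φ n t) (hij : t i < t j) (hs : Sep g n t)
    (hg : 300 * C * (ψ n + L) ≤ g) :
    0 < Jp S φ n (shf {i} st (shf {j} st t)) ∧ 0 < Jp S φ n (shf {i} st t) ∧
      0 < Jp S φ n (shf {j} st t) ∧
    |Real.log (Jp S φ n (shf {i} st (shf {j} st t))) - Real.log (Jp S φ n (shf {i} st t)) -
      Real.log (Jp S φ n (shf {j} st t)) + Real.log (Jp S φ n t)| ≤ 600 * C * (L / g) := by
  have hn' : (2 : ℝ) ≤ n := by exact_mod_cast hn
  have hlog0 : (0.69 : ℝ) ≤ Real.log n := by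
    have h1 : Real.log 2 ≤ Real.log n := Real.log_le_log (by norm_num) hn'
    have := Real.log_two_gt_d9
    linarith
  have k1 := hlog n hn
  have k2 := hψ n hn
  have hψL : 0 < ψ n + L := by linarith
  have hCψL : 0 < C * (ψ n + L) := by positivity
  have hL0 : 0 < L := by linarith
  have hg20 : 27 ≤ (g : ℝ) := by
    have : 300 * 1 * (0.69 + 0.69) ≤ 300 * C * (ψ n + L) :=
      mul_le_mul (by linarith) (by linarith) (by norm_num) (by linarith)
    linarith
  have hg27 : 27 ≤ g := by exact_mod_cast hg20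
  have hg0 : 0 < g := by omega
  have hg0' : (0 : ℝ) < g := by linarith
  have hne : i ≠ j := by
    rintro rfl
    omega
  have hBi := blk_bw hg0 hs (le_refl (t i))
  have hBj := blk_bw hg0 hs (le_refl (t j))
  rw [bw_self hg0 hs i] at hBi
  rw [bw_self hg0 hs j] at hBj
  have hC1 : C * (ψ n + L) ≤ g := by linarith
  obtain ⟨a1, a2, a3, a4, a5⟩ := h α inferInstance φ hφ n g t {i} L hn hL hp hBi hC1
  obtain ⟨b1, b2, b3, b4, b5⟩ := h α inferInstance φ hφ n g t {j} L hn hL hp hBj hC1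
  -- the times between
  obtain ⟨M, hM⟩ : ∃ M : Finset (Fin k), M = univ.filter (fun l => t i < t l ∧ t l < t j) :=
    ⟨_, rfl⟩
  have hall : bw t (t i) (t j) = ({i} ∪ M) ∪ {j} := by
    ext l
    unfold bw
    rw [mem_filter, mem_union, mem_union, mem_singleton, mem_singleton, hM, mem_filter]
    constructor
    · rintro ⟨-, h1, h2⟩
      by_cases hli : l = i
      · exact Or.inl (Or.inl hli)
      by_cases hlj : l = j
      · exact Or.inr hlj
      left; right
      refine ⟨mem_univ _, ?_, ?_⟩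
      · rcases (hs i).2.2 l hli with h3 | h3 <;> omega
      · rcases (hs j).2.2 l hlj with h3 | h3 <;> omega
    · rintro ((rfl | h1) | rfl)
      · exact ⟨mem_univ _, le_rfl, hij.le⟩
      · exact ⟨mem_univ _, h1.2.1.le, h1.2.2.le⟩
      · exact ⟨mem_univ _, hij.le, le_rfl⟩
  have hBall := blk_bw hg0 hs hij.le
  rw [hall] at hBall
  have hiM : i ∉ M := by
    rw [hM, mem_filter]
    rintro ⟨-, h1, -⟩
    omega
  have hjM : j ∉ M := by
    rw [hM, mem_filter]
    rintro ⟨-, -, h1⟩
    omega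
  rcases Finset.eq_empty_or_nonempty M with hE | hE
  · rw [hE, union_empty] at hBall
    obtain ⟨h1, h2⟩ := adj_mixed hst hlog hψ hC h hφ hn hL hp
      (Finset.disjoint_singleton.mpr hne) hBi hBj hBall (by linarith)
    refine ⟨h1, a1, b1, h2.trans ?_⟩
    have : 0 ≤ C * (L / g) := by positivity
    linarith
  · -- the first and the last time between
    obtain ⟨p, hp1, hmin⟩ := Finset.exists_min_image M t hE
    obtain ⟨q, hq1, hmax⟩ := Finset.exists_max_image M t hE
    have hp2 : t i < t p ∧ t p < t j := by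
      rw [hM, mem_filter] at hp1
      exact hp1.2
    have hq2 : t i < t q ∧ t q < t j := by
      rw [hM, mem_filter] at hq1
      exact hq1.2
    have hMbw : bw t (t p) (t q) = M := by
      ext l
      unfold bw
      rw [mem_filter]
      constructor
      · rintro ⟨-, h1, h2⟩
        rw [hM, mem_filter]
        exact ⟨mem_univ _, by omega, by omega⟩
      · intro hl
        exact ⟨mem_univ _, hmin l hl, hmax l hl⟩
    have hIM : bw t (t i) (t q) = {i} ∪ M := by
      ext l
      unfold bw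
      rw [mem_filter, mem_union, mem_singleton]
      constructor
      · rintro ⟨-, h1, h2⟩
        by_cases hli : l = i
        · exact Or.inl hli
        right
        rw [hM, mem_filter]
        refine ⟨mem_univ _, ?_, by omega⟩
        rcases (hs i).2.2 l hli with h3 | h3 <;> omega
      · rintro (rfl | hl)
        · exact ⟨mem_univ _, le_rfl, hq2.1.le⟩
        · have h1 := hmax l hl
          rw [hM, mem_filter] at hl
          exact ⟨mem_univ _, hl.2.1.le, h1⟩
    have hMJ : bw t (t p) (t j) = M ∪ {j} := by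
      ext l
      unfold bw
      rw [mem_filter, mem_union, mem_singleton]
      constructor
      · rintro ⟨-, h1, h2⟩
        by_cases hlj : l = j
        · exact Or.inr hlj
        left
        rw [hM, mem_filter]
        refine ⟨mem_univ _, by omega, ?_⟩
        rcases (hs j).2.2 l hlj with h3 | h3 <;> omega
      · rintro (hl | rfl)
        · have h1 := hmin l hl
          rw [hM, mem_filter] at hl
          exact ⟨mem_univ _, h1, hl.2.2.le⟩
        · exact ⟨mem_univ _, hp2.2.le, le_rfl⟩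
    have hBM := blk_bw hg0 hs (hmin q hq1)
    rw [hMbw] at hBM
    have hBIM := blk_bw hg0 hs hq2.1.le
    rw [hIM] at hBIM
    have hBMJ := blk_bw hg0 hs hp2.2.le
    rw [hMJ] at hBMJ
    have hdIMJ : Disjoint ({i} ∪ M) {j} := by
      rw [Finset.disjoint_singleton_right, mem_union, mem_singleton]
      rintro (h1 | h1)
      · exact hne h1.symm
      · exact hjM h1
    have hdMJ : Disjoint M {j} := by
      rw [Finset.disjoint_singleton_right]
      exact hjM
    have hdIM : Disjoint {i} M := by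
      rw [Finset.disjoint_singleton_left]
      exact hiM
    obtain ⟨c1, c2⟩ := adj_mixed hst hlog hψ hC h hφ hn hL hp hdIMJ hBIM hBj hBall (by linarith)
    -- the same for the shifted times
    obtain ⟨g', hg'⟩ : ∃ g' : ℕ, g' = g - 4 := ⟨_, rfl⟩
    have hgg : 4 + g' = g := by omega
    have hgg' : (g : ℝ) = 4 + g' := by rw [← hgg]; push_cast; ring
    have hg2 : (g : ℝ) ≤ 2 * g' := by linarith
    have hg'0 : (0 : ℝ) < g' := by linarith
    have hlp : -L ≤ Real.log (Jp S φ n t) := by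
      rw [← Real.log_exp (-L)]
      exact Real.log_le_log (Real.exp_pos _) hp
    have low1 : Real.exp (-(6 * L)) ≤ Jp S φ n (shf {i} st t) := by
      rw [← Real.exp_log a1]
      refine Real.exp_le_exp.mpr ?_
      have := (abs_le.mp a3).2
      linarith
    obtain ⟨d1, d2⟩ := adj_mixed (I := M) (J := {j}) (g := g') (L := 6 * L)
      (t := shf {i} st t) hst hlog hψ hC h hφ hn (by linarith) low1 hdMJ
      (blk_shf hBM hBi (by omega) (by omega)) (blk_shf hBj hBi (by omega) (by omega))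
      (blk_shf hBMJ hBi (by omega) (by omega)) (by
        have h1 : 20 * C * (ψ n + 6 * L) ≤ 20 * C * (6 * (ψ n + L)) :=
          mul_le_mul_of_nonneg_left (by linarith) (by linarith)
        linarith)
    have hLg' : 6 * L / g' ≤ 12 * (L / g) := by
      rw [mul_div_assoc', div_le_div_iff₀ hg'0 hg0']
      have : L * g ≤ L * (2 * g') := mul_le_mul_of_nonneg_left hg2 hL0.le
      linarith
    -- the shifts
    have u1 : shf ({i} ∪ M) st t = shf M st (shf {i} st t) := by
      rw [shf_union hdIM, shf_comm]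
    have u2 : shf ({i} ∪ M) st (shf {j} st t) = shf M st (shf {j} st (shf {i} st t)) := by
      rw [shf_union hdIM, shf_comm {i} M, shf_comm {i} {j}]
    rw [u1, u2] at c2
    have u3 : shf {i} st (shf {j} st t) = shf {j} st (shf {i} st t) := shf_comm _ _ _ _ _
    -- positivity
    have hpos3 := (h α inferInstance φ hφ n g' (shf {i} st t) {j} (6 * L) hn (by linarith) low1
      (blk_shf hBj hBi (by omega) (by omega)) (by
        have h1 : C * (ψ n + 6 * L) ≤ C * (6 * (ψ n + L)) :=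
          mul_le_mul_of_nonneg_left (by linarith) (by linarith)
        linarith)).1
    refine ⟨by rw [u3]; exact hpos3, a1, b1, ?_⟩
    rw [u3]
    have d3 := d2.trans (mul_le_mul_of_nonneg_left hLg' (by linarith : (0 : ℝ) ≤ 40 * C))
    have e1 : 40 * C * (12 * (L / g)) = 480 * (C * (L / g)) := by ring
    rw [e1] at d3
    have e2 : 40 * C * (L / g) = 40 * (C * (L / g)) := by ring
    rw [e2] at c2
    have e3 : 600 * C * (L / g) = 600 * (C * (L / g)) := by ring
    rw [e3]
    have hCL : 0 ≤ C * (L / g) := by positivity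
    obtain ⟨x1, x2⟩ := abs_le.mp c2
    obtain ⟨y1, y2⟩ := abs_le.mp d3
    rw [abs_le]
    constructor <;> linarith

/-- mixed differences for two of the times -/
theorem mixed {ψ lam : ℕ → ℝ} {st k : ℕ} {C : ℝ}
    (hst : st ≤ 2) (hlog : ∀ n : ℕ, 2 ≤ n → Real.log n ≤ lam n)
    (hψ : ∀ n : ℕ, 2 ≤ n → Real.log n ≤ ψ n) (hC : 1 ≤ C) (h : D2 S ψ lam st k C)
    {α : Type} [LinearOrder α] {φ : Fin k → Ver → α} (hφ : ∀ i, Function.Injective (φ i))
    {n g : ℕ} {t : Fin k → ℕ} {i j : Fin k} {L : ℝ} (hn : 2 ≤ n) (hL : lam n ≤ L)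
    (hp : Real.exp (-L) ≤ Jp S φ n t) (hij : i ≠ j) (hs : Sep g n t)
    (hg : 300 * C * (ψ n + L) ≤ g) :
    0 < Jp S φ n (shf {i} st (shf {j} st t)) ∧ 0 < Jp S φ n (shf {i} st t) ∧
      0 < Jp S φ n (shf {j} st t) ∧
    |Real.log (Jp S φ n (shf {i} st (shf {j} st t))) - Real.log (Jp S φ n (shf {i} st t)) -
      Real.log (Jp S φ n (shf {j} st t)) + Real.log (Jp S φ n t)| ≤ 600 * C * (L / g) := by
  rcases lt_trichotomy (t i) (t j) with h1 | h1 | h1
  · exact mixed_lt hst hlog hψ hC h hφ hn hL hp h1 hs hg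
  · exfalso
    have hn' : (2 : ℝ) ≤ n := by exact_mod_cast hn
    have hlog0 : (0.69 : ℝ) ≤ Real.log n := by
      have h1 : Real.log 2 ≤ Real.log n := Real.log_le_log (by norm_num) hn'
      have := Real.log_two_gt_d9
      linarith
    have k1 := hlog n hn
    have k2 := hψ n hn
    have hg20 : 1 ≤ (g : ℝ) := by
      have : 300 * 1 * (0.69 + 0.69) ≤ 300 * C * (ψ n + L) :=
        mul_le_mul (by linarith) (by linarith) (by norm_num) (by linarith)
      linarith
    have hg1 : 1 ≤ g := by exact_mod_cast hg20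
    rcases (hs i).2.2 j hij.symm with h2 | h2 <;> omega
  · obtain ⟨a1, a2, a3, a4⟩ := mixed_lt hst hlog hψ hC h hφ hn hL hp h1 hs hg
    rw [shf_comm {i} {j}]
    refine ⟨a1, a3, a2, ?_⟩
    have e : ∀ x y z w : ℝ, x - y - z + w = x - z - y + w := fun x y z w => by ring
    rw [e]
    exact a4

end

end Pool.Agent.U954.GE.Jt
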