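import Pool.Agent.U954.GE.Mx

/-!
# Several rankings: numbers of walks, shifts of blocks and mixed differences
-/

set_option autoImplicit false
set_option linter.unusedVariables false

namespace Pool.Agent.U954.GE.Jt

open Finset Pool.Agent.N929.EG Pool.Agent.N169.EG Pool.Agent.U954.GE
open scoped Classical

variable {Ver : Type} {X : Geo Ver} {A : Ver → Ver → Prop}

noncomputable section

variable {S : ∀ n : ℕ, Set (Fin (n + 1) → Ver)} {H : Set Ver}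

/-- the differences along a block -/
theorem count_block (Z : Rul X A) (hS : Cla X A H S) {ψ lam : ℕ → ℝ} {st k r : ℕ}
    (hr : 1 ≤ r) (hst : st ≤ 2) (hlog : ∀ n : ℕ, 2 ≤ n → Real.log n ≤ lam n)
    (hψ : ∀ n : ℕ, 2 ≤ n → Real.log n ≤ ψ n)
    (hc : ∀ n : ℕ, 2 ≤ n → (0 : ℝ) < ((S n).ncard : ℝ)) (gen : GenP S ψ lam st k r) :
    ∃ C : ℝ, 0 < C ∧ ∀ (α : Type) (_ : LinearOrder α)
    (φ : Fin k → Ver → α), (∀ i, Function.Injective (φ i)) → ∀ (n g : ℕ) (t : Fin k → ℕ)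
    (I : Finset (Fin k)) (L : ℝ), 2 ≤ n → lam n ≤ L →
    Real.exp (-L) * ((S n).ncard : ℝ) ≤ (NT S φ n t : ℝ) → Blk g n t I →
    C * (ψ n + L) ≤ g →
    (∀ i, i ≤ r → 0 < NT S φ n (shf I (st * i) t)) ∧
    |df r (fun i => Real.log (NT S φ n (shf I (st * i) t) : ℝ))| ≤
      C * Real.sqrt (L / g) ^ r := by
  obtain ⟨C, hC, h⟩ := block_diff Z hS hst hlog hψ gen
  refine ⟨C, by linarith, fun α _ φ hφ n g t I L hn hL hp hsep hg => ?_⟩
  have hcn := hc n hn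
  obtain ⟨h1, h2⟩ := h α inferInstance φ hφ n g t I L hn hL (by
    rw [jp_eq Z hS, le_div_iff₀ hcn]
    exact hp) hsep hg
  have hpos : ∀ i, i ≤ r → (0 : ℝ) < (NT S φ n (shf I (st * i) t) : ℝ) := by
    intro i hi
    have h3 := h1 i hi
    rw [jp_eq Z hS] at h3
    exact (div_pos_iff_of_pos_right hcn).mp h3
  refine ⟨fun i hi => by exact_mod_cast hpos i hi, ?_⟩
  have e3 : df r (fun i => Real.log (NT S φ n (shf I (st * i) t) : ℝ)) =
      df r (fun i => Real.log (Jp S φ n (shf I (st * i) t))) := by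
    rw [← df_const r hr (fun i => Real.log (Jp S φ n (shf I (st * i) t)))
      (Real.log ((S n).ncard : ℝ))]
    unfold df
    refine Finset.sum_congr rfl fun i hi => ?_
    rw [Finset.mem_range] at hi
    simp only
    rw [jp_eq Z hS, Real.log_div (hpos i (by omega)).ne' hcn.ne']
    ring
  rw [e3]
  exact h2

/-- the mixed differences -/
theorem count_mixed (Z : Rul X A) (hS : Cla X A H S) {ψ lam : ℕ → ℝ} {st k : ℕ}
    (hst : st ≤ 2) (hlog : ∀ n : ℕ, 2 ≤ n → Real.log n ≤ lam n)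
    (hψ : ∀ n : ℕ, 2 ≤ n → Real.log n ≤ ψ n)
    (hc : ∀ n : ℕ, 2 ≤ n → (0 : ℝ) < ((S n).ncard : ℝ))
    (gen : ∀ r : ℕ, 1 ≤ r → GenP S ψ lam st k r) :
    ∃ C : ℝ, 0 < C ∧ ∀ (α : Type) (_ : LinearOrder α)
    (φ : Fin k → Ver → α), (∀ i, Function.Injective (φ i)) → ∀ (n g : ℕ) (t : Fin k → ℕ)
    (i j : Fin k) (L : ℝ), i ≠ j → 2 ≤ n → lam n ≤ L →
    Real.exp (-L) * ((S n).ncard : ℝ) ≤ (NT S φ n t : ℝ) → Sep g n t →
    C * (ψ n + L) ≤ g →
    0 < NT S φ n (shf {i} st (shf {j} st t)) ∧ 0 < NT S φ n (shf {i} st t) ∧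
      0 < NT S φ n (shf {j} st t) ∧
    |Real.log (NT S φ n (shf {i} st (shf {j} st t)) : ℝ) - Real.log (NT S φ n (shf {i} st t) : ℝ) -
      Real.log (NT S φ n (shf {j} st t) : ℝ) + Real.log (NT S φ n t : ℝ)| ≤ C * (L / g) := by
  obtain ⟨C, hC, h⟩ := d2_of Z hS hst hlog hψ gen
  refine ⟨600 * C, by linarith, fun α _ φ hφ n g t i j L hij hn hL hp hsep hg => ?_⟩
  have hcn := hc n hn
  have hn' : (2 : ℝ) ≤ n := by exact_mod_cast hn
  have hlog0 : (0.69 : ℝ) ≤ Real.log n := by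
    have h1 : Real.log 2 ≤ Real.log n := Real.log_le_log (by norm_num) hn'
    have := Real.log_two_gt_d9
    linarith
  have k1 := hlog n hn
  have k2 := hψ n hn
  have hψL : 0 < C * (ψ n + L) := mul_pos (by linarith) (by linarith)
  have hp' : Real.exp (-L) ≤ Jp S φ n t := by
    rw [jp_eq Z hS, le_div_iff₀ hcn]
    exact hp
  obtain ⟨a1, a2, a3, a4⟩ := mixed hst hlog hψ hC h hφ hn hL hp' hij hsep (by linarith)
  have hp0 : 0 < Jp S φ n t := lt_of_lt_of_le (Real.exp_pos _) hp'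
  have key : ∀ t' : Fin k → ℕ, 0 < Jp S φ n t' → (0 : ℝ) < (NT S φ n t' : ℝ) ∧
      Real.log (Jp S φ n t') = Real.log (NT S φ n t' : ℝ) - Real.log ((S n).ncard : ℝ) := by
    intro t' h1
    rw [jp_eq Z hS] at h1 ⊢
    have h2 := (div_pos_iff_of_pos_right hcn).mp h1
    exact ⟨h2, Real.log_div h2.ne' hcn.ne'⟩
  obtain ⟨b0, c0⟩ := key _ hp0
  obtain ⟨b1, c1⟩ := key _ a1
  obtain ⟨b2, c2⟩ := key _ a2
  obtain ⟨b3, c3⟩ := key _ a3
  rw [c0, c1, c2, c3] at a4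
  refine ⟨by exact_mod_cast b1, by exact_mod_cast b2, by exact_mod_cast b3, ?_⟩
  refine le_trans (le_of_eq ?_) a4
  congr 1
  ring

end

end Pool.Agent.U954.GE.Jt
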