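import Pool.Agent.U954.GE.FamW
import Pool.Agent.U954.GE.Lg

/-!
# Functions of the positions, and walks in a domain
-/

set_option autoImplicit false
set_option linter.unusedVariables false

namespace Pool.Agent.U954.GE

open Finset Pool.Agent.N929.EG Pool.Agent.N169.EG
open scoped Classical

variable {Ver : Type} {X : Geo Ver} {A : Ver → Ver → Prop} {Z : Rul X A}

theorem vx_lo {n k : ℕ} {w : List Ver} {q : List Ver × List Ver} {w' : List Ver}
    (h : Bl Z n k w q w') {i : ℕ} (hi : i ≤ k) : vx X w' i = vx X w i := by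
  obtain ⟨-, -, hT, L, R, e, e', hk⟩ := h
  obtain ⟨⟨p, r, U, U', h1, h2, -, -⟩, -⟩ := Z.pair _ _ hT
  have g1 : w = (L ++ [p]) ++ (U ++ [r] ++ R) := by rw [e, h1]; simp
  have g2 : w' = (L ++ [p]) ++ (U' ++ [r] ++ R) := by rw [e', h2]; simp
  have hl : i < (L ++ [p]).length := by
    rw [List.length_append, List.length_singleton]
    omega
  unfold vx
  rw [g1, g2, List.getElem?_append_left hl, List.getElem?_append_left hl]

theorem vx_hi (hs : Z.s = 2) {n k : ℕ} {w : List Ver} {q : List Ver × List Ver} {w' : List Ver}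
    (h : Bl Z n k w q w') {i : ℕ} (hi : k + (Z.k - 1) ≤ i) : vx X w' (i + 2) = vx X w i := by
  obtain ⟨-, -, hT, L, R, e, e', hk⟩ := h
  obtain ⟨l1, l2⟩ := Z.len _ _ hT
  obtain ⟨⟨p, r, U, U', h1, h2, -, -⟩, -⟩ := Z.pair _ _ hT
  rw [h1] at l1
  rw [h2] at l2
  simp only [List.length_cons, List.length_append, List.length_nil] at l1 l2
  have g1 : w = (L ++ [p] ++ U) ++ (r :: R) := by rw [e, h1]; simp
  have g2 : w' = (L ++ [p] ++ U') ++ (r :: R) := by rw [e', h2]; simp
  have m1 : (L ++ [p] ++ U).length = k + 1 + U.length := by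
    simp only [List.length_append, List.length_cons, List.length_nil]
    omega
  have m2 : (L ++ [p] ++ U').length = k + 1 + U'.length := by
    simp only [List.length_append, List.length_cons, List.length_nil]
    omega
  unfold vx
  rw [g1, g2, List.getElem?_append_right (by omega), List.getElem?_append_right (by omega), m1, m2]
  congr 2
  omega

theorem vx_mem {n : ℕ} {w : List Ver} (hw : w ∈ Kw X A n) (Z : Rul X A) {t : ℕ} (ht : t ≤ n) :
    vx X w t ∈ w := by
  have hl := ((mem_K Z).mp hw).1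
  unfold vx
  rw [List.getElem?_eq_getElem (show t < w.length by omega)]
  exact List.getElem_mem _

theorem vx_box {n : ℕ} {w : List Ver} (hw : w ∈ Kw X A n) (Z : Rul X A) {t : ℕ} (ht : t ≤ n) :
    vx X w t ∈ X.bx X.o n := by
  obtain ⟨hl, hwalk⟩ := (mem_K Z).mp hw
  exact walk_box Z hl hwalk _ (vx_mem hw Z ht)

theorem vx_inj {n : ℕ} {w : List Ver} (hw : w ∈ Kw X A n) (Z : Rul X A) {s t : ℕ} (hs : s ≤ n)
    (ht : t ≤ n) (h : vx X w s = vx X w t) : s = t := by
  obtain ⟨hl, hwalk⟩ := (mem_K Z).mp hw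
  unfold vx at h
  rw [List.getElem?_eq_getElem (show t < w.length by omega),
    List.getElem?_eq_getElem (show s < w.length by omega)] at h
  simp only [Option.getD_some] at h
  exact (List.Nodup.getElem_inj_iff hwalk.2.1).mp h

/-- the walk is in `D` -/
def InL (D : Set Ver) (w : List Ver) : Prop := ∀ x ∈ w, x ∈ D

/-- the places in `D` -/
def RD (D : Set Ver) : Set (List Ver × List Ver) := {q | ∀ x ∈ q.1 ++ q.2, x ∈ D}

theorem inL_vx {D : Set Ver} {n : ℕ} {w : List Ver} (hw : w ∈ Kw X A n) (Z : Rul X A) :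
    InL D w ↔ ∀ t, t ≤ n → vx X w t ∈ D := by
  have hl := ((mem_K Z).mp hw).1
  constructor
  · intro h t ht
    exact h _ (vx_mem hw Z ht)
  · intro h x hx
    obtain ⟨j, hj, rfl⟩ := List.getElem_of_mem hx
    have h1 := h j (by omega)
    unfold vx at h1
    rw [List.getElem?_eq_getElem hj] at h1
    exact h1

theorem inL_iff {D : Set Ver} {n k : ℕ} {w : List Ver} {q : List Ver × List Ver} {w' : List Ver}
    (h : Bl Z n k w q w') (hq : q ∈ RD D) : InL D w' ↔ InL D w := by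
  obtain ⟨-, -, hT, L, R, e, e', hk⟩ := h
  have h1 : ∀ x ∈ q.1, x ∈ D := fun x hx => hq x (by simp [hx])
  have h2 : ∀ x ∈ q.2, x ∈ D := fun x hx => hq x (by simp [hx])
  unfold InL
  rw [e, e']
  simp only [List.mem_append]
  constructor
  · rintro h x ((hx | hx) | hx)
    · exact h x (Or.inl (Or.inl hx))
    · exact h1 x hx
    · exact h x (Or.inr hx)
  · rintro h x ((hx | hx) | hx)
    · exact h x (Or.inl (Or.inl hx))
    · exact h2 x hx
    · exact h x (Or.inr hx)

theorem dd_dom (hU : ∀ U U', Z.T U U' → ∀ x ∈ U, x ∈ U') (D : Set Ver) :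
    Dd Z (RD D) (InL D) := by
  intro w q hw hT hq x hx
  rw [List.mem_append] at hx
  rcases hx with hx | hx
  · exact hw x (hq x (hU _ _ hT x hx))
  · exact hw x (hq x hx)

theorem dd_univ : Dd Z (RD Set.univ) (InL Set.univ) := fun _ _ _ _ _ _ _ => Set.mem_univ _

noncomputable section

/-- a function of the positions outside the windows -/
def obF (X : Geo Ver) (p m l : ℕ) (Ψ : (ℕ → Ver) → (ℕ → Ver) → (ℕ → Ver) → ℝ) (q : ℕ)
    (w : List Ver) : ℝ :=
  Ψ (fun i => vx X w (min i p)) (fun i => vx X w (q + min i m))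
    (fun i => vx X w (w.length - 1 - l + min i l))

theorem mk_ob (hs : Z.s = 2) (P : Set (List Ver × List Ver)) (p m l : ℕ)
    (Ψ : (ℕ → Ver) → (ℕ → Ver) → (ℕ → Ver) → ℝ) : Mk (sy Z hs) P p m l (obF X p m l Ψ) := by
  constructor
  · intro n k q w s w' hB _ h1 h2 h3
    have hB' : Bl Z n k w s w' := hB
    have h2' : k + (Z.k - 1) ≤ q := h2
    have l1 : w.length = n + 1 := ((mem_K Z).mp hB'.1).1
    have l2 : w'.length = n + 2 + 1 := ((mem_K Z).mp hB'.2.1).1
    unfold obF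
    have e1 : (fun i => vx X w' (min i p)) = fun i => vx X w (min i p) := by
      funext i
      exact vx_lo hB' (by omega)
    have e2 : (fun i => vx X w' (q + 2 + min i m)) = fun i => vx X w (q + min i m) := by
      funext i
      rw [show q + 2 + min i m = q + min i m + 2 by ring]
      exact vx_hi hs hB' (by omega)
    have e3 : (fun i => vx X w' (w'.length - 1 - l + min i l)) =
        fun i => vx X w (w.length - 1 - l + min i l) := by
      funext i
      rw [l1, l2, show n + 2 + 1 - 1 - l + min i l = n + 1 - 1 - l + min i l + 2 by omega]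
      exact vx_hi hs hB' (by omega)
    rw [e1, e2, e3]
  · intro n k q w s w' hB _ h1 h2 h3
    have hB' : Bl Z n k w s w' := hB
    have h3' : k + (Z.k - 1) + l ≤ n := h3
    have l1 : w.length = n + 1 := ((mem_K Z).mp hB'.1).1
    have l2 : w'.length = n + 2 + 1 := ((mem_K Z).mp hB'.2.1).1
    unfold obF
    have e1 : (fun i => vx X w' (min i p)) = fun i => vx X w (min i p) := by
      funext i
      exact vx_lo hB' (by omega)
    have e2 : (fun i => vx X w' (q + min i m)) = fun i => vx X w (q + min i m) := by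
      funext i
      exact vx_lo hB' (by omega)
    have e3 : (fun i => vx X w' (w'.length - 1 - l + min i l)) =
        fun i => vx X w (w.length - 1 - l + min i l) := by
      funext i
      rw [l1, l2, show n + 2 + 1 - 1 - l + min i l = n + 1 - 1 - l + min i l + 2 by omega]
      exact vx_hi hs hB' (by omega)
    rw [e1, e2, e3]

/-- a function of the positions outside the windows, for the walks in `D` -/
def dmF (X : Geo Ver) (D : Set Ver) (p m l : ℕ) (Ψ : (ℕ → Ver) → (ℕ → Ver) → (ℕ → Ver) → ℝ)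
    (q : ℕ) (w : List Ver) : ℝ :=
  if InL D w then obF X p m l Ψ q w else 0

theorem mk_dm (hs : Z.s = 2) (D : Set Ver) (p m l : ℕ)
    (Ψ : (ℕ → Ver) → (ℕ → Ver) → (ℕ → Ver) → ℝ) :
    Mk (sy Z hs) (RD D) p m l (dmF X D p m l Ψ) := by
  have h := mk_ob (Z := Z) hs (RD D) p m l Ψ
  constructor
  · intro n k q w s w' hB hq h1 h2 h3
    unfold dmF
    rw [h.lo n k q w s w' hB hq h1 h2 h3]
    by_cases hd : InL D w
    · rw [if_pos hd, if_pos ((inL_iff (Z := Z) hB hq).mpr hd)]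
    · rw [if_neg hd, if_neg (fun hc => hd ((inL_iff (Z := Z) hB hq).mp hc))]
  · intro n k q w s w' hB hq h1 h2 h3
    unfold dmF
    rw [h.hi n k q w s w' hB hq h1 h2 h3]
    by_cases hd : InL D w
    · rw [if_pos hd, if_pos ((inL_iff (Z := Z) hB hq).mpr hd)]
    · rw [if_neg hd, if_neg (fun hc => hd ((inL_iff (Z := Z) hB hq).mp hc))]

theorem dmF_01 {D : Set Ver} {p m l : ℕ}
    {Ψ : (ℕ → Ver) → (ℕ → Ver) → (ℕ → Ver) → ℝ} (h : ∀ x y z, 0 ≤ Ψ x y z ∧ Ψ x y z ≤ 1)
    (q : ℕ) (w : List Ver) : 0 ≤ dmF X D p m l Ψ q w ∧ dmF X D p m l Ψ q w ≤ 1 := by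
  unfold dmF
  split_ifs
  · exact h _ _ _
  · exact ⟨le_rfl, zero_le_one⟩

theorem dmF_D {D : Set Ver} {p m l : ℕ}
    {Ψ : (ℕ → Ver) → (ℕ → Ver) → (ℕ → Ver) → ℝ} (q : ℕ) (w : List Ver)
    (h : dmF X D p m l Ψ q w ≠ 0) : InL D w := by
  unfold dmF at h
  by_cases hd : InL D w
  · exact hd
  · rw [if_neg hd] at h
    exact absurd rfl h

/-! ### highest sites -/

/-- the sites of rank at most the ones of the `z i`, in `H` -/
def Dt {α : Type} [LinearOrder α] {k : ℕ} (H : Set Ver) (φ : Fin k → Ver → α)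
    (z : Fin k → Ver) : Set Ver := {v | v ∈ H ∧ ∀ i, φ i v ≤ φ i (z i)}

/-- the function on words, before the restriction to `Dt` -/
def Pt {k : ℕ} (Ψ : (ℕ → Ver) → (ℕ → Ver) → (ℕ → Ver) → ℝ)
    (z : Fin k → Ver) (x y u : ℕ → Ver) : ℝ :=
  if ∀ i, (∃ j, x j = z i) ∨ (∃ j, y j = z i) ∨ (∃ j, u j = z i) then Ψ x y u else 0

/-- the values of the `z i` -/
def Zt (X : Geo Ver) (n k : ℕ) : Finset (Fin k → Ver) :=
  Fintype.piFinset (fun _ => X.bx X.o n)

theorem Zt_card {d : ℝ} (hd : ∀ n : ℕ, 2 ≤ n → (X.g n : ℝ) ≤ Real.exp (d * Real.log n)) {n k : ℕ}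
    (hn : 2 ≤ n) : ((Zt X n k).card : ℝ) ≤ Real.exp (d * k * Real.log n) := by
  have h1 : (Zt X n k).card = (X.bx X.o n).card ^ k := by
    unfold Zt
    rw [Fintype.card_piFinset_const]
  have h2 : ((X.bx X.o n).card : ℝ) ≤ Real.exp (d * Real.log n) := by
    refine le_trans ?_ (hd n hn)
    exact_mod_cast X.card_bx _ _
  rw [h1]
  push_cast
  calc ((X.bx X.o n).card : ℝ) ^ k ≤ Real.exp (d * Real.log n) ^ k := by gcongr
    _ = _ := by rw [← Real.exp_nat_mul]; congr 1; ring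

/-- the time `t` is in the parts -/
def InP (n a m b s t : ℕ) : Prop := t ≤ a ∨ (s ≤ t ∧ t ≤ s + m) ∨ (n - b ≤ t ∧ t ≤ n)

/-- the walk is at its highest site at time `t` -/
def Tp {α : Type} [LinearOrder α] (X : Geo Ver) (φ : Ver → α) (n : ℕ) (w : List Ver) (t : ℕ) :
    Prop := t ≤ n ∧ ∀ u, u ≤ n → φ (vx X w u) ≤ φ (vx X w t)

/-- the walk is in `H` and the highest sites are in the parts -/
def Et {α : Type} [LinearOrder α] {k : ℕ} (X : Geo Ver) (H : Set Ver) (φ : Fin k → Ver → α)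
    (n a m b s : ℕ) (w : List Ver) : Prop :=
  InL H w ∧ ∀ i, ∃ t, InP n a m b s t ∧ Tp X (φ i) n w t

theorem sum_t {α : Type} [LinearOrder α] (Z : Rul X A) {k : ℕ} (H : Set Ver) (φ : Fin k → Ver → α)
    (hφ : ∀ i, Function.Injective (φ i)) {n a m b s : ℕ} (ha : a ≤ n) (hs : s + m ≤ n) (hb : b ≤ n)
    (Ψ : (ℕ → Ver) → (ℕ → Ver) → (ℕ → Ver) → ℝ) {w : List Ver} (hw : w ∈ Kw X A n) :
    ∑ z ∈ Zt X n k, dmF X (Dt H φ z) a m b (Pt Ψ z) s w =
      if Et X H φ n a m b s w then obF X a m b Ψ s w else 0 := by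
  have hl : w.length = n + 1 := ((mem_K Z).mp hw).1
  -- the highest sites
  have hmax : ∀ i : Fin k, ∃ t, t ≤ n ∧ ∀ u, u ≤ n → φ i (vx X w u) ≤ φ i (vx X w t) := by
    intro i
    obtain ⟨t, ht1, ht2⟩ := Finset.exists_max_image (Finset.range (n + 1))
      (fun u => φ i (vx X w u)) ⟨0, Finset.mem_range.mpr (by omega)⟩
    exact ⟨t, by rw [Finset.mem_range] at ht1; omega, fun u hu =>
      ht2 u (Finset.mem_range.mpr (by omega))⟩
  choose T hT1 hT2 using hmax
  obtain ⟨z, hz⟩ : ∃ z : Fin k → Ver, ∀ i, z i = vx X w (T i) := ⟨_, fun _ => rfl⟩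
  have hzmem : z ∈ Zt X n k := by
    unfold Zt
    rw [Fintype.mem_piFinset]
    intro i
    rw [hz]
    exact vx_box hw Z (hT1 i)
  rw [Finset.sum_eq_single z]
  · by_cases hH : InL H w
    · have hin : InL (Dt H φ z) w := by
        rw [inL_vx hw Z] at hH ⊢
        exact fun t ht => ⟨hH t ht, fun i => by
          rw [hz]
          exact hT2 i t ht⟩
      unfold dmF
      rw [if_pos hin]
      unfold obF Pt
      have hiff : (∀ i, (∃ j, vx X w (min j a) = z i) ∨ (∃ j, vx X w (s + min j m) = z i) ∨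
          (∃ j, vx X w (w.length - 1 - b + min j b) = z i)) ↔ Et X H φ n a m b s w := by
        unfold Et
        rw [and_iff_right hH]
        refine forall_congr' fun i => ?_
        have htop : ∀ t, t ≤ n → (Tp X (φ i) n w t ↔ vx X w t = z i) := by
          intro t ht
          unfold Tp
          constructor
          · rintro ⟨-, h1⟩
            have h2 := h1 (T i) (hT1 i)
            rw [hz]
            exact hφ i (le_antisymm (hT2 i t ht) h2)
          · intro h1
            refine ⟨ht, fun u hu => ?_⟩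
            rw [h1, hz]
            exact hT2 i u hu
        constructor
        · rintro (⟨j, hj⟩ | ⟨j, hj⟩ | ⟨j, hj⟩)
          · exact ⟨min j a, Or.inl (min_le_right _ _), (htop _ (by omega)).mpr hj⟩
          · exact ⟨s + min j m, Or.inr (Or.inl ⟨by omega, by omega⟩), (htop _ (by omega)).mpr hj⟩
          · rw [hl] at hj
            exact ⟨n + 1 - 1 - b + min j b, Or.inr (Or.inr ⟨by omega, by omega⟩),
              (htop _ (by omega)).mpr hj⟩
        · rintro ⟨t, h1, h2⟩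
          have h3 := (htop t h2.1).mp h2
          rcases h1 with h1 | ⟨h1, h4⟩ | ⟨h1, h4⟩
          · left
            exact ⟨t, by rw [min_eq_left h1]; exact h3⟩
          · right; left
            refine ⟨t - s, ?_⟩
            rw [min_eq_left (by omega), show s + (t - s) = t by omega]
            exact h3
          · right; right
            refine ⟨t - (n - b), ?_⟩
            rw [min_eq_left (by omega), hl, show n + 1 - 1 - b + (t - (n - b)) = t by omega]
            exact h3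
      by_cases he : Et X H φ n a m b s w
      · rw [if_pos he, if_pos (hiff.mpr he)]
      · rw [if_neg he, if_neg (fun hc => he (hiff.mp hc))]
    · have h1 : ¬ InL (Dt H φ z) w := fun h => hH fun x hx => (h x hx).1
      have h2 : ¬ Et X H φ n a m b s w := fun h => hH h.1
      unfold dmF
      rw [if_neg h1, if_neg h2]
  · intro z' _ hne
    by_contra hcon
    apply hne
    have hin : InL (Dt H φ z') w := dmF_D s w hcon
    unfold dmF at hcon
    rw [if_pos hin] at hcon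
    unfold obF Pt at hcon
    rw [inL_vx hw Z] at hin
    by_cases hv : ∀ i, (∃ j, vx X w (min j a) = z' i) ∨ (∃ j, vx X w (s + min j m) = z' i) ∨
        (∃ j, vx X w (w.length - 1 - b + min j b) = z' i)
    · funext i
      have hvis : ∃ t, t ≤ n ∧ vx X w t = z' i := by
        rcases hv i with ⟨j, hj⟩ | ⟨j, hj⟩ | ⟨j, hj⟩
        · exact ⟨min j a, by omega, hj⟩
        · exact ⟨s + min j m, by omega, hj⟩
        · rw [hl] at hj
          exact ⟨n + 1 - 1 - b + min j b, by omega, hj⟩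
      obtain ⟨t, ht, ht2⟩ := hvis
      apply hφ i
      apply le_antisymm
      · rw [← ht2, hz]
        exact hT2 i t ht
      · rw [hz]
        exact (hin (T i) (hT1 i)).2 i
    · rw [if_neg hv] at hcon
      exact absurd rfl hcon
  · intro h
    exact absurd hzmem h

/-- the weighted number of walks -/
def GG {α : Type} [LinearOrder α] {k : ℕ} (X : Geo Ver) (A : Ver → Ver → Prop) (H : Set Ver)
    (φ : Fin k → Ver → α) (a m b : ℕ) (Ψ : (ℕ → Ver) → (ℕ → Ver) → (ℕ → Ver) → ℝ) (n s : ℕ) : ℝ :=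
  ∑ w ∈ Kw X A n, if Et X H φ n a m b s w then obF X a m b Ψ s w else 0

theorem GG_eq {α : Type} [LinearOrder α] (hs2 : Z.s = 2) {k : ℕ} (H : Set Ver)
    (φ : Fin k → Ver → α)
    (hφ : ∀ i, Function.Injective (φ i)) {n a m b s : ℕ} (ha : a ≤ n) (hs : s + m ≤ n) (hb : b ≤ n)
    (Ψ : (ℕ → Ver) → (ℕ → Ver) → (ℕ → Ver) → ℝ) :
    GG X A H φ a m b Ψ n s =
      ∑ z ∈ Zt X n k, aa (sy Z hs2) (dmF X (Dt H φ z) a m b (Pt Ψ z)) n s := by
  unfold GG aa
  rw [Finset.sum_comm]
  exact Finset.sum_congr rfl fun w hw => (sum_t Z H φ hφ ha hs hb Ψ hw).symm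

/-- the `r`-th difference -/
def df (r : ℕ) (f : ℕ → ℝ) : ℝ := ∑ i ∈ range (r + 1), (-1 : ℝ) ^ i * (r.choose i : ℝ) * f i

theorem df_const (r : ℕ) (hr : 1 ≤ r) (f : ℕ → ℝ) (c : ℝ) : df r (fun i => f i + c) = df r f := by
  unfold df
  have h1 : ∑ i ∈ range (r + 1), (-1 : ℝ) ^ i * (r.choose i : ℝ) * c = 0 := by
    rw [← Finset.sum_mul]
    have h2 := Int.alternating_sum_range_choose_of_ne (n := r) (by omega)
    have h3 : ∑ i ∈ range (r + 1), (-1 : ℝ) ^ i * (r.choose i : ℝ) = 0 := by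
      exact_mod_cast h2
    rw [h3, zero_mul]
  have h4 : ∑ i ∈ range (r + 1), (-1 : ℝ) ^ i * (r.choose i : ℝ) * (f i + c) =
      ∑ i ∈ range (r + 1), (-1 : ℝ) ^ i * (r.choose i : ℝ) * f i +
      ∑ i ∈ range (r + 1), (-1 : ℝ) ^ i * (r.choose i : ℝ) * c := by
    rw [← Finset.sum_add_distrib]
    exact Finset.sum_congr rfl fun i _ => by ring
  rw [h4, h1, add_zero]

/-- the general result: `M i` are the weighted numbers divided by a constant -/
theorem engTop (hs2 : Z.s = 2) (t : Tra Z) {e : ℕ} (he : Exc Z e) {μ : ℝ} {ψ : ℕ → ℝ}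
    (G : Grw Z μ ψ) {d : ℝ} (hd0 : 0 ≤ d)
    (hd : ∀ n : ℕ, 2 ≤ n → (X.g n : ℝ) ≤ Real.exp (d * Real.log n)) (k r : ℕ) (hr : 1 ≤ r) :
    ∃ C : ℝ, 0 < C ∧ ∀ (α : Type) (_ : LinearOrder α)
    (H : Set Ver) (φ : Fin k → Ver → α), (∀ i, Function.Injective (φ i)) →
    ((∀ U U', Z.T U U' → ∀ x ∈ U, x ∈ U') ∨ (k = 0 ∧ H = Set.univ)) →
    ∀ (n a m b s g : ℕ) (Ψ : (ℕ → Ver) → (ℕ → Ver) → (ℕ → Ver) → ℝ) (Λ h : ℝ) (M : ℕ → ℝ),
    2 ≤ n → (∀ x y z, 0 ≤ Ψ x y z ∧ Ψ x y z ≤ 1) → Real.log n ≤ Λ → 0 < h →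
    ((Kw X A n).card : ℝ) ≤ Real.exp Λ * h → Real.exp (-Λ) ≤ M 0 →
    (∀ i, i ≤ r → M i = GG X A H φ a m b Ψ n (s + 2 * i) / h) →
    a + g ≤ s → s + m + g + b ≤ n → C * (ψ n + Λ) ≤ g →
    2 * r ≤ g ∧ (∀ i, i ≤ r → 0 < M i) ∧
    |df r (fun i => Real.log (M i))| ≤ C * Real.sqrt (Λ / g) ^ r := by
  have hψ0 : ∀ n : ℕ, 2 ≤ n → 0 ≤ ψ n := by
    intro n hn
    refine le_trans ?_ (G.log n hn)
    exact Real.log_natCast_nonneg n
  have hcp : ∀ n, (0 : ℝ) < (((sy Z hs2).W n).card : ℝ) := fun n =>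
    lt_of_lt_of_le (pow_pos (lt_of_lt_of_le one_pos G.one) n) (G.low n)
  obtain ⟨C, hC, he⟩ := engZ hψ0 (famw hs2 t he G) hcp r hr
  obtain ⟨κ, hκ⟩ : ∃ κ : ℝ, κ = d * k + 2 := ⟨_, rfl⟩
  have hk0 : (0 : ℝ) ≤ k := Nat.cast_nonneg k
  have hdk : 0 ≤ d * k := mul_nonneg hd0 hk0
  have hκ1 : 1 ≤ κ := by rw [hκ]; linarith
  refine ⟨C * κ + C * Real.sqrt κ ^ r + 4 * r + 1, by positivity,
    fun α _ H φ hφ hDom n a m b s g Ψ Λ h M hn hΨ hΛ hh hcn hM0 hM has hsn hg => ?_⟩
  have hc : (0 : ℝ) < ((Kw X A n).card : ℝ) := hcp n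
  have hn' : (2 : ℝ) ≤ n := by exact_mod_cast hn
  have hlog0 : (0.69 : ℝ) ≤ Real.log n := by
    have h1 : Real.log 2 ≤ Real.log n := Real.log_le_log (by norm_num) hn'
    have := Real.log_two_gt_d9
    linarith
  have hψl := G.log n hn
  have hr0 : (0 : ℝ) ≤ r := Nat.cast_nonneg r
  have hy0 : 1 ≤ ψ n + Λ := by linarith
  have hψn : 0 ≤ ψ n := hψ0 n hn
  have hCs : 0 ≤ C * Real.sqrt κ ^ r := by positivity
  have hCκ : 0 ≤ C * κ := by positivity
  have hg1 : C * (ψ n + κ * Λ) ≤ g := by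
    refine le_trans ?_ hg
    have e1 : ψ n ≤ κ * ψ n := le_mul_of_one_le_left hψn hκ1
    calc C * (ψ n + κ * Λ) ≤ C * (κ * ψ n + κ * Λ) :=
          mul_le_mul_of_nonneg_left (by linarith) hC.le
      _ = C * κ * (ψ n + Λ) := by ring
      _ ≤ _ := mul_le_mul_of_nonneg_right (by linarith) (by linarith)
  have hg2 : 2 * r ≤ g := by
    have h1 : 2 * (r : ℝ) * 1 ≤ 2 * (r : ℝ) * (ψ n + Λ) :=
      mul_le_mul_of_nonneg_left hy0 (by positivity)
    have h2 : 2 * (r : ℝ) * (ψ n + Λ) ≤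
        (C * κ + C * Real.sqrt κ ^ r + 4 * r + 1) * (ψ n + Λ) :=
      mul_le_mul_of_nonneg_right (by linarith) (by linarith)
    have h3 : 2 * (r : ℝ) ≤ g := by linarith
    exact_mod_cast h3
  have hP : ∀ (z : Fin k → Ver) (x y u : ℕ → Ver), 0 ≤ Pt Ψ z x y u ∧ Pt Ψ z x y u ≤ 1 := by
    intro z x y u
    unfold Pt
    split_ifs
    · exact hΨ _ _ _
    · exact ⟨le_rfl, zero_le_one⟩
  have ei : ∀ i, i ≤ r → ∑ z ∈ Zt X n k, aa (sy Z hs2)
      (dmF X (Dt H φ z) a m b (Pt Ψ z)) n (s + 2 * i) = M i * h := by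
    intro i hi
    rw [← GG_eq hs2 H φ hφ (by omega) (by omega) (by omega), hM i hi]
    field_simp
  have e0 : ∑ z ∈ Zt X n k, aa (sy Z hs2) (dmF X (Dt H φ z) a m b (Pt Ψ z)) n s = M 0 * h :=
    ei 0 (by omega)
  have hDD : ∀ z ∈ Zt X n k, Dd Z (RD (Dt H φ z)) (InL (Dt H φ z)) := by
    intro z _
    rcases hDom with hU | ⟨h0, hH⟩
    · exact dd_dom hU _
    · have : Dt H φ z = Set.univ := by
        subst h0
        rw [hH]
        ext v
        simp [Dt]
      rw [this]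
      exact dd_univ
  have h1 := he (Fin k → Ver) (Zt X n k) (fun z => RD (Dt H φ z)) (fun z => InL (Dt H φ z))
    (fun z => dmF X (Dt H φ z) a m b (Pt Ψ z))
    a m b n s g (κ * Λ) hn (fun z _ => dmF_01 (hP z)) (fun z _ => dmF_D) hDD
    (fun z _ => mk_dm hs2 _ _ _ _ _) (by
      have := le_mul_of_one_le_left (show 0 ≤ Λ by linarith) hκ1
      linarith)
    (by
      rw [e0]
      calc ((Zt X n k).card : ℝ) * ((Kw X A n).card : ℝ)
          ≤ Real.exp (d * k * Real.log n) * ((Kw X A n).card : ℝ) :=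
            mul_le_mul_of_nonneg_right (Zt_card hd hn) hc.le
        _ ≤ Real.exp (d * k * Λ) * (Real.exp Λ * h) :=
            mul_le_mul (Real.exp_le_exp.mpr (mul_le_mul_of_nonneg_left hΛ hdk)) hcn
              hc.le (Real.exp_pos _).le
        _ = Real.exp (κ * Λ) * (Real.exp (-Λ) * h) := by
            rw [← mul_assoc, ← mul_assoc, ← Real.exp_add, ← Real.exp_add]
            congr 2
            rw [hκ]
            ring
        _ ≤ Real.exp (κ * Λ) * (M 0 * h) :=
            mul_le_mul_of_nonneg_left (mul_le_mul_of_nonneg_right hM0 hh.le)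
              (Real.exp_pos _).le) hg1 has hsn
  obtain ⟨h2, h3⟩ := h1
  have hM0' : 0 < M 0 := lt_of_lt_of_le (Real.exp_pos _) hM0
  have hpos : ∀ i, i ≤ r → 0 < M i := by
    intro i hi
    have := (h2 i hi).1
    rw [e0, ei i hi] at this
    have h5 : 0 < M i * h := lt_of_lt_of_le (by positivity) this
    exact pos_of_mul_pos_left h5 hh.le
  refine ⟨hg2, hpos, ?_⟩
  have e1 : df r (fun i => Real.log (M i)) =
      df r (fun i => Real.log (∑ z ∈ Zt X n k, aa (sy Z hs2)
        (dmF X (Dt H φ z) a m b (Pt Ψ z)) n (s + 2 * i))) := by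
    rw [← df_const r hr (fun i => Real.log (M i)) (Real.log h)]
    unfold df
    refine Finset.sum_congr rfl fun i hi => ?_
    rw [Finset.mem_range] at hi
    simp only
    rw [ei i (by omega), Real.log_mul (hpos i (by omega)).ne' hh.ne']
  rw [e1]
  refine le_trans h3 ?_
  have e5 : Real.sqrt (κ * Λ / g) = Real.sqrt κ * Real.sqrt (Λ / g) := by
    rw [← Real.sqrt_mul (by linarith)]
    congr 1
    ring
  rw [e5, mul_pow, ← mul_assoc]
  refine mul_le_mul_of_nonneg_right ?_ (by positivity)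
  linarith

end

end Pool.Agent.U954.GE
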